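import Mathlib

/-!
# Hypersurfaces of Euclidean space, curvature in coordinates, intrinsic volumes
-/

set_option autoImplicit false

open MeasureTheory Metric Set Filter Topology Matrix
open scoped ENNReal NNReal ContDiff

namespace Pool.Agent.H422IV

/-- Euclidean space `ℝⁿ`. -/
abbrev E (n : ℕ) := EuclideanSpace ℝ (Fin n)

/-- `ℝ × ℝⁿ` with the Euclidean norm. -/
abbrev F (n : ℕ) := WithLp 2 (ℝ × E n)

variable {n : ℕ}

/-- The `i`-th partial derivative of `f` at `x`. -/
noncomputable def pd (i : Fin n) (f : E n → ℝ) (x : E n) : ℝ :=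
  fderiv ℝ f x (EuclideanSpace.single i 1)

/-- A field of `n × n` matrices on `ℝⁿ`: the components `g_ij(x)` of a metric. -/
abbrev MetricField (n : ℕ) := E n → Matrix (Fin n) (Fin n) ℝ

/-- The inverse metric `g^{ij}`. -/
noncomputable def ginv (g : MetricField n) (x : E n) : Matrix (Fin n) (Fin n) ℝ := (g x)⁻¹

/-- Christoffel symbols of the first kind,
`Γ_{m,ij} = (∂_i g_mj + ∂_j g_mi - ∂_m g_ij) / 2`. -/
noncomputable def Gam (g : MetricField n) (x : E n) (m i j : Fin n) : ℝ :=
  (pd i (fun z => g z m j) x + pd j (fun z => g z m i) x - pd m (fun z => g z i j) x) / 2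

/-- The Riemann curvature tensor `R_ijkl` (all indices down), with the convention that
`R_ijij` is the sectional curvature of an orthonormal pair:
`R_ijkl = (∂_j∂_k g_il + ∂_i∂_l g_jk - ∂_i∂_k g_jl - ∂_j∂_l g_ik) / 2
  + g^{pq} (Γ_{p,jk} Γ_{q,il} - Γ_{p,ik} Γ_{q,jl})`. -/
noncomputable def Rm (g : MetricField n) (x : E n) (i j k l : Fin n) : ℝ :=
  (pd j (pd k (fun z => g z i l)) x + pd i (pd l (fun z => g z j k)) x
    - pd i (pd k (fun z => g z j l)) x - pd j (pd l (fun z => g z i k)) x) / 2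
  + ∑ p, ∑ q, ginv g x p q *
      (Gam g x p j k * Gam g x q i l - Gam g x p i k * Gam g x q j l)

/-- All sectional curvatures of the metric `g` at the point `x` are at least `κ`:
`κ (g(v,v) g(w,w) - g(v,w)²) ≤ R(v,w,v,w)` for all tangent vectors `v`, `w` at `x`. -/
def SecGE (g : MetricField n) (κ : ℝ) (x : E n) : Prop :=
  ∀ v w : Fin n → ℝ,
    κ * ((v ⬝ᵥ g x *ᵥ v) * (w ⬝ᵥ g x *ᵥ w) - (v ⬝ᵥ g x *ᵥ w) ^ 2) ≤
      ∑ i, ∑ j, ∑ k, ∑ l, Rm g x i j k l * (v i * w j * v k * w l)

/-- The Riemannian metric induced on the graph of `u`, in the coordinates given by the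
projection of the graph to `ℝⁿ`: `g_ij = δ_ij + ∂_i u ∂_j u`. -/
noncomputable def graphMetric (u : E n → ℝ) : MetricField n := fun x =>
  Matrix.of fun i j => (1 : Matrix (Fin n) (Fin n) ℝ) i j + pd i u x * pd j u x

/-- Euclidean coordinate systems of `ℝ^{n+1}`: linear isometries onto `ℝ × ℝⁿ`. -/
abbrev Frame (n : ℕ) := E (n + 1) ≃ₗᵢ[ℝ] F n

/-- The first component `s` of the Euclidean coordinates `(s, y) = Q (x - p)` of `x`. -/
noncomputable def hgt (Q : Frame n) (p x : E (n + 1)) : ℝ := (Q (x - p)).fst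

/-- The second component `y` of the Euclidean coordinates `(s, y) = Q (x - p)` of `x`. -/
noncomputable def hor (Q : Frame n) (p x : E (n + 1)) : E n := (Q (x - p)).snd

/-- `u` is smooth on the open ball of radius `r` centred at `0`. -/
def SmoothOnBall (u : E n → ℝ) (r : ℝ) : Prop := ContDiffOn ℝ ∞ u (ball 0 r)

/-- The Euclidean norm of the gradient of `u` at `y`. -/
noncomputable def gradNorm (u : E n → ℝ) (y : E n) : ℝ := ‖fderiv ℝ u y‖

/-- In the Euclidean coordinates `(s, y) = Q (x - p)` of `ℝ^{n+1}`, centred at `p`, the set `M`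
is, inside the cylinder `|y| < r`, `|s| < (Λ + 1) r`, the graph `s = u(y)` of a smooth function
`u` on the ball `|y| < r` whose gradient has norm at most `Λ`. -/
structure GraphChart (M : Set (E (n + 1))) (r Λ : ℝ) (p : E (n + 1)) (Q : Frame n)
    (u : E n → ℝ) : Prop where
  smooth : SmoothOnBall u r
  lip : ∀ y : E n, ‖y‖ < r → gradNorm u y ≤ Λ
  graph : ∀ x : E (n + 1), ‖hor Q p x‖ < r → |hgt Q p x| < (Λ + 1) * r →
    (x ∈ M ↔ hgt Q p x = u (hor Q p x))

/-- `M` is a compact smooth hypersurface of `ℝ^{n+1}` of diameter at most `D` which is, near each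
of its points `p`, the graph of a function with Lipschitz constant `Λ` on a ball of radius
`r`, and whose sectional curvatures are all at least `κ`. -/
structure LipHypersurface (D κ r Λ : ℝ) (M : Set (E (n + 1))) : Prop where
  compact : IsCompact M
  diam : ∀ x ∈ M, ∀ y ∈ M, dist x y ≤ D
  chart : ∀ p ∈ M, ∃ (Q : Frame n) (u : E n → ℝ), GraphChart M r Λ p Q u ∧
    ∀ y : E n, ‖y‖ < r → SecGE (graphMetric u) κ y

/-- The volume of the unit ball of `ℝʲ`. -/
noncomputable def omega (j : ℕ) : ℝ := (volume (ball (0 : E j) 1)).toReal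

/-- `V 0, …, V n` are the intrinsic volumes of the compact set `M ⊆ ℝ^{n+1}` in the sense of
Weyl's tube formula: for all small `ε > 0` the volume of the `ε`-neighbourhood of `M` is
`∑_{i=0}^n ω_{n+1-i} ε^{n+1-i} V_i`. -/
def TubeFormula (M : Set (E (n + 1))) (V : ℕ → ℝ) : Prop :=
  ∃ ε₀ : ℝ, 0 < ε₀ ∧ ∀ ε : ℝ, 0 < ε → ε < ε₀ →
    (volume (thickening ε M)).toReal =
      ∑ i ∈ Finset.range (n + 1), omega (n + 1 - i) * ε ^ (n + 1 - i) * V i

end Pool.Agent.H422IV
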