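import Mathlib

/-!
# Elementary symmetric functions and Newton transformations of a matrix

`sig A m` is the coefficient of `X ^ m` in `det (1 + X A)`, and `NT A m` (a matrix) is the
coefficient of `X ^ m` in the adjugate of `1 + X A`.
-/

set_option autoImplicit false
set_option linter.unusedSectionVars false

open Matrix Finset Polynomial

namespace Pool.Agent.H422IV

section alg

variable {R : Type} [CommRing R] {ι : Type} [Fintype ι] [DecidableEq ι]

/-- the matrix `1 + X A` of polynomials -/
noncomputable def gen (A : Matrix ι ι R) : Matrix ι ι R[X] := 1 + (X : R[X]) • A.map C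

/-- the `m`-th elementary symmetric function of the matrix `A` -/
noncomputable def sig (A : Matrix ι ι R) (m : ℕ) : R := (gen A).det.coeff m

/-- the `m`-th Newton transformation of the matrix `A` -/
noncomputable def NT (A : Matrix ι ι R) (m : ℕ) : Matrix ι ι R :=
  Matrix.of fun i j => ((gen A).adjugate i j).coeff m

lemma NT_apply (A : Matrix ι ι R) (m : ℕ) (i j : ι) :
    NT A m i j = ((gen A).adjugate i j).coeff m := rfl

lemma gen_apply (A : Matrix ι ι R) (i j : ι) :
    gen A i j = (1 : Matrix ι ι R[X]) i j + X * C (A i j) := rfl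

lemma coeff_gen_mul_succ (A : Matrix ι ι R) (B : Matrix ι ι R[X]) (m : ℕ) (i j : ι) :
    ((gen A * B) i j).coeff (m + 1) = (B i j).coeff (m + 1) + ∑ k, A i k * (B k j).coeff m := by
  unfold gen
  rw [Matrix.add_mul, Matrix.one_mul, Matrix.add_apply, coeff_add, Matrix.smul_mul,
    Matrix.smul_apply, smul_eq_mul, coeff_X_mul, Matrix.mul_apply, finsetSum_coeff]
  congr 1
  refine sum_congr rfl fun k _ => ?_
  rw [Matrix.map_apply, coeff_C_mul]

lemma coeff_gen_mul_zero (A : Matrix ι ι R) (B : Matrix ι ι R[X]) (i j : ι) :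
    ((gen A * B) i j).coeff 0 = (B i j).coeff 0 := by
  unfold gen
  rw [Matrix.add_mul, Matrix.one_mul, Matrix.add_apply, coeff_add, Matrix.smul_mul,
    Matrix.smul_apply, smul_eq_mul, mul_coeff_zero, coeff_X_zero, zero_mul, add_zero]

lemma coeff_mul_gen_succ (A : Matrix ι ι R) (B : Matrix ι ι R[X]) (m : ℕ) (i j : ι) :
    ((B * gen A) i j).coeff (m + 1) = (B i j).coeff (m + 1) + ∑ k, (B i k).coeff m * A k j := by
  unfold gen
  rw [Matrix.mul_add, Matrix.mul_one, Matrix.add_apply, coeff_add, Matrix.mul_smul,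
    Matrix.smul_apply, smul_eq_mul, coeff_X_mul, Matrix.mul_apply, finsetSum_coeff]
  congr 1
  refine sum_congr rfl fun k _ => ?_
  rw [Matrix.map_apply, coeff_mul_C]

lemma coeff_det_one (P : R[X]) (m : ℕ) (i j : ι) :
    ((P • (1 : Matrix ι ι R[X])) i j).coeff m = P.coeff m * (1 : Matrix ι ι R) i j := by
  rw [Matrix.smul_apply, smul_eq_mul, Matrix.one_apply, Matrix.one_apply]
  split_ifs <;> simp

lemma sig_zero (A : Matrix ι ι R) : sig A 0 = 1 := by
  unfold sig
  rw [coeff_zero_eq_eval_zero, ← coe_evalRingHom, RingHom.map_det]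
  have : (evalRingHom (0 : R)).mapMatrix (gen A) = 1 := by
    ext i j
    rw [RingHom.mapMatrix_apply, Matrix.map_apply, gen_apply]
    rcases eq_or_ne i j with h | h
    · subst h; simp
    · simp [Matrix.one_apply_ne h]
  rw [this, det_one]

lemma NT_zero (A : Matrix ι ι R) : NT A 0 = 1 := by
  ext i j
  have h := congrFun (congrFun (mul_adjugate (gen A)) i) j
  have h2 := congrArg (fun p => coeff p 0) h
  simp only [coeff_gen_mul_zero, coeff_det_one] at h2
  rw [NT_apply, h2]
  have : (gen A).det.coeff 0 = 1 := sig_zero A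
  rw [this, one_mul]

/-- the recursion `T_{m+1} = σ_{m+1} - A T_m` -/
lemma NT_succ (A : Matrix ι ι R) (m : ℕ) :
    NT A (m + 1) = sig A (m + 1) • (1 : Matrix ι ι R) - A * NT A m := by
  ext i j
  have h := congrFun (congrFun (mul_adjugate (gen A)) i) j
  have h2 := congrArg (fun p => coeff p (m + 1)) h
  simp only [coeff_gen_mul_succ, coeff_det_one] at h2
  rw [Matrix.sub_apply, Matrix.smul_apply, smul_eq_mul, Matrix.mul_apply, NT_apply]
  rw [eq_sub_iff_add_eq]
  exact h2

/-- the recursion `T_{m+1} = σ_{m+1} - T_m A` -/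
lemma NT_succ' (A : Matrix ι ι R) (m : ℕ) :
    NT A (m + 1) = sig A (m + 1) • (1 : Matrix ι ι R) - NT A m * A := by
  ext i j
  have h := congrFun (congrFun (adjugate_mul (gen A)) i) j
  have h2 := congrArg (fun p => coeff p (m + 1)) h
  simp only [coeff_mul_gen_succ, coeff_det_one] at h2
  rw [Matrix.sub_apply, Matrix.smul_apply, smul_eq_mul, Matrix.mul_apply, NT_apply]
  rw [eq_sub_iff_add_eq]
  exact h2

lemma NT_comm (A : Matrix ι ι R) (m : ℕ) : A * NT A m = NT A m * A := by
  have h1 := NT_succ A m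
  have h2 := NT_succ' A m
  rw [h1] at h2
  exact sub_right_injective h2

lemma gen_transpose (A : Matrix ι ι R) : (gen A)ᵀ = gen Aᵀ := by
  unfold gen
  rw [transpose_add, transpose_one, transpose_smul]
  rfl

lemma NT_symm (A : Matrix ι ι R) (hA : Aᵀ = A) (m : ℕ) (i j : ι) : NT A m i j = NT A m j i := by
  rw [NT_apply, NT_apply]
  congr 1
  have : (gen A).adjugateᵀ = (gen A).adjugate := by
    rw [adjugate_transpose, gen_transpose, hA]
  exact congrFun (congrFun this.symm i) j

lemma map_gen {S : Type} [CommRing S] (f : R →+* S) (A : Matrix ι ι R) :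
    gen (A.map f) = (gen A).map (Polynomial.mapRingHom f) := by
  ext1 i j
  rw [Matrix.map_apply, gen_apply, gen_apply, Matrix.map_apply, map_add, map_mul]
  simp [Matrix.one_apply, apply_ite]

lemma map_sig {S : Type} [CommRing S] (f : R →+* S) (A : Matrix ι ι R) (m : ℕ) :
    sig (A.map f) m = f (sig A m) := by
  unfold sig
  rw [map_gen, ← RingHom.mapMatrix_apply, ← RingHom.map_det]
  simp

lemma map_NT {S : Type} [CommRing S] (f : R →+* S) (A : Matrix ι ι R) (m : ℕ) (i j : ι) :
    NT (A.map f) m i j = f (NT A m i j) := by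
  rw [NT_apply, NT_apply, map_gen, ← RingHom.mapMatrix_apply, ← RingHom.map_adjugate]
  simp

/-! ### Derivations -/

lemma deriv_prod (D : Derivation ℤ R R) {κ : Type} [DecidableEq κ] (s : Finset κ) (f : κ → R) :
    D (∏ i ∈ s, f i) = ∑ l ∈ s, D (f l) * ∏ i ∈ s.erase l, f i := by
  induction s using Finset.induction_on with
  | empty => simp
  | insert a s ha ih =>
    rw [prod_insert ha, D.leibniz, ih, sum_insert ha, erase_insert ha, smul_eq_mul, smul_eq_mul,
      add_comm, mul_comm (∏ i ∈ s, f i), mul_sum]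
    congr 1
    apply sum_congr rfl
    intro l hl
    have hla : l ≠ a := by rintro rfl; exact ha hl
    rw [erase_insert_of_ne hla.symm, prod_insert (by
      intro h; exact ha (mem_of_mem_erase h))]
    ring

lemma deriv_det (D : Derivation ℤ R R) (M : Matrix ι ι R) :
    D M.det = ∑ l, (M.updateRow l (fun k => D (M l k))).det := by
  rw [← det_transpose, det_apply]
  have h1 : ∀ l, (M.updateRow l (fun k => D (M l k))).det =
      ∑ σ : Equiv.Perm ι, Equiv.Perm.sign σ • (D (M l (σ l)) * ∏ i ∈ univ.erase l, M i (σ i)) := by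
    intro l
    rw [← det_transpose, det_apply]
    apply sum_congr rfl
    intro σ _
    congr 1
    simp only [transpose_apply]
    rw [← mul_prod_erase univ _ (mem_univ l), updateRow_self]
    congr 1
    apply prod_congr rfl
    intro i hi
    rw [updateRow_ne (ne_of_mem_erase hi)]
  simp_rw [h1]
  rw [sum_comm, map_sum]
  apply sum_congr rfl
  intro σ _
  rw [← smul_sum]
  have h2 : D (Equiv.Perm.sign σ • ∏ i, Mᵀ (σ i) i) = Equiv.Perm.sign σ • D (∏ i, Mᵀ (σ i) i) := by
    rcases Int.units_eq_one_or (Equiv.Perm.sign σ) with h | h <;> simp [h]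
  rw [h2, deriv_prod]
  rfl

/-- derivative of the determinant, with the adjugate -/
lemma deriv_det_adj (D : Derivation ℤ R R) (M : Matrix ι ι R) :
    D M.det = ∑ j, ∑ k, M.adjugate k j * D (M j k) := by
  rw [deriv_det]
  apply sum_congr rfl
  intro j _
  rw [← cramer_transpose_apply, cramer_eq_adjugate_mulVec, ← adjugate_transpose]
  rfl

/-- extension of a derivation to polynomials, acting on the coefficients -/
noncomputable def polyD (D : Derivation ℤ R R) : Derivation ℤ R[X] R[X] :=
  (PolynomialModule.equivPolynomialSelf (R := R)).toLinearMap.compDer D.mapCoeffs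

lemma coeff_polyD (D : Derivation ℤ R R) (p : R[X]) (m : ℕ) :
    (polyD D p).coeff m = D (p.coeff m) := rfl

lemma polyD_gen (D : Derivation ℤ R R) (A : Matrix ι ι R) (i j : ι) :
    polyD D (gen A i j) = X * C (D (A i j)) := by
  ext m
  rw [coeff_polyD, gen_apply, coeff_add]
  cases m with
  | zero =>
    rw [mul_coeff_zero, mul_coeff_zero, coeff_X_zero, zero_mul, zero_mul, add_zero, Matrix.one_apply]
    split_ifs <;> simp
  | succ m =>
    rw [coeff_X_mul, coeff_X_mul, coeff_C, coeff_C, Matrix.one_apply]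
    have h1 : (if i = j then (1 : R[X]) else 0).coeff (m + 1) = 0 := by
      split_ifs
      · rw [coeff_one, if_neg (Nat.succ_ne_zero m)]
      · rw [coeff_zero]
    rw [h1, zero_add]
    split_ifs <;> simp

/-- derivative of the elementary symmetric functions of a matrix -/
lemma deriv_sig (D : Derivation ℤ R R) (A : Matrix ι ι R) (m : ℕ) :
    D (sig A (m + 1)) = ∑ j, ∑ k, NT A m k j * D (A j k) := by
  have h := deriv_det_adj (polyD D) (gen A)
  have h2 := congrArg (fun p => coeff p (m + 1)) h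
  have h3 : D (sig A (m + 1)) = ((polyD D) (gen A).det).coeff (m + 1) := rfl
  rw [h3]
  refine h2.trans ?_
  rw [finsetSum_coeff]
  refine sum_congr rfl fun j _ => ?_
  rw [finsetSum_coeff]
  refine sum_congr rfl fun k _ => ?_
  have hg : (polyD D) (gen A j k) = X * C (D (A j k)) := polyD_gen D A j k
  have h4 : ((gen A).adjugate k j * (X * C (D (A j k)))).coeff (m + 1) =
      NT A m k j * D (A j k) := by
    rw [← mul_assoc, coeff_mul_C, coeff_mul_X]
    rfl
  exact (congrArg (fun q => ((gen A).adjugate k j * q).coeff (m + 1)) hg).trans h4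

/-- Euler's relation `(m+1) σ_{m+1} = tr (T_m A)` -/
lemma sig_euler (A : Matrix ι ι R) (m : ℕ) :
    ((m : R) + 1) * sig A (m + 1) = ∑ j, ∑ k, NT A m k j * A j k := by
  have h := deriv_det_adj ((derivative' (R := R)).restrictScalars ℤ) (gen A)
  have h2 : (derivative (gen A).det).coeff m =
      (∑ j, ∑ k, (gen A).adjugate k j * derivative (gen A j k)).coeff m :=
    congrArg (fun p => coeff p m) h
  rw [coeff_derivative] at h2
  rw [mul_comm]
  change (gen A).det.coeff (m + 1) * _ = _
  rw [h2, finsetSum_coeff]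
  refine sum_congr rfl fun j _ => ?_
  rw [finsetSum_coeff]
  refine sum_congr rfl fun k _ => ?_
  have h3 : derivative (gen A j k) = C (A j k) := by
    rw [gen_apply, derivative_add, derivative_mul, derivative_X, one_mul, derivative_C, mul_zero,
      add_zero, Matrix.one_apply]
    split_ifs <;> simp
  rw [h3, coeff_mul_C]
  rfl

lemma trace_NT (A : Matrix ι ι R) (m : ℕ) :
    (NT A m).trace = ((Fintype.card ι : R) - m) * sig A m := by
  cases m with
  | zero => simp [NT_zero, sig_zero]
  | succ m =>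
    rw [NT_succ, trace_sub, trace_smul, trace_one, smul_eq_mul, Matrix.trace_mul_comm]
    have h := sig_euler A m
    have h2 : (NT A m * A).trace = ((m : R) + 1) * sig A (m + 1) := by
      rw [h, Matrix.trace, sum_comm]
      refine sum_congr rfl fun j _ => ?_
      rw [Matrix.diag_apply, Matrix.mul_apply]
    rw [h2]
    push_cast
    ring

end alg

/-! ### Hessian matrices -/

section hess

variable {R : Type} [CommRing R] {n : ℕ} (D : Fin n → Derivation ℤ R R)

/-- the Newton transformations of a symmetric closed matrix are divergence free -/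
lemma div_NT (A : Matrix (Fin n) (Fin n) R) (hclosed : ∀ i j k, D i (A j k) = D j (A i k)) (m : ℕ)
    (hsymm : ∀ i j, A i j = A j i)
    (j : Fin n) : ∑ i, D i (NT A m i j) = 0 := by
  induction m generalizing j with
  | zero =>
    rw [NT_zero]
    refine sum_eq_zero fun i _ => ?_
    rw [Matrix.one_apply]
    split_ifs <;> simp
  | succ m ih =>
    have h1 : ∀ i, D i (NT A (m + 1) i j) = (if i = j then D j (sig A (m + 1)) else 0)
        - ∑ k, (NT A m i k * D i (A k j) + A k j * D i (NT A m i k)) := by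
      intro i
      rw [NT_succ', Matrix.sub_apply, map_sub, Matrix.smul_apply, Matrix.mul_apply, map_sum,
        smul_eq_mul, Matrix.one_apply]
      congr 1
      · split_ifs with h
        · rw [h, mul_one]
        · rw [mul_zero, map_zero]
      · refine sum_congr rfl fun k _ => ?_
        rw [Derivation.leibniz, smul_eq_mul, smul_eq_mul]
    rw [sum_congr rfl fun i _ => h1 i, sum_sub_distrib, sum_ite_eq' univ j, if_pos (mem_univ j),
      deriv_sig]
    have h2 : ∑ i, ∑ k, (NT A m i k * D i (A k j) + A k j * D i (NT A m i k)) =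
        ∑ i, ∑ k, NT A m i k * D i (A k j) := by
      simp_rw [sum_add_distrib]
      rw [add_eq_left, sum_comm]
      refine sum_eq_zero fun k _ => ?_
      rw [← mul_sum, ih k, mul_zero]
    rw [h2, sub_eq_zero, sum_comm]
    refine sum_congr rfl fun i _ => sum_congr rfl fun k _ => ?_
    rw [hclosed j k i, hsymm j i, hclosed k i j, hsymm k j]

/-- the gradient -/
def gr (f : R) : Fin n → R := fun i => D i f

/-- the Hessian matrix -/
def hs (f : R) : Matrix (Fin n) (Fin n) R := Matrix.of fun i j => D i (D j f)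

lemma hs_apply (f : R) (i j : Fin n) : hs D f i j = D i (D j f) := rfl

variable (hcomm : ∀ i j f, D i (D j f) = D j (D i f))

include hcomm in
lemma hs_symm (f : R) (i j : Fin n) : hs D f i j = hs D f j i := hcomm i j f

include hcomm in
lemma hs_closed (f : R) (i j k : Fin n) : D i (hs D f j k) = D j (hs D f i k) := hcomm i j _

/-- the divergence -/
def dv (Y : Fin n → R) : R := ∑ i, D i (Y i)

lemma dv_add (Y Z : Fin n → R) : dv D (Y + Z) = dv D Y + dv D Z := by
  unfold dv; simp [sum_add_distrib]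

lemma dv_smul (f : R) (Y : Fin n → R) : dv D (f • Y) = f * dv D Y + gr D f ⬝ᵥ Y := by
  unfold dv gr dotProduct
  rw [mul_sum, ← sum_add_distrib]
  refine sum_congr rfl fun i _ => ?_
  rw [Pi.smul_apply, smul_eq_mul, Derivation.leibniz, smul_eq_mul, smul_eq_mul]
  ring

include hcomm in
lemma dv_NT (f : R) (m : ℕ) (b : Fin n → R) :
    dv D (NT (hs D f) m *ᵥ b) = ∑ i, ∑ j, NT (hs D f) m i j * D i (b j) := by
  unfold dv
  have h : ∀ i, D i ((NT (hs D f) m *ᵥ b) i) =
      (∑ j, NT (hs D f) m i j * D i (b j)) + ∑ j, b j * D i (NT (hs D f) m i j) := by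
    intro i
    rw [mulVec, dotProduct, map_sum, ← sum_add_distrib]
    refine sum_congr rfl fun j _ => ?_
    rw [Derivation.leibniz, smul_eq_mul, smul_eq_mul]
  rw [sum_congr rfl fun i _ => h i, sum_add_distrib, add_eq_left, sum_comm]
  refine sum_eq_zero fun j _ => ?_
  rw [← mul_sum, div_NT D (hs D f) (hs_closed D hcomm f) m (hs_symm D hcomm f) j, mul_zero]

include hcomm in
lemma NT_hs_symm (f : R) (m : ℕ) : (NT (hs D f) m)ᵀ = NT (hs D f) m := by
  ext i j
  rw [transpose_apply]
  refine NT_symm _ ?_ m j i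
  ext a b
  exact hs_symm D hcomm f b a

include hcomm in
lemma hs_transpose (f : R) : (hs D f)ᵀ = hs D f := by
  ext a b
  exact hs_symm D hcomm f b a

include hcomm in
/-- `div (T_m ∇f) = (m + 1) σ_{m+1}` -/
lemma dv_NT_gr (f : R) (m : ℕ) :
    dv D (NT (hs D f) m *ᵥ gr D f) = ((m : R) + 1) * sig (hs D f) (m + 1) := by
  rw [dv_NT D hcomm, sig_euler, sum_comm]
  refine sum_congr rfl fun j _ => sum_congr rfl fun k _ => ?_
  rw [gr, hs_symm D hcomm f j k, hs_apply]

include hcomm in
/-- **Double integration by parts** for the elementary symmetric functions of a Hessian matrix,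
in divergence form. -/
theorem double_ibp (u φ : R) (p : ℕ) :
    2 * ((p : R) + 2) * ((p : R) + 1) * (φ * sig (hs D u) (p + 2)) =
      dv D ((2 * ((p : R) + 1) * φ) • (NT (hs D u) (p + 1) *ᵥ gr D u)
        + (-2 * (gr D φ ⬝ᵥ gr D u)) • (NT (hs D u) p *ᵥ gr D u)
        + (((p : R) + 2) * (gr D u ⬝ᵥ gr D u)) • (NT (hs D u) p *ᵥ gr D φ))
      + 2 * ((hs D φ *ᵥ gr D u) ⬝ᵥ (NT (hs D u) p *ᵥ gr D u))
      - ((p : R) + 2) * ((gr D u ⬝ᵥ gr D u) * ∑ i, ∑ j, NT (hs D u) p i j * hs D φ i j) := by
  set A := hs D u with hA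
  set J := gr D φ ⬝ᵥ (A *ᵥ (NT A p *ᵥ gr D u)) with hJ
  have hnat : ∀ (i : Fin n) (k : ℕ), D i (k : R) = 0 := by
    intro i k
    exact (D i).map_natCast k
  have hgrnat : ∀ k : ℕ, gr D (k : R) = 0 := fun k => funext fun i => hnat i k
  have gr_mul : ∀ f g : R, gr D (f * g) = f • gr D g + g • gr D f := by
    intro f g
    ext i
    simp only [gr, Pi.add_apply, Pi.smul_apply]
    rw [Derivation.leibniz]
  -- E1
  have e1 : dv D ((2 * ((p : R) + 1) * φ) • (NT A (p + 1) *ᵥ gr D u)) =
      2 * ((p : R) + 1) * (φ * (((p : R) + 2) * sig A (p + 2)) +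
        gr D φ ⬝ᵥ (NT A (p + 1) *ᵥ gr D u)) := by
    rw [dv_smul, hA, dv_NT_gr D hcomm]
    have : gr D (2 * ((p : R) + 1) * φ) = (2 * ((p : R) + 1)) • gr D φ := by
      rw [gr_mul]
      have h0 : gr D (2 * ((p : R) + 1)) = 0 := by
        have : (2 * ((p : R) + 1)) = ((2 * (p + 1) : ℕ) : R) := by push_cast; ring
        rw [this]; exact hgrnat _
      rw [h0, smul_zero, add_zero]
    rw [this, smul_dotProduct, smul_eq_mul]
    push_cast
    ring
  -- E2
  have e2 : gr D φ ⬝ᵥ (NT A (p + 1) *ᵥ gr D u) = sig A (p + 1) * (gr D φ ⬝ᵥ gr D u) - J := by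
    rw [NT_succ, sub_mulVec, smul_mulVec, one_mulVec, dotProduct_sub, dotProduct_smul,
      smul_eq_mul, ← mulVec_mulVec]
  -- E3
  have e3 : dv D ((-2 * (gr D φ ⬝ᵥ gr D u)) • (NT A p *ᵥ gr D u)) =
      -2 * ((gr D φ ⬝ᵥ gr D u) * (((p : R) + 1) * sig A (p + 1)) +
        ((hs D φ *ᵥ gr D u) ⬝ᵥ (NT A p *ᵥ gr D u) + J)) := by
    rw [dv_smul, hA, dv_NT_gr D hcomm, gr_mul]
    have h0 : gr D (-2 : R) = 0 := by
      have h2 : gr D (2 : R) = 0 := by
        have := hgrnat 2
        simpa using this
      ext i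
      have := congrFun h2 i
      simp only [gr] at this ⊢
      rw [map_neg, this]
      simp
    rw [h0, smul_zero, add_zero]
    have h1 : gr D (gr D φ ⬝ᵥ gr D u) = hs D φ *ᵥ gr D u + A *ᵥ gr D φ := by
      ext i
      simp only [gr, dotProduct, map_sum, Pi.add_apply, mulVec, hs_apply, hA]
      rw [← sum_add_distrib]
      refine sum_congr rfl fun j _ => ?_
      rw [Derivation.leibniz, smul_eq_mul, smul_eq_mul]
      ring
    rw [h1, smul_dotProduct, smul_eq_mul, add_dotProduct]
    have h2 : (A *ᵥ gr D φ) ⬝ᵥ (NT (hs D u) p *ᵥ gr D u) = J := by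
      rw [hJ, ← hA]
      rw [dotProduct_mulVec (gr D φ), ← mulVec_transpose, hA, hs_transpose D hcomm]
    rw [h2]
    ring
  -- E4
  have e4 : dv D ((((p : R) + 2) * (gr D u ⬝ᵥ gr D u)) • (NT A p *ᵥ gr D φ)) =
      ((p : R) + 2) * ((gr D u ⬝ᵥ gr D u) * (∑ i, ∑ j, NT A p i j * hs D φ i j) + 2 * J) := by
    rw [dv_smul, hA, dv_NT D hcomm, gr_mul]
    have h0 : gr D ((p : R) + 2) = 0 := by
      have : ((p : R) + 2) = ((p + 2 : ℕ) : R) := by push_cast; ring
      rw [this]; exact hgrnat _
    rw [h0, smul_zero, add_zero]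
    have h1 : gr D (gr D u ⬝ᵥ gr D u) = (2 : R) • (A *ᵥ gr D u) := by
      ext i
      simp only [gr, dotProduct, map_sum, Pi.smul_apply, mulVec, hs_apply, hA, smul_eq_mul]
      rw [mul_sum]
      refine sum_congr rfl fun j _ => ?_
      rw [Derivation.leibniz, smul_eq_mul]
      ring
    rw [h1, smul_dotProduct, smul_eq_mul, smul_dotProduct, smul_eq_mul]
    have h2 : (A *ᵥ gr D u) ⬝ᵥ (NT (hs D u) p *ᵥ gr D φ) = J := by
      rw [hJ, ← hA, dotProduct_mulVec, ← mulVec_transpose, hA, NT_hs_symm D hcomm, dotProduct_comm,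
        mulVec_mulVec, mulVec_mulVec, NT_comm]
    rw [h2]
    simp only [gr, hs_apply]
    ring
  rw [dv_add, dv_add, e1, e2, e3, e4]
  ring

end hess

end Pool.Agent.H422IV
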