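import Mathlib
import Pool.Agent.H422IV.Newton

/-!
# Spectral estimates for elementary symmetric functions of symmetric matrices
-/

set_option autoImplicit false
set_option linter.unusedSectionVars false

open Matrix Finset Polynomial

namespace Pool.Agent.H422IV

section esF

variable {ι : Type} [Fintype ι] [DecidableEq ι]

/-- elementary symmetric function of degree `m` of the family `μ` restricted to `s` -/
def esF {R : Type} [CommRing R] (s : Finset ι) (μ : ι → R) (m : ℕ) : R :=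
  ∑ S ∈ s.powersetCard m, ∏ i ∈ S, μ i

lemma coeff_prod_add {R : Type} [CommRing R] (s : Finset ι) (a b : ι → R) (m : ℕ) :
    (∏ i ∈ s, (X * C (b i) + C (a i))).coeff m =
      ∑ S ∈ s.powersetCard m, (∏ i ∈ S, b i) * ∏ i ∈ s \ S, a i := by
  rw [prod_add, finsetSum_coeff]
  have h : ∀ t ∈ s.powerset, ((∏ i ∈ t, X * C (b i)) * ∏ i ∈ s \ t, C (a i)).coeff m =
      if t.card = m then (∏ i ∈ t, b i) * ∏ i ∈ s \ t, a i else 0 := by
    intro t _
    rw [prod_mul_distrib, prod_const, ← map_prod, ← map_prod, mul_assoc, ← C_mul,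
      coeff_mul_C, coeff_X_pow]
    by_cases h : t.card = m
    · rw [if_pos h.symm, if_pos h, one_mul]
    · rw [if_neg (Ne.symm h), if_neg h, zero_mul]
  rw [sum_congr rfl h, ← sum_filter]
  congr 1
  ext t
  simp [mem_powersetCard]

lemma coeff_prod_es {R : Type} [CommRing R] (s : Finset ι) (μ : ι → R) (m : ℕ) :
    (∏ i ∈ s, (X * C (μ i) + C 1)).coeff m = esF s μ m := by
  rw [coeff_prod_add s (fun _ => 1) μ m]
  simp [esF]

lemma esF_zero {R : Type} [CommRing R] (s : Finset ι) (μ : ι → R) : esF s μ 0 = 1 := by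
  simp [esF]

lemma esF_succ {R : Type} [CommRing R] (s : Finset ι) (μ : ι → R) (a : ι) (ha : a ∈ s) (m : ℕ) :
    esF s μ (m + 1) = esF (s.erase a) μ (m + 1) + μ a * esF (s.erase a) μ m := by
  rw [← coeff_prod_es, ← coeff_prod_es, ← coeff_prod_es, ← mul_prod_erase s _ ha, add_mul,
    coeff_add, mul_assoc, coeff_X_mul, coeff_C_mul, C_1, one_mul, add_comm]

lemma gen_diagonal {R : Type} [CommRing R] (μ : ι → R) :
    gen (diagonal μ) = diagonal (fun i => X * C (μ i) + C 1) := by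
  ext1 i j
  rw [gen_apply]
  by_cases h : i = j
  · subst h
    rw [diagonal_apply_eq, diagonal_apply_eq, Matrix.one_apply_eq, C_1, add_comm]
  · rw [diagonal_apply_ne _ h, diagonal_apply_ne _ h, Matrix.one_apply_ne h]
    simp

lemma sig_diagonal {R : Type} [CommRing R] (μ : ι → R) (m : ℕ) :
    sig (diagonal μ) m = esF univ μ m := by
  unfold sig
  rw [gen_diagonal, det_diagonal, coeff_prod_es]

lemma NT_diagonal {R : Type} [CommRing R] (μ : ι → R) (m : ℕ) :
    NT (diagonal μ) m = diagonal (fun a => esF (univ.erase a) μ m) := by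
  induction m with
  | zero =>
    rw [NT_zero]
    simp only [esF_zero]
    exact diagonal_one.symm
  | succ m ih =>
    rw [NT_succ, ih, sig_diagonal, diagonal_mul_diagonal]
    ext i j
    by_cases h : i = j
    · subst h
      rw [Matrix.sub_apply, Matrix.smul_apply, Matrix.one_apply_eq, diagonal_apply_eq,
        diagonal_apply_eq, esF_succ univ μ i (mem_univ i) m]
      simp
    · rw [Matrix.sub_apply, Matrix.smul_apply, Matrix.one_apply_ne h, diagonal_apply_ne _ h,
        diagonal_apply_ne _ h]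
      simp

lemma gen_conj {R : Type} [CommRing R] (U V A : Matrix ι ι R) (hUV : U * V = 1) :
    gen (U * A * V) = U.map C * gen A * V.map C := by
  unfold gen
  rw [Matrix.mul_add, Matrix.add_mul, Matrix.mul_one, Matrix.mul_smul, Matrix.smul_mul]
  rw [← Matrix.map_mul, ← Matrix.map_mul, ← Matrix.map_mul, hUV, Matrix.map_one _ C_0 C_1]

lemma sig_conj {R : Type} [CommRing R] (U V A : Matrix ι ι R) (hUV : U * V = 1) (m : ℕ) :
    sig (U * A * V) m = sig A m := by
  unfold sig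
  have h1 : (U.map C).det * (V.map (C : R →+* R[X])).det = 1 := by
    rw [← det_mul, ← Matrix.map_mul, hUV, Matrix.map_one _ C_0 C_1, det_one]
  rw [gen_conj U V A hUV, det_mul, det_mul]
  rw [mul_comm (U.map C).det, mul_assoc, h1, mul_one]

lemma NT_conj {R : Type} [CommRing R] (U V A : Matrix ι ι R) (hUV : U * V = 1) (hVU : V * U = 1)
    (m : ℕ) : NT (U * A * V) m = U * NT A m * V := by
  induction m with
  | zero => rw [NT_zero, NT_zero, Matrix.mul_one, hUV]
  | succ m ih =>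
    rw [NT_succ, NT_succ, ih, sig_conj U V A hUV, Matrix.mul_sub, Matrix.sub_mul, Matrix.mul_smul,
      Matrix.smul_mul, Matrix.mul_one, hUV]
    congr 1
    simp only [Matrix.mul_assoc]
    rw [← Matrix.mul_assoc V U, hVU, Matrix.one_mul]

end esF

section real

variable {n : ℕ}

lemma esF_abs_nonneg (s : Finset (Fin n)) (μ : Fin n → ℝ) (m : ℕ) :
    0 ≤ esF s (fun i => |μ i|) m :=
  sum_nonneg fun _ _ => prod_nonneg fun _ _ => abs_nonneg _

lemma abs_esF_le (s : Finset (Fin n)) (μ : Fin n → ℝ) (m : ℕ) :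
    |esF s μ m| ≤ esF s (fun i => |μ i|) m := by
  unfold esF
  refine (abs_sum_le_sum_abs _ _).trans (le_of_eq ?_)
  exact sum_congr rfl fun S _ => abs_prod _ _

lemma esF_abs_mono {s t : Finset (Fin n)} (hst : s ⊆ t) (μ : Fin n → ℝ) (m : ℕ) :
    esF s (fun i => |μ i|) m ≤ esF t (fun i => |μ i|) m := by
  unfold esF
  exact sum_le_sum_of_subset_of_nonneg (powersetCard_mono hst)
    fun _ _ _ => prod_nonneg fun _ _ => abs_nonneg _

/-- **Pairing**: if all products of two different members of the family are at least `-δ`, then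
the elementary symmetric functions of even degree are almost coercive. -/
lemma pairing (μ : Fin n → ℝ) (δ : ℝ) (hδ : 0 ≤ δ)
    (hμ : ∀ a b, a ≠ b → -δ ≤ μ a * μ b) (m : ℕ) (hm : Even m) :
    esF univ (fun i => |μ i|) (m + 2) ≤
      esF univ μ (m + 2) + 2 ^ (n + 1) * δ * esF univ (fun i => |μ i|) m := by
  have key : ∀ S ∈ (univ : Finset (Fin n)).powersetCard (m + 2), ∏ i ∈ S, |μ i| ≤
      ∏ i ∈ S, μ i + 2 * δ * esF univ (fun i => |μ i|) m := by
    intro S hS
    rw [mem_powersetCard] at hS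
    have hE := esF_abs_nonneg univ μ m
    rcases le_or_gt 0 (∏ i ∈ S, μ i) with hp | hp
    · rw [← abs_prod, abs_of_nonneg hp]
      have : 0 ≤ 2 * δ * esF univ (fun i => |μ i|) m := by positivity
      linarith
    · -- there is a negative and a positive element
      have hne : ∀ i ∈ S, μ i ≠ 0 := by
        intro i hi h0
        rw [prod_eq_zero hi h0] at hp
        exact lt_irrefl _ hp
      obtain ⟨a, ha, ha0⟩ : ∃ a ∈ S, μ a < 0 := by
        by_contra hcon
        push Not at hcon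
        exact absurd (prod_nonneg hcon) (not_le.mpr hp)
      obtain ⟨b, hb, hb0⟩ : ∃ b ∈ S, 0 < μ b := by
        by_contra hcon
        push Not at hcon
        have h1 : ∏ i ∈ S, μ i = (-1) ^ S.card * ∏ i ∈ S, |μ i| := by
          rw [← prod_const, ← prod_mul_distrib]
          refine prod_congr rfl fun i hi => ?_
          rw [abs_of_nonpos (hcon i hi)]
          ring
        rw [h1, hS.2, Even.neg_one_pow (by
          rcases hm with ⟨k, rfl⟩
          exact ⟨k + 1, by ring⟩), one_mul] at hp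
        exact absurd (prod_nonneg fun i _ => abs_nonneg (μ i)) (not_le.mpr hp)
      have hab : a ≠ b := by
        rintro rfl
        exact absurd ha0 (not_lt.mpr hb0.le)
      have hbS : b ∈ S.erase a := mem_erase.mpr ⟨hab.symm, hb⟩
      have h2 : ∏ i ∈ S, |μ i| = (|μ a| * |μ b|) * ∏ i ∈ (S.erase a).erase b, |μ i| := by
        rw [← mul_prod_erase S _ ha, ← mul_prod_erase (S.erase a) _ hbS, mul_assoc]
      have h3 : |μ a| * |μ b| ≤ δ := by
        rw [← abs_mul, abs_of_nonpos (mul_nonpos_of_nonpos_of_nonneg ha0.le hb0.le)]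
        have := hμ a b hab
        linarith
      have h4 : ∏ i ∈ (S.erase a).erase b, |μ i| ≤ esF univ (fun i => |μ i|) m := by
        unfold esF
        have hmem : (S.erase a).erase b ∈ (univ : Finset (Fin n)).powersetCard m := by
          rw [mem_powersetCard]
          refine ⟨subset_univ _, ?_⟩
          rw [card_erase_of_mem hbS, card_erase_of_mem ha, hS.2]
          rfl
        exact single_le_sum (f := fun T => ∏ i ∈ T, |μ i|)
          (fun T _ => prod_nonneg fun _ _ => abs_nonneg _) hmem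
      have h5 : 0 ≤ ∏ i ∈ (S.erase a).erase b, |μ i| := prod_nonneg fun _ _ => abs_nonneg _
      have h6 : ∏ i ∈ S, |μ i| ≤ δ * esF univ (fun i => |μ i|) m := by
        rw [h2]
        calc |μ a| * |μ b| * ∏ i ∈ (S.erase a).erase b, |μ i|
            ≤ δ * ∏ i ∈ (S.erase a).erase b, |μ i| := mul_le_mul_of_nonneg_right h3 h5
          _ ≤ δ * esF univ (fun i => |μ i|) m := mul_le_mul_of_nonneg_left h4 hδ
      have h7 : ∏ i ∈ S, |μ i| = -∏ i ∈ S, μ i := by
        rw [← abs_prod, abs_of_neg hp]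
      linarith
  have hsum : esF univ (fun i => |μ i|) (m + 2) ≤ ∑ S ∈ (univ : Finset (Fin n)).powersetCard (m + 2),
      (∏ i ∈ S, μ i + 2 * δ * esF univ (fun i => |μ i|) m) := sum_le_sum key
  rw [sum_add_distrib, sum_const, nsmul_eq_mul] at hsum
  refine hsum.trans ?_
  have hcard : (((univ : Finset (Fin n)).powersetCard (m + 2)).card : ℝ) ≤ 2 ^ n := by
    have h1 : ((univ : Finset (Fin n)).powersetCard (m + 2)).card ≤
        (univ : Finset (Fin n)).powerset.card :=
      card_le_card fun T hT => mem_powerset.mpr (subset_univ _)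
    rw [card_powerset, card_univ, Fintype.card_fin] at h1
    exact_mod_cast h1
  have hE := esF_abs_nonneg univ μ m
  have h8 : (((univ : Finset (Fin n)).powersetCard (m + 2)).card : ℝ) *
      (2 * δ * esF univ (fun i => |μ i|) m) ≤
      2 ^ n * (2 * δ * esF univ (fun i => |μ i|) m) :=
    mul_le_mul_of_nonneg_right hcard (by positivity)
  have h9 : (2 : ℝ) ^ (n + 1) = 2 ^ n * 2 := pow_succ _ _
  change esF univ μ (m + 2) + _ ≤ _
  rw [h9]
  linarith

/-- diagonalisation of a real symmetric matrix -/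
lemma exists_diag (A : Matrix (Fin n) (Fin n) ℝ) (hA : Aᵀ = A) :
    ∃ (U : Matrix (Fin n) (Fin n) ℝ) (μ : Fin n → ℝ), U * Uᵀ = 1 ∧ Uᵀ * U = 1 ∧
      A = U * diagonal μ * Uᵀ := by
  have hH : A.IsHermitian := by
    rw [Matrix.IsHermitian, conjTranspose_eq_transpose_of_trivial]
    exact hA
  refine ⟨hH.eigenvectorUnitary, hH.eigenvalues, ?_, ?_, ?_⟩
  · have := Unitary.mul_star_self_of_mem hH.eigenvectorUnitary.2
    rw [star_eq_conjTranspose, conjTranspose_eq_transpose_of_trivial] at this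
    exact this
  · have := Unitary.star_mul_self_of_mem hH.eigenvectorUnitary.2
    rw [star_eq_conjTranspose, conjTranspose_eq_transpose_of_trivial] at this
    exact this
  · have h := hH.spectral_theorem
    rw [Unitary.conjStarAlgAut_apply] at h
    rw [star_eq_conjTranspose, conjTranspose_eq_transpose_of_trivial] at h
    exact h

lemma row_sq_sum {U : Matrix (Fin n) (Fin n) ℝ} (hU : U * Uᵀ = 1) (i : Fin n) :
    ∑ a, U i a ^ 2 = 1 := by
  have h := congrFun (congrFun hU i) i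
  rw [Matrix.mul_apply, Matrix.one_apply_eq] at h
  rw [← h]
  exact sum_congr rfl fun a _ => by rw [transpose_apply, sq]

lemma NT_entry_le {U : Matrix (Fin n) (Fin n) ℝ} {μ : Fin n → ℝ} (hU : U * Uᵀ = 1)
    (hU' : Uᵀ * U = 1) (m : ℕ) (i j : Fin n) :
    |NT (U * diagonal μ * Uᵀ) m i j| ≤ esF univ (fun i => |μ i|) m := by
  rw [NT_conj U Uᵀ _ hU hU', NT_diagonal, Matrix.mul_apply]
  have h1 : ∀ a, (U * diagonal fun a => esF (univ.erase a) μ m) i a * Uᵀ a j =
      U i a * U j a * esF (univ.erase a) μ m := by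
    intro a
    rw [Matrix.mul_diagonal, transpose_apply]
    ring
  rw [sum_congr rfl fun a _ => h1 a]
  have hE := esF_abs_nonneg univ μ m
  have h2 : ∀ a, |U i a * U j a * esF (univ.erase a) μ m| ≤
      ((U i a ^ 2 + U j a ^ 2) / 2) * esF univ (fun i => |μ i|) m := by
    intro a
    rw [abs_mul]
    have h3 : |U i a * U j a| ≤ (U i a ^ 2 + U j a ^ 2) / 2 := by
      rw [abs_le]
      constructor <;> nlinarith [sq_nonneg (U i a + U j a), sq_nonneg (U i a - U j a)]
    have h4 : |esF (univ.erase a) μ m| ≤ esF univ (fun i => |μ i|) m :=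
      (abs_esF_le _ μ m).trans (esF_abs_mono (erase_subset _ _) μ m)
    exact mul_le_mul h3 h4 (abs_nonneg _) (by positivity)
  refine (abs_sum_le_sum_abs _ _).trans ((sum_le_sum fun a _ => h2 a).trans ?_)
  rw [← sum_mul, ← sum_div, sum_add_distrib, row_sq_sum hU, row_sq_sum hU]
  linarith

/-- `N_m(A) = √σ_m(A²)` -/
noncomputable def Nf (A : Matrix (Fin n) (Fin n) ℝ) (m : ℕ) : ℝ := Real.sqrt (sig (A * A) m)

lemma Nf_nonneg (A : Matrix (Fin n) (Fin n) ℝ) (m : ℕ) : 0 ≤ Nf A m := Real.sqrt_nonneg _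

lemma Nf_zero (A : Matrix (Fin n) (Fin n) ℝ) : Nf A 0 = 1 := by
  rw [Nf, sig_zero, Real.sqrt_one]

lemma sig_sq {U : Matrix (Fin n) (Fin n) ℝ} {μ : Fin n → ℝ} (hU : U * Uᵀ = 1)
    (hU' : Uᵀ * U = 1) (m : ℕ) :
    sig ((U * diagonal μ * Uᵀ) * (U * diagonal μ * Uᵀ)) m =
      ∑ S ∈ (univ : Finset (Fin n)).powersetCard m, (∏ i ∈ S, |μ i|) ^ 2 := by
  have h1 : (U * diagonal μ * Uᵀ) * (U * diagonal μ * Uᵀ) =
      U * diagonal (fun i => μ i * μ i) * Uᵀ := by
    rw [← diagonal_mul_diagonal]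
    simp only [Matrix.mul_assoc]
    rw [← Matrix.mul_assoc Uᵀ U, hU', Matrix.one_mul]
  rw [h1, sig_conj U Uᵀ _ hU, sig_diagonal, esF]
  refine sum_congr rfl fun S _ => ?_
  rw [← prod_pow]
  exact prod_congr rfl fun i _ => by rw [sq_abs, sq]

lemma Nf_le_es {U : Matrix (Fin n) (Fin n) ℝ} {μ : Fin n → ℝ} (hU : U * Uᵀ = 1)
    (hU' : Uᵀ * U = 1) (m : ℕ) :
    Nf (U * diagonal μ * Uᵀ) m ≤ esF univ (fun i => |μ i|) m := by
  unfold Nf
  rw [sig_sq hU hU']
  apply Real.sqrt_le_iff.mpr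
  refine ⟨esF_abs_nonneg _ _ _, ?_⟩
  unfold esF
  exact sum_sq_le_sq_sum_of_nonneg (fun S _ => prod_nonneg fun _ _ => abs_nonneg _)

lemma es_le_Nf {U : Matrix (Fin n) (Fin n) ℝ} {μ : Fin n → ℝ} (hU : U * Uᵀ = 1)
    (hU' : Uᵀ * U = 1) (m : ℕ) :
    esF univ (fun i => |μ i|) m ≤ 2 ^ n * Nf (U * diagonal μ * Uᵀ) m := by
  have h0 : ∀ S ∈ (univ : Finset (Fin n)).powersetCard m, ∏ i ∈ S, |μ i| ≤
      Nf (U * diagonal μ * Uᵀ) m := by
    intro S hS
    unfold Nf
    rw [sig_sq hU hU']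
    apply Real.le_sqrt_of_sq_le
    exact single_le_sum (f := fun T => (∏ i ∈ T, |μ i|) ^ 2) (fun T _ => sq_nonneg _) hS
  have h1 := sum_le_sum h0
  rw [sum_const, nsmul_eq_mul] at h1
  refine h1.trans ?_
  have hcard : (((univ : Finset (Fin n)).powersetCard m).card : ℝ) ≤ 2 ^ n := by
    have h1 : ((univ : Finset (Fin n)).powersetCard m).card ≤
        (univ : Finset (Fin n)).powerset.card :=
      card_le_card fun T hT => mem_powerset.mpr (subset_univ _)
    rw [card_powerset, card_univ, Fintype.card_fin] at h1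
    exact_mod_cast h1
  exact mul_le_mul_of_nonneg_right hcard (Nf_nonneg _ _)

/-- the form `A` has all its `2 × 2` minors in orthonormal frames at least `-δ` -/
def PairLB (A : Matrix (Fin n) (Fin n) ℝ) (δ : ℝ) : Prop :=
  ∀ v w : Fin n → ℝ, v ⬝ᵥ v = 1 → w ⬝ᵥ w = 1 → v ⬝ᵥ w = 0 →
    -δ ≤ (v ⬝ᵥ A *ᵥ v) * (w ⬝ᵥ A *ᵥ w) - (v ⬝ᵥ A *ᵥ w) ^ 2

lemma PairLB.eig {U : Matrix (Fin n) (Fin n) ℝ} {μ : Fin n → ℝ} {δ : ℝ}
    (hU' : Uᵀ * U = 1) (h : PairLB (U * diagonal μ * Uᵀ) δ) (a b : Fin n) (hab : a ≠ b) :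
    -δ ≤ μ a * μ b := by
  have hcol : ∀ c d, (fun i => U i c) ⬝ᵥ (fun i => U i d) = (1 : Matrix (Fin n) (Fin n) ℝ) c d := by
    intro c d
    have h1 := congrFun (congrFun hU' c) d
    rw [Matrix.mul_apply] at h1
    exact h1
  have hmul : ∀ d, (U * diagonal μ * Uᵀ) *ᵥ (fun i => U i d) = μ d • fun i => U i d := by
    intro d
    rw [← mulVec_mulVec, ← mulVec_mulVec]
    have h2 : Uᵀ *ᵥ (fun i => U i d) = Pi.single d 1 := by
      ext c
      have h3 := hcol c d
      rw [mulVec]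
      change (fun i => U i c) ⬝ᵥ (fun i => U i d) = _
      rw [h3, Matrix.one_apply, Pi.single_apply]
    rw [h2]
    ext i
    rw [mulVec, dotProduct, sum_eq_single d]
    · rw [diagonal_mulVec_single, Pi.single_eq_same]
      simp [mul_comm]
    · intro c _ hcd
      rw [diagonal_mulVec_single, Pi.single_eq_of_ne hcd, mul_zero]
    · intro h; exact absurd (mem_univ d) h
  have h1 := h (fun i => U i a) (fun i => U i b) (by rw [hcol, Matrix.one_apply_eq])
    (by rw [hcol, Matrix.one_apply_eq]) (by rw [hcol, Matrix.one_apply_ne hab])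
  rw [hmul, hmul, dotProduct_smul, dotProduct_smul, dotProduct_smul, hcol, hcol, hcol,
    Matrix.one_apply_eq, Matrix.one_apply_eq, Matrix.one_apply_ne hab] at h1
  simpa using h1

/-- entries of the Newton transformations are bounded by `N_m` -/
lemma NT_le_Nf (A : Matrix (Fin n) (Fin n) ℝ) (hA : Aᵀ = A) (m : ℕ) (i j : Fin n) :
    |NT A m i j| ≤ 2 ^ n * Nf A m := by
  obtain ⟨U, μ, hU, hU', rfl⟩ := exists_diag A hA
  exact (NT_entry_le hU hU' m i j).trans (es_le_Nf hU hU' m)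

/-- almost coercivity of `σ_m`, `m` even -/
lemma Nf_le_sig (A : Matrix (Fin n) (Fin n) ℝ) (hA : Aᵀ = A) (δ : ℝ) (hδ : 0 ≤ δ)
    (h : PairLB A δ) (m : ℕ) (hm : Even m) :
    Nf A (m + 2) ≤ sig A (m + 2) + 2 ^ (2 * n + 1) * δ * Nf A m := by
  obtain ⟨U, μ, hU, hU', rfl⟩ := exists_diag A hA
  have h1 := pairing μ δ hδ (fun a b hab => h.eig hU' a b hab) m hm
  have h2 := Nf_le_es (μ := μ) hU hU' (m + 2)
  have h3 := es_le_Nf (μ := μ) hU hU' m
  have h4 : sig (U * diagonal μ * Uᵀ) (m + 2) = esF univ μ (m + 2) := by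
    rw [sig_conj U Uᵀ _ hU, sig_diagonal]
  rw [h4]
  have h5 : (2 : ℝ) ^ (n + 1) * δ * esF univ (fun i => |μ i|) m ≤
      2 ^ (n + 1) * δ * (2 ^ n * Nf (U * diagonal μ * Uᵀ) m) :=
    mul_le_mul_of_nonneg_left h3 (by positivity)
  have h6 : (2 : ℝ) ^ (2 * n + 1) = 2 ^ (n + 1) * 2 ^ n := by
    rw [← pow_add]; congr 1; ring
  rw [h6]
  nlinarith [h1, h2, h5]

lemma abs_coeff_det_le (Q : Matrix (Fin n) (Fin n) ℝ) (μ : Fin n → ℝ) (c : ℝ) (hc : 0 ≤ c)
    (hQ : ∀ i j, |Q i j| ≤ c) (m : ℕ) :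
    |sig (Q * diagonal μ) m| ≤ (n.factorial : ℝ) * c ^ m * esF univ (fun i => |μ i|) m := by
  unfold sig
  rw [det_apply, finsetSum_coeff]
  have h1 : ∀ σ : Equiv.Perm (Fin n),
      |(Equiv.Perm.sign σ • ∏ i, gen (Q * diagonal μ) (σ i) i).coeff m| ≤
        c ^ m * esF univ (fun i => |μ i|) m := by
    intro σ
    have h2 : |(Equiv.Perm.sign σ • ∏ i, gen (Q * diagonal μ) (σ i) i).coeff m| =
        |(∏ i, gen (Q * diagonal μ) (σ i) i).coeff m| := by
      rcases Int.units_eq_one_or (Equiv.Perm.sign σ) with h | h <;> simp [h]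
    rw [h2]
    have h3 : ∀ i, gen (Q * diagonal μ) (σ i) i =
        X * C (Q (σ i) i * μ i) + C ((1 : Matrix (Fin n) (Fin n) ℝ) (σ i) i) := by
      intro i
      rw [gen_apply, Matrix.mul_diagonal, Matrix.one_apply, Matrix.one_apply, add_comm]
      split_ifs <;> simp
    rw [prod_congr rfl fun i _ => h3 i, coeff_prod_add]
    refine (abs_sum_le_sum_abs _ _).trans ?_
    rw [esF, mul_sum]
    refine sum_le_sum fun S hS => ?_
    rw [mem_powersetCard] at hS
    rw [abs_mul, abs_prod, abs_prod, prod_congr rfl fun i _ => abs_mul (Q (σ i) i) (μ i),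
      prod_mul_distrib]
    have h4 : ∏ i ∈ S, |Q (σ i) i| ≤ c ^ m := by
      rw [← hS.2, ← prod_const]
      exact prod_le_prod (fun i _ => abs_nonneg _) fun i _ => hQ _ _
    have h5 : ∏ i ∈ univ \ S, |(1 : Matrix (Fin n) (Fin n) ℝ) (σ i) i| ≤ 1 := by
      apply prod_le_one (fun i _ => abs_nonneg _)
      intro i _
      rw [Matrix.one_apply]
      split_ifs <;> simp
    have h6 : 0 ≤ ∏ i ∈ S, |μ i| := prod_nonneg fun _ _ => abs_nonneg _
    calc (∏ i ∈ S, |Q (σ i) i|) * (∏ i ∈ S, |μ i|) *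
          ∏ i ∈ univ \ S, |(1 : Matrix (Fin n) (Fin n) ℝ) (σ i) i|
        ≤ (c ^ m * ∏ i ∈ S, |μ i|) * 1 := by
          apply mul_le_mul (mul_le_mul_of_nonneg_right h4 h6) h5
            (prod_nonneg fun _ _ => abs_nonneg _) (by positivity)
      _ = c ^ m * ∏ i ∈ S, |μ i| := mul_one _
  refine (abs_sum_le_sum_abs _ _).trans ((sum_le_sum fun σ _ => h1 σ).trans ?_)
  rw [sum_const, card_univ, Fintype.card_perm, Fintype.card_fin, nsmul_eq_mul, mul_assoc]

/-- `σ_m(P A)` is controlled by `N_m(A)` -/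
lemma sig_mul_le (P A : Matrix (Fin n) (Fin n) ℝ) (hA : Aᵀ = A) (c : ℝ) (hc : 0 ≤ c)
    (hP : ∀ i j, |P i j| ≤ c) (m : ℕ) :
    |sig (P * A) m| ≤ (n.factorial : ℝ) * ((n : ℝ) ^ 2 * c) ^ m * 2 ^ n * Nf A m := by
  obtain ⟨U, μ, hU, hU', rfl⟩ := exists_diag A hA
  have h1 : sig (P * (U * diagonal μ * Uᵀ)) m = sig (Uᵀ * P * U * diagonal μ) m := by
    rw [← sig_conj Uᵀ U (P * (U * diagonal μ * Uᵀ)) hU' m]
    congr 1
    simp only [Matrix.mul_assoc]
    rw [hU', Matrix.mul_one]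
  have hU1 : ∀ i a, |U i a| ≤ 1 := by
    intro i a
    have h2 := row_sq_sum hU i
    have h3 : U i a ^ 2 ≤ ∑ a, U i a ^ 2 :=
      single_le_sum (f := fun a => U i a ^ 2) (fun b _ => sq_nonneg _) (mem_univ a)
    rw [h2] at h3
    exact abs_le_one_iff_mul_self_le_one.mpr (by rw [← sq]; exact h3)
  have hQ : ∀ i j, |(Uᵀ * P * U) i j| ≤ (n : ℝ) ^ 2 * c := by
    intro i j
    rw [Matrix.mul_apply]
    have h4 : ∀ b, |(Uᵀ * P) i b * U b j| ≤ n * c := by
      intro b
      rw [abs_mul, Matrix.mul_apply]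
      have h5 : |∑ a, Uᵀ i a * P a b| ≤ n * c := by
        refine (abs_sum_le_sum_abs _ _).trans ?_
        have h6 : ∀ a ∈ (univ : Finset (Fin n)), |Uᵀ i a * P a b| ≤ c := by
          intro a _
          rw [abs_mul, transpose_apply]
          calc |U a i| * |P a b| ≤ 1 * c := mul_le_mul (hU1 a i) (hP a b) (abs_nonneg _) zero_le_one
            _ = c := one_mul _
        refine (sum_le_sum h6).trans ?_
        rw [sum_const, card_univ, Fintype.card_fin, nsmul_eq_mul]
      calc |∑ a, Uᵀ i a * P a b| * |U b j| ≤ (n * c) * 1 :=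
            mul_le_mul h5 (hU1 b j) (abs_nonneg _) (by positivity)
        _ = n * c := mul_one _
    refine (abs_sum_le_sum_abs _ _).trans ((sum_le_sum fun b _ => h4 b).trans ?_)
    rw [sum_const, card_univ, Fintype.card_fin, nsmul_eq_mul]
    apply le_of_eq
    ring
  rw [h1]
  have h7 := abs_coeff_det_le (Uᵀ * P * U) μ ((n : ℝ) ^ 2 * c) (by positivity) hQ m
  refine h7.trans ?_
  have h8 := es_le_Nf (μ := μ) hU hU' m
  have h9 : 0 ≤ (n.factorial : ℝ) * ((n : ℝ) ^ 2 * c) ^ m := by positivity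
  calc (n.factorial : ℝ) * ((n : ℝ) ^ 2 * c) ^ m * esF univ (fun i => |μ i|) m
      ≤ (n.factorial : ℝ) * ((n : ℝ) ^ 2 * c) ^ m * (2 ^ n * Nf (U * diagonal μ * Uᵀ) m) :=
        mul_le_mul_of_nonneg_left h8 h9
    _ = _ := by ring

end real

end Pool.Agent.H422IV
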