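import Mathlib
import Pool.Agent.H422IV.Spectral
import Pool.Agent.H422IV.Defs

/-!
# Integration by parts in the ring of smooth functions on `ℝⁿ`, and the local estimate
-/

set_option autoImplicit false
set_option linter.unusedSectionVars false

open MeasureTheory Metric Set Filter Topology Matrix
open scoped ENNReal NNReal ContDiff

namespace Pool.Agent.H422IV

variable {n : ℕ}

/-- the Hessian matrix of `u` at `x` -/
noncomputable def Hs (u : E n → ℝ) (x : E n) : Matrix (Fin n) (Fin n) ℝ :=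
  Matrix.of fun i j => pd i (pd j u) x

/-- the gradient of `u` at `x` -/
noncomputable def Gr (u : E n → ℝ) (x : E n) : Fin n → ℝ := fun i => pd i u x

/-- the subalgebra of smooth functions on `ℝⁿ` -/
def SmSub (n : ℕ) : Subalgebra ℝ (E n → ℝ) where
  carrier := {f | ContDiff ℝ ∞ f}
  mul_mem' := fun {f g} hf hg => by
    have hf' : ContDiff ℝ ∞ f := hf
    have hg' : ContDiff ℝ ∞ g := hg
    exact hf'.mul hg'
  add_mem' := fun {f g} hf hg => by
    have hf' : ContDiff ℝ ∞ f := hf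
    have hg' : ContDiff ℝ ∞ g := hg
    exact hf'.add hg'
  algebraMap_mem' := fun c => (contDiff_const : ContDiff ℝ ∞ fun _ : E n => c)

/-- the ring of smooth functions, as a type of its own -/
def SR (n : ℕ) : Type := SmSub n

noncomputable instance : CommRing (SR n) := inferInstanceAs (CommRing (SmSub n))
noncomputable instance : Algebra ℝ (SR n) := inferInstanceAs (Algebra ℝ (SmSub n))

/-- underlying function -/
def fn (f : SR n) : E n → ℝ := (f : SmSub n).1

/-- constructor -/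
def mkS (f : E n → ℝ) (hf : ContDiff ℝ ∞ f) : SR n := (⟨f, hf⟩ : SmSub n)

lemma fn_mk (f : E n → ℝ) (hf : ContDiff ℝ ∞ f) : fn (mkS f hf) = f := rfl
lemma fn_ext {f g : SR n} (h : ∀ z, fn f z = fn g z) : f = g := Subtype.ext (funext h)
lemma fn_add (f g : SR n) (z : E n) : fn (f + g) z = fn f z + fn g z := rfl
lemma fn_sub (f g : SR n) (z : E n) : fn (f - g) z = fn f z - fn g z := rfl
lemma fn_mul (f g : SR n) (z : E n) : fn (f * g) z = fn f z * fn g z := rfl
lemma fn_smul (c : ℝ) (f : SR n) (z : E n) : fn (c • f) z = c * fn f z := rfl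
lemma fn_zero (z : E n) : fn (0 : SR n) z = 0 := rfl
lemma fn_one (z : E n) : fn (1 : SR n) z = 1 := rfl
lemma fn_smooth (f : SR n) : ContDiff ℝ ∞ (fn f) := (f : SmSub n).2

/-- evaluation at a point, as a ring homomorphism -/
def ev (z : E n) : SR n →+* ℝ where
  toFun f := fn f z
  map_one' := rfl
  map_mul' _ _ := rfl
  map_zero' := rfl
  map_add' _ _ := rfl

lemma ev_apply (z : E n) (f : SR n) : ev z f = fn f z := rfl

lemma fn_diff (f : SR n) (z : E n) : DifferentiableAt ℝ (fn f) z :=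
  ((fn_smooth f).differentiable (by simp)).differentiableAt

lemma smooth_dir {f : E n → ℝ} (hf : ContDiff ℝ ∞ f) (v : E n) :
    ContDiff ℝ ∞ (fun z => fderiv ℝ f z v) :=
  (hf.fderiv_right (m := ∞) (by simp)).clm_apply contDiff_const

/-- directional derivative as a derivation -/
noncomputable def Dv (v : E n) : Derivation ℝ (SR n) (SR n) where
  toFun f := mkS (fun z => fderiv ℝ (fn f) z v) (smooth_dir (fn_smooth f) v)
  map_add' f g := by
    apply fn_ext
    intro z
    rw [fn_add, fn_mk, fn_mk, fn_mk]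
    have h : fn (f + g) = fn f + fn g := rfl
    rw [h, fderiv_add (fn_diff f z) (fn_diff g z)]
    rfl
  map_smul' c f := by
    apply fn_ext
    intro z
    simp only [RingHom.id_apply]
    rw [fn_smul, fn_mk, fn_mk]
    have h : fn (c • f) = c • fn f := rfl
    rw [h, fderiv_const_smul (fn_diff f z)]
    rfl
  map_one_eq_zero' := by
    apply fn_ext
    intro z
    change fderiv ℝ (fun _ : E n => (1 : ℝ)) z v = 0
    rw [fderiv_fun_const]
    rfl
  leibniz' f g := by
    apply fn_ext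
    intro z
    simp only [smul_eq_mul]
    rw [fn_add, fn_mul, fn_mul]
    change fderiv ℝ (fun y => fn f y * fn g y) z v = fn f z * fderiv ℝ (fn g) z v + fn g z * fderiv ℝ (fn f) z v
    rw [fderiv_fun_mul (fn_diff f z) (fn_diff g z)]
    simp [smul_eq_mul]

lemma Dv_apply (v : E n) (f : SR n) (z : E n) : fn (Dv v f) z = fderiv ℝ (fn f) z v := rfl

lemma Dv_comm (v w : E n) (f : SR n) : Dv v (Dv w f) = Dv w (Dv v f) := by
  apply fn_ext
  intro z
  have h : ∀ a b : E n, fn (Dv a (Dv b f)) z = fderiv ℝ (fderiv ℝ (fn f)) z a b := by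
    intro a b
    rw [Dv_apply]
    have hd2 : DifferentiableAt ℝ (fderiv ℝ (fn f)) z :=
      (((fn_smooth f).fderiv_right (m := ∞) (by simp)).differentiable (by simp)).differentiableAt
    have h1 : HasFDerivAt (fun y => fderiv ℝ (fn f) y b)
        ((ContinuousLinearMap.apply ℝ ℝ b).comp (fderiv ℝ (fderiv ℝ (fn f)) z)) z :=
      (ContinuousLinearMap.apply ℝ ℝ b).hasFDerivAt.comp z hd2.hasFDerivAt
    have h2 : fn (Dv b f) = fun y => fderiv ℝ (fn f) y b := rfl
    rw [h2, h1.fderiv]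
    rfl
  rw [h, h]
  have hsymm : IsSymmSndFDerivAt ℝ (fn f) z :=
    ((fn_smooth f).of_le (m := 2) ENat.LEInfty.out).contDiffAt.isSymmSndFDerivAt (by simp)
  exact hsymm.eq v w

/-- the partial derivatives as derivations -/
noncomputable def DD (i : Fin n) : Derivation ℤ (SR n) (SR n) :=
  (Dv (EuclideanSpace.single i 1)).restrictScalars ℤ

lemma DD_fn (i : Fin n) (f : SR n) : fn (DD i f) = pd i (fn f) := rfl

lemma DD_comm (i j : Fin n) (f : SR n) : DD i (DD j f) = DD j (DD i f) := Dv_comm _ _ f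

lemma hs_fn (u : SR n) (x : E n) : (hs DD u).map (ev x) = Hs (fn u) x := rfl

lemma gr_fn (u : SR n) (x : E n) (i : Fin n) : fn (gr DD u i) x = Gr (fn u) x i := rfl

lemma sig_fn (u : SR n) (x : E n) (m : ℕ) : fn (sig (hs DD u) m) x = sig (Hs (fn u) x) m := by
  rw [← hs_fn, map_sig]
  rfl

lemma sig2_fn (u : SR n) (x : E n) (m : ℕ) :
    fn (sig (hs DD u * hs DD u) m) x = sig (Hs (fn u) x * Hs (fn u) x) m := by
  rw [← hs_fn, ← Matrix.map_mul, map_sig]
  rfl

lemma NT_fn (u : SR n) (x : E n) (m : ℕ) (i j : Fin n) :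
    fn (NT (hs DD u) m i j) x = NT (Hs (fn u) x) m i j := by
  rw [← hs_fn, map_NT]
  rfl

/-- the integral of a derivative vanishes -/
lemma int_deriv_zero (F : E n → ℝ) (hF : ContDiff ℝ 1 F) (hc : HasCompactSupport F) (v : E n) :
    ∫ z, fderiv ℝ F z v = 0 := by
  have hcont : Continuous fun z => fderiv ℝ F z v :=
    (hF.continuous_fderiv (by norm_num)).clm_apply continuous_const
  have hcs : HasCompactSupport fun z => fderiv ℝ F z v := hc.fderiv_apply (𝕜 := ℝ) v
  have h := integral_mul_fderiv_eq_neg_fderiv_mul_of_integrable (𝕜 := ℝ) (μ := (volume : Measure (E n)))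
    (f := fun _ => (1 : ℝ)) (g := F) (v := v) (by simp)
    (by simpa using hcont.integrable_of_hasCompactSupport hcs)
    (by simpa using hF.continuous.integrable_of_hasCompactSupport hc)
    (fun x _ => differentiableAt_const _) (fun x _ => (hF.differentiable (by norm_num)).differentiableAt)
  simpa using h

/-- compact support in the ring of smooth functions -/
def CS (F : SR n) : Prop := HasCompactSupport (fn F)

lemma CS_mul_right (F H : SR n) (hH : CS H) : CS (F * H) := by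
  have : fn (F * H) = fun z => fn F z * fn H z := rfl
  unfold CS at *
  rw [this]
  exact HasCompactSupport.mul_left hH

lemma CS_mul_left (F H : SR n) (hF : CS F) : CS (F * H) := by
  have : fn (F * H) = fun z => fn F z * fn H z := rfl
  unfold CS at *
  rw [this]
  exact HasCompactSupport.mul_right hF

lemma CS_add (F H : SR n) (hF : CS F) (hH : CS H) : CS (F + H) := by
  have : fn (F + H) = fun z => fn F z + fn H z := rfl
  unfold CS at *
  rw [this]
  exact hF.add hH

lemma CS_zero : CS (0 : SR n) := by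
  unfold CS
  exact HasCompactSupport.zero

lemma CS_sum {ι : Type} (s : Finset ι) (F : ι → SR n) (hF : ∀ j ∈ s, CS (F j)) : CS (∑ j ∈ s, F j) := by
  classical
  induction s using Finset.induction_on with
  | empty => rw [Finset.sum_empty]; exact CS_zero
  | insert a s ha ih =>
    rw [Finset.sum_insert ha]
    exact CS_add _ _ (hF a (Finset.mem_insert_self a s)) (ih fun j hj => hF j (Finset.mem_insert_of_mem hj))

lemma CS_DD (i : Fin n) (F : SR n) (hF : CS F) : CS (DD i F) :=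
  HasCompactSupport.fderiv_apply (𝕜 := ℝ) hF _

lemma fn_sum {ι : Type} (s : Finset ι) (F : ι → SR n) (z : E n) :
    fn (∑ j ∈ s, F j) z = ∑ j ∈ s, fn (F j) z := by
  have := map_sum (ev z) F s
  exact this

lemma int_dv_zero (Y : Fin n → SR n) (hY : ∀ i, CS (Y i)) : ∫ x, fn (dv DD Y) x = 0 := by
  have h : ∀ x, fn (dv DD Y) x = ∑ i, fderiv ℝ (fn (Y i)) x (EuclideanSpace.single i 1) := by
    intro x
    rw [dv, fn_sum]
    rfl
  simp_rw [h]
  rw [integral_finsetSum]
  · refine Finset.sum_eq_zero fun i _ => ?_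
    exact int_deriv_zero _ ((fn_smooth (Y i)).of_le (by simp)) (hY i) _
  · intro i _
    have hcont : Continuous fun z => fderiv ℝ (fn (Y i)) z (EuclideanSpace.single i 1) :=
      (((fn_smooth (Y i)).of_le (m := 1) (by simp)).continuous_fderiv
        (by norm_num)).clm_apply continuous_const
    exact hcont.integrable_of_hasCompactSupport ((hY i).fderiv_apply (𝕜 := ℝ) _)

lemma CS_mulVec_right (A : Matrix (Fin n) (Fin n) (SR n)) (b : Fin n → SR n)
    (hb : ∀ i, CS (b i)) (i : Fin n) : CS ((A *ᵥ b) i) :=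
  CS_sum _ _ fun j _ => CS_mul_right _ _ (hb j)

lemma CS_dot_left (a b : Fin n → SR n) (ha : ∀ i, CS (a i)) : CS (a ⬝ᵥ b) :=
  CS_sum _ _ fun j _ => CS_mul_left _ _ (ha j)

lemma natCast_fn (k : ℕ) (z : E n) : fn (k : SR n) z = k := map_natCast (ev z) k

/-- the integrated form of the double integration by parts -/
lemma int_double_ibp (u φ : SR n) (hφ : CS φ) (p : ℕ) :
    2 * ((p : ℝ) + 2) * ((p : ℝ) + 1) * ∫ x, fn φ x * sig (Hs (fn u) x) (p + 2) =
      ∫ x, (2 * ((Hs (fn φ) x *ᵥ Gr (fn u) x) ⬝ᵥ (NT (Hs (fn u) x) p *ᵥ Gr (fn u) x))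
      - ((p : ℝ) + 2) * ((Gr (fn u) x ⬝ᵥ Gr (fn u) x) *
        ∑ i, ∑ j, NT (Hs (fn u) x) p i j * Hs (fn φ) x i j)) := by
  have h := double_ibp DD DD_comm u φ p
  set Y := ((2 * ((p : SR n) + 1) * φ) • (NT (hs DD u) (p + 1) *ᵥ gr DD u)
        + (-2 * (gr DD φ ⬝ᵥ gr DD u)) • (NT (hs DD u) p *ᵥ gr DD u)
        + (((p : SR n) + 2) * (gr DD u ⬝ᵥ gr DD u)) • (NT (hs DD u) p *ᵥ gr DD φ)) with hY
  have hgr : ∀ i, CS (gr DD φ i) := fun i => CS_DD i φ hφ
  have hYc : ∀ i, CS (Y i) := by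
    intro i
    rw [hY]
    refine CS_add _ _ (CS_add _ _ ?_ ?_) ?_
    · exact CS_mul_left _ _ (CS_mul_right _ _ hφ)
    · exact CS_mul_left _ _ (CS_mul_right _ _ (CS_dot_left _ _ hgr))
    · exact CS_mul_right _ _ (CS_mulVec_right _ _ hgr i)
  have h0 := int_dv_zero Y hYc
  have hcomp : CS (2 * ((hs DD φ *ᵥ gr DD u) ⬝ᵥ (NT (hs DD u) p *ᵥ gr DD u))
      - ((p : SR n) + 2) * ((gr DD u ⬝ᵥ gr DD u) * ∑ i, ∑ j, NT (hs DD u) p i j * hs DD φ i j)) := by
    have hh : ∀ i j, CS (hs DD φ i j) := fun i j => CS_DD _ _ (CS_DD _ _ hφ)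
    rw [sub_eq_add_neg, ← neg_one_mul]
    refine CS_add _ _ (CS_mul_right _ _ (CS_dot_left _ _ fun i => ?_))
      (CS_mul_right _ _ (CS_mul_right _ _ (CS_mul_right _ _ ?_)))
    · exact CS_sum _ _ fun j _ => CS_mul_left _ _ (hh i j)
    · exact CS_sum _ _ fun j _ => CS_sum _ _ fun k _ => CS_mul_right _ _ (hh j k)
  have hint : ∀ F : SR n, CS F → Integrable (fn F) := fun F hF =>
    (fn_smooth F).continuous.integrable_of_hasCompactSupport hF
  have hdv : CS (dv DD Y) := CS_sum _ _ fun i _ => CS_DD i _ (hYc i)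
  have e1 : ∀ x, 2 * ((p : ℝ) + 2) * ((p : ℝ) + 1) * (fn φ x * sig (Hs (fn u) x) (p + 2)) =
      fn (dv DD Y) x + fn (2 * ((hs DD φ *ᵥ gr DD u) ⬝ᵥ (NT (hs DD u) p *ᵥ gr DD u))
      - ((p : SR n) + 2) * ((gr DD u ⬝ᵥ gr DD u) * ∑ i, ∑ j, NT (hs DD u) p i j * hs DD φ i j)) x := by
    intro x
    rw [← fn_add, ← add_sub_assoc, ← h, ← sig_fn]
    simp only [← ev_apply, map_mul, map_add, map_natCast, map_one, map_ofNat]
  have e2 : ∀ x, fn (2 * ((hs DD φ *ᵥ gr DD u) ⬝ᵥ (NT (hs DD u) p *ᵥ gr DD u))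
      - ((p : SR n) + 2) * ((gr DD u ⬝ᵥ gr DD u) * ∑ i, ∑ j, NT (hs DD u) p i j * hs DD φ i j)) x =
      (2 * ((Hs (fn φ) x *ᵥ Gr (fn u) x) ⬝ᵥ (NT (Hs (fn u) x) p *ᵥ Gr (fn u) x))
      - ((p : ℝ) + 2) * ((Gr (fn u) x ⬝ᵥ Gr (fn u) x) *
        ∑ i, ∑ j, NT (Hs (fn u) x) p i j * Hs (fn φ) x i j)) := by
    intro x
    simp only [← hs_fn, ← gr_fn, ← ev_apply, map_mul, map_sub, map_add, map_natCast,
      map_ofNat, dotProduct, mulVec, map_sum, Matrix.map_apply, map_NT]
  rw [← integral_const_mul]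
  simp_rw [e1, ← e2]
  rw [integral_add (hint _ hdv) (hint _ hcomp), h0, zero_add]

/-- `N_m` of the Hessian is continuous -/
lemma continuous_Nf (u : SR n) (m : ℕ) : Continuous fun x => Nf (Hs (fn u) x) m := by
  unfold Nf
  simp_rw [← sig2_fn]
  exact Real.continuous_sqrt.comp (fn_smooth _).continuous

lemma continuous_sig (u : SR n) (m : ℕ) : Continuous fun x => sig (Hs (fn u) x) m := by
  simp_rw [← sig_fn]
  exact (fn_smooth _).continuous

lemma Hs_symm (u : SR n) (x : E n) : (Hs (fn u) x)ᵀ = Hs (fn u) x := by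
  rw [← hs_fn, ← Matrix.transpose_map, hs_transpose DD DD_comm]

lemma Hs_eq_zero {φ : SR n} {x : E n} (hx : x ∉ tsupport (fn φ)) : Hs (fn φ) x = 0 := by
  have h1 : ∀ i, tsupport (pd i (fn φ)) ⊆ tsupport (fn φ) := fun i =>
    tsupport_fderiv_apply_subset ℝ _
  ext i j
  have h2 : x ∉ tsupport (pd i (pd j (fn φ))) := by
    intro hcon
    have h3 : tsupport (pd i (pd j (fn φ))) ⊆ tsupport (pd j (fn φ)) :=
      tsupport_fderiv_apply_subset ℝ _
    exact hx (h1 j (h3 hcon))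
  change pd i (pd j (fn φ)) x = 0
  exact image_eq_zero_of_notMem_tsupport h2

/-- one step of the local estimate -/
lemma step_estimate (Λ δ ρ ρ' K : ℝ) (hΛ : 0 ≤ Λ) (hδ : 0 ≤ δ) (hK : 0 ≤ K) (p : ℕ) (hp : Even p)
    (φ : SR n) (hφ0 : ∀ x, 0 ≤ fn φ x) (hφ1 : ∀ x, fn φ x ≤ 1)
    (hφρ : ∀ x ∈ ball (0 : E n) ρ, fn φ x = 1)
    (hφs : tsupport (fn φ) ⊆ closedBall 0 ρ') (hφK : ∀ x i j, |Hs (fn φ) x i j| ≤ K)
    (u : SR n) (hu : ∀ x ∈ closedBall (0 : E n) ρ', ∀ i, |Gr (fn u) x i| ≤ Λ)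
    (hpair : ∀ x ∈ closedBall (0 : E n) ρ', PairLB (Hs (fn u) x) δ) :
    ∫ x in ball (0 : E n) ρ, Nf (Hs (fn u) x) (p + 2) ≤
      ((p + 4) * n ^ 3 * K * Λ ^ 2 * 2 ^ n + 2 ^ (2 * n + 1) * δ) *
        ∫ x in closedBall (0 : E n) ρ', Nf (Hs (fn u) x) p := by
  have hcs : CS φ := HasCompactSupport.of_support_subset_isCompact
    (isCompact_closedBall (0 : E n) ρ') ((subset_tsupport _).trans hφs)
  have hφc : Continuous (fn φ) := (fn_smooth φ).continuous
  have hn0 : (0 : ℝ) ≤ n := Nat.cast_nonneg n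
  -- the pointwise bound for the right-hand side
  set F : E n → ℝ := fun x =>
    (2 * ((Hs (fn φ) x *ᵥ Gr (fn u) x) ⬝ᵥ (NT (Hs (fn u) x) p *ᵥ Gr (fn u) x))
      - ((p : ℝ) + 2) * ((Gr (fn u) x ⬝ᵥ Gr (fn u) x) *
        ∑ i, ∑ j, NT (Hs (fn u) x) p i j * Hs (fn φ) x i j)) with hF
  have hFb : ∀ x ∈ closedBall (0 : E n) ρ', |F x| ≤
      (p + 4) * n ^ 3 * K * Λ ^ 2 * (2 ^ n * Nf (Hs (fn u) x) p) := by
    intro x hx
    set N := 2 ^ n * Nf (Hs (fn u) x) p with hN
    have hN0 : 0 ≤ N := mul_nonneg (by positivity) (Nf_nonneg _ _)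
    have hNT : ∀ i j, |NT (Hs (fn u) x) p i j| ≤ N := fun i j => NT_le_Nf _ (Hs_symm u x) p i j
    have hG : ∀ i, |Gr (fn u) x i| ≤ Λ := hu x hx
    have b1 : ∀ i, |(Hs (fn φ) x *ᵥ Gr (fn u) x) i| ≤ n * (K * Λ) := by
      intro i
      rw [mulVec, dotProduct]
      refine (Finset.abs_sum_le_sum_abs _ _).trans ?_
      refine (Finset.sum_le_sum (g := fun _ => K * Λ) fun j _ => ?_).trans ?_
      · rw [abs_mul]
        exact mul_le_mul (hφK x i j) (hG j) (abs_nonneg _) hK
      · simp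
    have b2 : ∀ i, |(NT (Hs (fn u) x) p *ᵥ Gr (fn u) x) i| ≤ n * (N * Λ) := by
      intro i
      rw [mulVec, dotProduct]
      refine (Finset.abs_sum_le_sum_abs _ _).trans ?_
      refine (Finset.sum_le_sum (g := fun _ => N * Λ) fun j _ => ?_).trans ?_
      · rw [abs_mul]
        exact mul_le_mul (hNT i j) (hG j) (abs_nonneg _) hN0
      · simp
    have b3 : |(Hs (fn φ) x *ᵥ Gr (fn u) x) ⬝ᵥ (NT (Hs (fn u) x) p *ᵥ Gr (fn u) x)| ≤
        n * ((n * (K * Λ)) * (n * (N * Λ))) := by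
      rw [dotProduct]
      refine (Finset.abs_sum_le_sum_abs _ _).trans ?_
      refine (Finset.sum_le_sum (g := fun _ => (n * (K * Λ)) * (n * (N * Λ))) fun j _ => ?_).trans ?_
      · rw [abs_mul]
        exact mul_le_mul (b1 j) (b2 j) (abs_nonneg _) (by positivity)
      · simp
    have b4 : |Gr (fn u) x ⬝ᵥ Gr (fn u) x| ≤ n * (Λ * Λ) := by
      rw [dotProduct]
      refine (Finset.abs_sum_le_sum_abs _ _).trans ?_
      refine (Finset.sum_le_sum (g := fun _ => Λ * Λ) fun j _ => ?_).trans ?_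
      · rw [abs_mul]
        exact mul_le_mul (hG j) (hG j) (abs_nonneg _) hΛ
      · simp
    have b5 : |∑ i, ∑ j, NT (Hs (fn u) x) p i j * Hs (fn φ) x i j| ≤ n * (n * (N * K)) := by
      refine (Finset.abs_sum_le_sum_abs _ _).trans ?_
      refine (Finset.sum_le_sum (g := fun _ => n * (N * K)) fun i _ => ?_).trans ?_
      · refine (Finset.abs_sum_le_sum_abs _ _).trans ?_
        refine (Finset.sum_le_sum (g := fun _ => N * K) fun j _ => ?_).trans ?_
        · rw [abs_mul]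
          exact mul_le_mul (hNT i j) (hφK x i j) (abs_nonneg _) hN0
        · simp
      · simp
    rw [hF]
    have b6 : |(Gr (fn u) x ⬝ᵥ Gr (fn u) x) * ∑ i, ∑ j, NT (Hs (fn u) x) p i j * Hs (fn φ) x i j| ≤
        (n * (Λ * Λ)) * (n * (n * (N * K))) := by
      rw [abs_mul]
      exact mul_le_mul b4 b5 (abs_nonneg _) (by positivity)
    have hp2 : (0 : ℝ) ≤ (p : ℝ) + 2 := by positivity
    calc |2 * ((Hs (fn φ) x *ᵥ Gr (fn u) x) ⬝ᵥ (NT (Hs (fn u) x) p *ᵥ Gr (fn u) x))
        - ((p : ℝ) + 2) * ((Gr (fn u) x ⬝ᵥ Gr (fn u) x) *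
          ∑ i, ∑ j, NT (Hs (fn u) x) p i j * Hs (fn φ) x i j)|
        ≤ 2 * |(Hs (fn φ) x *ᵥ Gr (fn u) x) ⬝ᵥ (NT (Hs (fn u) x) p *ᵥ Gr (fn u) x)| +
          ((p : ℝ) + 2) * |(Gr (fn u) x ⬝ᵥ Gr (fn u) x) *
          ∑ i, ∑ j, NT (Hs (fn u) x) p i j * Hs (fn φ) x i j| := by
          refine (abs_sub _ _).trans ?_
          rw [abs_mul, abs_mul, abs_of_nonneg hp2, abs_of_nonneg (by norm_num : (0 : ℝ) ≤ 2)]
      _ ≤ 2 * (n * ((n * (K * Λ)) * (n * (N * Λ)))) + ((p : ℝ) + 2) *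
          ((n * (Λ * Λ)) * (n * (n * (N * K)))) :=
          add_le_add (mul_le_mul_of_nonneg_left b3 (by norm_num)) (mul_le_mul_of_nonneg_left b6 hp2)
      _ = (p + 4) * n ^ 3 * K * Λ ^ 2 * N := by ring
  have hFz : ∀ x, x ∉ closedBall (0 : E n) ρ' → F x = 0 := by
    intro x hx
    have h1 : Hs (fn φ) x = 0 := Hs_eq_zero fun h => hx (hφs h)
    rw [hF]
    simp [h1]
  have hNint : ∀ m, IntegrableOn (fun x => Nf (Hs (fn u) x) m) (closedBall (0 : E n) ρ') :=
    fun m => (continuous_Nf u m).continuousOn.integrableOn_compact (isCompact_closedBall _ _)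
  have hball : ball (0 : E n) ρ ⊆ closedBall (0 : E n) ρ' := by
    intro x hx
    apply hφs
    apply subset_tsupport
    rw [Function.mem_support, hφρ x hx]
    exact one_ne_zero
  set I := ∫ x in closedBall (0 : E n) ρ', Nf (Hs (fn u) x) p with hI
  have hI0 : 0 ≤ I := integral_nonneg fun x => Nf_nonneg _ _
  -- the double integration by parts
  have hmain := int_double_ibp u φ hcs p
  have hFI : |∫ x, F x| ≤ (p + 4) * n ^ 3 * K * Λ ^ 2 * 2 ^ n * I := by
    have h1 : ∫ x, F x = ∫ x in closedBall (0 : E n) ρ', F x := by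
      rw [setIntegral_eq_integral_of_forall_compl_eq_zero]
      exact hFz
    rw [h1, hI, ← integral_const_mul, ← Real.norm_eq_abs]
    refine norm_integral_le_of_norm_le ((hNint p).const_mul _) ?_
    refine (ae_restrict_iff' measurableSet_closedBall).mpr (ae_of_all _ fun x hx => ?_)
    rw [Real.norm_eq_abs]
    refine (hFb x hx).trans (le_of_eq (by ring))
  have hsigint : Integrable fun x => fn φ x * sig (Hs (fn u) x) (p + 2) :=
    (hφc.mul (continuous_sig u _)).integrable_of_hasCompactSupport (HasCompactSupport.mul_right hcs)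
  have hNfint : ∀ m, Integrable fun x => fn φ x * Nf (Hs (fn u) x) m := fun m =>
    (hφc.mul (continuous_Nf u _)).integrable_of_hasCompactSupport (HasCompactSupport.mul_right hcs)
  have hsig : ∫ x, fn φ x * sig (Hs (fn u) x) (p + 2) ≤
      (p + 4) * n ^ 3 * K * Λ ^ 2 * 2 ^ n * I := by
    set J := ∫ x, fn φ x * sig (Hs (fn u) x) (p + 2) with hJ
    have h1 : 2 * ((p : ℝ) + 2) * ((p : ℝ) + 1) * J ≤ (p + 4) * n ^ 3 * K * Λ ^ 2 * 2 ^ n * I := by
      rw [hmain]
      exact (le_abs_self _).trans hFI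
    rcases le_or_gt 0 J with hJ0 | hJ0
    · refine le_trans ?_ h1
      have h2 : (1 : ℝ) ≤ 2 * ((p : ℝ) + 2) * ((p : ℝ) + 1) := by
        have : (0 : ℝ) ≤ p := Nat.cast_nonneg p
        nlinarith
      nlinarith
    · exact hJ0.le.trans (by positivity)
  have hφN : ∫ x, fn φ x * Nf (Hs (fn u) x) p ≤ I := by
    have h1 : ∫ x, fn φ x * Nf (Hs (fn u) x) p =
        ∫ x in closedBall (0 : E n) ρ', fn φ x * Nf (Hs (fn u) x) p := by
      rw [setIntegral_eq_integral_of_forall_compl_eq_zero]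
      intro x hx
      have : fn φ x = 0 := image_eq_zero_of_notMem_tsupport fun h => hx (hφs h)
      rw [this, zero_mul]
    rw [h1, hI]
    refine integral_mono (hNfint p).integrableOn (hNint p) fun x => ?_
    exact mul_le_of_le_one_left (Nf_nonneg _ _) (hφ1 x)
  calc ∫ x in ball (0 : E n) ρ, Nf (Hs (fn u) x) (p + 2)
      = ∫ x in ball (0 : E n) ρ, fn φ x * Nf (Hs (fn u) x) (p + 2) := by
        refine setIntegral_congr_fun measurableSet_ball fun x hx => ?_
        simp only [hφρ x hx, one_mul]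
    _ ≤ ∫ x, fn φ x * Nf (Hs (fn u) x) (p + 2) :=
        setIntegral_le_integral (hNfint _) (ae_of_all _ fun x => mul_nonneg (hφ0 x) (Nf_nonneg _ _))
    _ ≤ ∫ x, (fn φ x * sig (Hs (fn u) x) (p + 2) +
          2 ^ (2 * n + 1) * δ * (fn φ x * Nf (Hs (fn u) x) p)) := by
        refine integral_mono (hNfint _) (hsigint.add ((hNfint p).const_mul _)) fun x => ?_
        by_cases hx : x ∈ closedBall (0 : E n) ρ'
        · have h1 := Nf_le_sig (Hs (fn u) x) (Hs_symm u x) δ hδ (hpair x hx) p hp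
          have h2 := mul_le_mul_of_nonneg_left h1 (hφ0 x)
          refine h2.trans (le_of_eq (by ring))
        · have : fn φ x = 0 := image_eq_zero_of_notMem_tsupport fun h => hx (hφs h)
          simp [this]
    _ = (∫ x, fn φ x * sig (Hs (fn u) x) (p + 2)) +
          2 ^ (2 * n + 1) * δ * ∫ x, fn φ x * Nf (Hs (fn u) x) p := by
        rw [integral_add hsigint ((hNfint p).const_mul _), integral_const_mul]
    _ ≤ (p + 4) * n ^ 3 * K * Λ ^ 2 * 2 ^ n * I + 2 ^ (2 * n + 1) * δ * I :=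
        add_le_add hsig (mul_le_mul_of_nonneg_left hφN (by positivity))
    _ = _ := by ring

end Pool.Agent.H422IV
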