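import Mathlib
import Pool.Agent.H422IV.IBP

/-!
# The local estimate for graphs
-/

set_option autoImplicit false
set_option linter.unusedSectionVars false

open MeasureTheory Metric Set Filter Topology Matrix
open scoped ENNReal NNReal ContDiff

namespace Pool.Agent.H422IV

variable {n : ℕ}

/-- a cutoff function in the ring of smooth functions -/
lemma exists_cutoff (n : ℕ) (ρ ρ' : ℝ) (hρ : 0 < ρ) (hρρ' : ρ < ρ') :
    ∃ (φ : SR n) (K : ℝ), 0 ≤ K ∧ (∀ x, 0 ≤ fn φ x) ∧ (∀ x, fn φ x ≤ 1) ∧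
      (∀ x ∈ closedBall (0 : E n) ρ, fn φ x = 1) ∧ tsupport (fn φ) ⊆ closedBall 0 ρ' ∧
      (∀ x i j, |Hs (fn φ) x i j| ≤ K) := by
  set b : ContDiffBump (0 : E n) := ⟨ρ, ρ', hρ, hρρ'⟩ with hb
  have hsm : ContDiff ℝ ∞ (b : E n → ℝ) := b.contDiff
  have hts : tsupport (b : E n → ℝ) = closedBall 0 ρ' := b.tsupport_eq
  have hcs : CS (mkS (b : E n → ℝ) hsm) := b.hasCompactSupport
  have hcont : ∀ i j, ∃ K : ℝ, ∀ x, |Hs (fn (mkS (b : E n → ℝ) hsm)) x i j| ≤ K := by
    intro i j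
    have h1 : CS (DD i (DD j (mkS (b : E n → ℝ) hsm))) := CS_DD _ _ (CS_DD _ _ hcs)
    have h2 : Continuous (fn (DD i (DD j (mkS (b : E n → ℝ) hsm)))) := (fn_smooth _).continuous
    obtain ⟨C, hC⟩ := h2.bounded_above_of_compact_support h1
    exact ⟨C, fun x => by
      have := hC x
      rw [Real.norm_eq_abs] at this
      exact this⟩
  choose K hK using hcont
  refine ⟨mkS (b : E n → ℝ) hsm, ∑ i, ∑ j, |K i j|, by positivity, fun x => b.nonneg,
    fun x => b.le_one, fun x hx => b.one_of_mem_closedBall hx, hts.le, ?_⟩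
  intro x i j
  refine (hK i j x).trans ((le_abs_self _).trans ?_)
  refine le_trans ?_ (Finset.single_le_sum (f := fun i => ∑ j, |K i j|)
    (fun i _ => Finset.sum_nonneg fun j _ => abs_nonneg _) (Finset.mem_univ i))
  exact Finset.single_le_sum (f := fun j => |K i j|) (fun j _ => abs_nonneg _) (Finset.mem_univ j)

/-- the local estimate for globally defined functions -/
lemma local_global (n : ℕ) (Λ δ r : ℝ) (hΛ : 0 ≤ Λ) (hδ : 0 ≤ δ) (k : ℕ) :
    ∀ ρ : ℝ, 0 < ρ → ρ < r → ∃ C : ℝ, ∀ u : SR n,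
      (∀ x ∈ ball (0 : E n) r, ∀ i, |Gr (fn u) x i| ≤ Λ) →
      (∀ x ∈ ball (0 : E n) r, PairLB (Hs (fn u) x) δ) →
      ∫ x in closedBall (0 : E n) ρ, Nf (Hs (fn u) x) (2 * k) ≤ C := by
  induction k with
  | zero =>
    intro ρ hρ hρr
    refine ⟨∫ x in closedBall (0 : E n) ρ, (1 : ℝ), fun u _ _ => ?_⟩
    simp only [mul_zero, Nf_zero]
    exact le_refl _
  | succ k ih =>
    intro ρ hρ hρr
    set ρ₁ := (2 * ρ + r) / 3 with hρ₁
    set ρ₂ := (ρ + 2 * r) / 3 with hρ₂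
    have h1 : ρ < ρ₁ := by rw [hρ₁]; linarith
    have h2 : ρ₁ < ρ₂ := by rw [hρ₁, hρ₂]; linarith
    have h3 : ρ₂ < r := by rw [hρ₂]; linarith
    obtain ⟨C, hC⟩ := ih ρ₂ (by linarith) h3
    obtain ⟨φ, K, hK, hφ0, hφ1, hφρ, hφs, hφK⟩ := exists_cutoff n ρ₁ ρ₂ (by linarith) h2
    refine ⟨(((2 * k : ℕ) : ℝ) + 4) * n ^ 3 * K * Λ ^ 2 * 2 ^ n * C + 2 ^ (2 * n + 1) * δ * C,
      fun u hu hpair => ?_⟩
    have hsub : closedBall (0 : E n) ρ₂ ⊆ ball (0 : E n) r := closedBall_subset_ball h3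
    have hstep := step_estimate Λ δ ρ₁ ρ₂ K hΛ hδ hK (2 * k) (even_two_mul k) φ hφ0 hφ1
      (fun x hx => hφρ x (ball_subset_closedBall hx)) hφs hφK u
      (fun x hx => hu x (hsub hx)) (fun x hx => hpair x (hsub hx))
    have hCu := hC u hu hpair
    have hI0 : 0 ≤ ∫ x in closedBall (0 : E n) ρ₂, Nf (Hs (fn u) x) (2 * k) :=
      integral_nonneg fun x => Nf_nonneg _ _
    have e1 : 2 * (k + 1) = 2 * k + 2 := by ring
    rw [e1]
    calc ∫ x in closedBall (0 : E n) ρ, Nf (Hs (fn u) x) (2 * k + 2)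
        ≤ ∫ x in ball (0 : E n) ρ₁, Nf (Hs (fn u) x) (2 * k + 2) := by
          refine setIntegral_mono_set ?_ (ae_of_all _ fun x => Nf_nonneg _ _)
            (closedBall_subset_ball h1).eventuallyLE
          exact ((continuous_Nf u _).continuousOn.integrableOn_compact
            (isCompact_closedBall _ _)).mono_set ball_subset_closedBall
      _ ≤ _ := hstep
      _ ≤ ((((2 * k : ℕ) : ℝ) + 4) * n ^ 3 * K * Λ ^ 2 * 2 ^ n + 2 ^ (2 * n + 1) * δ) * C := by
          apply mul_le_mul_of_nonneg_left hCu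
          positivity
      _ = _ := by ring

lemma Hs_congr {u v : E n → ℝ} {x : E n} (h : u =ᶠ[𝓝 x] v) : Hs u x = Hs v x := by
  ext i j
  change pd i (pd j u) x = pd i (pd j v) x
  have h1 : pd j u =ᶠ[𝓝 x] pd j v := by
    filter_upwards [h.eventuallyEq_nhds] with y hy
    unfold pd
    rw [hy.fderiv_eq]
  unfold pd at h1 ⊢
  rw [h1.fderiv_eq]

lemma Gr_congr {u v : E n → ℝ} {x : E n} (h : u =ᶠ[𝓝 x] v) : Gr u x = Gr v x := by
  ext i
  unfold Gr pd
  rw [h.fderiv_eq]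

/-- extension of a smooth function on a ball to the whole space, after shrinking the ball -/
lemma exists_extension (r ρ : ℝ) (hρ : 0 < ρ) (hρr : ρ < r) (u : E n → ℝ)
    (hu : ContDiffOn ℝ ∞ u (ball 0 r)) : ∃ v : SR n, ∀ x ∈ closedBall (0 : E n) ρ, fn v x = u x := by
  set ρ' := (ρ + r) / 2 with hρ'
  obtain ⟨φ, K, -, -, -, hφ1, hφs, -⟩ := exists_cutoff n ρ ρ' hρ (by linarith)
  have hsub : tsupport (fn φ) ⊆ ball (0 : E n) r := hφs.trans (closedBall_subset_ball (by linarith))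
  have hsm : ContDiff ℝ ∞ (fun x => fn φ x * u x) := by
    rw [contDiff_iff_contDiffAt]
    intro x
    by_cases hx : x ∈ ball (0 : E n) r
    · exact (fn_smooth φ).contDiffAt.mul (hu.contDiffAt (isOpen_ball.mem_nhds hx))
    · have h1 : x ∉ tsupport (fn φ) := fun h => hx (hsub h)
      have h2 : (fun y => fn φ y * u y) =ᶠ[𝓝 x] fun _ => 0 := by
        have h3 : ∀ᶠ y in 𝓝 x, y ∉ tsupport (fn φ) :=
          (isClosed_tsupport _).isOpen_compl.eventually_mem h1
        filter_upwards [h3] with y hy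
        rw [image_eq_zero_of_notMem_tsupport hy, zero_mul]
      exact contDiffAt_const.congr_of_eventuallyEq h2
  refine ⟨mkS _ hsm, fun x hx => ?_⟩
  rw [fn_mk, hφ1 x hx, one_mul]

/-- **The local estimate.** For a smooth function on `B_r` with gradient bounded by `Λ` and such
that all `2 × 2` minors of its Hessian in orthonormal frames are at least `-δ`, the integral
over `B_ρ`, `ρ < r`, of `N_m(D²u)` is bounded by a constant, for all even `m`. -/
theorem local_estimate (n : ℕ) (Λ δ r ρ : ℝ) (hΛ : 0 ≤ Λ) (hδ : 0 ≤ δ) (hρ : 0 < ρ)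
    (hρr : ρ < r) (k : ℕ) : ∃ C : ℝ, ∀ u : E n → ℝ, ContDiffOn ℝ ∞ u (ball 0 r) →
      (∀ x ∈ ball (0 : E n) r, ∀ i, |Gr u x i| ≤ Λ) →
      (∀ x ∈ ball (0 : E n) r, PairLB (Hs u x) δ) →
      IntegrableOn (fun x => Nf (Hs u x) (2 * k)) (closedBall (0 : E n) ρ) ∧
      ∫ x in closedBall (0 : E n) ρ, Nf (Hs u x) (2 * k) ≤ C := by
  set ρ₁ := (2 * ρ + r) / 3 with hρ₁
  set ρ₂ := (ρ + 2 * r) / 3 with hρ₂
  have h1 : ρ < ρ₁ := by rw [hρ₁]; linarith
  have h2 : ρ₁ < ρ₂ := by rw [hρ₁, hρ₂]; linarith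
  have h3 : ρ₂ < r := by rw [hρ₂]; linarith
  obtain ⟨C, hC⟩ := local_global n Λ δ ρ₁ hΛ hδ k ρ hρ h1
  refine ⟨C, fun u hu hG hP => ?_⟩
  obtain ⟨v, hv⟩ := exists_extension r ρ₂ (by linarith) h3 u hu
  have hev : ∀ x ∈ closedBall (0 : E n) ρ₁, fn v =ᶠ[𝓝 x] u := by
    intro x hx
    have hx2 : x ∈ ball (0 : E n) ρ₂ := closedBall_subset_ball h2 hx
    filter_upwards [isOpen_ball.mem_nhds hx2] with y hy
    exact hv y (ball_subset_closedBall hy)
  have hsub : closedBall (0 : E n) ρ₁ ⊆ ball (0 : E n) r := closedBall_subset_ball (by linarith)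
  have hsub' : closedBall (0 : E n) ρ ⊆ closedBall (0 : E n) ρ₁ := closedBall_subset_closedBall h1.le
  have hCv := hC v (fun x hx i => by
      rw [Gr_congr (hev x (ball_subset_closedBall hx))]
      exact hG x (hsub (ball_subset_closedBall hx)) i)
    (fun x hx => by
      rw [Hs_congr (hev x (ball_subset_closedBall hx))]
      exact hP x (hsub (ball_subset_closedBall hx)))
  have heq : EqOn (fun x => Nf (Hs (fn v) x) (2 * k)) (fun x => Nf (Hs u x) (2 * k))
      (closedBall (0 : E n) ρ) := fun x hx => by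
    simp only [Hs_congr (hev x (hsub' hx))]
  constructor
  · refine IntegrableOn.congr_fun ?_ heq measurableSet_closedBall
    exact (continuous_Nf v _).continuousOn.integrableOn_compact (isCompact_closedBall _ _)
  · rw [← setIntegral_congr_fun measurableSet_closedBall heq]
    exact hCv

end Pool.Agent.H422IV
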