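import Mathlib
import Pool.Agent.H422IV.Local

/-!
# The normal exponential map of a graph and its Jacobian
-/

set_option autoImplicit false
set_option linter.unusedSectionVars false

open MeasureTheory Metric Set Filter Topology Matrix
open scoped ENNReal NNReal ContDiff

namespace Pool.Agent.H422IV

variable {n : ℕ}

/-- Determinant of the model endomorphism of `ℝ × ℝⁿ`. -/
lemma det_model (T : (ℝ × E n) →L[ℝ] (ℝ × E n)) (w : ℝ) (g : Fin n → ℝ)
    (B : Matrix (Fin n) (Fin n) ℝ)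
    (h11 : (T (1, 0)).1 = w) (h21 : ∀ i, (T (1, 0)).2 i = -(w * g i))
    (h12 : ∀ j, (T (0, EuclideanSpace.single j 1)).1 = ∑ i, g i * B i j)
    (h22 : ∀ i j, (T (0, EuclideanSpace.single j 1)).2 i = B i j) :
    T.det = w * (1 + ∑ i, g i ^ 2) * B.det := by
  set b : Module.Basis (Unit ⊕ Fin n) ℝ (ℝ × E n) :=
    (Module.Basis.singleton Unit ℝ).prod (EuclideanSpace.basisFun (Fin n) ℝ).toBasis with hb
  have hM : LinearMap.toMatrix b b (T : (ℝ × E n) →ₗ[ℝ] (ℝ × E n)) =
      fromBlocks (of fun _ _ => w) (of fun _ j => g j) (of fun i _ => -(w * g i)) 1 *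
        fromBlocks 1 0 0 B := by
    rw [fromBlocks_multiply]
    ext a c
    rcases a with a | a <;> rcases c with c | c
    · rw [LinearMap.toMatrix_apply, fromBlocks_apply₁₁]
      simp [hb, Module.Basis.prod_apply, h11]
    · rw [LinearMap.toMatrix_apply, fromBlocks_apply₁₂]
      simp [hb, Module.Basis.prod_apply, h12, Matrix.mul_apply]
    · rw [LinearMap.toMatrix_apply, fromBlocks_apply₂₁]
      simp [hb, Module.Basis.prod_apply, h21]
    · rw [LinearMap.toMatrix_apply, fromBlocks_apply₂₂]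
      simp [hb, Module.Basis.prod_apply, h22]
  rw [ContinuousLinearMap.det, ← LinearMap.det_toMatrix b, hM, det_mul, det_fromBlocks_one₂₂,
    det_fromBlocks_zero₂₁, det_one, one_mul, det_unique]
  congr 1
  simp only [Matrix.sub_apply, Matrix.mul_apply, of_apply]
  rw [mul_add, mul_one, Finset.mul_sum, sub_eq_add_neg, ← Finset.sum_neg_distrib]
  congr 1
  refine Finset.sum_congr rfl fun i _ => ?_
  ring

lemma det_one_add_smul (A : Matrix (Fin n) (Fin n) ℝ) (s : ℝ) :
    (1 + s • A).det = ∑ m ∈ Finset.range (n + 1), sig A m * s ^ m := by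
  have h1 : (1 + s • A).det = (gen A).det.eval s := by
    rw [← Polynomial.coe_evalRingHom, RingHom.map_det]
    congr 1
    ext i j
    rw [RingHom.mapMatrix_apply, Matrix.map_apply, gen_apply, Matrix.add_apply, Matrix.smul_apply,
      Matrix.one_apply, Matrix.one_apply]
    split_ifs
    · simp
      ring
    · simp
      ring
  have hdeg : (gen A).det.natDegree < n + 1 := by
    have h2 : gen A = (Polynomial.X : Polynomial ℝ) • A.map Polynomial.C +
        (1 : Matrix (Fin n) (Fin n) ℝ).map Polynomial.C := by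
      rw [Matrix.map_one _ Polynomial.C_0 Polynomial.C_1, add_comm]
      rfl
    have h3 := Polynomial.natDegree_det_X_add_C_le A (1 : Matrix (Fin n) (Fin n) ℝ)
    rw [← h2, Fintype.card_fin] at h3
    omega
  rw [h1, Polynomial.eval_eq_sum_range' hdeg]
  rfl

/-- `1 / √(1 + |∇u|²)` -/
noncomputable def wf (u : E n → ℝ) (y : E n) : ℝ := (Real.sqrt (1 + ∑ i, Gr u y i ^ 2))⁻¹

lemma one_add_pos (u : E n → ℝ) (y : E n) : 0 < 1 + ∑ i, Gr u y i ^ 2 := by positivity

lemma wf_pos (u : E n → ℝ) (y : E n) : 0 < wf u y :=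
  inv_pos.mpr (Real.sqrt_pos.mpr (one_add_pos u y))

lemma wf_sq (u : E n → ℝ) (y : E n) : wf u y ^ 2 * (1 + ∑ i, Gr u y i ^ 2) = 1 := by
  unfold wf
  rw [inv_pow, Real.sq_sqrt (one_add_pos u y).le, inv_mul_cancel₀ (one_add_pos u y).ne']

lemma wf_le_one (u : E n → ℝ) (y : E n) : wf u y ≤ 1 := by
  unfold wf
  apply inv_le_one_of_one_le₀
  rw [Real.one_le_sqrt]
  have : 0 ≤ ∑ i, Gr u y i ^ 2 := by positivity
  linarith

lemma contDiff_wf (u : SR n) : ContDiff ℝ ∞ (wf (fn u)) := by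
  unfold wf
  have h1 : ContDiff ℝ ∞ fun y => 1 + ∑ i, Gr (fn u) y i ^ 2 := by
    refine contDiff_const.add (ContDiff.sum fun i _ => ?_)
    exact (fn_smooth (DD i u)).pow 2
  refine ContDiff.inv (h1.sqrt fun y => (one_add_pos _ y).ne') fun y => ?_
  exact (Real.sqrt_pos.mpr (one_add_pos _ y)).ne'

/-- the function `w = 1/√(1+|∇u|²)` in the ring of smooth functions -/
noncomputable def wS (u : SR n) : SR n := mkS (wf (fn u)) (contDiff_wf u)

lemma wS_sq (u : SR n) : wS u * wS u * (1 + ∑ i, DD i u * DD i u) = 1 := by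
  apply fn_ext
  intro y
  have h := wf_sq (fn u) y
  rw [fn_mul, fn_mul, fn_add, fn_sum, fn_one]
  simp only [fn_mul]
  refine Eq.trans ?_ h
  change wf (fn u) y * wf (fn u) y * (1 + ∑ i, Gr (fn u) y i * Gr (fn u) y i) = _
  rw [sq]
  simp_rw [sq]

/-- derivative of `w` -/
lemma DD_wS (u : SR n) (j : Fin n) :
    DD j (wS u) = -(wS u * wS u * wS u * ∑ k, DD k u * DD j (DD k u)) := by
  have h := congrArg (DD j) (wS_sq u)
  set w := wS u with hw
  set S := 1 + ∑ i, DD i u * DD i u with hS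
  set Q := ∑ k, DD k u * DD j (DD k u) with hQ
  have hSj : DD j S = 2 * Q := by
    rw [hS, hQ, map_add, Derivation.map_one_eq_zero, zero_add, map_sum, Finset.mul_sum]
    refine Finset.sum_congr rfl fun i _ => ?_
    rw [Derivation.leibniz, smul_eq_mul]
    ring
  rw [Derivation.leibniz, Derivation.leibniz, smul_eq_mul, smul_eq_mul, smul_eq_mul,
    Derivation.map_one_eq_zero, hSj] at h
  have h2 : w * w * S = 1 := wS_sq u
  have h3 : (2 : SR n) * (DD j w + w * w * w * Q) = 0 := by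
    calc (2 : SR n) * (DD j w + w * w * w * Q)
        = w * (w * w * (2 * Q) + S * (w * DD j w + w * DD j w)) +
          2 * DD j w * (1 - w * w * S) := by ring
      _ = 0 := by rw [h, h2]; ring
  have h4 : (2 : SR n) * (DD j w + w * w * w * Q) = 2 * 0 := by rw [h3, mul_zero]
  have h5 : DD j w + w * w * w * Q = 0 := by
    apply fn_ext
    intro z
    have h6 := congrArg (fun f => fn f z) h3
    have h7 : fn (2 : SR n) z = 2 := map_ofNat (ev z) 2
    change fn (2 * (DD j w + w * w * w * Q)) z = 0 at h6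
    rw [fn_mul, h7] at h6
    rw [fn_zero]
    linarith
  exact eq_neg_of_add_eq_zero_left h5

/-- the matrix `P = w (1 - w² ∇u ∇uᵀ)` -/
noncomputable def Pm (u : E n → ℝ) (y : E n) : Matrix (Fin n) (Fin n) ℝ :=
  Matrix.of fun i k => wf u y * ((1 : Matrix (Fin n) (Fin n) ℝ) i k -
    wf u y ^ 2 * (Gr u y i * Gr u y k))

/-- the derivative of the vector field `∇u / W` -/
noncomputable def Jm (u : E n → ℝ) (y : E n) : Matrix (Fin n) (Fin n) ℝ := Pm u y * Hs u y

lemma deriv_wu (u : SR n) (i j : Fin n) (y : E n) :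
    fn (DD j (wS u * DD i u)) y = Jm (fn u) y i j := by
  rw [Derivation.leibniz, DD_wS, smul_eq_mul, smul_eq_mul, Jm, Matrix.mul_apply]
  have h1 : ∀ k, Pm (fn u) y i k * Hs (fn u) y k j =
      (if i = k then wf (fn u) y * Hs (fn u) y k j else 0) -
        wf (fn u) y ^ 3 * Gr (fn u) y i * (Gr (fn u) y k * Hs (fn u) y k j) := by
    intro k
    rw [Pm, of_apply, Matrix.one_apply]
    split_ifs <;> ring
  rw [Finset.sum_congr rfl fun k _ => h1 k, Finset.sum_sub_distrib, Finset.sum_ite_eq,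
    if_pos (Finset.mem_univ i), ← Finset.mul_sum, fn_add, fn_mul, fn_mul]
  have h2 : fn (-(wS u * wS u * wS u * ∑ k, DD k u * DD j (DD k u))) y =
      -(wf (fn u) y ^ 3 * ∑ k, Gr (fn u) y k * Hs (fn u) y k j) := by
    have h3 : ∀ k, fn (DD j (DD k u)) y = Hs (fn u) y k j := by
      intro k
      have h4 := congrFun (congrFun (Hs_symm u y) k) j
      rw [← h4]
      rfl
    have h5 : fn (wS u) y = wf (fn u) y := rfl
    have h6 : ∀ k, fn (DD k u) y = Gr (fn u) y k := fun k => rfl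
    simp only [← ev_apply, map_neg, map_mul, map_sum]
    simp only [ev_apply, h3, h5, h6]
    ring
  have h7 : fn (DD j (DD i u)) y = Hs (fn u) y i j := by
    have h4 := congrFun (congrFun (Hs_symm u y) i) j
    rw [← h4]
    rfl
  rw [h2, h7]
  have h5 : fn (wS u) y = wf (fn u) y := rfl
  have h6 : ∀ k, fn (DD k u) y = Gr (fn u) y k := fun k => rfl
  rw [h5, h6]
  ring

/-- the vector field `∇u / W` -/
noncomputable def Hv (u : E n → ℝ) (y : E n) : E n := WithLp.toLp 2 fun i => wf u y * Gr u y i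

lemma contDiff_Hv (u : SR n) : ContDiff ℝ ∞ (Hv (fn u)) := by
  rw [contDiff_euclidean]
  intro i
  exact fn_smooth (wS u * DD i u)

lemma fderiv_Hv (u : SR n) (y : E n) (i j : Fin n) :
    (fderiv ℝ (Hv (fn u)) y (EuclideanSpace.single j 1)) i = Jm (fn u) y i j := by
  have hd : DifferentiableAt ℝ (Hv (fn u)) y :=
    ((contDiff_Hv u).differentiable (by simp)).differentiableAt
  have h1 : HasFDerivAt (fun y => Hv (fn u) y i)
      ((EuclideanSpace.proj i : E n →L[ℝ] ℝ).comp (fderiv ℝ (Hv (fn u)) y)) y :=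
    (EuclideanSpace.proj i : E n →L[ℝ] ℝ).hasFDerivAt.comp y hd.hasFDerivAt
  have h2 : (fderiv ℝ (Hv (fn u)) y (EuclideanSpace.single j 1)) i =
      fderiv ℝ (fun y => Hv (fn u) y i) y (EuclideanSpace.single j 1) := by
    rw [h1.fderiv]
    rfl
  rw [h2, ← deriv_wu]
  rfl

/-- the normal exponential map `(t, y) ↦ (u(y), y) + t ν(y)` -/
noncomputable def Psi (u : E n → ℝ) (z : F n) : F n :=
  WithLp.toLp 2 (u z.snd + z.fst * wf u z.snd, z.snd - z.fst • Hv u z.snd)

/-- derivative of the normal exponential map in product coordinates -/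
noncomputable def Td (u : E n → ℝ) (z : F n) : (ℝ × E n) →L[ℝ] (ℝ × E n) :=
  ContinuousLinearMap.prod
    ((fderiv ℝ u z.snd).comp (ContinuousLinearMap.snd ℝ ℝ (E n)) +
      (z.fst • (fderiv ℝ (wf u) z.snd).comp (ContinuousLinearMap.snd ℝ ℝ (E n)) +
        wf u z.snd • ContinuousLinearMap.fst ℝ ℝ (E n)))
    (ContinuousLinearMap.snd ℝ ℝ (E n) -
      (z.fst • (fderiv ℝ (Hv u) z.snd).comp (ContinuousLinearMap.snd ℝ ℝ (E n)) +
        (ContinuousLinearMap.fst ℝ ℝ (E n)).smulRight (Hv u z.snd)))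

/-- derivative of the normal exponential map -/
noncomputable def Psi' (u : E n → ℝ) (z : F n) : F n →L[ℝ] F n :=
  ((WithLp.prodContinuousLinearEquiv 2 ℝ ℝ (E n)).symm : (ℝ × E n) →L[ℝ] F n) ∘L
    (Td u z) ∘L ((WithLp.prodContinuousLinearEquiv 2 ℝ ℝ (E n)) : F n →L[ℝ] (ℝ × E n))

lemma hasFDerivAt_Psi (u : SR n) (z : F n) : HasFDerivAt (Psi (fn u)) (Psi' (fn u) z) z := by
  set e := WithLp.prodContinuousLinearEquiv 2 ℝ ℝ (E n) with he
  have h1 : HasFDerivAt (fun x : ℝ × E n =>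
      (fn u x.2 + x.1 * wf (fn u) x.2, x.2 - x.1 • Hv (fn u) x.2)) (Td (fn u) z) (e z) := by
    have hsnd : HasFDerivAt (fun x : ℝ × E n => x.2) (ContinuousLinearMap.snd ℝ ℝ (E n)) (e z) :=
      hasFDerivAt_snd
    have hfst : HasFDerivAt (fun x : ℝ × E n => x.1) (ContinuousLinearMap.fst ℝ ℝ (E n)) (e z) :=
      hasFDerivAt_fst
    have hu : HasFDerivAt (fun x : ℝ × E n => fn u x.2)
        ((fderiv ℝ (fn u) z.snd).comp (ContinuousLinearMap.snd ℝ ℝ (E n))) (e z) :=
      HasFDerivAt.comp (e z) (fn_diff u z.snd).hasFDerivAt hsnd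
    have hw : HasFDerivAt (fun x : ℝ × E n => wf (fn u) x.2)
        ((fderiv ℝ (wf (fn u)) z.snd).comp (ContinuousLinearMap.snd ℝ ℝ (E n))) (e z) :=
      HasFDerivAt.comp (e z) (fn_diff (wS u) z.snd).hasFDerivAt hsnd
    have hH : HasFDerivAt (fun x : ℝ × E n => Hv (fn u) x.2)
        ((fderiv ℝ (Hv (fn u)) z.snd).comp (ContinuousLinearMap.snd ℝ ℝ (E n))) (e z) :=
      HasFDerivAt.comp (e z)
        (((contDiff_Hv u).differentiable (by simp)).differentiableAt (x := z.snd)).hasFDerivAt hsnd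
    exact (hu.add (hfst.mul hw)).prodMk (hsnd.sub (hfst.smul hH))
  have h2 : HasFDerivAt (fun x => e.symm x) (e.symm : (ℝ × E n) →L[ℝ] F n)
      ((fun x : ℝ × E n => (fn u x.2 + x.1 * wf (fn u) x.2, x.2 - x.1 • Hv (fn u) x.2)) (e z)) :=
    e.symm.hasFDerivAt
  have h3 : HasFDerivAt (fun x => e x) (e : F n →L[ℝ] (ℝ × E n)) z := e.hasFDerivAt
  exact h2.comp z (h1.comp z h3)

lemma det_Psi' (u : SR n) (z : F n) :
    (Psi' (fn u) z).det = (wf (fn u) z.snd)⁻¹ * (1 + (-z.fst) • Jm (fn u) z.snd).det := by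
  set e := WithLp.prodContinuousLinearEquiv 2 ℝ ℝ (E n) with he
  have h1 : (Psi' (fn u) z).det = (Td (fn u) z).det := by
    unfold Psi'
    rw [ContinuousLinearMap.det, ContinuousLinearMap.det]
    exact LinearMap.det_conj (Td (fn u) z : (ℝ × E n) →ₗ[ℝ] (ℝ × E n)) e.symm.toLinearEquiv
  set w := wf (fn u) z.snd with hw
  have hw2 := wf_sq (fn u) z.snd
  rw [← hw] at hw2
  have hwpos := wf_pos (fn u) z.snd
  rw [← hw] at hwpos
  have hk : ∀ j, fderiv ℝ (wf (fn u)) z.snd (EuclideanSpace.single j 1) =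
      -∑ i, Gr (fn u) z.snd i * Jm (fn u) z.snd i j := by
    intro j
    have h2 : fderiv ℝ (wf (fn u)) z.snd (EuclideanSpace.single j 1) =
        fn (DD j (wS u)) z.snd := rfl
    have h3 : ∀ i, Jm (fn u) z.snd i j = fn (wS u * DD j (DD i u) + DD i u * DD j (wS u)) z.snd := by
      intro i
      rw [← deriv_wu, Derivation.leibniz]
      rfl
    have hwfn : fn (wS u) z.snd = w := rfl
    have hG : ∀ i, fn (DD i u) z.snd = Gr (fn u) z.snd i := fun i => rfl
    simp_rw [h3, fn_add, fn_mul, hwfn, hG]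
    rw [h2]
    set d := fn (DD j (wS u)) z.snd with hd
    have h4 : d = -(w ^ 3 * ∑ k, Gr (fn u) z.snd k * fn (DD j (DD k u)) z.snd) := by
      rw [hd, DD_wS]
      simp only [← ev_apply, map_neg, map_mul, map_sum]
      simp only [ev_apply, hwfn, hG]
      ring
    have h5 : ∑ i, Gr (fn u) z.snd i * (w * fn (DD j (DD i u)) z.snd + Gr (fn u) z.snd i * d) =
        w * (∑ k, Gr (fn u) z.snd k * fn (DD j (DD k u)) z.snd) +
          d * ∑ i, Gr (fn u) z.snd i ^ 2 := by
      rw [Finset.mul_sum, Finset.mul_sum, ← Finset.sum_add_distrib]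
      refine Finset.sum_congr rfl fun i _ => ?_
      ring
    rw [h5]
    set q := ∑ k, Gr (fn u) z.snd k * fn (DD j (DD k u)) z.snd with hq
    set G2 := ∑ i, Gr (fn u) z.snd i ^ 2 with hG2
    have h6 : w * q = -(d * (1 + G2)) := by
      rw [h4]
      calc w * q = (w ^ 2 * (1 + G2)) * (w * q) := by rw [hw2, one_mul]
        _ = _ := by ring
    rw [h6]
    ring
  rw [h1, det_model (Td (fn u) z) w (Gr (fn u) z.snd) (1 + (-z.fst) • Jm (fn u) z.snd)]
  · congr 1
    apply eq_inv_of_mul_eq_one_left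
    refine Eq.trans ?_ hw2
    ring
  · simp [Td, hw]
  · intro i
    simp [Td, hw, Hv]
  · intro j
    have h7 : (Td (fn u) z (0, EuclideanSpace.single j 1)).1 =
        Gr (fn u) z.snd j + z.fst * fderiv ℝ (wf (fn u)) z.snd (EuclideanSpace.single j 1) := by
      simp [Td, Gr, pd]
    rw [h7, hk]
    have h8 : ∀ i, Gr (fn u) z.snd i * (1 + (-z.fst) • Jm (fn u) z.snd) i j =
        (if i = j then Gr (fn u) z.snd i else 0) -
          z.fst * (Gr (fn u) z.snd i * Jm (fn u) z.snd i j) := by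
      intro i
      rw [Matrix.add_apply, Matrix.smul_apply, Matrix.one_apply, smul_eq_mul]
      split_ifs <;> ring
    rw [Finset.sum_congr rfl fun i _ => h8 i, Finset.sum_sub_distrib, Finset.sum_ite_eq',
      if_pos (Finset.mem_univ j), ← Finset.mul_sum]
    ring
  · intro i j
    have h7 : (Td (fn u) z (0, EuclideanSpace.single j 1)).2 i =
        (EuclideanSpace.single j (1 : ℝ) : E n) i -
          z.fst * (fderiv ℝ (Hv (fn u)) z.snd (EuclideanSpace.single j 1)) i := by
      simp [Td]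
    rw [h7, fderiv_Hv, Matrix.add_apply, Matrix.smul_apply, Matrix.one_apply, smul_eq_mul]
    simp only [PiLp.single_apply]
    ring

end Pool.Agent.H422IV
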