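import Mathlib
import Pool.Agent.H422IV.Tube1

/-!
# Nearest points and the normal exponential map of a graph
-/

set_option autoImplicit false
set_option linter.unusedSectionVars false

open MeasureTheory Metric Set Filter Topology Matrix
open scoped ENNReal NNReal ContDiff

namespace Pool.Agent.H422IV

variable {n : ℕ}

lemma fderiv_eq_sum (f : E n → ℝ) (y v : E n) : fderiv ℝ f y v = ∑ i, Gr f y i * v i := by
  have h1 : v = ∑ i, v i • (EuclideanSpace.single i (1 : ℝ) : E n) := by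
    have h2 := (EuclideanSpace.basisFun (Fin n) ℝ).sum_repr v
    simpa using h2.symm
  conv_lhs => rw [h1]
  rw [map_sum]
  refine Finset.sum_congr rfl fun i _ => ?_
  rw [map_smul, smul_eq_mul, mul_comm]
  rfl

lemma Hv_norm_sq (u : E n → ℝ) (y : E n) : ‖Hv u y‖ ^ 2 + wf u y ^ 2 = 1 := by
  have h := wf_sq u y
  rw [EuclideanSpace.real_norm_sq_eq]
  have h1 : ∑ i, (Hv u y) i ^ 2 = wf u y ^ 2 * ∑ i, Gr u y i ^ 2 := by
    rw [Finset.mul_sum]
    refine Finset.sum_congr rfl fun i _ => ?_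
    change (wf u y * Gr u y i) ^ 2 = _
    ring
  rw [h1]
  linarith

lemma Hv_inner (u : E n → ℝ) (y b : E n) : inner ℝ (Hv u y) (b) = wf u y * fderiv ℝ u y b := by
  rw [fderiv_eq_sum, PiLp.inner_apply, Finset.mul_sum]
  refine Finset.sum_congr rfl fun i _ => ?_
  change inner ℝ (wf u y * Gr u y i) (b i) = _
  have h1 : ∀ a b : ℝ, inner ℝ a b = a * b := by
    intro a b
    simp [mul_comm]
  rw [h1]
  ring

/-- second order Taylor bound -/
lemma taylor_bound (u : SR n) (ρ : ℝ) : ∃ K : ℝ, 0 ≤ K ∧ ∀ y y' : E n,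
    ‖y‖ ≤ ρ → ‖y'‖ ≤ ρ → |fn u y' - fn u y - fderiv ℝ (fn u) y (y' - y)| ≤ K * ‖y' - y‖ ^ 2 := by
  have hsm := fn_smooth u
  have hd1 : ContDiff ℝ ∞ (fderiv ℝ (fn u)) := hsm.fderiv_right (m := ∞) (by simp)
  have hd2 : Continuous (fun y => ‖fderiv ℝ (fderiv ℝ (fn u)) y‖) :=
    (hd1.continuous_fderiv (by simp)).norm
  obtain ⟨K, hK⟩ := (isCompact_closedBall (0 : E n) ρ).bddAbove_image hd2.continuousOn
  have hK' : ∀ y ∈ closedBall (0 : E n) ρ, ‖fderiv ℝ (fderiv ℝ (fn u)) y‖ ≤ max K 0 := fun y hy =>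
    (hK (mem_image_of_mem _ hy)).trans (le_max_left _ _)
  refine ⟨max K 0, le_max_right _ _, fun y y' hy hy' => ?_⟩
  have hconv : Convex ℝ (closedBall (0 : E n) ρ) := convex_closedBall _ _
  have hy1 : y ∈ closedBall (0 : E n) ρ := by simpa using hy
  have hy2 : y' ∈ closedBall (0 : E n) ρ := by simpa using hy'
  have hseg : segment ℝ y y' ⊆ closedBall (0 : E n) ρ := hconv.segment_subset hy1 hy2
  have hlip : ∀ z ∈ segment ℝ y y', ‖fderiv ℝ (fn u) z - fderiv ℝ (fn u) y‖ ≤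
      max K 0 * ‖y' - y‖ := by
    intro z hz
    have h1 := hconv.norm_image_sub_le_of_norm_fderiv_le (f := fderiv ℝ (fn u)) (𝕜 := ℝ)
      (fun x _ => (hd1.differentiable (by simp)).differentiableAt) hK' hy1 (hseg hz)
    refine h1.trans (mul_le_mul_of_nonneg_left ?_ (le_max_right _ _))
    have h2 := norm_sub_le_of_mem_segment hz
    exact h2
  have h3 := (convex_segment y y').norm_image_sub_le_of_norm_hasFDerivWithin_le'
    (f := fn u) (f' := fderiv ℝ (fn u)) (φ := fderiv ℝ (fn u) y) (C := max K 0 * ‖y' - y‖)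
    (fun x _ => (fn_diff u x).hasFDerivAt.hasFDerivWithinAt) hlip
    (left_mem_segment ℝ y y') (right_mem_segment ℝ y y')
  rw [Real.norm_eq_abs] at h3
  refine h3.trans (le_of_eq (by ring))

/-- `M'` is a graph near the origin, in product coordinates -/
structure LC (M' : Set (F n)) (u : SR n) (ρ h : ℝ) : Prop where
  graph : ∀ z : F n, ‖z.snd‖ < 2 * ρ → |z.fst| < h → (z ∈ M' ↔ z.fst = fn u z.snd)
  small : ∀ y : E n, ‖y‖ ≤ ρ → |fn u y| + ρ < h
  small2 : ∀ y : E n, ‖y‖ < 2 * ρ → |fn u y| < h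

/-- the graph parametrisation -/
noncomputable def gX (u : SR n) (y : E n) : F n := WithLp.toLp 2 (fn u y, y)

lemma gX_mem {M' : Set (F n)} {u : SR n} {ρ h : ℝ} (hL : LC M' u ρ h) {y : E n}
    (hy : ‖y‖ < 2 * ρ) : gX u y ∈ M' :=
  (hL.graph (gX u y) hy (hL.small2 y hy)).mpr rfl

lemma Psi_sub_gX (u : SR n) (z : F n) : ‖Psi (fn u) z - gX u z.snd‖ = |z.fst| := by
  have h1 : ‖Psi (fn u) z - gX u z.snd‖ ^ 2 = z.fst ^ 2 := by
    rw [WithLp.prod_norm_sq_eq_of_L2]
    have e1 : (Psi (fn u) z - gX u z.snd).fst = z.fst * wf (fn u) z.snd := by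
      change (fn u z.snd + z.fst * wf (fn u) z.snd) - fn u z.snd = _
      ring
    have e2 : (Psi (fn u) z - gX u z.snd).snd = -(z.fst • Hv (fn u) z.snd) := by
      change (z.snd - z.fst • Hv (fn u) z.snd) - z.snd = _
      abel
    rw [e1, e2, norm_neg, norm_smul, Real.norm_eq_abs, Real.norm_eq_abs, mul_pow, sq_abs, sq_abs,
      mul_pow]
    have := Hv_norm_sq (fn u) z.snd
    nlinarith [this]
  rw [← sq_abs z.fst] at h1
  exact (sq_eq_sq₀ (norm_nonneg _) (abs_nonneg _)).mp h1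

/-- near the graph, points of the normal segments have a unique nearest point -/
lemma unique_nearest (u : SR n) (ρ : ℝ) (hρ : 0 < ρ) : ∃ ε₀ : ℝ, 0 < ε₀ ∧
    ∀ (M' : Set (F n)) (h : ℝ), LC M' u ρ h → ∀ z : F n, ‖z.snd‖ ≤ ρ → |z.fst| < ε₀ →
      ∀ z' ∈ M', ‖Psi (fn u) z - z'‖ ≤ |z.fst| → z' = gX u z.snd := by
  obtain ⟨K, hK0, hK⟩ := taylor_bound u (2 * ρ)
  refine ⟨min (ρ / 2) (1 / (2 * K + 1)), lt_min (by positivity) (by positivity), ?_⟩
  intro M' h hL z hz ht z' hz' hdist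
  have ht1 : |z.fst| < ρ / 2 := ht.trans_le (min_le_left _ _)
  have ht2 : |z.fst| < 1 / (2 * K + 1) := ht.trans_le (min_le_right _ _)
  set t := z.fst with htdef
  set y := z.snd with hydef
  -- crude bound
  have hc : ‖z' - gX u y‖ ≤ 2 * |t| := by
    have h1 : z' - gX u y = -(Psi (fn u) z - z') + (Psi (fn u) z - gX u y) := by abel
    rw [h1]
    refine (norm_add_le _ _).trans ?_
    rw [norm_neg, Psi_sub_gX]
    linarith
  have hfst : |z'.fst - fn u y| ≤ 2 * |t| := by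
    refine le_trans ?_ hc
    have := WithLp.norm_fst_le (p := 2) (x := z' - gX u y)
    simpa [gX] using this
  have hsnd : ‖z'.snd - y‖ ≤ 2 * |t| := by
    refine le_trans ?_ hc
    have := WithLp.norm_snd_le (p := 2) (x := z' - gX u y)
    simpa [gX] using this
  have hz'n : ‖z'.snd‖ < 2 * ρ := by
    have h1 : ‖z'.snd‖ ≤ ‖y‖ + ‖z'.snd - y‖ := by
      have : z'.snd = y + (z'.snd - y) := by abel
      conv_lhs => rw [this]
      exact norm_add_le _ _
    linarith
  have hz'f : |z'.fst| < h := by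
    have h1 : |z'.fst| ≤ |fn u y| + |z'.fst - fn u y| := by
      have : z'.fst = fn u y + (z'.fst - fn u y) := by ring
      conv_lhs => rw [this]
      exact abs_add_le _ _
    have := hL.small y hz
    linarith
  have hg : z'.fst = fn u z'.snd := (hL.graph z' hz'n hz'f).mp hz'
  set b := z'.snd - y with hb
  have hzy : z'.snd = y + b := by rw [hb]; abel
  set a := z'.fst - fn u y with ha
  set D := fderiv ℝ (fn u) y b with hD
  have htay : |a - D| ≤ K * ‖b‖ ^ 2 := by
    have h1 := hK y z'.snd (hz.trans (by linarith)) hz'n.le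
    rw [← hg] at h1
    exact h1
  -- expansion of the distance
  set w := wf (fn u) y with hw
  have hexp : ‖Psi (fn u) z - z'‖ ^ 2 = t ^ 2 - 2 * t * w * (a - D) + a ^ 2 + ‖b‖ ^ 2 := by
    rw [WithLp.prod_norm_sq_eq_of_L2]
    have e1 : (Psi (fn u) z - z').fst = t * w - a := by
      change (fn u z.snd + z.fst * wf (fn u) z.snd) - z'.fst = _
      rw [ha, ← hydef, ← htdef]
      ring
    have e2 : (Psi (fn u) z - z').snd = -(t • Hv (fn u) y + b) := by
      change (z.snd - z.fst • Hv (fn u) z.snd) - z'.snd = _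
      rw [hb, ← hydef, ← htdef]
      abel
    rw [e1, e2, norm_neg, norm_add_sq_real, norm_smul, Real.norm_eq_abs, Real.norm_eq_abs, sq_abs,
      mul_pow, sq_abs, real_inner_smul_left, Hv_inner]
    have h3 := Hv_norm_sq (fn u) y
    have h4 : ‖Hv (fn u) y‖ ^ 2 = 1 - w ^ 2 := by rw [hw]; linarith
    rw [h4]
    ring
  have hle : ‖Psi (fn u) z - z'‖ ^ 2 ≤ t ^ 2 := by
    rw [← sq_abs t]
    exact pow_le_pow_left₀ (norm_nonneg _) hdist 2
  have hw1 : w ≤ 1 := wf_le_one _ _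
  have hw0 : 0 < w := wf_pos _ _
  have hkey : a ^ 2 + ‖b‖ ^ 2 ≤ 2 * |t| * (K * ‖b‖ ^ 2) := by
    have h1 : a ^ 2 + ‖b‖ ^ 2 ≤ 2 * (t * w * (a - D)) := by
      rw [hexp] at hle
      linarith
    have h2 : t * w * (a - D) ≤ |t| * (K * ‖b‖ ^ 2) := by
      refine (le_abs_self _).trans ?_
      rw [abs_mul, abs_mul, abs_of_pos hw0, mul_assoc]
      apply mul_le_mul_of_nonneg_left _ (abs_nonneg _)
      calc w * |a - D| ≤ 1 * |a - D| := mul_le_mul_of_nonneg_right hw1 (abs_nonneg _)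
        _ = |a - D| := one_mul _
        _ ≤ _ := htay
    linarith
  have h2tK : 2 * |t| * K < 1 := by
    have h1 : |t| * (2 * K + 1) < 1 := by
      have := (lt_div_iff₀ (by positivity : (0 : ℝ) < 2 * K + 1)).mp ht2
      exact this
    have h2 : 0 ≤ |t| := abs_nonneg _
    linarith
  have hb0 : ‖b‖ ^ 2 = 0 := by
    by_contra hne
    have hpos : 0 < ‖b‖ ^ 2 := lt_of_le_of_ne (sq_nonneg _) (Ne.symm hne)
    have h1 : 2 * |t| * (K * ‖b‖ ^ 2) < 1 * ‖b‖ ^ 2 := by
      have := mul_lt_mul_of_pos_right h2tK hpos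
      linarith
    nlinarith [sq_nonneg a]
  have hbz : b = 0 := by
    have := pow_eq_zero_iff (two_ne_zero) |>.mp hb0
    exact norm_eq_zero.mp this
  have hsndeq : z'.snd = y := by rw [hzy, hbz, add_zero]
  have hfsteq : z'.fst = fn u y := by rw [hg, hsndeq]
  have : z' = WithLp.toLp 2 (z'.fst, z'.snd) := rfl
  rw [this, hsndeq, hfsteq]
  rfl

/-- points for which `gX u y` is a nearest point lie on the normal line -/
lemma nearest_normal {M' : Set (F n)} {u : SR n} {ρ h : ℝ} (hρ : 0 < ρ) (hL : LC M' u ρ h)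
    (y : E n) (hy : ‖y‖ ≤ ρ) (x : F n) (hx : ∀ z' ∈ M', ‖x - gX u y‖ ≤ ‖x - z'‖) :
    ∃ t : ℝ, |t| = ‖x - gX u y‖ ∧ x = Psi (fn u) (WithLp.toLp 2 (t, y)) := by
  set c := x.fst with hc
  set d := x.snd with hd
  set f : E n → ℝ := fun y' => (c - fn u y') ^ 2 + ‖d - y'‖ ^ 2 with hf
  have hfeq : ∀ y', f y' = ‖x - gX u y'‖ ^ 2 := by
    intro y'
    rw [WithLp.prod_norm_sq_eq_of_L2, Real.norm_eq_abs, sq_abs]
    rfl
  have hmin : IsLocalMin f y := by
    have h1 : ball (0 : E n) (2 * ρ) ∈ 𝓝 y := isOpen_ball.mem_nhds (by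
      rw [mem_ball_zero_iff]
      linarith)
    filter_upwards [h1] with y' hy'
    rw [hfeq, hfeq]
    exact pow_le_pow_left₀ (norm_nonneg _) (hx _ (gX_mem hL (by simpa using hy'))) 2
  have hder : HasFDerivAt f ((2 * (c - fn u y)) • (-(fderiv ℝ (fn u) y)) +
      2 • (innerSL ℝ (d - y)).comp (-(ContinuousLinearMap.id ℝ (E n)))) y := by
    have h1 : HasFDerivAt (fun y' => c - fn u y') (-(fderiv ℝ (fn u) y)) y :=
      (fn_diff u y).hasFDerivAt.const_sub c
    have h2 : HasFDerivAt (fun y' => d - y') (-(ContinuousLinearMap.id ℝ (E n))) y :=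
      (hasFDerivAt_id y).const_sub d
    have h3 := h1.pow 2
    have h4 := h2.norm_sq
    refine (h3.add h4).congr_fderiv ?_
    ext v
    simp
  have hzero := hmin.hasFDerivAt_eq_zero hder
  have hgrad : ∀ v, (c - fn u y) * fderiv ℝ (fn u) y v + inner ℝ (d - y) (v) = 0 := by
    intro v
    have h1 := congrArg (fun L : E n →L[ℝ] ℝ => L v) hzero
    simp at h1
    rw [inner_sub_left]
    linarith
  set w := wf (fn u) y with hw
  have hw0 : 0 < w := wf_pos _ _
  set t := (c - fn u y) / w with ht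
  have htw : t * w = c - fn u y := div_mul_cancel₀ _ hw0.ne'
  have hdy : t • Hv (fn u) y + (d - y) = 0 := by
    rw [← inner_self_eq_zero (𝕜 := ℝ)]
    set v := t • Hv (fn u) y + (d - y) with hv
    have h1 : inner ℝ (v) (v) = inner ℝ (t • Hv (fn u) y) (v) + inner ℝ (d - y) (v) := by
      conv_lhs => rw [hv]
      rw [inner_add_left]
    rw [h1, real_inner_smul_left, Hv_inner, ← mul_assoc, ← hw, htw]
    exact hgrad v
  have hxPsi : x = Psi (fn u) (WithLp.toLp 2 (t, y)) := by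
    have h1 : x = WithLp.toLp 2 (c, d) := rfl
    have h2 : Psi (fn u) (WithLp.toLp 2 (t, y)) =
        WithLp.toLp 2 (fn u y + t * w, y - t • Hv (fn u) y) := rfl
    rw [h2, h1, htw]
    congr 2
    · ring
    · have : d = y - t • Hv (fn u) y := by
        have h3 := eq_neg_of_add_eq_zero_right hdy
        have h4 : d = y + (d - y) := by abel
        rw [h4, h3]
        abel
      exact this
  refine ⟨t, ?_, hxPsi⟩
  conv_rhs => rw [hxPsi]
  have := Psi_sub_gX u (WithLp.toLp 2 (t, y))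
  exact this.symm

end Pool.Agent.H422IV
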