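import Mathlib
import Pool.Agent.H422IV.Tube2

/-!
# Curvature of metrics in coordinates and the Gauss equation for graphs
-/

set_option autoImplicit false
set_option linter.unusedSectionVars false

open MeasureTheory Metric Set Filter Topology Matrix
open scoped ENNReal NNReal ContDiff

namespace Pool.Agent.H422IV

variable {n : ℕ}

lemma pd_congr {f g : E n → ℝ} {x : E n} (h : f =ᶠ[𝓝 x] g) (i : Fin n) :
    pd i f =ᶠ[𝓝 x] pd i g := by
  filter_upwards [h.eventuallyEq_nhds] with y hy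
  unfold pd
  rw [hy.fderiv_eq]

lemma Rm_congr {g g' : MetricField n} {x : E n} (h : g =ᶠ[𝓝 x] g') (i j k l : Fin n) :
    Rm g x i j k l = Rm g' x i j k l := by
  have h1 : ∀ a b, (fun z => g z a b) =ᶠ[𝓝 x] fun z => g' z a b := by
    intro a b
    filter_upwards [h] with z hz
    rw [hz]
  have h2 : ∀ c a b, pd c (fun z => g z a b) x = pd c (fun z => g' z a b) x := fun c a b =>
    (pd_congr (h1 a b) c).eq_of_nhds
  have h3 : ∀ d c a b, pd d (pd c (fun z => g z a b)) x = pd d (pd c (fun z => g' z a b)) x :=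
    fun d c a b => (pd_congr (pd_congr (h1 a b) c) d).eq_of_nhds
  have h4 : ∀ m a b, Gam g x m a b = Gam g' x m a b := by
    intro m a b
    unfold Gam
    rw [h2, h2, h2]
  have h5 : ginv g x = ginv g' x := by
    unfold ginv
    rw [h.eq_of_nhds]
  unfold Rm
  rw [h3, h3, h3, h3, h5]
  simp only [h4]

lemma SecGE.congr {g g' : MetricField n} {x : E n} {κ : ℝ} (h : g =ᶠ[𝓝 x] g')
    (hs : SecGE g κ x) : SecGE g' κ x := by
  intro v w
  have h1 := hs v w
  simp only [Rm_congr h] at h1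
  rw [h.eq_of_nhds] at h1
  exact h1

/-- the graph metric in the ring of smooth functions -/
noncomputable def gS (u : SR n) (i j : Fin n) : SR n :=
  (1 : Matrix (Fin n) (Fin n) (SR n)) i j + DD i u * DD j u

lemma gS_fn (u : SR n) (i j : Fin n) : fn (gS u i j) = fun z => graphMetric (fn u) z i j := by
  funext z
  unfold gS graphMetric
  rw [fn_add, fn_mul, of_apply]
  congr 1
  rw [Matrix.one_apply, Matrix.one_apply]
  split_ifs
  · exact fn_one z
  · exact fn_zero z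

lemma DD_gS (u : SR n) (k i j : Fin n) :
    DD k (gS u i j) = DD i u * DD k (DD j u) + DD j u * DD k (DD i u) := by
  unfold gS
  rw [map_add, Derivation.leibniz, smul_eq_mul, smul_eq_mul, Matrix.one_apply]
  split_ifs
  · rw [Derivation.map_one_eq_zero, zero_add]
  · rw [map_zero, zero_add]

lemma Gam_graph (u : SR n) (x : E n) (m i j : Fin n) :
    Gam (graphMetric (fn u)) x m i j = Gr (fn u) x m * Hs (fn u) x i j := by
  have h1 : ∀ c a b, pd c (fun z => graphMetric (fn u) z a b) x = fn (DD c (gS u a b)) x := by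
    intro c a b
    rw [← gS_fn]
    rfl
  unfold Gam
  rw [h1, h1, h1, DD_gS, DD_gS, DD_gS]
  have h2 : Gr (fn u) x m * Hs (fn u) x i j = fn (DD m u * DD i (DD j u)) x := rfl
  rw [h2, DD_comm j i, DD_comm j m u, DD_comm i m u]
  simp only [← ev_apply, map_add, map_mul]
  ring

lemma secondpart_graph (u : SR n) (x : E n) (i j k l : Fin n) :
    (pd j (pd k (fun z => graphMetric (fn u) z i l)) x +
      pd i (pd l (fun z => graphMetric (fn u) z j k)) x
    - pd i (pd k (fun z => graphMetric (fn u) z j l)) x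
    - pd j (pd l (fun z => graphMetric (fn u) z i k)) x) / 2 =
      Hs (fn u) x i k * Hs (fn u) x j l - Hs (fn u) x i l * Hs (fn u) x j k := by
  have h1 : ∀ d c a b, pd d (pd c (fun z => graphMetric (fn u) z a b)) x =
      fn (DD d (DD c (gS u a b))) x := by
    intro d c a b
    rw [← gS_fn]
    rfl
  have h2 : ∀ d c a b, DD d (DD c (gS u a b)) = DD a u * DD d (DD c (DD b u)) +
      DD d (DD a u) * DD c (DD b u) + (DD b u * DD d (DD c (DD a u)) +
      DD d (DD b u) * DD c (DD a u)) := by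
    intro d c a b
    rw [DD_gS, map_add, Derivation.leibniz, Derivation.leibniz, smul_eq_mul, smul_eq_mul,
      smul_eq_mul, smul_eq_mul]
    ring
  have h3 : ∀ a b, Hs (fn u) x a b = fn (DD a (DD b u)) x := fun a b => rfl
  rw [h1, h1, h1, h1, h2, h2, h2, h2, h3, h3, h3, h3]
  have t1 : DD j (DD k (DD i u)) = DD i (DD k (DD j u)) := by
    rw [DD_comm k i, DD_comm j i, DD_comm j k]
  have t2 : DD j (DD k (DD l u)) = DD j (DD l (DD k u)) := by
    rw [DD_comm k l]
  have t3 : DD i (DD l (DD j u)) = DD j (DD l (DD i u)) := by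
    rw [DD_comm l j, DD_comm i j, DD_comm i l]
  have t4 : DD i (DD l (DD k u)) = DD i (DD k (DD l u)) := by
    rw [DD_comm l k]
  rw [t1, t2, t3, t4, DD_comm j i u, DD_comm k l u, DD_comm l i u, DD_comm k j u, DD_comm k i u,
    DD_comm l j u]
  simp only [← ev_apply, map_add, map_mul]
  ring

lemma ginv_graph (u : E n → ℝ) (x : E n) :
    ginv (graphMetric u) x = 1 - wf u x ^ 2 • (Matrix.of fun i j => Gr u x i * Gr u x j) := by
  unfold ginv
  apply Matrix.inv_eq_right_inv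
  have hw := wf_sq u x
  ext i j
  rw [Matrix.mul_apply]
  have h1 : ∀ k, graphMetric u x i k * (1 - wf u x ^ 2 • (Matrix.of fun i j => Gr u x i * Gr u x j) :
      Matrix (Fin n) (Fin n) ℝ) k j =
      (if i = k then ((1 : Matrix (Fin n) (Fin n) ℝ) k j - wf u x ^ 2 * (Gr u x k * Gr u x j)) else 0) +
      ((if k = j then Gr u x i * Gr u x k else 0) -
        (wf u x ^ 2 * Gr u x i * Gr u x j) * Gr u x k ^ 2) := by
    intro k
    unfold graphMetric
    rw [of_apply, Matrix.sub_apply, Matrix.smul_apply, of_apply, smul_eq_mul,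
      Matrix.one_apply, Matrix.one_apply]
    change ((if i = k then (1 : ℝ) else 0) + Gr u x i * Gr u x k) * _ = _
    split_ifs <;> ring
  rw [Finset.sum_congr rfl fun k _ => h1 k, Finset.sum_add_distrib, Finset.sum_sub_distrib,
    Finset.sum_ite_eq, if_pos (Finset.mem_univ i), Finset.sum_ite_eq', if_pos (Finset.mem_univ j),
    ← Finset.mul_sum]
  set S := ∑ k, Gr u x k ^ 2 with hS
  have h2 : (1 : Matrix (Fin n) (Fin n) ℝ) i j - wf u x ^ 2 * (Gr u x i * Gr u x j) +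
      (Gr u x i * Gr u x j - wf u x ^ 2 * Gr u x i * Gr u x j * S) =
      (1 : Matrix (Fin n) (Fin n) ℝ) i j + (Gr u x i * Gr u x j) * (1 - wf u x ^ 2 * (1 + S)) := by
    ring
  rw [h2, hw]
  ring

lemma ginv_graph_quad (u : E n → ℝ) (x : E n) (c : ℝ) :
    ∑ p, ∑ q, ginv (graphMetric u) x p q * (Gr u x p * Gr u x q * c) =
      (1 - wf u x ^ 2) * c := by
  have hw := wf_sq u x
  rw [ginv_graph]
  set S := ∑ k, Gr u x k ^ 2 with hS
  have h1 : ∀ p, ∑ q, (1 - wf u x ^ 2 • (Matrix.of fun i j => Gr u x i * Gr u x j) :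
      Matrix (Fin n) (Fin n) ℝ) p q * (Gr u x p * Gr u x q * c) =
      Gr u x p ^ 2 * c - Gr u x p ^ 2 * (wf u x ^ 2 * c * S) := by
    intro p
    have h2 : ∀ q, (1 - wf u x ^ 2 • (Matrix.of fun i j => Gr u x i * Gr u x j) :
        Matrix (Fin n) (Fin n) ℝ) p q * (Gr u x p * Gr u x q * c) =
        (if p = q then Gr u x p * Gr u x q * c else 0) -
          (Gr u x p ^ 2 * (wf u x ^ 2 * c)) * Gr u x q ^ 2 := by
      intro q
      rw [Matrix.sub_apply, Matrix.smul_apply, of_apply, smul_eq_mul, Matrix.one_apply]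
      split_ifs <;> ring
    rw [Finset.sum_congr rfl fun q _ => h2 q, Finset.sum_sub_distrib, Finset.sum_ite_eq,
      if_pos (Finset.mem_univ p), ← Finset.mul_sum]
    ring
  rw [Finset.sum_congr rfl fun p _ => h1 p, Finset.sum_sub_distrib, ← Finset.sum_mul,
    ← Finset.sum_mul, ← hS]
  have h3 : wf u x ^ 2 * S = 1 - wf u x ^ 2 := by linarith
  calc S * c - S * (wf u x ^ 2 * c * S) = S * c * (1 - wf u x ^ 2 * S) := by ring
    _ = S * c * wf u x ^ 2 := by rw [h3]; ring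
    _ = (wf u x ^ 2 * S) * c := by ring
    _ = _ := by rw [h3]

/-- **Gauss equation** for graphs. -/
lemma gauss (u : SR n) (x : E n) (i j k l : Fin n) :
    Rm (graphMetric (fn u)) x i j k l = wf (fn u) x ^ 2 *
      (Hs (fn u) x i k * Hs (fn u) x j l - Hs (fn u) x i l * Hs (fn u) x j k) := by
  unfold Rm
  rw [secondpart_graph]
  simp only [Gam_graph]
  have h1 : ∀ p q, ginv (graphMetric (fn u)) x p q *
      (Gr (fn u) x p * Hs (fn u) x j k * (Gr (fn u) x q * Hs (fn u) x i l) -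
        Gr (fn u) x p * Hs (fn u) x i k * (Gr (fn u) x q * Hs (fn u) x j l)) =
      ginv (graphMetric (fn u)) x p q * (Gr (fn u) x p * Gr (fn u) x q *
        (Hs (fn u) x j k * Hs (fn u) x i l - Hs (fn u) x i k * Hs (fn u) x j l)) := by
    intro p q
    ring
  simp only [h1]
  rw [ginv_graph_quad]
  ring

lemma quad_Rm (A : Matrix (Fin n) (Fin n) ℝ) (c : ℝ) (v w : Fin n → ℝ) :
    ∑ i, ∑ j, ∑ k, ∑ l, (c * (A i k * A j l - A i l * A j k)) * (v i * w j * v k * w l) =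
      c * ((v ⬝ᵥ A *ᵥ v) * (w ⬝ᵥ A *ᵥ w) - (v ⬝ᵥ A *ᵥ w) * (w ⬝ᵥ A *ᵥ v)) := by
  have h1 : (v ⬝ᵥ A *ᵥ v) * (w ⬝ᵥ A *ᵥ w) =
      ∑ i, ∑ j, ∑ k, ∑ l, (A i k * A j l) * (v i * w j * v k * w l) := by
    simp only [dotProduct, mulVec]
    rw [Finset.sum_mul_sum]
    refine Finset.sum_congr rfl fun i _ => Finset.sum_congr rfl fun j _ => ?_
    rw [mul_mul_mul_comm, Finset.sum_mul_sum, Finset.mul_sum]
    refine Finset.sum_congr rfl fun k _ => ?_
    rw [Finset.mul_sum]
    refine Finset.sum_congr rfl fun l _ => ?_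
    ring
  have h2 : (v ⬝ᵥ A *ᵥ w) * (w ⬝ᵥ A *ᵥ v) =
      ∑ i, ∑ j, ∑ k, ∑ l, (A i l * A j k) * (v i * w j * v k * w l) := by
    simp only [dotProduct, mulVec]
    rw [Finset.sum_mul_sum]
    refine Finset.sum_congr rfl fun i _ => Finset.sum_congr rfl fun j _ => ?_
    rw [mul_mul_mul_comm, mul_comm (∑ l, A i l * w l), Finset.sum_mul_sum, Finset.mul_sum]
    refine Finset.sum_congr rfl fun k _ => ?_
    rw [Finset.mul_sum]
    refine Finset.sum_congr rfl fun l _ => ?_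
    ring
  rw [h1, h2, mul_sub, Finset.mul_sum, Finset.mul_sum, ← Finset.sum_sub_distrib]
  refine Finset.sum_congr rfl fun i _ => ?_
  rw [Finset.mul_sum, Finset.mul_sum, ← Finset.sum_sub_distrib]
  refine Finset.sum_congr rfl fun j _ => ?_
  rw [Finset.mul_sum, Finset.mul_sum, ← Finset.sum_sub_distrib]
  refine Finset.sum_congr rfl fun k _ => ?_
  rw [Finset.mul_sum, Finset.mul_sum, ← Finset.sum_sub_distrib]
  refine Finset.sum_congr rfl fun l _ => ?_
  ring

lemma quad_graphMetric (u : E n → ℝ) (x : E n) (v w : Fin n → ℝ) :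
    v ⬝ᵥ graphMetric u x *ᵥ w = v ⬝ᵥ w + (Gr u x ⬝ᵥ v) * (Gr u x ⬝ᵥ w) := by
  have h1 : graphMetric u x *ᵥ w = w + (Gr u x ⬝ᵥ w) • Gr u x := by
    ext i
    rw [mulVec, dotProduct, Pi.add_apply, Pi.smul_apply, smul_eq_mul]
    have h2 : ∀ j, graphMetric u x i j * w j = (if i = j then w j else 0) +
        (Gr u x j * w j) * Gr u x i := by
      intro j
      unfold graphMetric
      rw [of_apply, Matrix.one_apply]
      change ((if i = j then (1 : ℝ) else 0) + Gr u x i * Gr u x j) * w j = _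
      split_ifs <;> ring
    rw [Finset.sum_congr rfl fun j _ => h2 j, Finset.sum_add_distrib, Finset.sum_ite_eq,
      if_pos (Finset.mem_univ i), ← Finset.sum_mul]
    rfl
  rw [h1, dotProduct_add, dotProduct_smul, smul_eq_mul, dotProduct_comm v (Gr u x)]
  ring

/-- a lower bound of the sectional curvature gives the pairing condition on the Hessian -/
lemma SecGE.pairLB {u : SR n} {κ Λ : ℝ} {x : E n} (hΛ : 0 ≤ Λ)
    (hG : ‖fderiv ℝ (fn u) x‖ ≤ Λ) (hs : SecGE (graphMetric (fn u)) κ x) :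
    PairLB (Hs (fn u) x) (|κ| * (1 + 2 * Λ ^ 2) * (1 + n * Λ ^ 2)) := by
  intro v w hv hw hvw
  have hnorm : ∀ z : Fin n → ℝ, z ⬝ᵥ z = 1 → |Gr (fn u) x ⬝ᵥ z| ≤ Λ := by
    intro z hz
    have h1 : fderiv ℝ (fn u) x (WithLp.toLp 2 z) = Gr (fn u) x ⬝ᵥ z := fderiv_eq_sum _ _ _
    rw [← h1, ← Real.norm_eq_abs]
    refine (ContinuousLinearMap.le_opNorm _ _).trans ?_
    have h2 : ‖(WithLp.toLp 2 z : E n)‖ = 1 := by
      have h3 : ‖(WithLp.toLp 2 z : E n)‖ ^ 2 = 1 := by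
        rw [EuclideanSpace.real_norm_sq_eq, ← hz]
        refine Finset.sum_congr rfl fun i _ => ?_
        rw [sq]
      exact (pow_eq_one_iff_of_nonneg (norm_nonneg _) two_ne_zero).mp h3
    rw [h2, mul_one]
    exact hG
  have hGi : ∀ i, Gr (fn u) x i ^ 2 ≤ Λ ^ 2 := by
    intro i
    have h1 : |Gr (fn u) x i| ≤ Λ := by
      unfold Gr pd
      rw [← Real.norm_eq_abs]
      refine (ContinuousLinearMap.le_opNorm _ _).trans ?_
      rw [PiLp.norm_single, norm_one, mul_one]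
      exact hG
    exact sq_le_sq' (by linarith [abs_le.mp h1 |>.1]) (abs_le.mp h1).2
  have hS : ∑ i, Gr (fn u) x i ^ 2 ≤ n * Λ ^ 2 := by
    refine (Finset.sum_le_sum fun i _ => hGi i).trans (le_of_eq ?_)
    simp
  have h1 := hs v w
  simp only [gauss] at h1
  rw [quad_Rm, quad_graphMetric, quad_graphMetric, quad_graphMetric, hv, hw, hvw] at h1
  have hsymm : w ⬝ᵥ Hs (fn u) x *ᵥ v = v ⬝ᵥ Hs (fn u) x *ᵥ w := by
    rw [dotProduct_mulVec, ← mulVec_transpose, Hs_symm, dotProduct_comm]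
  rw [hsymm] at h1
  set a := Gr (fn u) x ⬝ᵥ v with ha
  set b := Gr (fn u) x ⬝ᵥ w with hb
  have ha2 : a ^ 2 ≤ Λ ^ 2 := sq_le_sq' (by linarith [(abs_le.mp (hnorm v hv)).1])
    (abs_le.mp (hnorm v hv)).2
  have hb2 : b ^ 2 ≤ Λ ^ 2 := sq_le_sq' (by linarith [(abs_le.mp (hnorm w hw)).1])
    (abs_le.mp (hnorm w hw)).2
  set m := (v ⬝ᵥ Hs (fn u) x *ᵥ v) * (w ⬝ᵥ Hs (fn u) x *ᵥ w) -
    (v ⬝ᵥ Hs (fn u) x *ᵥ w) * (v ⬝ᵥ Hs (fn u) x *ᵥ w) with hm
  have hw2 := wf_sq (fn u) x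
  set S := ∑ i, Gr (fn u) x i ^ 2 with hSdef
  have hS0 : 0 ≤ S := by positivity
  have h2 : κ * (1 + a ^ 2 + b ^ 2) ≤ wf (fn u) x ^ 2 * m := by
    refine le_trans (le_of_eq ?_) h1
    ring
  have h3 : -(|κ| * (1 + 2 * Λ ^ 2)) ≤ κ * (1 + a ^ 2 + b ^ 2) := by
    have h4 : |κ * (1 + a ^ 2 + b ^ 2)| ≤ |κ| * (1 + 2 * Λ ^ 2) := by
      rw [abs_mul]
      apply mul_le_mul_of_nonneg_left _ (abs_nonneg _)
      rw [abs_of_nonneg (by positivity)]
      linarith
    linarith [neg_abs_le (κ * (1 + a ^ 2 + b ^ 2))]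
  have h5 : -(|κ| * (1 + 2 * Λ ^ 2)) * (1 + S) ≤ m := by
    have h6 := mul_le_mul_of_nonneg_right (h3.trans h2) (by positivity : (0 : ℝ) ≤ 1 + S)
    have h7 : wf (fn u) x ^ 2 * m * (1 + S) = m := by
      calc wf (fn u) x ^ 2 * m * (1 + S) = (wf (fn u) x ^ 2 * (1 + S)) * m := by ring
        _ = m := by rw [hw2, one_mul]
    rw [h7] at h6
    exact h6
  have h8 : |κ| * (1 + 2 * Λ ^ 2) * (1 + S) ≤ |κ| * (1 + 2 * Λ ^ 2) * (1 + n * Λ ^ 2) :=
    mul_le_mul_of_nonneg_left (by linarith) (by positivity)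
  rw [sq (v ⬝ᵥ Hs (fn u) x *ᵥ w), ← hm]
  linarith

end Pool.Agent.H422IV
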