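import Mathlib
import Pool.Agent.H422IV.Tube2

/-!
# The volume of tubes around a compact hypersurface covered by graph charts
-/

set_option autoImplicit false
set_option linter.unusedSectionVars false

open MeasureTheory Metric Set Filter Topology Matrix
open scoped ENNReal NNReal ContDiff

namespace Pool.Agent.H422IV

variable {n : ℕ}

/-- the integral of `(-t)^m` over `(-ε, ε)` -/
noncomputable def cm (m : ℕ) (ε : ℝ) : ℝ := ∫ t in Ioo (-ε) ε, (-t) ^ m

lemma cm_eq (m : ℕ) (ε : ℝ) (hε : 0 < ε) :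
    cm m ε = if Even m then 2 * ε ^ (m + 1) / (m + 1) else 0 := by
  unfold cm
  rw [← integral_Ioc_eq_integral_Ioo, ← intervalIntegral.integral_of_le (by linarith),
    intervalIntegral.integral_comp_neg (fun t : ℝ => t ^ m), neg_neg, integral_pow]
  split_ifs with h
  · rw [Odd.neg_pow (Even.add_one h)]
    ring
  · rw [Nat.not_even_iff_odd] at h
    rw [Even.neg_pow (Odd.add_one h)]
    ring

/-- the matrix of derivatives of `∇u / W` in the ring of smooth functions -/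
noncomputable def JS (u : SR n) : Matrix (Fin n) (Fin n) (SR n) :=
  Matrix.of fun i j => DD j (wS u * DD i u)

lemma JS_map (u : SR n) (y : E n) : (JS u).map (ev y) = Jm (fn u) y := by
  ext i j
  exact deriv_wu u i j y

lemma sigJ_fn (u : SR n) (m : ℕ) (y : E n) : fn (sig (JS u) m) y = sig (Jm (fn u) y) m := by
  rw [← JS_map, map_sig]
  rfl

lemma continuous_sigJ (u : SR n) (m : ℕ) : Continuous fun y => sig (Jm (fn u) y) m := by
  simp_rw [← sigJ_fn]
  exact (fn_smooth _).continuous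

lemma continuous_wf_inv (u : SR n) : Continuous fun y => (wf (fn u) y)⁻¹ :=
  (contDiff_wf u).continuous.inv₀ fun y => (wf_pos _ y).ne'

/-- the set of parameters `(t, y)` with `|t| < ε` and `y ∈ A` -/
def St (A : Set (E n)) (ε : ℝ) : Set (F n) := {z | z.fst ∈ Ioo (-ε) ε ∧ z.snd ∈ A}

lemma St_eq (A : Set (E n)) (ε : ℝ) :
    St A ε = (WithLp.ofLp (p := 2) (V := ℝ × E n)) ⁻¹' (Ioo (-ε) ε ×ˢ A) := rfl

lemma measurableSet_St {A : Set (E n)} (hA : MeasurableSet A) (ε : ℝ) :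
    MeasurableSet (St A ε) := by
  rw [St_eq]
  exact (WithLp.volume_preserving_ofLp ℝ (E n)).measurable (measurableSet_Ioo.prod hA)

/-- `ε₁` is a good radius for `u` on the ball of radius `ρ` -/
def Good (u : SR n) (ρ ε₁ : ℝ) : Prop :=
  (∀ (M' : Set (F n)) (h : ℝ), LC M' u ρ h → ∀ z : F n, ‖z.snd‖ ≤ ρ → |z.fst| < ε₁ →
      ∀ z' ∈ M', ‖Psi (fn u) z - z'‖ ≤ |z.fst| → z' = gX u z.snd) ∧
  (∀ z : F n, ‖z.snd‖ ≤ ρ → |z.fst| < ε₁ → 0 < (1 + (-z.fst) • Jm (fn u) z.snd).det)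

lemma Good.mono {u : SR n} {ρ ε₁ ε₂ : ℝ} (h : Good u ρ ε₁) (h2 : ε₂ ≤ ε₁) : Good u ρ ε₂ :=
  ⟨fun M' h' hL z hz ht => h.1 M' h' hL z hz (ht.trans_le h2),
    fun z hz ht => h.2 z hz (ht.trans_le h2)⟩

lemma exists_good (u : SR n) (ρ : ℝ) (hρ : 0 < ρ) : ∃ ε₁ : ℝ, 0 < ε₁ ∧ Good u ρ ε₁ := by
  obtain ⟨ε₀, hε₀, h1⟩ := unique_nearest u ρ hρ
  have hcont : Continuous fun x : ℝ × E n => (1 + (-x.1) • Jm (fn u) x.2).det := by
    simp_rw [det_one_add_smul]
    refine continuous_finsetSum _ fun m _ => ?_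
    exact ((continuous_sigJ u m).comp continuous_snd).mul (continuous_fst.neg.pow m)
  have hopen : IsOpen {x : ℝ × E n | 0 < (1 + (-x.1) • Jm (fn u) x.2).det} :=
    isOpen_lt continuous_const hcont
  obtain ⟨U, V, hU, -, hU0, hV, hUV⟩ := generalized_tube_lemma (s := ({0} : Set ℝ))
    (t := closedBall (0 : E n) ρ) isCompact_singleton (isCompact_closedBall _ _) hopen (by
      rintro ⟨t, y⟩ ⟨ht, -⟩
      rw [mem_singleton_iff] at ht
      simp only at ht
      subst ht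
      simp)
  obtain ⟨ε₂, hε₂, hball⟩ := Metric.isOpen_iff.mp hU 0 (hU0 (mem_singleton 0))
  refine ⟨min ε₀ ε₂, lt_min hε₀ hε₂, fun M' h hL z hz ht => h1 M' h hL z hz
    (ht.trans_le (min_le_left _ _)), fun z hz ht => ?_⟩
  have h2 : z.fst ∈ U := hball (by
    rw [mem_ball_zero_iff, Real.norm_eq_abs]
    exact ht.trans_le (min_le_right _ _))
  have h3 : z.snd ∈ V := hV (by rwa [mem_closedBall_zero_iff])
  exact hUV (mk_mem_prod h2 h3)

lemma Psi_fst (u : SR n) (z : F n) : (Psi (fn u) z).fst = fn u z.snd + z.fst * wf (fn u) z.snd := rfl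

lemma Psi_injOn {M' : Set (F n)} {u : SR n} {ρ h ε₁ : ℝ} (hρ : 0 < ρ) (hL : LC M' u ρ h)
    (hG : Good u ρ ε₁) : InjOn (Psi (fn u)) {z : F n | ‖z.snd‖ ≤ ρ ∧ |z.fst| < ε₁} := by
  have key : ∀ z z' : F n, ‖z.snd‖ ≤ ρ → |z.fst| < ε₁ → ‖z'.snd‖ ≤ ρ → |z'.fst| ≤ |z.fst| →
      Psi (fn u) z = Psi (fn u) z' → z'.snd = z.snd := by
    intro z z' hz ht hz' hle heq
    have h1 := hG.1 M' h hL z hz ht (gX u z'.snd) (gX_mem hL (by linarith)) (by
      rw [heq, Psi_sub_gX]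
      exact hle)
    have h2 := congrArg (fun q : F n => q.snd) h1
    exact h2
  intro z hz z' hz' heq
  have hsnd : z'.snd = z.snd := by
    rcases le_total |z'.fst| |z.fst| with hle | hle
    · exact key z z' hz.1 hz.2 hz'.1 hle heq
    · exact (key z' z hz'.1 hz'.2 hz.1 hle heq.symm).symm
  have h2 : (Psi (fn u) z).fst = (Psi (fn u) z').fst := by rw [heq]
  rw [Psi_fst, Psi_fst, hsnd] at h2
  have h3 : z.fst = z'.fst := by
    have h4 : z.fst * wf (fn u) z.snd = z'.fst * wf (fn u) z.snd := by linarith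
    exact mul_right_cancel₀ (wf_pos _ _).ne' h4
  have e1 : z = WithLp.toLp 2 (z.fst, z.snd) := rfl
  have e2 : z' = WithLp.toLp 2 (z'.fst, z'.snd) := rfl
  rw [e1, e2, h3, hsnd]

lemma abs_lt_of_Ioo {t ε : ℝ} (h : t ∈ Ioo (-ε) ε) : |t| < ε := abs_lt.mpr h

/-- volume of the image of a piece of the tube -/
lemma volume_Psi_image {M' : Set (F n)} {u : SR n} {ρ h ε₁ : ℝ} (hρ : 0 < ρ) (hL : LC M' u ρ h)
    (hG : Good u ρ ε₁) {A : Set (E n)} (hA : MeasurableSet A) (hAρ : A ⊆ closedBall 0 ρ)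
    {ε : ℝ} (hε : ε ≤ ε₁) :
    MeasurableSet (Psi (fn u) '' St A ε) ∧
    (0 ≤ ∑ m ∈ Finset.range (n + 1), cm m ε * ∫ y in A, (wf (fn u) y)⁻¹ * sig (Jm (fn u) y) m) ∧
    volume (Psi (fn u) '' St A ε) = ENNReal.ofReal
      (∑ m ∈ Finset.range (n + 1), cm m ε * ∫ y in A, (wf (fn u) y)⁻¹ * sig (Jm (fn u) y) m) := by
  have hsub : St A ε ⊆ {z : F n | ‖z.snd‖ ≤ ρ ∧ |z.fst| < ε₁} := by
    intro z hz
    refine ⟨?_, (abs_lt_of_Ioo hz.1).trans_le hε⟩
    have := hAρ hz.2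
    rwa [mem_closedBall_zero_iff] at this
  have hinj : InjOn (Psi (fn u)) (St A ε) := (Psi_injOn hρ hL hG).mono hsub
  have hmeas := measurableSet_St hA ε
  have hcontPsi : Continuous (Psi (fn u)) := continuous_iff_continuousAt.mpr fun z =>
    (hasFDerivAt_Psi u z).continuousAt
  refine ⟨hmeas.image_of_continuousOn_injOn hcontPsi.continuousOn hinj, ?_⟩
  -- the density
  set g : ℝ × E n → ℝ := fun x => ∑ m ∈ Finset.range (n + 1),
    ((-x.1) ^ m * ((wf (fn u) x.2)⁻¹ * sig (Jm (fn u) x.2) m)) with hg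
  have hdet : ∀ z : F n, (Psi' (fn u) z).det = g (WithLp.ofLp z) := by
    intro z
    rw [det_Psi', det_one_add_smul, hg, Finset.mul_sum]
    refine Finset.sum_congr rfl fun m _ => ?_
    change _ = (-z.fst) ^ m * ((wf (fn u) z.snd)⁻¹ * sig (Jm (fn u) z.snd) m)
    ring
  have hpos : ∀ z ∈ St A ε, 0 < (Psi' (fn u) z).det := by
    intro z hz
    rw [det_Psi']
    exact mul_pos (inv_pos.mpr (wf_pos _ _)) (hG.2 z (hsub hz).1 (hsub hz).2)
  have hvol : volume (Psi (fn u) '' St A ε) = ∫⁻ z in St A ε, ENNReal.ofReal (g (WithLp.ofLp z)) := by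
    rw [← lintegral_abs_det_fderiv_eq_addHaar_image volume hmeas
      (fun z _ => (hasFDerivAt_Psi u z).hasFDerivWithinAt) hinj]
    refine setLIntegral_congr_fun hmeas fun z hz => ?_
    rw [abs_of_pos (hpos z hz), hdet]
  have hemb : MeasurableEmbedding (WithLp.ofLp (p := 2) (V := ℝ × E n)) :=
    (MeasurableEquiv.toLp 2 (ℝ × E n)).symm.measurableEmbedding
  have hvol2 : volume (Psi (fn u) '' St A ε) =
      ∫⁻ x in Ioo (-ε) ε ×ˢ A, ENNReal.ofReal (g x) := by
    rw [hvol, St_eq]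
    exact (WithLp.volume_preserving_ofLp ℝ (E n)).setLIntegral_comp_preimage_emb hemb
      (fun x => ENNReal.ofReal (g x)) _
  have hint1 : ∀ m : ℕ, Integrable (fun t : ℝ => (-t) ^ m) (volume.restrict (Ioo (-ε) ε)) := by
    intro m
    have hc : Continuous fun t : ℝ => (-t) ^ m := continuous_neg.pow m
    exact (hc.continuousOn.integrableOn_compact isCompact_Icc).mono_set Ioo_subset_Icc_self
  have hint2 : ∀ m : ℕ, Integrable (fun y => (wf (fn u) y)⁻¹ * sig (Jm (fn u) y) m)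
      (volume.restrict A) := by
    intro m
    have hc : Continuous fun y => (wf (fn u) y)⁻¹ * sig (Jm (fn u) y) m :=
      (continuous_wf_inv u).mul (continuous_sigJ u m)
    exact (hc.continuousOn.integrableOn_compact (isCompact_closedBall (0 : E n) ρ)).mono_set hAρ
  have hint : ∀ m : ℕ, Integrable (fun x : ℝ × E n => (-x.1) ^ m * ((wf (fn u) x.2)⁻¹ *
      sig (Jm (fn u) x.2) m)) ((volume : Measure (ℝ × E n)).restrict (Ioo (-ε) ε ×ˢ A)) := by
    intro m
    rw [Measure.volume_eq_prod, ← Measure.prod_restrict]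
    exact Integrable.mul_prod (hint1 m) (hint2 m)
  have hgint : Integrable g ((volume : Measure (ℝ × E n)).restrict (Ioo (-ε) ε ×ˢ A)) :=
    integrable_finsetSum _ fun m _ => hint m
  have hgval : ∫ x in Ioo (-ε) ε ×ˢ A, g x =
      ∑ m ∈ Finset.range (n + 1), cm m ε * ∫ y in A, (wf (fn u) y)⁻¹ * sig (Jm (fn u) y) m := by
    rw [hg, integral_finsetSum _ fun m _ => hint m]
    refine Finset.sum_congr rfl fun m _ => ?_
    rw [Measure.volume_eq_prod]
    exact setIntegral_prod_mul (fun t : ℝ => (-t) ^ m)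
      (fun y => (wf (fn u) y)⁻¹ * sig (Jm (fn u) y) m) _ _
  have hgnn : 0 ≤ᵐ[(volume : Measure (ℝ × E n)).restrict (Ioo (-ε) ε ×ˢ A)] g := by
    refine (ae_restrict_iff' (measurableSet_Ioo.prod hA)).mpr (ae_of_all _ fun x hx => ?_)
    have h1 := hpos (WithLp.toLp 2 x) hx
    rw [hdet] at h1
    exact h1.le
  constructor
  · rw [← hgval]
    exact integral_nonneg_of_ae hgnn
  · rw [hvol2, ← hgval, ofReal_integral_eq_lintegral_ofReal hgint hgnn]

/-- change of coordinates `x ↦ Q (x - p)` -/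
noncomputable def tr (Q : E (n + 1) ≃ₗᵢ[ℝ] F n) (p : E (n + 1)) (x : E (n + 1)) : F n := Q (x - p)

/-- inverse change of coordinates `z ↦ p + Q⁻¹ z` -/
noncomputable def rt (Q : E (n + 1) ≃ₗᵢ[ℝ] F n) (p : E (n + 1)) (z : F n) : E (n + 1) := p + Q.symm z

lemma tr_rt (Q : E (n + 1) ≃ₗᵢ[ℝ] F n) (p : E (n + 1)) (z : F n) : tr Q p (rt Q p z) = z := by
  simp [tr, rt]

lemma rt_tr (Q : E (n + 1) ≃ₗᵢ[ℝ] F n) (p : E (n + 1)) (x : E (n + 1)) : rt Q p (tr Q p x) = x := by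
  simp [tr, rt]

lemma dist_tr (Q : E (n + 1) ≃ₗᵢ[ℝ] F n) (p x y : E (n + 1)) :
    ‖tr Q p x - tr Q p y‖ = dist x y := by
  rw [tr, tr, ← map_sub, Q.norm_map, dist_eq_norm]
  congr 1
  abel

lemma measurePreserving_tr (Q : E (n + 1) ≃ₗᵢ[ℝ] F n) (p : E (n + 1)) :
    MeasurePreserving (tr Q p) :=
  Q.measurePreserving.comp (measurePreserving_sub_right volume p)

lemma continuous_tr (Q : E (n + 1) ≃ₗᵢ[ℝ] F n) (p : E (n + 1)) : Continuous (tr Q p) :=
  Q.continuous.comp (continuous_id.sub continuous_const)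

lemma continuous_rt (Q : E (n + 1) ≃ₗᵢ[ℝ] F n) (p : E (n + 1)) : Continuous (rt Q p) :=
  continuous_const.add Q.symm.continuous

lemma continuous_gX (u : SR n) : Continuous (gX u) := by
  have h1 : Continuous fun y : E n => (fn u y, y) := (fn_smooth u).continuous.prodMk continuous_id
  exact (WithLp.prod_continuous_toLp 2 ℝ (E n)).comp h1

/-- **Tube formula** for a compact set covered by finitely many graph charts. -/
theorem tube_volume {N : ℕ} (M : Set (E (n + 1))) (hM : IsCompact M)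
    (Q : Fin N → (E (n + 1) ≃ₗᵢ[ℝ] F n)) (p : Fin N → E (n + 1)) (u : Fin N → SR n)
    (ρ h : ℝ) (hρ : 0 < ρ)
    (hL : ∀ i, LC {z | rt (Q i) (p i) z ∈ M} (u i) ρ h)
    (hcov : ∀ q ∈ M, ∃ i, ∃ y ∈ closedBall (0 : E n) ρ, tr (Q i) (p i) q = gX (u i) y) :
    ∃ ε₁ : ℝ, 0 < ε₁ ∧ ∃ A : Fin N → Set (E n), (∀ i, MeasurableSet (A i)) ∧
      (∀ i, A i ⊆ closedBall 0 ρ) ∧ ∀ ε : ℝ, 0 < ε → ε < ε₁ →
        (volume (thickening ε M)).toReal = ∑ i, ∑ m ∈ Finset.range (n + 1),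
          cm m ε * ∫ y in A i, (wf (fn (u i)) y)⁻¹ * sig (Jm (fn (u i)) y) m := by
  classical
  choose ε₀ hε₀ hG₀ using fun i => exists_good (u i) ρ hρ
  obtain ⟨ε₁, hε₁, hεi⟩ : ∃ ε₁ : ℝ, 0 < ε₁ ∧ ∀ i, ε₁ ≤ ε₀ i := by
    rcases isEmpty_or_nonempty (Fin N) with hN | hN
    · exact ⟨1, one_pos, fun i => isEmptyElim i⟩
    · obtain ⟨i₀, hi₀⟩ := Finite.exists_min ε₀
      exact ⟨ε₀ i₀, hε₀ i₀, hi₀⟩
  have hG : ∀ i, Good (u i) ρ ε₁ := fun i => (hG₀ i).mono (hεi i)
  -- the compact pieces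
  set K : Fin N → Set (E (n + 1)) := fun i =>
    (tr (Q i) (p i)) ⁻¹' (gX (u i) '' closedBall 0 ρ) with hK
  have hKc : ∀ i, IsClosed (K i) := fun i =>
    (((isCompact_closedBall (0 : E n) ρ).image (continuous_gX (u i))).isClosed).preimage
      (continuous_tr _ _)
  set A : Fin N → Set (E n) := fun i => closedBall 0 ρ ∩
    ⋂ j : {j : Fin N // j < i}, {y | rt (Q i) (p i) (gX (u i) y) ∉ K j} with hA
  have hAm : ∀ i, MeasurableSet (A i) := by
    intro i
    refine measurableSet_closedBall.inter (MeasurableSet.iInter fun j => ?_)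
    exact (((hKc j).preimage ((continuous_rt _ _).comp (continuous_gX _))).measurableSet).compl
  have hAρ : ∀ i, A i ⊆ closedBall 0 ρ := fun i => inter_subset_left
  refine ⟨ε₁, hε₁, A, hAm, hAρ, fun ε hε hεε₁ => ?_⟩
  -- the pieces of the tube
  set T : Fin N → Set (E (n + 1)) := fun i =>
    (tr (Q i) (p i)) ⁻¹' (Psi (fn (u i)) '' St (A i) ε) with hT
  have hvol := fun i => volume_Psi_image hρ (hL i) (hG i) (hAm i) (hAρ i) hεε₁.le
  have hTm : ∀ i, MeasurableSet (T i) := fun i =>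
    (continuous_tr _ _).measurable (hvol i).1
  have hAK : ∀ i, ∀ y ∈ A i, rt (Q i) (p i) (gX (u i) y) ∈ K i := by
    intro i y hy
    rw [hK]
    simp only [mem_preimage, tr_rt]
    exact mem_image_of_mem _ (hAρ i hy)
  have hAM : ∀ i, ∀ y ∈ A i, rt (Q i) (p i) (gX (u i) y) ∈ M := by
    intro i y hy
    have h1 := hAρ i hy
    rw [mem_closedBall_zero_iff] at h1
    exact gX_mem (hL i) (by linarith)
  -- the tube is the union of the pieces
  have hunion : thickening ε M = ⋃ i, T i := by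
    ext x
    rw [mem_iUnion]
    constructor
    · intro hx
      obtain ⟨q₀, hq₀, hxq₀⟩ := mem_thickening_iff.mp hx
      obtain ⟨q, hq, hqd⟩ := hM.exists_infDist_eq_dist ⟨q₀, hq₀⟩ x
      have hxq : dist x q < ε := by
        rw [← hqd]
        exact (infDist_le_dist_of_mem hq₀).trans_lt hxq₀
      have hmin : ∀ q' ∈ M, dist x q ≤ dist x q' := fun q' hq' => by
        rw [← hqd]
        exact infDist_le_dist_of_mem hq'
      -- the first chart containing q
      have hex : ∃ i, q ∈ K i := by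
        obtain ⟨i, y, hy, hqy⟩ := hcov q hq
        exact ⟨i, y, hy, hqy.symm⟩
      obtain ⟨i, hi, hilt⟩ : ∃ i, q ∈ K i ∧ ∀ j, j < i → q ∉ K j := by
        have hwf := WellFounded.has_min (r := fun a b : Fin N => a < b) wellFounded_lt
          {i | q ∈ K i} hex
        obtain ⟨i, hi, hi2⟩ := hwf
        exact ⟨i, hi, fun j hj hqj => hi2 j hqj hj⟩
      obtain ⟨y, hy, hyq⟩ := hi
      have hrt : rt (Q i) (p i) (gX (u i) y) = q := by rw [hyq, rt_tr]
      have hyA : y ∈ A i := by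
        refine ⟨hy, mem_iInter.mpr fun j => ?_⟩
        rw [mem_ofPred_eq, hrt]
        exact hilt j j.2
      obtain ⟨t, ht, hxt⟩ := nearest_normal hρ (hL i) y (by simpa using hy) (tr (Q i) (p i) x) (by
        intro z' hz'
        rw [hyq, dist_tr]
        have h1 := hmin _ hz'
        rw [← dist_tr (Q i) (p i) x (rt (Q i) (p i) z'), tr_rt] at h1
        exact h1)
      rw [hyq, dist_tr] at ht
      refine ⟨i, WithLp.toLp 2 (t, y), ⟨?_, hyA⟩, hxt.symm⟩
      rw [mem_Ioo, ← abs_lt]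
      change |t| < ε
      rw [ht]
      exact hxq
    · rintro ⟨i, z, hz, hxz⟩
      rw [mem_thickening_iff]
      refine ⟨rt (Q i) (p i) (gX (u i) z.snd), hAM i _ hz.2, ?_⟩
      rw [← dist_tr (Q i) (p i), tr_rt, ← hxz, Psi_sub_gX]
      exact abs_lt_of_Ioo hz.1
  -- the pieces are disjoint
  have hfoot : ∀ i j (z z' : F n) (x : E (n + 1)), z ∈ St (A i) ε → z' ∈ St (A j) ε →
      Psi (fn (u i)) z = tr (Q i) (p i) x → Psi (fn (u j)) z' = tr (Q j) (p j) x →
      |z'.fst| ≤ |z.fst| →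
      rt (Q j) (p j) (gX (u j) z'.snd) = rt (Q i) (p i) (gX (u i) z.snd) := by
    intro i j z z' x hz hz' hxz hxz' hle
    have hzρ : ‖z.snd‖ ≤ ρ := by
      have := hAρ i hz.2
      rwa [mem_closedBall_zero_iff] at this
    have h1 := (hG i).1 _ h (hL i) z hzρ ((abs_lt_of_Ioo hz.1).trans hεε₁)
      (tr (Q i) (p i) (rt (Q j) (p j) (gX (u j) z'.snd))) (by
        rw [mem_ofPred_eq, rt_tr]
        exact hAM j _ hz'.2) (by
        rw [hxz, dist_tr, ← dist_tr (Q j) (p j), tr_rt, ← hxz', Psi_sub_gX]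
        exact hle)
    rw [← h1, rt_tr]
  have hsame : ∀ i j (z z' : F n), z ∈ St (A i) ε → z' ∈ St (A j) ε →
      rt (Q j) (p j) (gX (u j) z'.snd) = rt (Q i) (p i) (gX (u i) z.snd) → ¬ i < j := by
    intro i j z z' hz hz' heq hij
    have h1 := mem_iInter.mp hz'.2.2 ⟨i, hij⟩
    rw [mem_ofPred_eq, heq] at h1
    exact h1 (hAK i _ hz.2)
  have hdisj : Pairwise (Function.onFun Disjoint T) := by
    intro i j hij
    rw [Function.onFun, Set.disjoint_left]
    rintro x ⟨z, hz, hxz⟩ ⟨z', hz', hxz'⟩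
    have heq : rt (Q j) (p j) (gX (u j) z'.snd) = rt (Q i) (p i) (gX (u i) z.snd) := by
      rcases le_total |z'.fst| |z.fst| with hle | hle
      · exact hfoot i j z z' x hz hz' hxz hxz' hle
      · exact (hfoot j i z' z x hz' hz hxz' hxz hle).symm
    rcases lt_or_gt_of_ne hij with hlt | hlt
    · exact hsame i j z z' hz hz' heq hlt
    · exact hsame j i z' z hz' hz heq.symm hlt
  have hTvol : ∀ i, volume (T i) = ENNReal.ofReal (∑ m ∈ Finset.range (n + 1),
      cm m ε * ∫ y in A i, (wf (fn (u i)) y)⁻¹ * sig (Jm (fn (u i)) y) m) := by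
    intro i
    rw [hT, (measurePreserving_tr _ _).measure_preimage (hvol i).1.nullMeasurableSet, (hvol i).2.2]
  rw [hunion, measure_iUnion hdisj hTm, tsum_fintype, Finset.sum_congr rfl fun i _ => hTvol i,
    ← ENNReal.ofReal_sum_of_nonneg fun i _ => (hvol i).2.1,
    ENNReal.toReal_ofReal (Finset.sum_nonneg fun i _ => (hvol i).2.1)]

end Pool.Agent.H422IV
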