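import Mathlib
import Pool.Agent.H422IV.Tube3
import Pool.Agent.H422IV.Gauss

/-!
# Frames adapted to a graph and the derivative of the normal exponential map
-/

set_option autoImplicit false
set_option linter.unusedSectionVars false

open MeasureTheory Metric Set Filter Topology Matrix
open scoped ENNReal NNReal ContDiff

namespace Pool.Agent.H422IV

variable {n : ℕ}

/-- simultaneous diagonalisation -/
lemma simul_diag (g A : Matrix (Fin n) (Fin n) ℝ) (hg : gᵀ = g)
    (hpos : ∀ v : Fin n → ℝ, v ≠ 0 → 0 < v ⬝ᵥ g *ᵥ v) (hA : Aᵀ = A) :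
    ∃ (V : Matrix (Fin n) (Fin n) ℝ) (μ : Fin n → ℝ), Vᵀ * g * V = 1 ∧
      Vᵀ * A * V = diagonal μ := by
  obtain ⟨U, γ, hU, hU', hgU⟩ := exists_diag g hg
  have hγ : ∀ a, 0 < γ a := by
    intro a
    have h1 : (fun i => U i a) ≠ 0 := by
      intro h0
      have h2 := congrFun (congrFun hU' a) a
      rw [Matrix.mul_apply, Matrix.one_apply_eq] at h2
      have h3 : ∀ i, U i a = 0 := fun i => congrFun h0 i
      simp [h3] at h2
    have h4 := hpos _ h1
    have h5 : (fun i => U i a) ⬝ᵥ g *ᵥ (fun i => U i a) = γ a := by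
      have h6 : Uᵀ * g * U = diagonal γ := by
        rw [hgU]
        simp only [Matrix.mul_assoc]
        rw [hU', Matrix.mul_one, ← Matrix.mul_assoc, hU', Matrix.one_mul]
      have h7 := congrFun (congrFun h6 a) a
      rw [diagonal_apply_eq, Matrix.mul_assoc, Matrix.mul_apply] at h7
      rw [← h7, dotProduct]
      refine Finset.sum_congr rfl fun i _ => ?_
      rw [transpose_apply]
      rfl
    rw [h5] at h4
    exact h4
  set P := U * diagonal (fun a => (Real.sqrt (γ a))⁻¹) with hP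
  have hPg : Pᵀ * g * P = 1 := by
    rw [hP, transpose_mul, diagonal_transpose]
    have h6 : Uᵀ * g * U = diagonal γ := by
      rw [hgU]
      simp only [Matrix.mul_assoc]
      rw [hU', Matrix.mul_one, ← Matrix.mul_assoc, hU', Matrix.one_mul]
    have h7 : diagonal (fun a => (Real.sqrt (γ a))⁻¹) * Uᵀ * g *
        (U * diagonal (fun a => (Real.sqrt (γ a))⁻¹)) =
        diagonal (fun a => (Real.sqrt (γ a))⁻¹) * (Uᵀ * g * U) *
        diagonal (fun a => (Real.sqrt (γ a))⁻¹) := by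
      simp only [Matrix.mul_assoc]
    rw [h7, h6, diagonal_mul_diagonal, diagonal_mul_diagonal, ← diagonal_one]
    congr 1
    funext a
    have hs : Real.sqrt (γ a) ≠ 0 := (Real.sqrt_pos.mpr (hγ a)).ne'
    have hs2 : γ a = Real.sqrt (γ a) * Real.sqrt (γ a) := (Real.mul_self_sqrt (hγ a).le).symm
    rw [hs2, Real.sqrt_mul_self (Real.sqrt_nonneg _)]
    field_simp
  have hsym : (Pᵀ * A * P)ᵀ = Pᵀ * A * P := by
    clear_value P
    rw [transpose_mul, transpose_mul, transpose_transpose, hA, Matrix.mul_assoc]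
  obtain ⟨U2, μ, hU2, hU2', hAU⟩ := exists_diag (Pᵀ * A * P) hsym
  refine ⟨P * U2, μ, ?_, ?_⟩
  · rw [transpose_mul]
    have h8 : U2ᵀ * Pᵀ * g * (P * U2) = U2ᵀ * (Pᵀ * g * P) * U2 := by
      simp only [Matrix.mul_assoc]
    rw [h8, hPg, Matrix.mul_one, hU2']
  · rw [transpose_mul]
    have h8 : U2ᵀ * Pᵀ * A * (P * U2) = U2ᵀ * (Pᵀ * A * P) * U2 := by
      simp only [Matrix.mul_assoc]
    rw [h8, hAU]
    simp only [Matrix.mul_assoc]
    rw [hU2', Matrix.mul_one, ← Matrix.mul_assoc, hU2', Matrix.one_mul]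

/-- the unit normal of the graph -/
noncomputable def Nv (u : E n → ℝ) (y : E n) : F n := WithLp.toLp 2 (wf u y, -Hv u y)

/-- the derivative of the graph parametrisation -/
noncomputable def DX (u : E n → ℝ) (y v : E n) : F n := WithLp.toLp 2 (fderiv ℝ u y v, v)

lemma DX_add (u : E n → ℝ) (y v w : E n) : DX u y (v + w) = DX u y v + DX u y w := by
  unfold DX
  rw [map_add]
  rfl

lemma DX_smul (u : E n → ℝ) (y v : E n) (c : ℝ) : DX u y (c • v) = c • DX u y v := by
  unfold DX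
  rw [map_smul]
  rfl

lemma DX_sub (u : E n → ℝ) (y v w : E n) : DX u y (v - w) = DX u y v - DX u y w := by
  unfold DX
  rw [map_sub]
  rfl

lemma inner_F (z z' : F n) : inner ℝ z z' = z.fst * z'.fst + inner ℝ z.snd z'.snd := by
  rw [WithLp.prod_inner_apply]
  have h1 : ∀ a b : ℝ, inner ℝ a b = a * b := by
    intro a b
    simp [mul_comm]
  congr 1
  exact h1 _ _

lemma inner_Nv_DX (u : E n → ℝ) (y v : E n) : inner ℝ (Nv u y) (DX u y v) = 0 := by
  rw [inner_F]
  change wf u y * fderiv ℝ u y v + inner ℝ (-Hv u y) v = 0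
  rw [inner_neg_left, Hv_inner]
  ring

lemma inner_Nv_Nv (u : E n → ℝ) (y : E n) : inner ℝ (Nv u y) (Nv u y) = 1 := by
  rw [inner_F]
  change wf u y * wf u y + inner ℝ (-Hv u y) (-Hv u y) = 1
  rw [inner_neg_neg, real_inner_self_eq_norm_sq]
  have := Hv_norm_sq u y
  nlinarith [this]

lemma norm_Nv (u : E n → ℝ) (y : E n) : ‖Nv u y‖ = 1 := by
  have h := inner_Nv_Nv u y
  rw [real_inner_self_eq_norm_sq] at h
  exact (pow_eq_one_iff_of_nonneg (norm_nonneg _) two_ne_zero).mp h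

lemma inner_DX_DX (u : E n → ℝ) (y v w : E n) :
    inner ℝ (DX u y v) (DX u y w) = (v.ofLp ⬝ᵥ graphMetric u y *ᵥ w.ofLp) := by
  rw [inner_F, quad_graphMetric]
  change fderiv ℝ u y v * fderiv ℝ u y w + inner ℝ v w = _
  rw [fderiv_eq_sum, fderiv_eq_sum, PiLp.inner_apply]
  have h1 : ∑ i, inner ℝ (v i) (w i) = v.ofLp ⬝ᵥ w.ofLp := by
    rw [dotProduct]
    refine Finset.sum_congr rfl fun i _ => ?_
    simp [mul_comm]
  rw [h1, add_comm]
  rfl

lemma graphMetric_symm (u : E n → ℝ) (y : E n) : (graphMetric u y)ᵀ = graphMetric u y := by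
  ext i j
  rw [transpose_apply, graphMetric, of_apply, of_apply, Matrix.one_apply, Matrix.one_apply]
  by_cases h : i = j
  · subst h; rfl
  · rw [if_neg h, if_neg (Ne.symm h)]
    ring

lemma graphMetric_pos (u : E n → ℝ) (y : E n) (v : Fin n → ℝ) (hv : v ≠ 0) :
    0 < v ⬝ᵥ graphMetric u y *ᵥ v := by
  rw [quad_graphMetric]
  have h1 : 0 < v ⬝ᵥ v := by
    rw [dotProduct]
    obtain ⟨i, hi⟩ := Function.ne_iff.mp hv
    refine Finset.sum_pos' (fun j _ => mul_self_nonneg _) ⟨i, Finset.mem_univ i, ?_⟩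
    exact mul_self_pos.mpr hi
  nlinarith [mul_self_nonneg (Gr u y ⬝ᵥ v)]

/-- `g J = w D²u` -/
lemma graphMetric_mul_Jm (u : E n → ℝ) (y : E n) :
    graphMetric u y * Jm u y = wf u y • Hs u y := by
  have h1 : graphMetric u y * Pm u y = wf u y • (1 : Matrix (Fin n) (Fin n) ℝ) := by
    have h2 := ginv_graph u y
    have h3 : Pm u y = wf u y • ginv (graphMetric u) y := by
      rw [h2]
      ext i k
      rw [Pm, of_apply, Matrix.smul_apply, Matrix.sub_apply, Matrix.smul_apply, of_apply,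
        smul_eq_mul, smul_eq_mul]
    have h4 : graphMetric u y * ginv (graphMetric u) y = 1 := by
      unfold ginv
      apply Matrix.mul_nonsing_inv
      have hinj : Function.Injective (graphMetric u y).mulVec := by
        intro a b hab
        by_contra hne
        have h5 := graphMetric_pos u y (a - b) (sub_ne_zero.mpr hne)
        rw [mulVec_sub] at h5
        rw [hab, sub_self, dotProduct_zero] at h5
        exact lt_irrefl _ h5
      rw [Matrix.mulVec_injective_iff_isUnit] at hinj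
      exact (Matrix.isUnit_iff_isUnit_det _).mp hinj
    rw [h3, Matrix.mul_smul, h4]
  rw [Jm, ← Matrix.mul_assoc, h1, Matrix.smul_mul, Matrix.one_mul]

/-- the Weingarten map in coordinates -/
noncomputable def Jl (u : E n → ℝ) (y : E n) : E n →L[ℝ] E n := fderiv ℝ (Hv u) y

lemma Jl_ofLp (u : SR n) (y v : E n) : (Jl (fn u) y v).ofLp = Jm (fn u) y *ᵥ v.ofLp := by
  funext i
  have h1 : v = ∑ j, v j • (EuclideanSpace.single j (1 : ℝ) : E n) := by
    have h2 := (EuclideanSpace.basisFun (Fin n) ℝ).sum_repr v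
    simpa using h2.symm
  have h3 : Jl (fn u) y v = ∑ j, v j • Jl (fn u) y (EuclideanSpace.single j 1) := by
    conv_lhs => rw [h1]
    rw [map_sum]
    refine Finset.sum_congr rfl fun j _ => ?_
    rw [map_smul]
  rw [h3, mulVec, dotProduct]
  have h4 : (∑ j, v j • Jl (fn u) y (EuclideanSpace.single j 1)).ofLp i =
      ∑ j, v j * (Jl (fn u) y (EuclideanSpace.single j 1)) i := by
    simp
  rw [h4]
  refine Finset.sum_congr rfl fun j _ => ?_
  rw [Jl, fderiv_Hv]
  ring

/-- `⟪DX v, DX (J w)⟫ = w D²u(v, w)` -/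
lemma inner_DX_DXJ (u : SR n) (y v w : E n) :
    inner ℝ (DX (fn u) y v) (DX (fn u) y (Jl (fn u) y w)) =
      wf (fn u) y * (v.ofLp ⬝ᵥ Hs (fn u) y *ᵥ w.ofLp) := by
  rw [inner_DX_DX, Jl_ofLp, mulVec_mulVec, graphMetric_mul_Jm, smul_mulVec, dotProduct_smul,
    smul_eq_mul]

lemma hasFDerivAt_wf (u : SR n) (y : E n) :
    HasFDerivAt (wf (fn u)) (fderiv ℝ (wf (fn u)) y) y := (fn_diff (wS u) y).hasFDerivAt

lemma hasFDerivAt_Hv (u : SR n) (y : E n) : HasFDerivAt (Hv (fn u)) (Jl (fn u) y) y :=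
  ((contDiff_Hv u).differentiable (by simp)).differentiableAt.hasFDerivAt

/-- derivative of `w` -/
lemma fderiv_wf (u : SR n) (y v : E n) :
    fderiv ℝ (wf (fn u)) y v = -fderiv ℝ (fn u) y (Jl (fn u) y v) := by
  -- differentiate `w² + |H|² = 1`
  have h1 : HasFDerivAt (fun z => wf (fn u) z ^ 2 + ‖Hv (fn u) z‖ ^ 2)
      ((2 * wf (fn u) y) • fderiv ℝ (wf (fn u)) y +
        2 • (innerSL ℝ (Hv (fn u) y)).comp (Jl (fn u) y)) y := by
    have h2 := (hasFDerivAt_wf u y).pow 2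
    have h3 := (hasFDerivAt_Hv u y).norm_sq
    refine (h2.add h3).congr_fderiv ?_
    ext v
    simp
  have h4 : (fun z => wf (fn u) z ^ 2 + ‖Hv (fn u) z‖ ^ 2) = fun _ => (1 : ℝ) := by
    funext z
    have := Hv_norm_sq (fn u) z
    linarith
  rw [h4] at h1
  have h5 := h1.unique (hasFDerivAt_const (1 : ℝ) y)
  have h6 := congrArg (fun L : E n →L[ℝ] ℝ => L v) h5
  simp only [_root_.add_apply, _root_.smul_apply,
    ContinuousLinearMap.comp_apply, _root_.zero_apply, smul_eq_mul, nsmul_eq_mul,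
    innerSL_apply_apply] at h6
  rw [Hv_inner] at h6
  have hw := wf_pos (fn u) y
  have h7 : (2 * wf (fn u) y) * (fderiv ℝ (wf (fn u)) y v + fderiv ℝ (fn u) y (Jl (fn u) y v)) = 0 := by
    push_cast at h6
    linarith
  rcases mul_eq_zero.mp h7 with h8 | h8
  · exact absurd h8 (by positivity)
  · linarith

/-- derivative of the unit normal -/
lemma hasFDerivAt_Nv (u : SR n) (y : E n) : ∃ L : E n →L[ℝ] F n,
    HasFDerivAt (Nv (fn u)) L y ∧ ∀ v, L v = -DX (fn u) y (Jl (fn u) y v) := by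
  set e := WithLp.prodContinuousLinearEquiv 2 ℝ ℝ (E n) with he
  refine ⟨(e.symm : (ℝ × E n) →L[ℝ] F n).comp
    ((fderiv ℝ (wf (fn u)) y).prod (-(Jl (fn u) y))), ?_, fun v => ?_⟩
  · have h1 : HasFDerivAt (fun z => (wf (fn u) z, -Hv (fn u) z))
        ((fderiv ℝ (wf (fn u)) y).prod (-(Jl (fn u) y))) y :=
      (hasFDerivAt_wf u y).prodMk (hasFDerivAt_Hv u y).neg
    have h2 : HasFDerivAt (fun x => e.symm x) (e.symm : (ℝ × E n) →L[ℝ] F n)
      ((fun z => (wf (fn u) z, -Hv (fn u) z)) y) := e.symm.hasFDerivAt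
    exact h2.comp y h1
  · change WithLp.toLp 2 (fderiv ℝ (wf (fn u)) y v, -(Jl (fn u) y v)) = _
    rw [fderiv_wf]
    rfl

lemma contDiff_Psi (u : SR n) : ContDiff ℝ ∞ (Psi (fn u)) := by
  set e := WithLp.prodContinuousLinearEquiv 2 ℝ ℝ (E n) with he
  have hfst : ContDiff ℝ ∞ (fun z : F n => z.fst) :=
    contDiff_fst.comp e.contDiff
  have hsnd : ContDiff ℝ ∞ (fun z : F n => z.snd) :=
    contDiff_snd.comp e.contDiff
  have h1 : ContDiff ℝ ∞ (fun z : F n =>
      (fn u z.snd + z.fst * wf (fn u) z.snd, z.snd - z.fst • Hv (fn u) z.snd)) := by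
    refine ContDiff.prodMk ?_ ?_
    · exact ((fn_smooth u).comp hsnd).add (hfst.mul ((contDiff_wf u).comp hsnd))
    · exact hsnd.sub (hfst.smul ((contDiff_Hv u).comp hsnd))
  exact e.symm.contDiff.comp h1

/-- the derivative of the normal exponential map -/
lemma Psi'_apply (u : SR n) (z ζ : F n) : Psi' (fn u) z ζ =
    ζ.fst • Nv (fn u) z.snd + DX (fn u) z.snd (ζ.snd - z.fst • Jl (fn u) z.snd ζ.snd) := by
  have h1 : Psi' (fn u) z ζ = WithLp.toLp 2
      (fderiv ℝ (fn u) z.snd ζ.snd + (z.fst * fderiv ℝ (wf (fn u)) z.snd ζ.snd +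
        wf (fn u) z.snd * ζ.fst),
       ζ.snd - (z.fst • Jl (fn u) z.snd ζ.snd + ζ.fst • Hv (fn u) z.snd)) := rfl
  rw [h1, fderiv_wf]
  have h2 : ζ.fst • Nv (fn u) z.snd + DX (fn u) z.snd (ζ.snd - z.fst • Jl (fn u) z.snd ζ.snd) =
      WithLp.toLp 2 (ζ.fst * wf (fn u) z.snd +
        fderiv ℝ (fn u) z.snd (ζ.snd - z.fst • Jl (fn u) z.snd ζ.snd),
        ζ.fst • (-Hv (fn u) z.snd) + (ζ.snd - z.fst • Jl (fn u) z.snd ζ.snd)) := rfl
  rw [h2, map_sub, map_smul]
  congr 2
  · simp only [smul_eq_mul]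
    ring
  · rw [smul_neg]
    abel

end Pool.Agent.H422IV
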