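import Mathlib
import Pool.Agent.H422IV.Frame

/-!
# Germs of superlevel sets at regular points and at nondegenerate critical points
-/

set_option autoImplicit false
set_option linter.unusedSectionVars false

open Set Filter Topology Metric Matrix
open scoped ContDiff

namespace Pool.Agent.H422IV

variable {n : ℕ}

lemma fderiv_near {V W : Type} [NormedAddCommGroup V] [NormedSpace ℝ V] [NormedAddCommGroup W]
    [NormedSpace ℝ W] (F : V → W) (hF : ContDiff ℝ 1 F) (y₀ : V) {η : ℝ} (hη : 0 < η) :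
    ∃ r : ℝ, 0 < r ∧ ∀ y ∈ ball y₀ r, ∀ v, ‖fderiv ℝ F y v - fderiv ℝ F y₀ v‖ ≤ η * ‖v‖ := by
  have hc := hF.continuous_fderiv (by norm_num)
  obtain ⟨r, hr, hr'⟩ := Metric.continuousAt_iff.mp (hc.continuousAt (x := y₀)) η hη
  refine ⟨r, hr, fun y hy v => ?_⟩
  have h1 := hr' hy
  rw [dist_eq_norm] at h1
  rw [← _root_.sub_apply]
  exact (ContinuousLinearMap.le_opNorm _ v).trans
    (mul_le_mul_of_nonneg_right h1.le (norm_nonneg _))

/-- second derivative of `φ` at `y` in direction `v` -/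
noncomputable def D2 (φ : E n → ℝ) (y v : E n) : ℝ := fderiv ℝ (fderiv ℝ φ) y v v

section line

variable {φ : E n → ℝ} (hφ : ContDiff ℝ 2 φ)

include hφ

lemma line_deriv (y v : E n) (τ : ℝ) :
    HasDerivAt (fun s : ℝ => φ (y + s • v)) (fderiv ℝ φ (y + τ • v) v) τ := by
  have h1 : HasFDerivAt φ (fderiv ℝ φ (y + τ • v)) (y + τ • v) :=
    ((hφ.differentiable (by norm_num)) _).hasFDerivAt
  have h2 : HasDerivAt (fun s : ℝ => y + s • v) v τ := by
    have h3 : HasDerivAt (fun s : ℝ => s • v) ((1 : ℝ) • v) τ := (hasDerivAt_id τ).smul_const v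
    rw [one_smul] at h3
    exact h3.const_add y
  exact h1.comp_hasDerivAt τ h2

lemma line_deriv2 (y v : E n) (τ : ℝ) :
    HasDerivAt (fun s : ℝ => fderiv ℝ φ (y + s • v) v) (D2 φ (y + τ • v) v) τ := by
  have hd : ContDiff ℝ 1 (fderiv ℝ φ) := hφ.fderiv_right (m := 1) (by norm_num)
  have h1 : HasFDerivAt (fderiv ℝ φ) (fderiv ℝ (fderiv ℝ φ) (y + τ • v)) (y + τ • v) :=
    ((hd.differentiable (by norm_num)) _).hasFDerivAt
  have h2 : HasDerivAt (fun s : ℝ => y + s • v) v τ := by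
    have h3 : HasDerivAt (fun s : ℝ => s • v) ((1 : ℝ) • v) τ := (hasDerivAt_id τ).smul_const v
    rw [one_smul] at h3
    exact h3.const_add y
  have h4 := h1.comp_hasDerivAt τ h2
  have h5 : HasDerivAt (fun s : ℝ => ContinuousLinearMap.apply ℝ ℝ v (fderiv ℝ φ (y + s • v)))
      (ContinuousLinearMap.apply ℝ ℝ v (fderiv ℝ (fderiv ℝ φ) (y + τ • v) v)) τ :=
    ((ContinuousLinearMap.apply ℝ ℝ v).hasFDerivAt.comp_hasDerivAt τ h4)
  exact h5

/-- concavity on a segment -/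
lemma line_min (y v : E n) (h : ∀ τ ∈ Icc (0 : ℝ) 1, D2 φ (y + τ • v) v ≤ 0) (τ : ℝ)
    (hτ : τ ∈ Icc (0 : ℝ) 1) : min (φ y) (φ (y + v)) ≤ φ (y + τ • v) := by
  have hc : ConcaveOn ℝ (Icc (0 : ℝ) 1) (fun s : ℝ => φ (y + s • v)) := by
    refine concaveOn_of_hasDerivWithinAt2_nonpos (convex_Icc 0 1)
      (f' := fun s => fderiv ℝ φ (y + s • v) v) (f'' := fun s => D2 φ (y + s • v) v) ?_ ?_ ?_ ?_
    · intro s _
      exact (line_deriv hφ y v s).continuousAt.continuousWithinAt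
    · intro s _
      exact (line_deriv hφ y v s).hasDerivWithinAt
    · intro s _
      exact (line_deriv2 hφ y v s).hasDerivWithinAt
    · intro s hs
      exact h s (interior_subset hs)
  have h1 := hc.ge_on_segment (left_mem_Icc.mpr zero_le_one) (right_mem_Icc.mpr zero_le_one)
    (z := τ) (by rw [segment_eq_Icc zero_le_one]; exact hτ)
  simpa using h1

/-- strict decrease along a direction of strict concavity -/
lemma line_lt (y v : E n) (h0 : fderiv ℝ φ y v = 0)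
    (h : ∀ τ ∈ Icc (0 : ℝ) 1, D2 φ (y + τ • v) v < 0) : φ (y + v) < φ y := by
  have h1 : StrictAntiOn (fun s : ℝ => fderiv ℝ φ (y + s • v) v) (Icc 0 1) := by
    refine strictAntiOn_of_deriv_neg (convex_Icc 0 1) ?_ ?_
    · intro s _
      exact (line_deriv2 hφ y v s).continuousAt.continuousWithinAt
    · intro s hs
      rw [(line_deriv2 hφ y v s).deriv]
      exact h s (interior_subset hs)
  have h2 : StrictAntiOn (fun s : ℝ => φ (y + s • v)) (Icc 0 1) := by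
    refine strictAntiOn_of_deriv_neg (convex_Icc 0 1) ?_ ?_
    · intro s _
      exact (line_deriv hφ y v s).continuousAt.continuousWithinAt
    · intro s hs
      rw [(line_deriv hφ y v s).deriv]
      rw [interior_Icc] at hs
      have h3 := h1 (left_mem_Icc.mpr zero_le_one) (Ioo_subset_Icc_self hs) hs.1
      simp only [zero_smul, add_zero, h0] at h3
      exact h3
  have h4 := h2 (left_mem_Icc.mpr zero_le_one) (right_mem_Icc.mpr zero_le_one) zero_lt_one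
  simpa using h4

/-- strict increase along a direction of strict convexity -/
lemma line_gt (y v : E n) (h0 : fderiv ℝ φ y v = 0)
    (h : ∀ τ ∈ Icc (0 : ℝ) 1, 0 < D2 φ (y + τ • v) v) : φ y < φ (y + v) := by
  have hneg : ContDiff ℝ 2 (fun z => -φ z) := hφ.neg
  have e1 : ∀ z, fderiv ℝ (fun z => -φ z) z = -fderiv ℝ φ z := fun z => fderiv_fun_neg
  have e2 : fderiv ℝ (fun z => -φ z) = fun z => -fderiv ℝ φ z := funext e1
  have h1 := line_lt hneg y v (by rw [e1]; simp [h0]) (fun τ hτ => by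
    have h2 := h τ hτ
    unfold D2 at h2 ⊢
    rw [e2, fderiv_fun_neg]
    simpa using h2)
  linarith

/-- the second derivative is close to its value at a point -/
lemma D2_near (y₀ : E n) {η : ℝ} (hη : 0 < η) :
    ∃ r : ℝ, 0 < r ∧ ∀ y ∈ ball y₀ r, ∀ v, |D2 φ y v - D2 φ y₀ v| ≤ η * ‖v‖ ^ 2 := by
  have hd : ContDiff ℝ 1 (fderiv ℝ φ) := hφ.fderiv_right (m := 1) (by norm_num)
  obtain ⟨r, hr, hr'⟩ := fderiv_near (fderiv ℝ φ) hd y₀ hη
  refine ⟨r, hr, fun y hy v => ?_⟩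
  have h1 := hr' y hy v
  have h2 : D2 φ y v - D2 φ y₀ v =
      (fderiv ℝ (fderiv ℝ φ) y v - fderiv ℝ (fderiv ℝ φ) y₀ v) v := by
    simp [D2]
  rw [h2, ← Real.norm_eq_abs]
  refine (ContinuousLinearMap.le_opNorm _ v).trans ?_
  have h4 : 0 ≤ ‖v‖ := norm_nonneg v
  nlinarith [mul_le_mul_of_nonneg_right h1 h4]

end line

/-- a splitting into a positive and a negative part -/
structure Splitting (φ : E n → ℝ) (y₀ : E n) (πP πQ : E n →L[ℝ] E n) (η : ℝ) : Prop where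
  pos : 0 < η
  add : ∀ v, πP v + πQ v = v
  PP : ∀ v, πP (πP v) = πP v
  QQ : ∀ v, πQ (πQ v) = πQ v
  PQ : ∀ v, πP (πQ v) = 0
  QP : ∀ v, πQ (πP v) = 0
  hP : ∀ v, η * ‖πP v‖ ^ 2 ≤ D2 φ y₀ (πP v)
  hQ : ∀ v, D2 φ y₀ (πQ v) ≤ -(η * ‖πQ v‖ ^ 2)
  crit : fderiv ℝ φ y₀ = 0

section split

variable {φ : E n → ℝ} (hφ : ContDiff ℝ 2 φ) {y₀ : E n} {πP πQ : E n →L[ℝ] E n} {η : ℝ}
  (S : Splitting φ y₀ πP πQ η)

/-- the box neighbourhood -/
def box (y₀ : E n) (πP πQ : E n →L[ℝ] E n) (s : ℝ) : Set (E n) :=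
  {y | ‖πP (y - y₀)‖ < s ∧ ‖πQ (y - y₀)‖ < s}

lemma box_mem_nhds (y₀ : E n) (πP πQ : E n →L[ℝ] E n) {s : ℝ} (hs : 0 < s) :
    box y₀ πP πQ s ∈ 𝓝 y₀ := by
  have c1 : Continuous fun y => ‖πP (y - y₀)‖ := (πP.continuous.comp (continuous_sub_right y₀)).norm
  have c2 : Continuous fun y => ‖πQ (y - y₀)‖ := (πQ.continuous.comp (continuous_sub_right y₀)).norm
  refine ((isOpen_lt c1 continuous_const).inter (isOpen_lt c2 continuous_const)).mem_nhds ?_
  constructor <;> simp [hs]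

include S in
lemma box_subset {s : ℝ} : box y₀ πP πQ s ⊆ ball y₀ (2 * s) := by
  intro y hy
  rw [mem_ball, dist_eq_norm]
  have h1 := S.add (y - y₀)
  rw [← h1]
  calc _ ≤ ‖πP (y - y₀)‖ + ‖πQ (y - y₀)‖ := norm_add_le _ _
    _ < s + s := add_lt_add hy.1 hy.2
    _ = 2 * s := by ring

include hφ S in
/-- the structure of the superlevel germ -/
lemma germ_key : ∃ r : ℝ, 0 < r ∧ ∀ s : ℝ, 0 < s → 2 * s ≤ r → 
    (∀ a, πP a = a → a ≠ 0 → ‖a‖ < s → φ y₀ < φ (y₀ + a)) ∧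
    (∀ b, πQ b = b → b ≠ 0 → ‖b‖ < s → φ (y₀ + b) < φ y₀) ∧
    (∀ y ∈ box y₀ πP πQ s, φ y₀ < φ y → πP (y - y₀) ≠ 0 ∧
      ∀ τ ∈ Icc (0 : ℝ) 1, φ y₀ < φ (y₀ + πP (y - y₀) + τ • πQ (y - y₀))) := by
  obtain ⟨r, hr, hnear⟩ := D2_near hφ y₀ (η := η / 2) (by linarith [S.pos])
  refine ⟨r, hr, fun s hs hsr => ?_⟩
  have hpos : ∀ y ∈ ball y₀ r, ∀ a, πP a = a → a ≠ 0 → 0 < D2 φ y a := by
    intro y hy a ha ha0
    have h1 := hnear y hy a
    have h2 := S.hP a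
    rw [ha] at h2
    have h3 : 0 < ‖a‖ ^ 2 := by positivity
    have h4 := (abs_le.mp h1).1
    have h5 := mul_pos S.pos h3
    linarith
  have hneg : ∀ y ∈ ball y₀ r, ∀ b, πQ b = b → b ≠ 0 → D2 φ y b < 0 := by
    intro y hy b hb hb0
    have h1 := hnear y hy b
    have h2 := S.hQ b
    rw [hb] at h2
    have h3 : 0 < ‖b‖ ^ 2 := by positivity
    have h4 := (abs_le.mp h1).2
    have h5 := mul_pos S.pos h3
    linarith
  have hball : ∀ v : E n, ‖v‖ < s → ∀ τ ∈ Icc (0 : ℝ) 1, y₀ + τ • v ∈ ball y₀ r := by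
    intro v hv τ hτ
    rw [mem_ball, dist_eq_norm, add_sub_cancel_left, norm_smul, Real.norm_eq_abs,
      abs_of_nonneg hτ.1]
    have h1 : τ * ‖v‖ ≤ 1 * ‖v‖ := mul_le_mul_of_nonneg_right hτ.2 (norm_nonneg _)
    linarith
  have hA : ∀ a, πP a = a → a ≠ 0 → ‖a‖ < s → φ y₀ < φ (y₀ + a) := by
    intro a ha ha0 has
    exact line_gt hφ y₀ a (by rw [S.crit]; rfl) fun τ hτ => hpos _ (hball a has τ hτ) a ha ha0
  have hB : ∀ b, πQ b = b → b ≠ 0 → ‖b‖ < s → φ (y₀ + b) < φ y₀ := by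
    intro b hb hb0 hbs
    exact line_lt hφ y₀ b (by rw [S.crit]; rfl) fun τ hτ => hneg _ (hball b hbs τ hτ) b hb hb0
  refine ⟨hA, hB, fun y hy hyφ => ?_⟩
  set a := πP (y - y₀) with ha
  set b := πQ (y - y₀) with hb
  have hPa : πP a = a := S.PP _
  have hQb : πQ b = b := S.QQ _
  have hyab : y = y₀ + a + b := by
    rw [add_assoc, S.add]
    abel
  have ha0 : a ≠ 0 := by
    intro h0
    rw [hyab, h0, add_zero] at hyφ
    by_cases hb0 : b = 0
    · rw [hb0, add_zero] at hyφ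
      exact lt_irrefl _ hyφ
    · exact lt_asymm hyφ (hB b hQb hb0 hy.2)
  refine ⟨ha0, fun τ hτ => ?_⟩
  by_cases hb0 : b = 0
  · rw [hb0, smul_zero, add_zero]
    exact hA a hPa ha0 hy.1
  · have h1 := line_min hφ (y₀ + a) b (fun τ' hτ' => by
      refine (hneg _ ?_ b hQb hb0).le
      rw [mem_ball, dist_eq_norm]
      have e1 : y₀ + a + τ' • b - y₀ = a + τ' • b := by abel
      rw [e1]
      have h2 : ‖τ' • b‖ ≤ ‖b‖ := by
        rw [norm_smul, Real.norm_eq_abs, abs_of_nonneg hτ'.1]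
        exact mul_le_of_le_one_left (norm_nonneg _) hτ'.2
      calc ‖a + τ' • b‖ ≤ ‖a‖ + ‖τ' • b‖ := norm_add_le _ _
        _ < s + s := add_lt_add_of_lt_of_le hy.1 (h2.trans hy.2.le)
        _ ≤ r := by linarith) τ hτ
    refine lt_of_lt_of_le ?_ h1
    rw [lt_min_iff]
    refine ⟨hA a hPa ha0 hy.1, ?_⟩
    rw [← hyab]
    exact hyφ

/-- the part of the superlevel germ lying over `Z` -/
def ovr (φ : E n → ℝ) (y₀ : E n) (πP πQ : E n →L[ℝ] E n) (s : ℝ) (Z : Set (E n)) : Set (E n) :=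
  {y | y ∈ box y₀ πP πQ s ∧ φ y₀ < φ y ∧ πP (y - y₀) ∈ Z}

include hφ S in
lemma ovr_preconnected : ∃ r : ℝ, 0 < r ∧ ∀ s : ℝ, 0 < s → 2 * s ≤ r → ∀ Z : Set (E n),
    (∀ a ∈ Z, πP a = a ∧ a ≠ 0 ∧ ‖a‖ < s) → IsPreconnected Z →
    IsPreconnected (ovr φ y₀ πP πQ s Z) := by
  obtain ⟨r, hr, hkey⟩ := germ_key hφ S
  refine ⟨r, hr, fun s hs hsr Z hZ hZc => ?_⟩
  obtain ⟨hA, -, hseg⟩ := hkey s hs hsr
  rcases Z.eq_empty_or_nonempty with h | ⟨a₀, ha₀⟩
  · have : ovr φ y₀ πP πQ s Z = ∅ := by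
      ext y
      simp [ovr, h]
    rw [this]
    exact isPreconnected_empty
  have hZ' : (fun a => y₀ + a) '' Z ⊆ ovr φ y₀ πP πQ s Z := by
    rintro _ ⟨a, ha, rfl⟩
    obtain ⟨h1, h2, h3⟩ := hZ a ha
    have e1 : y₀ + a - y₀ = a := by abel
    have hQa : πQ a = 0 := by
      have := S.QP a
      rwa [h1] at this
    simp only [ovr, box, mem_ofPred_eq]
    rw [e1, h1, hQa, norm_zero]
    exact ⟨⟨h3, hs⟩, hA a h1 h2 h3, ha⟩
  have hZ'c : IsPreconnected ((fun a => y₀ + a) '' Z) :=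
    hZc.image _ (continuous_const.add continuous_id).continuousOn
  refine isPreconnected_of_forall (y₀ + a₀) fun y hy => ?_
  obtain ⟨hybox, hyφ, hyZ⟩ := hy
  obtain ⟨ha0, hs'⟩ := hseg y hybox hyφ
  set a := πP (y - y₀) with ha
  set b := πQ (y - y₀) with hb
  have hPa : πP a = a := S.PP _
  have hQb : πQ b = b := S.QQ _
  have hPb : πP b = 0 := S.PQ _
  have hQa : πQ a = 0 := S.QP _
  set L : Set (E n) := (fun τ : ℝ => y₀ + a + τ • b) '' Icc 0 1 with hL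
  have hLc : IsPreconnected L := isPreconnected_Icc.image _
    (continuous_const.add (continuous_id.smul continuous_const)).continuousOn
  have hLsub : L ⊆ ovr φ y₀ πP πQ s Z := by
    rintro _ ⟨τ, hτ, rfl⟩
    have e1 : y₀ + a + τ • b - y₀ = a + τ • b := by abel
    simp only [ovr, box, mem_ofPred_eq]
    rw [e1, map_add, map_add, map_smul, map_smul, hPa, hPb, hQa, hQb, smul_zero, add_zero,
      zero_add]
    refine ⟨⟨hybox.1, ?_⟩, hs' τ hτ, hyZ⟩
    rw [norm_smul, Real.norm_eq_abs, abs_of_nonneg hτ.1]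
    exact (mul_le_of_le_one_left (norm_nonneg _) hτ.2).trans_lt hybox.2
  have hmeet : y₀ + a ∈ L := ⟨0, left_mem_Icc.mpr zero_le_one, by simp⟩
  have hyL : y ∈ L := by
    refine ⟨1, right_mem_Icc.mpr zero_le_one, ?_⟩
    simp only [one_smul]
    rw [add_assoc, S.add]
    abel
  refine ⟨(fun a => y₀ + a) '' Z ∪ L, union_subset hZ' hLsub, Or.inl ⟨a₀, ha₀, rfl⟩, Or.inr hyL, ?_⟩
  exact IsPreconnected.union (y₀ + a) ⟨a, hyZ, rfl⟩ hmeet hZ'c hLc

end split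

end Pool.Agent.H422IV
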