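import Mathlib
import Pool.Agent.H422IV.Germ

/-!
# Germs of superlevel sets, second part
-/

set_option autoImplicit false
set_option linter.unusedSectionVars false

open Set Filter Topology Metric Matrix
open scoped ContDiff

namespace Pool.Agent.H422IV

variable {n : ℕ}

/-- negative definite -/
def NegDef (A : Matrix (Fin n) (Fin n) ℝ) : Prop := ∀ v : Fin n → ℝ, v ≠ 0 → v ⬝ᵥ A *ᵥ v < 0

/-- positive definite on a plane -/
def Pos2 (A : Matrix (Fin n) (Fin n) ℝ) : Prop := ∃ v w : Fin n → ℝ, ∀ s t : ℝ,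
  (s ≠ 0 ∨ t ≠ 0) → 0 < (s • v + t • w) ⬝ᵥ A *ᵥ (s • v + t • w)

/-- the second derivative in terms of the Hessian matrix -/
lemma D2_eq {φ : E n → ℝ} (hφ : ContDiff ℝ 2 φ) (y v : E n) :
    D2 φ y v = v.ofLp ⬝ᵥ Hs φ y *ᵥ v.ofLp := by
  have hd : ContDiff ℝ 1 (fderiv ℝ φ) := hφ.fderiv_right (m := 1) (by norm_num)
  have h1 : ∀ i j, Hs φ y i j = fderiv ℝ (fderiv ℝ φ) y (EuclideanSpace.single i 1)
      (EuclideanSpace.single j 1) := by
    intro i j
    change fderiv ℝ (fun z => fderiv ℝ φ z (EuclideanSpace.single j 1)) y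
      (EuclideanSpace.single i 1) = _
    have h2 : HasFDerivAt (fun z => fderiv ℝ φ z (EuclideanSpace.single j 1))
        ((ContinuousLinearMap.apply ℝ ℝ (EuclideanSpace.single j (1 : ℝ))).comp
          (fderiv ℝ (fderiv ℝ φ) y)) y :=
      (ContinuousLinearMap.apply ℝ ℝ (EuclideanSpace.single j (1 : ℝ))).hasFDerivAt.comp y
        ((hd.differentiable (by norm_num)) y).hasFDerivAt
    rw [h2.fderiv]
    rfl
  have hv : v = ∑ i, v i • (EuclideanSpace.single i (1 : ℝ) : E n) := by
    have h2 := (EuclideanSpace.basisFun (Fin n) ℝ).sum_repr v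
    simpa using h2.symm
  unfold D2
  conv_lhs => rw [hv]
  simp only [map_sum, map_smul, dotProduct, mulVec, h1]
  have e1 : (∑ i, v i • fderiv ℝ (fderiv ℝ φ) y (EuclideanSpace.single i 1))
      (∑ j, v j • (EuclideanSpace.single j (1 : ℝ) : E n)) =
      ∑ i, v i * ∑ j, v j * fderiv ℝ (fderiv ℝ φ) y (EuclideanSpace.single i 1)
        (EuclideanSpace.single j 1) := by
    rw [_root_.sum_apply]
    refine Finset.sum_congr rfl fun i _ => ?_
    rw [_root_.smul_apply, map_sum, smul_eq_mul]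
    congr 1
    refine Finset.sum_congr rfl fun j _ => ?_
    rw [map_smul, smul_eq_mul]
  simp only [map_sum, map_smul] at e1
  rw [e1]
  refine Finset.sum_congr rfl fun i _ => ?_
  congr 1
  refine Finset.sum_congr rfl fun j _ => ?_
  ring

/-- orthonormal basis of eigenvectors -/
lemma exists_eig (A : Matrix (Fin n) (Fin n) ℝ) (hA : Aᵀ = A) :
    ∃ (b : OrthonormalBasis (Fin n) ℝ (E n)) (h : Fin n → ℝ),
      (∀ v w : E n, v.ofLp ⬝ᵥ A *ᵥ w.ofLp = ∑ i, h i * (inner ℝ (b i) v * inner ℝ (b i) w)) ∧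
      A.det = ∏ i, h i := by
  have hH : A.IsHermitian := by
    rw [Matrix.IsHermitian, conjTranspose_eq_transpose_of_trivial]
    exact hA
  refine ⟨hH.eigenvectorBasis, hH.eigenvalues, fun v w => ?_, ?_⟩
  · set b := hH.eigenvectorBasis with hb
    have h1 : w.ofLp = ∑ i, inner ℝ (b i) w • (b i).ofLp := by
      have h2 := b.sum_repr w
      have h3 := congrArg WithLp.ofLp h2
      rw [← h3]
      simp [b.repr_apply_apply]
    rw [h1, Matrix.mulVec_sum, dotProduct_sum]
    refine Finset.sum_congr rfl fun i _ => ?_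
    rw [Matrix.mulVec_smul, hH.mulVec_eigenvectorBasis i, dotProduct_smul, dotProduct_smul,
      smul_eq_mul, smul_eq_mul]
    have h4 : v.ofLp ⬝ᵥ (b i).ofLp = inner ℝ (b i) v := by
      rw [PiLp.inner_apply, dotProduct]
      refine Finset.sum_congr rfl fun j _ => ?_
      simp
    rw [← h4]
    simp only [hb]
    ring
  · rw [hH.det_eq_prod_eigenvalues]
    rfl

/-- projection onto the span of some basis vectors -/
noncomputable def prj (b : OrthonormalBasis (Fin n) ℝ (E n)) (s : Finset (Fin n)) :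
    E n →L[ℝ] E n := ∑ i ∈ s, (innerSL ℝ (b i)).smulRight (b i)

lemma prj_apply (b : OrthonormalBasis (Fin n) ℝ (E n)) (s : Finset (Fin n)) (v : E n) :
    prj b s v = ∑ i ∈ s, inner ℝ (b i) v • b i := by
  unfold prj
  rw [_root_.sum_apply]
  rfl

lemma inner_prj (b : OrthonormalBasis (Fin n) ℝ (E n)) (s : Finset (Fin n)) (v : E n)
    (j : Fin n) : inner ℝ (b j) (prj b s v) = if j ∈ s then inner ℝ (b j) v else 0 := by
  classical
  rw [prj_apply, inner_sum]
  have h1 : ∀ i ∈ s, inner ℝ (b j) (inner ℝ (b i) v • b i) =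
      if j = i then inner ℝ (b j) v else 0 := by
    intro i _
    rw [inner_smul_right, orthonormal_iff_ite.mp b.orthonormal]
    split_ifs with h
    · rw [h, mul_one]
    · rw [mul_zero]
  rw [Finset.sum_congr rfl h1, Finset.sum_ite_eq]

lemma ext_b (b : OrthonormalBasis (Fin n) ℝ (E n)) {v w : E n}
    (h : ∀ i, inner ℝ (b i) v = inner ℝ (b i) w) : v = w := by
  apply b.repr.injective
  ext i
  rw [b.repr_apply_apply, b.repr_apply_apply]
  exact h i

lemma norm_sq_b (b : OrthonormalBasis (Fin n) ℝ (E n)) (v : E n) :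
    ‖v‖ ^ 2 = ∑ i, inner ℝ (b i) v ^ 2 := by
  rw [← b.sum_sq_norm_inner_right v]
  refine Finset.sum_congr rfl fun i _ => ?_
  rw [Real.norm_eq_abs, sq_abs]

/-- splitting of a function at a nondegenerate critical point -/
lemma exists_splitting {φ : E n → ℝ} (hφ : ContDiff ℝ 2 φ) {y₀ : E n}
    (hcrit : fderiv ℝ φ y₀ = 0) (b : OrthonormalBasis (Fin n) ℝ (E n)) (h : Fin n → ℝ)
    (hb : ∀ v w : E n, v.ofLp ⬝ᵥ Hs φ y₀ *ᵥ w.ofLp =
      ∑ i, h i * (inner ℝ (b i) v * inner ℝ (b i) w)) (hne : ∀ i, h i ≠ 0) :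
    ∃ η, Splitting φ y₀ (prj b (Finset.univ.filter fun i => 0 < h i))
      (prj b (Finset.univ.filter fun i => ¬ 0 < h i)) η := by
  classical
  obtain ⟨η, hη, hηh⟩ : ∃ η : ℝ, 0 < η ∧ ∀ i, η ≤ |h i| := by
    rcases isEmpty_or_nonempty (Fin n) with hN | hN
    · exact ⟨1, one_pos, fun i => isEmptyElim i⟩
    · obtain ⟨i₀, hi₀⟩ := Finite.exists_min fun i => |h i|
      exact ⟨|h i₀|, abs_pos.mpr (hne i₀), hi₀⟩
  refine ⟨η, hη, ?_, ?_, ?_, ?_, ?_, ?_, ?_, hcrit⟩
  · intro v
    apply ext_b b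
    intro i
    rw [inner_add_right, inner_prj, inner_prj]
    by_cases hi : 0 < h i <;> simp [hi]
  · intro v
    apply ext_b b
    intro i
    rw [inner_prj, inner_prj]
    by_cases hi : 0 < h i <;> simp [hi]
  · intro v
    apply ext_b b
    intro i
    rw [inner_prj, inner_prj]
    by_cases hi : 0 < h i <;> simp [hi]
  · intro v
    apply ext_b b
    intro i
    rw [inner_prj, inner_prj]
    by_cases hi : 0 < h i <;> simp [hi]
  · intro v
    apply ext_b b
    intro i
    rw [inner_prj, inner_prj]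
    by_cases hi : 0 < h i <;> simp [hi]
  · intro v
    rw [D2_eq hφ, hb, norm_sq_b b, Finset.mul_sum]
    refine Finset.sum_le_sum fun i _ => ?_
    rw [inner_prj]
    by_cases hi : 0 < h i
    · have h1 := hηh i
      rw [abs_of_pos hi] at h1
      simp only [Finset.mem_filter, Finset.mem_univ, true_and, hi, if_true]
      nlinarith [mul_self_nonneg (inner ℝ (b i) v : ℝ)]
    · simp [hi]
  · intro v
    rw [D2_eq hφ, hb, norm_sq_b b, Finset.mul_sum, ← Finset.sum_neg_distrib]
    refine Finset.sum_le_sum fun i _ => ?_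
    rw [inner_prj]
    by_cases hi : 0 < h i
    · simp [not_le.mpr hi]
    · have h1 := hηh i
      have h2 : h i < 0 := lt_of_le_of_ne (not_lt.mp hi) (hne i)
      rw [abs_of_neg h2] at h1
      simp only [Finset.mem_filter, Finset.mem_univ, true_and, hi, not_false_eq_true, if_true]
      nlinarith [mul_self_nonneg (inner ℝ (b i) v : ℝ)]

/-- the nonzero vectors of norm less than `s` in the range of a projection -/
def pnc (b : OrthonormalBasis (Fin n) ℝ (E n)) (t : Finset (Fin n)) (s : ℝ) : Set (E n) :=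
  {a | prj b t a = a ∧ a ≠ 0 ∧ ‖a‖ < s}

lemma prj_self (b : OrthonormalBasis (Fin n) ℝ (E n)) (t : Finset (Fin n)) {i : Fin n}
    (hi : i ∈ t) : prj b t (b i) = b i := by
  classical
  apply ext_b b
  intro j
  rw [inner_prj]
  split_ifs with hj
  · rfl
  · rw [orthonormal_iff_ite.mp b.orthonormal, if_neg]
    intro h
    exact hj (h ▸ hi)

/-- the punctured ball in a subspace of dimension at least two is connected -/
lemma pnc_preconnected (b : OrthonormalBasis (Fin n) ℝ (E n)) (t : Finset (Fin n)) (s : ℝ)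
    {i j : Fin n} (hi : i ∈ t) (hj : j ∈ t) (hij : i ≠ j) : IsPreconnected (pnc b t s) := by
  set V : Submodule ℝ (E n) := LinearMap.range (prj b t : E n →ₗ[ℝ] E n) with hV
  have hVmem : ∀ v : E n, v ∈ V ↔ prj b t v = v := by
    intro v
    constructor
    · rintro ⟨w, rfl⟩
      apply ext_b b
      intro k
      change inner ℝ (b k) (prj b t (prj b t w)) = inner ℝ (b k) (prj b t w)
      rw [inner_prj, inner_prj]
      split_ifs <;> rfl
    · intro h
      exact ⟨v, h⟩
  have hbi : b i ∈ V := (hVmem _).mpr (prj_self b t hi)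
  have hbj : b j ∈ V := (hVmem _).mpr (prj_self b t hj)
  have hrank : 1 < Module.rank ℝ V := by
    have hli : LinearIndependent ℝ ![(⟨b i, hbi⟩ : V), ⟨b j, hbj⟩] := by
      rw [LinearIndependent.pair_iff]
      intro s' t' hst
      have h1 : s' • b i + t' • b j = 0 := congrArg Subtype.val hst
      have h2 := congrArg (fun v => inner ℝ (b i) v) h1
      have h3 := congrArg (fun v => inner ℝ (b j) v) h1
      simp only [inner_add_right, inner_smul_right, orthonormal_iff_ite.mp b.orthonormal,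
        inner_zero_right, if_true, if_neg hij, if_neg hij.symm, mul_one, mul_zero, add_zero,
        zero_add] at h2 h3
      exact ⟨h2, h3⟩
    have h1 := hli.cardinal_le_rank
    have h2 : (1 : Cardinal) < Cardinal.mk (Fin 2) := by
      rw [Cardinal.mk_fin]
      norm_num
    exact h2.trans_le h1
  have hsph : IsPreconnected (sphere (0 : V) 1) := isPreconnected_sphere hrank 0 1
  have himg : pnc b t s = (fun q : ℝ × V => q.1 • (q.2 : E n)) '' (Ioo 0 s ×ˢ sphere (0 : V) 1) := by
    ext a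
    constructor
    · rintro ⟨h1, h2, h3⟩
      have hna : 0 < ‖a‖ := norm_pos_iff.mpr h2
      refine ⟨(‖a‖, ⟨‖a‖⁻¹ • a, V.smul_mem _ ((hVmem a).mpr h1)⟩), ⟨⟨hna, h3⟩, ?_⟩, ?_⟩
      · rw [mem_sphere_zero_iff_norm]
        change ‖‖a‖⁻¹ • a‖ = 1
        rw [norm_smul, norm_inv, norm_norm, inv_mul_cancel₀ hna.ne']
      · simp only
        rw [smul_smul, mul_inv_cancel₀ hna.ne', one_smul]
    · rintro ⟨⟨r, v⟩, ⟨hr, hv⟩, rfl⟩
      rw [mem_sphere_zero_iff_norm] at hv
      have hv' : ‖(v : E n)‖ = 1 := hv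
      have hr' : 0 < r := hr.1
      refine ⟨?_, ?_, ?_⟩
      · exact (hVmem _).mp (V.smul_mem _ v.2)
      · simp only
        rw [← norm_pos_iff, norm_smul, hv', mul_one, Real.norm_eq_abs, abs_of_pos hr']
        exact hr'
      · simp only
        rw [norm_smul, hv', mul_one, Real.norm_eq_abs, abs_of_pos hr']
        exact hr.2
  rw [himg]
  exact (isPreconnected_Ioo.prod hsph).image _
    (continuous_fst.smul (continuous_subtype_val.comp continuous_snd)).continuousOn

/-- classification in terms of the eigenvalues -/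
lemma negDef_iff {A : Matrix (Fin n) (Fin n) ℝ} (b : OrthonormalBasis (Fin n) ℝ (E n))
    (h : Fin n → ℝ) (hb : ∀ v w : E n, v.ofLp ⬝ᵥ A *ᵥ w.ofLp =
      ∑ i, h i * (inner ℝ (b i) v * inner ℝ (b i) w)) (hne : ∀ i, h i ≠ 0) :
    NegDef A ↔ ∀ i, ¬ 0 < h i := by
  have hform : ∀ i, (b i).ofLp ⬝ᵥ A *ᵥ (b i).ofLp = h i := by
    intro i
    rw [hb, Finset.sum_eq_single i]
    · rw [orthonormal_iff_ite.mp b.orthonormal, if_pos rfl]
      ring
    · intro j _ hji
      rw [orthonormal_iff_ite.mp b.orthonormal, if_neg hji]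
      ring
    · intro hi
      exact absurd (Finset.mem_univ i) hi
  constructor
  · intro hA i hi
    have h1 := hA (b i).ofLp (by
      intro h0
      have h2 : b i = 0 := by
        ext k
        exact congrFun h0 k
      exact b.orthonormal.ne_zero i h2)
    rw [hform] at h1
    linarith
  · intro hh v hv
    have h1 := hb (WithLp.toLp 2 v) (WithLp.toLp 2 v)
    change v ⬝ᵥ A *ᵥ v = _ at h1
    rw [h1]
    have hv' : (WithLp.toLp 2 v : E n) ≠ 0 := by
      intro h0
      apply hv
      exact congrArg WithLp.ofLp h0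
    have hneg : ∀ i, h i < 0 := fun i => lt_of_le_of_ne (not_lt.mp (hh i)) (hne i)
    obtain ⟨i, hi⟩ : ∃ i, inner ℝ (b i) (WithLp.toLp 2 v : E n) ≠ 0 := by
      by_contra hcon
      push Not at hcon
      exact hv' (ext_b b fun i => by rw [hcon i, inner_zero_right])
    refine Finset.sum_neg' (fun j _ => ?_) ⟨i, Finset.mem_univ i, ?_⟩
    · nlinarith [hneg j, mul_self_nonneg (inner ℝ (b j) (WithLp.toLp 2 v : E n) : ℝ)]
    · have := mul_self_pos.mpr hi
      nlinarith [hneg i]

lemma pos2_iff {A : Matrix (Fin n) (Fin n) ℝ} (b : OrthonormalBasis (Fin n) ℝ (E n))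
    (h : Fin n → ℝ) (hb : ∀ v w : E n, v.ofLp ⬝ᵥ A *ᵥ w.ofLp =
      ∑ i, h i * (inner ℝ (b i) v * inner ℝ (b i) w)) :
    Pos2 A ↔ ∃ i j, i ≠ j ∧ 0 < h i ∧ 0 < h j := by
  constructor
  · rintro ⟨v, w, hvw⟩
    by_contra hcon
    push Not at hcon
    -- a vector of the plane on which the form is nonpositive
    have key : ∀ i₀ : Fin n, (∀ i, i ≠ i₀ → h i ≤ 0) → False := by
      intro i₀ hi₀
      set α := inner ℝ (b i₀) (WithLp.toLp 2 v : E n) with hα
      set β := inner ℝ (b i₀) (WithLp.toLp 2 w : E n) with hβ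
      obtain ⟨s, t, hst, hst0⟩ : ∃ s t : ℝ, (s ≠ 0 ∨ t ≠ 0) ∧ s * α + t * β = 0 := by
        by_cases hα0 : α = 0
        · exact ⟨1, 0, Or.inl one_ne_zero, by rw [hα0]; ring⟩
        · exact ⟨-β, α, Or.inr hα0, by ring⟩
      have h1 := hvw s t hst
      have h2 := hb (WithLp.toLp 2 (s • v + t • w)) (WithLp.toLp 2 (s • v + t • w))
      change (s • v + t • w) ⬝ᵥ A *ᵥ (s • v + t • w) = _ at h2
      rw [h2] at h1
      refine absurd h1 (not_lt.mpr (Finset.sum_nonpos fun i _ => ?_))
      by_cases hi : i = i₀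
      · have h3 : inner ℝ (b i) (WithLp.toLp 2 (s • v + t • w) : E n) = 0 := by
          rw [hi]
          have h4 : (WithLp.toLp 2 (s • v + t • w) : E n) =
              s • WithLp.toLp 2 v + t • WithLp.toLp 2 w := rfl
          rw [h4, inner_add_right, inner_smul_right, inner_smul_right, ← hα, ← hβ]
          exact hst0
        rw [h3]
        simp
      · have := hi₀ i hi
        nlinarith [mul_self_nonneg (inner ℝ (b i) (WithLp.toLp 2 (s • v + t • w) : E n) : ℝ)]
    by_cases hex : ∃ i, 0 < h i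
    · obtain ⟨i₀, hi₀⟩ := hex
      refine key i₀ fun i hi => ?_
      by_contra hpos
      push Not at hpos
      exact absurd (hcon i i₀ hi hpos) (not_le.mpr hi₀)
    · push Not at hex
      rcases isEmpty_or_nonempty (Fin n) with hN | ⟨⟨i₀⟩⟩
      · have h1 := hvw 1 0 (Or.inl one_ne_zero)
        simp [dotProduct] at h1
      · exact key i₀ fun i _ => hex i
  · rintro ⟨i, j, hij, hi, hj⟩
    refine ⟨(b i).ofLp, (b j).ofLp, fun s t hst => ?_⟩
    have h2 := hb (s • b i + t • b j) (s • b i + t • b j)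
    change (s • (b i).ofLp + t • (b j).ofLp) ⬝ᵥ A *ᵥ (s • (b i).ofLp + t • (b j).ofLp) = _ at h2
    rw [h2]
    have h3 : ∀ k, h k * (inner ℝ (b k) (s • b i + t • b j) * inner ℝ (b k) (s • b i + t • b j)) =
        (if k = i then h i * (s * s) else 0) + if k = j then h j * (t * t) else 0 := by
      intro k
      rw [inner_add_right, inner_smul_right, inner_smul_right,
        orthonormal_iff_ite.mp b.orthonormal, orthonormal_iff_ite.mp b.orthonormal]
      by_cases hki : k = i
      · subst hki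
        simp [hij]
      · by_cases hkj : k = j
        · subst hkj
          simp [hki]
        · simp [hki, hkj]
    rw [Finset.sum_congr rfl fun k _ => h3 k, Finset.sum_add_distrib, Finset.sum_ite_eq',
      Finset.sum_ite_eq', if_pos (Finset.mem_univ _), if_pos (Finset.mem_univ _)]
    rcases hst with h4 | h4
    · have := mul_pos hi (mul_self_pos.mpr h4)
      nlinarith [mul_nonneg hj.le (mul_self_nonneg t)]
    · have := mul_pos hj (mul_self_pos.mpr h4)
      nlinarith [mul_nonneg hi.le (mul_self_nonneg s)]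

end Pool.Agent.H422IV
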