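import Mathlib
import Pool.Agent.H422IV.Germ2

/-!
# Pointwise algebra, first part
-/

set_option autoImplicit false
set_option linter.unusedSectionVars false

open Matrix Finset Polynomial

namespace Pool.Agent.H422IV

section ring

variable {R : Type} [CommRing R] {n : ℕ}

/-- the determinant is affine along rank one perturbations -/
lemma det_rank1 (M : Matrix (Fin n) (Fin n) R) (u v : Fin n → R) (t : R) :
    (M + t • vecMulVec u v).det = (1 - t) * M.det + t * (M + vecMulVec u v).det := by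
  classical
  have key : ∀ w : Fin n → R, (M + vecMulVec w v).det =
      (fromBlocks (1 : Matrix Unit Unit R) (of fun _ j => -v j) (of fun i _ => w i) M).det := by
    intro w
    rw [det_fromBlocks_one₁₁]
    congr 1
    ext i j
    simp [vecMulVec, Matrix.mul_apply]
  have hupd : ∀ w : Fin n → R,
      fromBlocks (1 : Matrix Unit Unit R) (of fun _ j => -v j) (of fun i _ => w i) M =
      updateCol (fromBlocks (1 : Matrix Unit Unit R) (of fun _ j => -v j) (of fun i _ => 0) M)
        (Sum.inl ()) (Sum.elim (fun _ => 1) w) := by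
    intro w
    ext a c
    rcases a with a | a <;> rcases c with c | c
    · simp
    · simp
    · simp
    · simp
  set Z := fromBlocks (1 : Matrix Unit Unit R) (of fun _ j => -v j) (of fun i _ => 0) M with hZ
  have h0 : M.det = (updateCol Z (Sum.inl ()) (Sum.elim (fun _ => 1) (0 : Fin n → R))).det := by
    rw [← hupd, ← key]
    simp
  have ht : M + t • vecMulVec u v = M + vecMulVec (t • u) v := by
    rw [smul_vecMulVec]
  have hsplit : (Sum.elim (fun _ => 1) (t • u) : Unit ⊕ Fin n → R) =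
      (1 - t) • Sum.elim (fun _ => 1) (0 : Fin n → R) + t • Sum.elim (fun _ => 1) u := by
    ext a
    rcases a with a | a
    · simp
    · simp
  rw [ht, key, key, hupd, hupd, hsplit, det_updateCol_add, det_updateCol_smul,
    det_updateCol_smul, ← h0]

/-- expansion of the determinant along a sum of rank one matrices -/
lemma bernstein {ι : Type} [DecidableEq ι] (c : ι → Fin n → R) (t : R) (J : Finset ι) :
    ∀ A : Matrix (Fin n) (Fin n) R,
    (A + t • ∑ i ∈ J, vecMulVec (c i) (c i)).det =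
      ∑ I ∈ J.powerset, t ^ I.card * (1 - t) ^ (J.card - I.card) *
        (A + ∑ i ∈ I, vecMulVec (c i) (c i)).det := by
  induction J using Finset.induction_on with
  | empty =>
    intro A
    simp
  | insert a J ha ih =>
    intro A
    have h1 : A + t • ∑ i ∈ insert a J, vecMulVec (c i) (c i) =
        (A + t • ∑ i ∈ J, vecMulVec (c i) (c i)) + t • vecMulVec (c a) (c a) := by
      rw [sum_insert ha, smul_add]
      abel
    have h2 : A + t • ∑ i ∈ J, vecMulVec (c i) (c i) + vecMulVec (c a) (c a) =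
        (A + vecMulVec (c a) (c a)) + t • ∑ i ∈ J, vecMulVec (c i) (c i) := by abel
    rw [h1, det_rank1, h2, ih A, ih (A + vecMulVec (c a) (c a)), sum_powerset_insert ha, mul_sum,
      mul_sum]
    congr 1
    · refine sum_congr rfl fun I hI => ?_
      have hI' : I.card ≤ J.card := card_le_card (mem_powerset.mp hI)
      rw [card_insert_of_notMem ha, Nat.succ_sub hI', pow_succ]
      ring
    · refine sum_congr rfl fun I hI => ?_
      have haI : a ∉ I := fun h => ha (mem_powerset.mp hI h)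
      rw [card_insert_of_notMem ha, card_insert_of_notMem haI, Nat.succ_sub_succ, sum_insert haI,
        pow_succ, ← add_assoc]
      ring

end ring

section real

variable {n : ℕ}

/-- subsums of the rank one matrices of a tight frame -/
def SI (c : Fin (n + 1) → Fin n → ℝ) (I : Finset (Fin (n + 1))) : Matrix (Fin n) (Fin n) ℝ :=
  ∑ i ∈ I, vecMulVec (c i) (c i)

/-- a constant -/
noncomputable def Bc (n : ℕ) : ℝ := ∑ a ∈ range (n + 2), ∑ k ∈ range (n + 1),
  |((X : ℝ[X]) ^ a * (1 - X) ^ (n + 1 - a)).coeff k|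

lemma Bc_nonneg (n : ℕ) : 0 ≤ Bc n := sum_nonneg fun _ _ => sum_nonneg fun _ _ => abs_nonneg _

/-- elementary symmetric functions are controlled by determinants of low rank perturbations -/
lemma esF_le_det (c : Fin (n + 1) → Fin n → ℝ) (hc : SI c univ = 1) (a : Fin n → ℝ) {j : ℕ}
    (hj : j ≤ n) :
    |esF univ a j| ≤ Bc n * ∑ I ∈ (univ : Finset (Fin (n + 1))).powerset.filter
      (fun I => I.card ≤ n - j), |(diagonal a + SI c I).det| := by
  classical
  -- the polynomial identity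
  have hpoly : ∏ i, (X * C (1 : ℝ) + C (a i)) =
      ∑ I ∈ (univ : Finset (Fin (n + 1))).powerset,
        X ^ I.card * (1 - X) ^ (n + 1 - I.card) * C ((diagonal a + SI c I).det) := by
    have h1 := bernstein (R := ℝ[X]) (fun i k => C (c i k)) X univ (diagonal fun i => C (a i))
    have hmap : ∀ I : Finset (Fin (n + 1)), ∑ i ∈ I, vecMulVec (fun k => C (c i k))
        (fun k => C (c i k)) = (SI c I).map (C : ℝ →+* ℝ[X]) := by
      intro I
      ext1 k l
      rw [Matrix.sum_apply, Matrix.map_apply, SI, Matrix.sum_apply, map_sum]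
      refine sum_congr rfl fun i _ => ?_
      rw [vecMulVec_apply, vecMulVec_apply, C_mul]
    have hdiag : ∀ I : Finset (Fin (n + 1)),
        (diagonal (fun i => C (a i)) + (SI c I).map (C : ℝ →+* ℝ[X])).det =
        C ((diagonal a + SI c I).det) := by
      intro I
      rw [RingHom.map_det]
      congr 1
      ext1 k l
      rw [RingHom.mapMatrix_apply, Matrix.map_apply, Matrix.add_apply, Matrix.add_apply, C_add,
        Matrix.map_apply, diagonal_apply, diagonal_apply]
      split_ifs <;> simp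
    rw [hmap, hc] at h1
    have hone : (1 : Matrix (Fin n) (Fin n) ℝ).map (C : ℝ →+* ℝ[X]) = 1 :=
      Matrix.map_one _ C_0 C_1
    rw [hone] at h1
    have hL : (diagonal (fun i => C (a i)) + (X : ℝ[X]) • (1 : Matrix (Fin n) (Fin n) ℝ[X])).det =
        ∏ i, (X * C (1 : ℝ) + C (a i)) := by
      have e1 : diagonal (fun i => C (a i)) + (X : ℝ[X]) • (1 : Matrix (Fin n) (Fin n) ℝ[X]) =
          diagonal fun i => X * C (1 : ℝ) + C (a i) := by
        ext1 k l
        rw [Matrix.add_apply, Matrix.smul_apply, diagonal_apply, diagonal_apply, Matrix.one_apply]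
        split_ifs
        · rw [C_1, smul_eq_mul, add_comm]
        · simp
      rw [e1, det_diagonal]
    rw [hL] at h1
    rw [h1]
    refine sum_congr rfl fun I _ => ?_
    rw [hmap, hdiag, card_univ, Fintype.card_fin]
  have hcoef : esF univ a j = (∏ i, (X * C (1 : ℝ) + C (a i))).coeff (n - j) := by
    rw [coeff_prod_add]
    unfold esF
    refine sum_bij' (fun S _ => univ \ S) (fun S _ => univ \ S) ?_ ?_ ?_ ?_ ?_
    · intro S hS
      rw [mem_powersetCard] at hS ⊢
      refine ⟨subset_univ _, ?_⟩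
      rw [card_sdiff_of_subset (subset_univ _), hS.2, card_univ, Fintype.card_fin]
    · intro S hS
      rw [mem_powersetCard] at hS ⊢
      refine ⟨subset_univ _, ?_⟩
      rw [card_sdiff_of_subset (subset_univ _), hS.2, card_univ, Fintype.card_fin]
      omega
    · intro S _
      simp
    · intro S _
      simp
    · intro S _
      simp
  rw [hcoef, hpoly, finsetSum_coeff]
  refine (abs_sum_le_sum_abs _ _).trans ?_
  rw [mul_sum, sum_filter]
  refine sum_le_sum fun I hI => ?_
  have hIc : I.card ≤ n + 1 := by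
    have := card_le_card (mem_powerset.mp hI)
    rwa [card_univ, Fintype.card_fin] at this
  rw [coeff_mul_C, abs_mul]
  split_ifs with h
  · refine mul_le_mul_of_nonneg_right ?_ (abs_nonneg _)
    unfold Bc
    refine le_trans ?_ (single_le_sum (f := fun a => ∑ k ∈ range (n + 1),
      |((X : ℝ[X]) ^ a * (1 - X) ^ (n + 1 - a)).coeff k|)
      (fun _ _ => sum_nonneg fun _ _ => abs_nonneg _) (mem_range.mpr (by omega : I.card < n + 2)))
    exact single_le_sum (f := fun k => |((X : ℝ[X]) ^ I.card *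
      (1 - X) ^ (n + 1 - I.card)).coeff k|) (fun _ _ => abs_nonneg _)
      (mem_range.mpr (by omega : n - j < n + 1))
  · push Not at h
    have h0 : ((X : ℝ[X]) ^ I.card * (1 - X) ^ (n + 1 - I.card)).coeff (n - j) = 0 := by
      rw [mul_comm, coeff_mul_X_pow', if_neg (not_le.mpr h)]
    rw [h0]
    simp

/-- determinants of perturbations of diagonal matrices -/
lemma det_diag_add_le (a : Fin n → ℝ) (B : Matrix (Fin n) (Fin n) ℝ) (β : ℝ)
    (hB : ∀ i j, |B i j| ≤ β) : |(diagonal a + B).det| ≤ n.factorial * ∏ i, (|a i| + β) := by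
  rw [det_apply]
  refine (abs_sum_le_sum_abs _ _).trans ?_
  have h1 : ∀ σ ∈ (univ : Finset (Equiv.Perm (Fin n))),
      |Equiv.Perm.sign σ • ∏ i, (diagonal a + B) (σ i) i| ≤ ∏ i, (|a i| + β) := by
    intro σ _
    have h2 : |Equiv.Perm.sign σ • ∏ i, (diagonal a + B) (σ i) i| =
        ∏ i, |(diagonal a + B) (σ i) i| := by
      rw [← abs_prod]
      rcases Int.units_eq_one_or (Equiv.Perm.sign σ) with h | h <;> simp [h]
    rw [h2]
    refine prod_le_prod (fun i _ => abs_nonneg _) fun i _ => ?_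
    rw [Matrix.add_apply, diagonal_apply]
    split_ifs with h
    · rw [h]
      exact (abs_add_le _ _).trans (add_le_add le_rfl (hB _ _))
    · rw [zero_add]
      have := abs_nonneg (a i)
      linarith [hB (σ i) i]
  refine (sum_le_sum h1).trans (le_of_eq ?_)
  rw [sum_const, card_univ, Fintype.card_perm, Fintype.card_fin, nsmul_eq_mul]

/-- entries of the subsums -/
lemma SI_entry (c : Fin (n + 1) → Fin n → ℝ) (hc : SI c univ = 1) (I : Finset (Fin (n + 1)))
    (a b : Fin n) : |SI c I a b| ≤ 1 := by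
  have hd : ∀ a : Fin n, ∑ i, c i a * c i a = 1 := by
    intro a
    have h1 := congrFun (congrFun hc a) a
    rw [Matrix.one_apply_eq, SI, Matrix.sum_apply] at h1
    exact h1
  have h1 : SI c I a b = ∑ i ∈ I, c i a * c i b := by
    rw [SI, Matrix.sum_apply]
    rfl
  rw [h1]
  calc |∑ i ∈ I, c i a * c i b| ≤ ∑ i ∈ I, |c i a * c i b| := abs_sum_le_sum_abs _ _
    _ ≤ ∑ i, |c i a * c i b| := sum_le_sum_of_subset_of_nonneg (subset_univ _)
        fun _ _ _ => abs_nonneg _
    _ ≤ ∑ i, (c i a * c i a / 2 + c i b * c i b / 2) := by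
        refine sum_le_sum fun i _ => ?_
        rw [abs_le]
        constructor <;> nlinarith [mul_self_nonneg (c i a + c i b), mul_self_nonneg (c i a - c i b)]
    _ = 1 := by
        rw [sum_add_distrib, ← sum_div, ← sum_div, hd, hd]
        norm_num

/-- quadratic form of the subsums -/
lemma SI_quad (c : Fin (n + 1) → Fin n → ℝ) (I : Finset (Fin (n + 1))) (v : Fin n → ℝ) :
    v ⬝ᵥ SI c I *ᵥ v = ∑ i ∈ I, (c i ⬝ᵥ v) ^ 2 := by
  rw [SI, Matrix.sum_mulVec, dotProduct_sum]
  refine sum_congr rfl fun i _ => ?_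
  rw [vecMulVec_mulVec, dotProduct_smul, sq, dotProduct_comm v (c i)]
  simp

lemma SI_quad_nonneg (c : Fin (n + 1) → Fin n → ℝ) (I : Finset (Fin (n + 1))) (v : Fin n → ℝ) :
    0 ≤ v ⬝ᵥ SI c I *ᵥ v := by
  rw [SI_quad]
  exact sum_nonneg fun _ _ => sq_nonneg _

lemma SI_quad_le (c : Fin (n + 1) → Fin n → ℝ) (hc : SI c univ = 1) (I : Finset (Fin (n + 1)))
    (v : Fin n → ℝ) : v ⬝ᵥ SI c I *ᵥ v ≤ v ⬝ᵥ v := by
  have h1 : v ⬝ᵥ SI c univ *ᵥ v = v ⬝ᵥ v := by rw [hc, one_mulVec]
  rw [← h1, SI_quad, SI_quad]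
  exact sum_le_sum_of_subset_of_nonneg (subset_univ _) fun _ _ _ => sq_nonneg _

lemma SI_symm (c : Fin (n + 1) → Fin n → ℝ) (I : Finset (Fin (n + 1))) :
    (SI c I)ᵀ = SI c I := by
  ext i j
  rw [transpose_apply, SI, Matrix.sum_apply, Matrix.sum_apply]
  refine sum_congr rfl fun k _ => ?_
  rw [vecMulVec_apply, vecMulVec_apply, mul_comm]

/-- nearly positive semidefinite matrices which are not positive definite have small
determinants -/
lemma det_small (H : Matrix (Fin n) (Fin n) ℝ) (hH : Hᵀ = H) (h : ℝ)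
    (hh : h ≤ 1 / 2) (hlow : ∀ v : Fin n → ℝ, -(h * (v ⬝ᵥ v)) ≤ v ⬝ᵥ H *ᵥ v)
    (hnp : ∃ v : Fin n → ℝ, v ≠ 0 ∧ v ⬝ᵥ H *ᵥ v ≤ 0) :
    |H.det| ≤ 2 * h * (H + 1).det := by
  obtain ⟨U, μ, hU, hU', hHU⟩ := exists_diag H hH
  have hquad : ∀ v : Fin n → ℝ, v ⬝ᵥ H *ᵥ v = ∑ i, μ i * (Uᵀ *ᵥ v) i ^ 2 := by
    intro v
    have e1 : H *ᵥ v = U *ᵥ (diagonal μ *ᵥ (Uᵀ *ᵥ v)) := by
      rw [mulVec_mulVec, mulVec_mulVec, ← hHU]
    rw [e1, dotProduct_mulVec, ← mulVec_transpose, dotProduct]
    refine sum_congr rfl fun i _ => ?_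
    rw [mulVec_diagonal]
    ring
  have hnorm : ∀ v : Fin n → ℝ, v ⬝ᵥ v = ∑ i, (Uᵀ *ᵥ v) i ^ 2 := by
    intro v
    have e1 : v ⬝ᵥ v = (Uᵀ *ᵥ v) ⬝ᵥ (Uᵀ *ᵥ v) := by
      rw [dotProduct_mulVec, ← mulVec_transpose, transpose_transpose, mulVec_mulVec, hU,
        one_mulVec]
    rw [e1, dotProduct]
    exact sum_congr rfl fun i _ => (sq _).symm
  have hcol : ∀ i, Uᵀ *ᵥ (fun k => U k i) = Pi.single i 1 := by
    intro i
    ext j
    have := congrFun (congrFun hU' j) i
    rw [Matrix.mul_apply] at this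
    rw [mulVec, dotProduct, Pi.single_apply, ← Matrix.one_apply]
    exact this
  have hμ : ∀ i, -h ≤ μ i := by
    intro i
    have h1 := hlow (fun k => U k i)
    rw [hquad, hnorm, hcol] at h1
    simp only [Pi.single_apply, ite_pow, one_pow, ne_eq, OfNat.ofNat_ne_zero, not_false_eq_true,
      zero_pow, mul_ite, mul_one, mul_zero, sum_ite_eq', mem_univ, if_true] at h1
    exact h1
  obtain ⟨i₀, hi₀⟩ : ∃ i, μ i ≤ 0 := by
    obtain ⟨v, hv, hv'⟩ := hnp
    by_contra hcon
    push Not at hcon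
    rw [hquad] at hv'
    have hne : Uᵀ *ᵥ v ≠ 0 := by
      intro h0
      apply hv
      have : U *ᵥ (Uᵀ *ᵥ v) = v := by rw [mulVec_mulVec, hU, one_mulVec]
      rw [← this, h0, mulVec_zero]
    obtain ⟨i, hi⟩ := Function.ne_iff.mp hne
    have h2 : 0 < ∑ i, μ i * (Uᵀ *ᵥ v) i ^ 2 :=
      sum_pos' (fun j _ => mul_nonneg (hcon j).le (sq_nonneg _))
        ⟨i, mem_univ i, mul_pos (hcon i) (lt_of_le_of_ne (sq_nonneg _) (Ne.symm (pow_ne_zero 2 hi)))⟩
    linarith
  have hdet : H.det = ∏ i, μ i := by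
    rw [hHU, det_mul, det_mul, det_diagonal]
    have : U.det * (Uᵀ).det = 1 := by rw [← det_mul, hU, det_one]
    calc U.det * (∏ i, μ i) * (Uᵀ).det = (U.det * (Uᵀ).det) * ∏ i, μ i := by ring
      _ = _ := by rw [this, one_mul]
  have hdet1 : (H + 1).det = ∏ i, (μ i + 1) := by
    have e1 : H + 1 = U * diagonal (fun i => μ i + 1) * Uᵀ := by
      have e2 : diagonal (fun i => μ i + 1) = diagonal μ + 1 := by
        rw [← diagonal_one, diagonal_add]
      rw [e2, Matrix.mul_add, Matrix.add_mul, ← hHU, Matrix.mul_one, hU]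
    rw [e1, det_mul, det_mul, det_diagonal]
    have : U.det * (Uᵀ).det = 1 := by rw [← det_mul, hU, det_one]
    calc U.det * (∏ i, (μ i + 1)) * (Uᵀ).det = (U.det * (Uᵀ).det) * ∏ i, (μ i + 1) := by ring
      _ = _ := by rw [this, one_mul]
  have hh0 : 0 ≤ h := by linarith [hμ i₀]
  have hle : ∀ i, |μ i| ≤ μ i + 1 := by
    intro i
    rw [abs_le]
    constructor <;> linarith [hμ i]
  have hpos : ∀ i, 0 ≤ μ i + 1 := fun i => (abs_nonneg _).trans (hle i)
  rw [hdet, hdet1, abs_prod, ← mul_prod_erase univ _ (mem_univ i₀),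
    ← mul_prod_erase univ (fun i => μ i + 1) (mem_univ i₀)]
  have h1 : |μ i₀| ≤ h := by
    rw [abs_of_nonpos hi₀]
    linarith [hμ i₀]
  have h2 : ∏ i ∈ univ.erase i₀, |μ i| ≤ ∏ i ∈ univ.erase i₀, (μ i + 1) :=
    prod_le_prod (fun i _ => abs_nonneg _) fun i _ => hle i
  have h3 : 0 ≤ ∏ i ∈ univ.erase i₀, (μ i + 1) := prod_nonneg fun i _ => hpos i
  calc |μ i₀| * ∏ i ∈ univ.erase i₀, |μ i| ≤ h * ∏ i ∈ univ.erase i₀, (μ i + 1) :=
        mul_le_mul h1 h2 (prod_nonneg fun i _ => abs_nonneg _) hh0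
    _ ≤ 2 * h * ((μ i₀ + 1) * ∏ i ∈ univ.erase i₀, (μ i + 1)) := by
        have h4 : 1 / 2 ≤ μ i₀ + 1 := by linarith [hμ i₀]
        have h5 : h * (∏ i ∈ univ.erase i₀, (μ i + 1)) * (1 / 2) ≤
            h * (∏ i ∈ univ.erase i₀, (μ i + 1)) * (μ i₀ + 1) :=
          mul_le_mul_of_nonneg_left h4 (mul_nonneg hh0 h3)
        nlinarith

end real

end Pool.Agent.H422IV
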