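import Mathlib
import Pool.Agent.H422IV.Alg1

/-!
# Pointwise algebra, second part
-/

set_option autoImplicit false
set_option linter.unusedSectionVars false

open Matrix Finset

namespace Pool.Agent.H422IV

variable {n : ℕ}

/-- the sum of the absolute values of the products of at least two members of the family -/
noncomputable def E2 (μ : Fin n → ℝ) : ℝ := ∑ j ∈ Ico 2 (n + 1), esF univ (fun i => |μ i|) j

lemma E2_nonneg (μ : Fin n → ℝ) : 0 ≤ E2 μ := sum_nonneg fun j _ => esF_abs_nonneg univ μ j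

lemma prod_eq_E2 (hn : 1 ≤ n) (μ : Fin n → ℝ) :
    ∏ i, (1 + |μ i|) = 1 + ∑ i, |μ i| + E2 μ := by
  rw [prod_one_add, sum_powerset, card_univ, Fintype.card_fin, range_eq_Ico,
    sum_eq_sum_Ico_succ_bot (by omega), sum_eq_sum_Ico_succ_bot (by omega)]
  have h0 : ∑ t ∈ powersetCard 0 (univ : Finset (Fin n)), ∏ i ∈ t, |μ i| = 1 := by simp
  have h1 : ∑ t ∈ powersetCard (0 + 1) (univ : Finset (Fin n)), ∏ i ∈ t, |μ i| = ∑ i, |μ i| := by
    rw [zero_add, powersetCard_one, sum_map]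
    simp
  rw [h0, h1, ← add_assoc]
  rfl

lemma prod_le_E2 (hn : 1 ≤ n) (μ : Fin n → ℝ) (B : ℝ) (hB : ∀ i, |μ i| ≤ B) :
    ∏ i, (1 + |μ i|) ≤ 1 + n * B + E2 μ := by
  rw [prod_eq_E2 hn]
  have : ∑ i, |μ i| ≤ ∑ _i : Fin n, B := sum_le_sum fun i _ => hB i
  rw [sum_const, card_univ, Fintype.card_fin, nsmul_eq_mul] at this
  linarith

lemma E2_le_prod (hn : 1 ≤ n) (μ : Fin n → ℝ) : E2 μ ≤ ∏ i, (1 + |μ i|) := by
  rw [prod_eq_E2 hn]
  have : 0 ≤ ∑ i, |μ i| := sum_nonneg fun i _ => abs_nonneg _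
  linarith

/-- choice of the sign -/
lemma exists_sign (μ : Fin n → ℝ) (δ : ℝ) (hδ : 0 ≤ δ)
    (hμ : ∀ a b, a ≠ b → -δ ≤ μ a * μ b) {i₀ : Fin n} (hpos : 0 < |μ i₀|) :
    ∃ s : ℝ, (s = 1 ∨ s = -1) ∧ ∀ i, -(δ / |μ i₀|) ≤ s * μ i := by
  obtain ⟨s, hs, hs0⟩ : ∃ s : ℝ, (s = 1 ∨ s = -1) ∧ s * μ i₀ = |μ i₀| := by
    rcases le_total 0 (μ i₀) with h | h
    · exact ⟨1, Or.inl rfl, by rw [one_mul, abs_of_nonneg h]⟩
    · exact ⟨-1, Or.inr rfl, by rw [abs_of_nonpos h]; ring⟩
  refine ⟨s, hs, fun i => ?_⟩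
  have hss : s * s = 1 := by rcases hs with h | h <;> rw [h] <;> norm_num
  by_cases hi : i = i₀
  · rw [hi, hs0]
    have : 0 ≤ δ / |μ i₀| := div_nonneg hδ hpos.le
    linarith
  · have h1 := hμ i i₀ hi
    have h2 : s * μ i * |μ i₀| = μ i * μ i₀ := by
      rw [← hs0]
      calc s * μ i * (s * μ i₀) = (s * s) * (μ i * μ i₀) := by ring
        _ = _ := by rw [hss, one_mul]
    rw [← neg_div, div_le_iff₀ hpos, h2]
    exact h1

/-- quadratic form of a diagonal matrix -/
lemma diag_quad (a v : Fin n → ℝ) : v ⬝ᵥ diagonal a *ᵥ v = ∑ i, a i * v i ^ 2 := by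
  rw [dotProduct]
  refine sum_congr rfl fun i _ => ?_
  rw [mulVec_diagonal]
  ring

lemma diag_quad_ge (a v : Fin n → ℝ) (h : ℝ) (ha : ∀ i, -h ≤ a i) :
    -(h * (v ⬝ᵥ v)) ≤ v ⬝ᵥ diagonal a *ᵥ v := by
  rw [diag_quad, dotProduct, mul_sum, ← sum_neg_distrib]
  refine sum_le_sum fun i _ => ?_
  nlinarith [mul_le_mul_of_nonneg_right (ha i) (sq_nonneg (v i))]

lemma diag_quad_le (a v : Fin n → ℝ) (h : ℝ) (ha : ∀ i, a i ≤ h) :
    v ⬝ᵥ diagonal a *ᵥ v ≤ h * (v ⬝ᵥ v) := by
  rw [diag_quad, dotProduct, mul_sum]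
  refine sum_le_sum fun i _ => ?_
  nlinarith [mul_le_mul_of_nonneg_right (ha i) (sq_nonneg (v i))]

lemma neg_det_abs (H : Matrix (Fin n) (Fin n) ℝ) : |(-H).det| = |H.det| := by
  rw [det_neg, abs_mul, abs_pow, abs_neg, abs_one, one_pow, one_mul]

/-- the matrix `λ diag μ - S_I` -/
noncomputable def Dm (μ : Fin n → ℝ) (c : Fin (n + 1) → Fin n → ℝ) (I : Finset (Fin (n + 1)))
    (l : ℝ) : Matrix (Fin n) (Fin n) ℝ := diagonal (fun i => l * μ i) - SI c I

lemma Dm_symm (μ : Fin n → ℝ) (c : Fin (n + 1) → Fin n → ℝ) (I : Finset (Fin (n + 1)))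
    (l : ℝ) : (Dm μ c I l)ᵀ = Dm μ c I l := by
  unfold Dm
  rw [transpose_sub, diagonal_transpose, SI_symm]

lemma neg_Dm (μ : Fin n → ℝ) (c : Fin (n + 1) → Fin n → ℝ) (I : Finset (Fin (n + 1)))
    (l : ℝ) : -Dm μ c I l = diagonal (fun i => (-l) * μ i) + SI c I := by
  unfold Dm
  rw [neg_sub, sub_eq_add_neg, add_comm]
  congr 1
  ext i j
  rw [Matrix.neg_apply, diagonal_apply, diagonal_apply]
  split_ifs
  · ring
  · ring

/-- the case in which `-D` is nearly positive semidefinite but not positive definite -/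
lemma small_case (hn : 1 ≤ n) (μ : Fin n → ℝ) (c : Fin (n + 1) → Fin n → ℝ) (hc : SI c univ = 1)
    (I : Finset (Fin (n + 1))) (l s δ B ρ : ℝ) (hs : s = 1 ∨ s = -1)
    (hsμ : ∀ i, -(δ / B) ≤ s * μ i) (hB : ∀ i, |μ i| ≤ B) (hB0 : 0 < B) (hδ : 0 ≤ δ)
    (hsl : s * l ≤ 0) (hl : |l| ≤ ρ) (hsmall : ρ * δ / B ≤ 1 / 2)
    (hnd : ¬ NegDef (Dm μ c I l)) :
    |(Dm μ c I l).det| ≤ 2 * (ρ * δ / B) * (n.factorial * (ρ + 2) ^ n * (1 + n * B + E2 μ)) := by
  have hss : s * s = 1 := by rcases hs with h | h <;> rw [h] <;> norm_num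
  have hsabs : |s * l| = |l| := by
    rcases hs with h | h <;> rw [h]
    · rw [one_mul]
    · rw [neg_one_mul, abs_neg]
  have hρ : 0 ≤ ρ := (abs_nonneg l).trans hl
  set H := -Dm μ c I l with hH
  have hHeq : H = diagonal (fun i => (-l) * μ i) + SI c I := neg_Dm μ c I l
  have hHs : Hᵀ = H := by rw [hH, transpose_neg, Dm_symm]
  have hlow : ∀ v : Fin n → ℝ, -((ρ * δ / B) * (v ⬝ᵥ v)) ≤ v ⬝ᵥ H *ᵥ v := by
    intro v
    rw [hHeq, add_mulVec, dotProduct_add]
    have h1 := SI_quad_nonneg c I v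
    have h2 := diag_quad_ge (fun i => (-l) * μ i) v (ρ * δ / B) (by
      intro i
      have e1 : (-l) * μ i = (-(s * l)) * (s * μ i) := by
        calc (-l) * μ i = -(s * s) * (l * μ i) := by rw [hss]; ring
          _ = _ := by ring
      rw [e1]
      have h3 : -(s * l) ≤ ρ := by
        have := neg_abs_le (s * l)
        rw [hsabs] at this
        linarith
      have h4 : 0 ≤ -(s * l) := by linarith
      have h5 := hsμ i
      have h6 : 0 ≤ δ / B := div_nonneg hδ hB0.le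
      calc -(ρ * δ / B) = -(ρ * (δ / B)) := by ring
        _ ≤ -(-(s * l) * (δ / B)) := by
          have := mul_le_mul_of_nonneg_right h3 h6
          linarith
        _ ≤ -(s * l) * (s * μ i) := by
          have := mul_le_mul_of_nonneg_left h5 h4
          linarith)
    linarith
  have hnp : ∃ v : Fin n → ℝ, v ≠ 0 ∧ v ⬝ᵥ H *ᵥ v ≤ 0 := by
    unfold NegDef at hnd
    push Not at hnd
    obtain ⟨v, hv, hv'⟩ := hnd
    refine ⟨v, hv, ?_⟩
    rw [hH, neg_mulVec, dotProduct_neg]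
    linarith
  have h1 := det_small H hHs (ρ * δ / B) hsmall hlow hnp
  have h2 : |(Dm μ c I l).det| = |H.det| := by rw [hH, neg_det_abs]
  rw [h2]
  refine h1.trans ?_
  have hh0 : 0 ≤ 2 * (ρ * δ / B) := by positivity
  refine mul_le_mul_of_nonneg_left ?_ hh0
  have h3 : H + 1 = diagonal (fun i => (-l) * μ i) + (SI c I + 1) := by
    rw [hHeq, add_assoc]
  have h4 := det_diag_add_le (fun i => (-l) * μ i) (SI c I + 1) 2 (by
    intro i j
    rw [Matrix.add_apply]
    have e1 := SI_entry c hc I i j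
    have e2 : |(1 : Matrix (Fin n) (Fin n) ℝ) i j| ≤ 1 := by
      rw [Matrix.one_apply]
      split_ifs <;> simp
    calc |SI c I i j + (1 : Matrix (Fin n) (Fin n) ℝ) i j| ≤ 1 + 1 :=
          (abs_add_le _ _).trans (add_le_add e1 e2)
      _ = 2 := by norm_num)
  rw [← h3] at h4
  refine (le_abs_self _).trans (h4.trans ?_)
  rw [mul_assoc]
  refine mul_le_mul_of_nonneg_left ?_ (by positivity)
  calc ∏ i, (|(-l) * μ i| + 2) ≤ ∏ i, ((ρ + 2) * (1 + |μ i|)) := by
        refine prod_le_prod (fun i _ => by positivity) fun i _ => ?_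
        rw [abs_mul, abs_neg]
        have := mul_le_mul_of_nonneg_right hl (abs_nonneg (μ i))
        nlinarith [abs_nonneg (μ i)]
    _ = (ρ + 2) ^ n * ∏ i, (1 + |μ i|) := by
        rw [prod_mul_distrib, prod_const, card_univ, Fintype.card_fin]
    _ ≤ (ρ + 2) ^ n * (1 + n * B + E2 μ) :=
        mul_le_mul_of_nonneg_left (prod_le_E2 hn μ B hB) (by positivity)

/-- the case in which one eigenvalue of `D` is positive and large -/
lemma large_case (μ : Fin n → ℝ) (c : Fin (n + 1) → Fin n → ℝ) (hc : SI c univ = 1)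
    (I : Finset (Fin (n + 1))) (hI : I.card + 2 ≤ n) (l s δ B ρ : ℝ) (hs : s = 1 ∨ s = -1)
    (hsμ : ∀ i, -(δ / B) ≤ s * μ i) (hB : ∀ i, |μ i| ≤ B) (hB1 : 1 ≤ B) (hδ : 0 ≤ δ)
    (hsl : 0 < s * l) (hl : |l| ≤ ρ) (hnp : ¬ Pos2 (Dm μ c I l)) :
    |(Dm μ c I l).det| ≤ (ρ + ρ * δ + 1) * (ρ * δ) * (ρ * δ + 1) ^ n := by
  have hB0 : 0 < B := by linarith
  have hss : s * s = 1 := by rcases hs with h | h <;> rw [h] <;> norm_num
  have hsabs : |s * l| = |l| := by
    rcases hs with h | h <;> rw [h]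
    · rw [one_mul]
    · rw [neg_one_mul, abs_neg]
  have hsρ : s * l ≤ ρ := by
    rw [← abs_of_pos hsl, hsabs]
    exact hl
  have hρ : 0 ≤ ρ := (abs_nonneg l).trans hl
  have hδB : 0 ≤ δ / B := div_nonneg hδ hB0.le
  have hent : ∀ i, l * μ i = (s * l) * (s * μ i) := by
    intro i
    calc l * μ i = (s * s) * (l * μ i) := by rw [hss]; ring
      _ = _ := by ring
  have hentlow : ∀ i, -(ρ * δ / B) ≤ l * μ i := by
    intro i
    rw [hent]
    calc -(ρ * δ / B) = -(ρ * (δ / B)) := by ring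
      _ ≤ -((s * l) * (δ / B)) := by
        have := mul_le_mul_of_nonneg_right hsρ hδB
        linarith
      _ ≤ (s * l) * (s * μ i) := by
        have := mul_le_mul_of_nonneg_left (hsμ i) hsl.le
        linarith
  have hentup : ∀ i, l * μ i ≤ ρ * B := by
    intro i
    refine (le_abs_self _).trans ?_
    rw [abs_mul]
    exact mul_le_mul hl (hB i) (abs_nonneg _) hρ
  set D := Dm μ c I l with hD
  have hDq : ∀ v : Fin n → ℝ, v ⬝ᵥ D *ᵥ v = v ⬝ᵥ diagonal (fun i => l * μ i) *ᵥ v -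
      v ⬝ᵥ SI c I *ᵥ v := by
    intro v
    rw [hD, Dm, sub_mulVec, dotProduct_sub]
  obtain ⟨b, h, hb, hdet⟩ := exists_eig D (Dm_symm μ c I l)
  have hp2 := pos2_iff b h hb
  rw [hp2] at hnp
  push Not at hnp
  have hnpos : 0 < n := by omega
  have : Nonempty (Fin n) := ⟨⟨0, hnpos⟩⟩
  obtain ⟨i₁, hi₁⟩ := Finite.exists_max h
  have hothers : ∀ i, i ≠ i₁ → h i ≤ 0 := by
    intro i hi
    by_contra hpos
    push Not at hpos
    exact absurd (hnp i i₁ hi hpos) (not_le.mpr (hpos.trans_le (hi₁ i)))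
  -- eigenvalues as values of the form
  have hform : ∀ i, (b i).ofLp ⬝ᵥ D *ᵥ (b i).ofLp = h i := by
    intro i
    rw [hb, Finset.sum_eq_single i]
    · rw [orthonormal_iff_ite.mp b.orthonormal, if_pos rfl]
      ring
    · intro j _ hji
      rw [orthonormal_iff_ite.mp b.orthonormal, if_neg hji]
      ring
    · intro hi
      exact absurd (Finset.mem_univ i) hi
  have hnn : ∀ v : E n, v.ofLp ⬝ᵥ v.ofLp = ‖v‖ ^ 2 := by
    intro v
    rw [EuclideanSpace.real_norm_sq_eq, dotProduct]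
    exact sum_congr rfl fun i _ => (sq _).symm
  have hbn : ∀ i, (b i).ofLp ⬝ᵥ (b i).ofLp = 1 := by
    intro i
    rw [hnn, b.orthonormal.1 i, one_pow]
  have hup : ∀ i, h i ≤ ρ * B := by
    intro i
    rw [← hform, hDq]
    have h1 := diag_quad_le (fun i => l * μ i) (b i).ofLp (ρ * B) hentup
    rw [hbn, mul_one] at h1
    have h2 := SI_quad_nonneg c I (b i).ofLp
    linarith
  have hlo : ∀ i, -(ρ * δ + 1) ≤ h i := by
    intro i
    rw [← hform, hDq]
    have h1 := diag_quad_ge (fun i => l * μ i) (b i).ofLp (ρ * δ / B) hentlow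
    rw [hbn, mul_one] at h1
    have h2 := SI_quad_le c hc I (b i).ofLp
    rw [hbn] at h2
    have h3 : ρ * δ / B ≤ ρ * δ := div_le_self (by positivity) hB1
    linarith
  -- the vector in the kernel of `S_I` orthogonal to the top eigenvector
  obtain ⟨v, hv0, hvI, hvb⟩ : ∃ v : E n, v ≠ 0 ∧ (∀ i ∈ I, c i ⬝ᵥ v.ofLp = 0) ∧
      inner ℝ (b i₁) v = (0 : ℝ) := by
    set L : E n →ₗ[ℝ] (({i // i ∈ I} → ℝ) × ℝ) :=
      LinearMap.prod (LinearMap.pi fun i : {i // i ∈ I} =>
        (innerSL ℝ (WithLp.toLp 2 (c i) : E n) : E n →ₗ[ℝ] ℝ))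
        (innerSL ℝ (b i₁) : E n →ₗ[ℝ] ℝ) with hL
    have hfr : Module.finrank ℝ (({i // i ∈ I} → ℝ) × ℝ) < Module.finrank ℝ (E n) := by
      rw [Module.finrank_prod, Module.finrank_fintype_fun_eq_card, Module.finrank_self,
        finrank_euclideanSpace_fin, Fintype.card_coe]
      omega
    have hker := LinearMap.ker_ne_bot_of_finrank_lt (f := L) hfr
    obtain ⟨v, hv, hv0⟩ := (Submodule.ne_bot_iff _).mp hker
    rw [LinearMap.mem_ker] at hv
    refine ⟨v, hv0, fun i hi => ?_, ?_⟩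
    · have h1 := congrFun (congrArg Prod.fst hv) ⟨i, hi⟩
      have h2 : inner ℝ (WithLp.toLp 2 (c i) : E n) v = (0 : ℝ) := h1
      rw [PiLp.inner_apply] at h2
      rw [dotProduct, ← h2]
      refine sum_congr rfl fun j _ => ?_
      simp [mul_comm]
    · exact congrArg Prod.snd hv
  obtain ⟨i₂, hi₂, hi₂'⟩ : ∃ i₂, i₂ ≠ i₁ ∧ -(ρ * δ / B) ≤ h i₂ := by
    by_contra hcon
    push Not at hcon
    have h1 : v.ofLp ⬝ᵥ D *ᵥ v.ofLp = v.ofLp ⬝ᵥ diagonal (fun i => l * μ i) *ᵥ v.ofLp := by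
      rw [hDq, SI_quad, sum_eq_zero, sub_zero]
      intro i hi
      rw [hvI i hi]
      norm_num
    have h2 := diag_quad_ge (fun i => l * μ i) v.ofLp (ρ * δ / B) hentlow
    rw [← h1, hb, hnn, norm_sq_b b, mul_sum, ← sum_neg_distrib] at h2
    obtain ⟨k, hk⟩ : ∃ k, inner ℝ (b k) v ≠ 0 := by
      by_contra hcon2
      push Not at hcon2
      exact hv0 (ext_b b fun i => by rw [hcon2 i, inner_zero_right])
    have hk1 : k ≠ i₁ := fun hk1 => hk (by rw [hk1, hvb])
    refine absurd h2 (not_le.mpr (sum_lt_sum (fun i _ => ?_) ⟨k, mem_univ k, ?_⟩))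
    · by_cases hi : i = i₁
      · rw [hi, hvb]
        simp
      · have h3 := hcon i hi
        nlinarith [mul_self_nonneg (inner ℝ (b i) v : ℝ)]
    · have h3 := hcon k hk1
      have h4 := mul_self_pos.mpr hk
      nlinarith
  have hi₂n : |h i₂| ≤ ρ * δ / B := by
    rw [abs_of_nonpos (hothers i₂ hi₂)]
    linarith
  have hρδ : 0 ≤ ρ * δ := mul_nonneg hρ hδ
  have hi₁n : |h i₁| ≤ (ρ + ρ * δ + 1) * B := by
    rw [abs_le]
    constructor
    · have := hlo i₁
      nlinarith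
    · have := hup i₁
      nlinarith
  have hi₂mem : i₂ ∈ univ.erase i₁ := mem_erase.mpr ⟨hi₂, mem_univ _⟩
  rw [hdet, abs_prod, ← mul_prod_erase univ _ (mem_univ i₁), ← mul_prod_erase _ _ hi₂mem]
  have hrest : ∏ i ∈ (univ.erase i₁).erase i₂, |h i| ≤ (ρ * δ + 1) ^ n := by
    calc ∏ i ∈ (univ.erase i₁).erase i₂, |h i| ≤ ∏ _i ∈ (univ.erase i₁).erase i₂, (ρ * δ + 1) := by
          refine prod_le_prod (fun i _ => abs_nonneg _) fun i hi => ?_
          have h1 : i ≠ i₁ := (mem_erase.mp (mem_erase.mp hi).2).1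
          rw [abs_of_nonpos (hothers i h1)]
          linarith [hlo i]
      _ = (ρ * δ + 1) ^ ((univ.erase i₁).erase i₂).card := prod_const _
      _ ≤ (ρ * δ + 1) ^ n := by
          apply pow_le_pow_right₀ (by linarith)
          refine (card_le_univ _).trans (le_of_eq (Fintype.card_fin n))
  calc |h i₁| * (|h i₂| * ∏ i ∈ (univ.erase i₁).erase i₂, |h i|)
      ≤ ((ρ + ρ * δ + 1) * B) * ((ρ * δ / B) * (ρ * δ + 1) ^ n) := by
        refine mul_le_mul hi₁n ?_ (by positivity) (by positivity)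
        exact mul_le_mul hi₂n hrest (by positivity) (by positivity)
    _ = (ρ + ρ * δ + 1) * (ρ * δ) * (ρ * δ + 1) ^ n := by
        field_simp

/-- **Upper bound** at saddle points. -/
theorem sad_bound (n : ℕ) (δ ρ ε : ℝ) (hδ : 0 ≤ δ) (hρ : 1 ≤ ρ) (hε : 0 < ε) :
    ∃ C : ℝ, 0 ≤ C ∧ ∀ (μ : Fin n → ℝ) (c : Fin (n + 1) → Fin n → ℝ)
      (I : Finset (Fin (n + 1))) (l : ℝ),
      (∀ a b, a ≠ b → -δ ≤ μ a * μ b) → SI c univ = 1 → I.card + 2 ≤ n → |l| ≤ ρ →
      ¬ NegDef (Dm μ c I l) → ¬ Pos2 (Dm μ c I l) →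
      |(Dm μ c I l).det| ≤ ε * E2 μ + C := by
  set C1 : ℝ := 2 * (n.factorial * (ρ + 2) ^ n) with hC1
  have hC1p : 0 < C1 := by positivity
  set B0 : ℝ := max 1 (max (2 * (ρ * δ)) (C1 * (ρ * δ) / ε)) with hB0
  have hB01 : 1 ≤ B0 := le_max_left _ _
  have hB02 : 2 * (ρ * δ) ≤ B0 := (le_max_left _ _).trans (le_max_right _ _)
  have hB03 : C1 * (ρ * δ) / ε ≤ B0 := (le_max_right _ _).trans (le_max_right _ _)
  refine ⟨n.factorial * (ρ * B0 + 1) ^ n + C1 * (ρ * δ) * (1 + n) +
    (ρ + ρ * δ + 1) * (ρ * δ) * (ρ * δ + 1) ^ n, by positivity, ?_⟩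
  intro μ c I l hμ hc hI hl hnd hnp
  have hE := E2_nonneg μ
  have hn : 0 < n := by omega
  have : Nonempty (Fin n) := ⟨⟨0, hn⟩⟩
  obtain ⟨i₀, hi₀⟩ := Finite.exists_max fun i => |μ i|
  set B := |μ i₀| with hB
  have t1 : 0 ≤ n.factorial * (ρ * B0 + 1) ^ n := by positivity
  have t2 : 0 ≤ C1 * (ρ * δ) * (1 + n) := by positivity
  have t3 : 0 ≤ (ρ + ρ * δ + 1) * (ρ * δ) * (ρ * δ + 1) ^ n := by positivity
  have t4 : 0 ≤ ε * E2 μ := by positivity
  rcases le_or_gt B B0 with hBle | hBgt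
  · have h1 := det_diag_add_le (fun i => l * μ i) (-SI c I) 1 (by
      intro i j
      rw [Matrix.neg_apply, abs_neg]
      exact SI_entry c hc I i j)
    have h2 : ∏ i, (|l * μ i| + 1) ≤ (ρ * B0 + 1) ^ n := by
      calc ∏ i, (|l * μ i| + 1) ≤ ∏ _i : Fin n, (ρ * B0 + 1) := by
            refine prod_le_prod (fun i _ => by positivity) fun i _ => ?_
            rw [abs_mul]
            have := mul_le_mul hl ((hi₀ i).trans hBle) (abs_nonneg _) (by linarith)
            linarith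
        _ = (ρ * B0 + 1) ^ n := by rw [prod_const, card_univ, Fintype.card_fin]
    have h3 : Dm μ c I l = diagonal (fun i => l * μ i) + -SI c I := by
      rw [Dm, sub_eq_add_neg]
    rw [h3]
    have h4 : (n.factorial : ℝ) * ∏ i, (|l * μ i| + 1) ≤ n.factorial * (ρ * B0 + 1) ^ n :=
      mul_le_mul_of_nonneg_left h2 (by positivity)
    linarith
  · have hBpos : 0 < B := by linarith
    obtain ⟨s, hs, hsμ⟩ := exists_sign μ δ hδ hμ (i₀ := i₀) hBpos
    rcases le_or_gt (s * l) 0 with hsl | hsl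
    · have hsm : ρ * δ / B ≤ 1 / 2 := by
        rw [div_le_div_iff₀ hBpos (by norm_num)]
        linarith
      have h1 := small_case (by omega) μ c hc I l s δ B ρ hs hsμ hi₀ hBpos hδ hsl hl hsm hnd
      have h2 : 2 * (ρ * δ / B) * (n.factorial * (ρ + 2) ^ n * (1 + n * B + E2 μ)) =
          C1 * (ρ * δ) / B + C1 * (ρ * δ) * n + (C1 * (ρ * δ) / B) * E2 μ := by
        rw [hC1]
        field_simp
      have h3 : C1 * (ρ * δ) / B ≤ ε := by
        rw [div_le_iff₀ hBpos]
        rw [div_le_iff₀ hε] at hB03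
        nlinarith
      have h4 : C1 * (ρ * δ) / B ≤ C1 * (ρ * δ) := div_le_self (by positivity) (by linarith)
      rw [h2] at h1
      have h5 : (C1 * (ρ * δ) / B) * E2 μ ≤ ε * E2 μ := mul_le_mul_of_nonneg_right h3 hE
      have h6 : C1 * (ρ * δ) * (1 + n) = C1 * (ρ * δ) + C1 * (ρ * δ) * n := by ring
      linarith
    · have h1 := large_case μ c hc I hI l s δ B ρ hs hsμ hi₀ (by linarith) hδ hsl hl hnp
      linarith

/-- the contribution of the maxima -/
noncomputable def gmx (μ : Fin n → ℝ) (c : Fin (n + 1) → Fin n → ℝ) (I : Finset (Fin (n + 1)))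
    (l : ℝ) : ℝ := open Classical in if NegDef (Dm μ c I l) then |(Dm μ c I l).det| else 0

lemma gmx_nonneg (μ : Fin n → ℝ) (c : Fin (n + 1) → Fin n → ℝ) (I : Finset (Fin (n + 1)))
    (l : ℝ) : 0 ≤ gmx μ c I l := by
  unfold gmx
  split_ifs
  · exact abs_nonneg _
  · exact le_refl _

/-- the index sets of the projections -/
def IF (n : ℕ) : Finset (Finset (Fin (n + 1))) :=
  (univ : Finset (Fin (n + 1))).powerset.filter fun I => I.card + 2 ≤ n

/-- **Lower bound** for the contribution of the maxima. -/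
theorem E2_le (n : ℕ) (hn : 2 ≤ n) (δ : ℝ) (hδ : 0 ≤ δ) :
    ∃ C : ℝ, 0 ≤ C ∧ ∀ (μ : Fin n → ℝ) (c : Fin (n + 1) → Fin n → ℝ),
      (∀ a b, a ≠ b → -δ ≤ μ a * μ b) → SI c univ = 1 → ∀ τ : ℝ, 1 / 2 ≤ τ → τ ≤ 1 →
      E2 μ ≤ C * (1 + ∑ I ∈ IF n, (gmx μ c I τ + gmx μ c I (-τ))) := by
  set C1 : ℝ := 2 * (n.factorial * (1 + 2) ^ n) with hC1
  have hC1p : 0 < C1 := by positivity
  have hBc := Bc_nonneg n
  set N : ℝ := ((IF n).card : ℝ) with hN
  set K2 : ℝ := n * (2 ^ n * Bc n) with hK2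
  set K3 : ℝ := n * (2 ^ n * Bc n * (N * C1) + 2 * 2 ^ n) with hK3
  have hK20 : 0 ≤ K2 := by positivity
  have hK30 : 0 ≤ K3 := by positivity
  set B0 : ℝ := max 1 (max (2 * δ) (2 * K3 * δ)) with hB0
  have hB01 : 1 ≤ B0 := le_max_left _ _
  have hB02 : 2 * δ ≤ B0 := (le_max_left _ _).trans (le_max_right _ _)
  have hB03 : 2 * K3 * δ ≤ B0 := (le_max_right _ _).trans (le_max_right _ _)
  refine ⟨(1 + B0) ^ n + 2 * K2 + 2 * K3 * δ * (1 + n), by positivity, ?_⟩
  intro μ c hμ hc τ hτ1 hτ2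
  have hE := E2_nonneg μ
  set G := ∑ I ∈ IF n, (gmx μ c I τ + gmx μ c I (-τ)) with hG
  have hG0 : 0 ≤ G := sum_nonneg fun I _ => add_nonneg (gmx_nonneg _ _ _ _) (gmx_nonneg _ _ _ _)
  have hnpos : 0 < n := by omega
  have : Nonempty (Fin n) := ⟨⟨0, hnpos⟩⟩
  obtain ⟨i₀, hi₀⟩ := Finite.exists_max fun i => |μ i|
  set B := |μ i₀| with hB
  have t1 : 0 ≤ (1 + B0) ^ n := by positivity
  have t2 : 0 ≤ 2 * K3 * δ * (1 + n) := by positivity
  rcases le_or_gt B B0 with hBle | hBgt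
  · have h1 : ∏ i, (1 + |μ i|) ≤ (1 + B0) ^ n := by
      calc ∏ i, (1 + |μ i|) ≤ ∏ _i : Fin n, (1 + B0) :=
            prod_le_prod (fun i _ => by positivity) fun i _ => by linarith [hi₀ i]
        _ = (1 + B0) ^ n := by rw [prod_const, card_univ, Fintype.card_fin]
    have h2 := E2_le_prod (by omega) μ
    nlinarith [mul_nonneg t1 hG0, mul_nonneg hK20 hG0, mul_nonneg t2 hG0]
  · have hBpos : 0 < B := by linarith
    obtain ⟨s, hs, hsμ⟩ := exists_sign μ δ hδ hμ (i₀ := i₀) hBpos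
    have hss : s * s = 1 := by rcases hs with h | h <;> rw [h] <;> norm_num
    have hsa : |s| = 1 := by rcases hs with h | h <;> rw [h] <;> norm_num
    set P := 1 + n * B + E2 μ with hP
    have hP0 : 0 ≤ P := by positivity
    have hprod := prod_le_E2 (by omega) μ B hi₀
    have hδB : 0 ≤ δ / B := div_nonneg hδ hBpos.le
    -- determinants
    have hdetI : ∀ I ∈ IF n, |(diagonal (fun i => τ * (s * μ i)) + SI c I).det| ≤
        (gmx μ c I τ + gmx μ c I (-τ)) + C1 * (δ / B) * P := by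
      intro I hI
      have h1 : -Dm μ c I (-(s * τ)) = diagonal (fun i => τ * (s * μ i)) + SI c I := by
        rw [neg_Dm]
        congr 2
        funext i
        ring
      rw [← h1, neg_det_abs]
      have h2 : gmx μ c I (-(s * τ)) ≤ gmx μ c I τ + gmx μ c I (-τ) := by
        have e1 := gmx_nonneg μ c I τ
        have e2 := gmx_nonneg μ c I (-τ)
        rcases hs with h | h
        · rw [h, one_mul]
          linarith
        · rw [h, neg_one_mul, neg_neg]
          linarith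
      by_cases hnd : NegDef (Dm μ c I (-(s * τ)))
      · have h3 : |(Dm μ c I (-(s * τ))).det| = gmx μ c I (-(s * τ)) := by
          unfold gmx
          rw [if_pos hnd]
        have h4 : 0 ≤ C1 * (δ / B) * P := by positivity
        linarith
      · have h3 := small_case (by omega) μ c hc I (-(s * τ)) s δ B 1 hs hsμ hi₀ hBpos hδ
          (by nlinarith) (by rw [abs_neg, abs_mul, hsa, one_mul, abs_of_nonneg (by linarith)]
                             exact hτ2)
          (by rw [one_mul, div_le_div_iff₀ hBpos (by norm_num)]; linarith) hnd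
        have h4 : 2 * (1 * δ / B) * (n.factorial * (1 + 2) ^ n * (1 + n * B + E2 μ)) =
            C1 * (δ / B) * P := by
          rw [hC1, hP]
          ring
        rw [h4] at h3
        have h5 := gmx_nonneg μ c I (-(s * τ))
        linarith
    -- elementary symmetric functions
    have hj : ∀ j ∈ Ico 2 (n + 1), esF univ (fun i => |μ i|) j ≤
        2 ^ n * Bc n * (G + N * (C1 * (δ / B) * P)) + 2 * 2 ^ n * ((δ / B) * P) := by
      intro j hj
      rw [mem_Ico] at hj
      -- comparison of products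
      have h1 : ∀ S ∈ (univ : Finset (Fin n)).powersetCard j, ∏ i ∈ S, |μ i| ≤
          ∏ i ∈ S, (s * μ i) + 2 * ((δ / B) * P) := by
        intro S _
        have habs : ∏ i ∈ S, |μ i| = |∏ i ∈ S, (s * μ i)| := by
          rw [abs_prod]
          refine prod_congr rfl fun i _ => ?_
          rw [abs_mul, hsa, one_mul]
        rcases le_or_gt 0 (∏ i ∈ S, (s * μ i)) with h0 | h0
        · rw [habs, abs_of_nonneg h0]
          have : 0 ≤ 2 * ((δ / B) * P) := by positivity
          linarith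
        · obtain ⟨i, hi, hineg⟩ : ∃ i ∈ S, s * μ i < 0 := by
            by_contra hcon
            push Not at hcon
            exact absurd (prod_nonneg hcon) (not_le.mpr h0)
          have h2 : ∏ i ∈ S, |μ i| ≤ (δ / B) * P := by
            rw [← mul_prod_erase S _ hi]
            have h3 : |μ i| ≤ δ / B := by
              have : |μ i| = |s * μ i| := by rw [abs_mul, hsa, one_mul]
              rw [this, abs_of_neg hineg]
              linarith [hsμ i]
            have h4 : ∏ k ∈ S.erase i, |μ k| ≤ P := by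
              calc ∏ k ∈ S.erase i, |μ k| ≤ ∏ k ∈ S.erase i, (1 + |μ k|) :=
                    prod_le_prod (fun k _ => abs_nonneg _) fun k _ => by linarith [abs_nonneg (μ k)]
                _ ≤ ∏ k, (1 + |μ k|) := by
                    refine prod_le_prod_of_subset_of_one_le (subset_univ _)
                      (fun k _ => by positivity) fun k _ _ => by linarith [abs_nonneg (μ k)]
                _ ≤ P := hprod
            exact mul_le_mul h3 h4 (prod_nonneg fun k _ => abs_nonneg _) hδB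
          have h5 : ∏ i ∈ S, |μ i| = -∏ i ∈ S, (s * μ i) := by
            rw [habs, abs_of_neg h0]
          linarith
      have h2 : esF univ (fun i => |μ i|) j ≤ esF univ (fun i => s * μ i) j +
          2 * 2 ^ n * ((δ / B) * P) := by
        unfold esF
        refine (sum_le_sum h1).trans ?_
        rw [sum_add_distrib, sum_const, nsmul_eq_mul]
        refine add_le_add le_rfl ?_
        have h3 : (((univ : Finset (Fin n)).powersetCard j).card : ℝ) ≤ 2 ^ n := by
          have h4 : ((univ : Finset (Fin n)).powersetCard j).card ≤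
              ((univ : Finset (Fin n)).powerset).card :=
            card_le_card fun S hS => mem_powerset.mpr (mem_powersetCard.mp hS).1
          rw [card_powerset, card_univ, Fintype.card_fin] at h4
          exact_mod_cast h4
        have h5 : 0 ≤ 2 * ((δ / B) * P) := by positivity
        calc _ ≤ 2 ^ n * (2 * ((δ / B) * P)) := mul_le_mul_of_nonneg_right h3 h5
          _ = _ := by ring
      -- scaling
      have h3 : |esF univ (fun i => s * μ i) j| ≤
          2 ^ n * |esF univ (fun i => τ * (s * μ i)) j| := by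
        have e1 : esF univ (fun i => τ * (s * μ i)) j = τ ^ j * esF univ (fun i => s * μ i) j := by
          unfold esF
          rw [mul_sum]
          refine sum_congr rfl fun S hS => ?_
          rw [prod_mul_distrib, prod_const, (mem_powersetCard.mp hS).2]
        rw [e1, abs_mul, abs_of_nonneg (pow_nonneg (by linarith : (0 : ℝ) ≤ τ) j), ← mul_assoc]
        have e2 : 1 ≤ 2 ^ n * τ ^ j := by
          have e3 : (1 / 2 : ℝ) ^ n ≤ τ ^ j := by
            calc (1 / 2 : ℝ) ^ n ≤ (1 / 2) ^ j :=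
                  pow_le_pow_of_le_one (by norm_num) (by norm_num) (by omega)
              _ ≤ τ ^ j := pow_le_pow_left₀ (by norm_num) hτ1 j
          calc (1 : ℝ) = 2 ^ n * (1 / 2) ^ n := by rw [← mul_pow]; norm_num
            _ ≤ 2 ^ n * τ ^ j := mul_le_mul_of_nonneg_left e3 (by positivity)
        calc |esF univ (fun i => s * μ i) j| = 1 * |esF univ (fun i => s * μ i) j| :=
              (one_mul _).symm
          _ ≤ _ := mul_le_mul_of_nonneg_right e2 (abs_nonneg _)
      have h4 := esF_le_det c hc (fun i => τ * (s * μ i)) (j := j) (by omega)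
      have h5 : ∑ I ∈ (univ : Finset (Fin (n + 1))).powerset.filter (fun I => I.card ≤ n - j),
          |(diagonal (fun i => τ * (s * μ i)) + SI c I).det| ≤ G + N * (C1 * (δ / B) * P) := by
        have h6 : (univ : Finset (Fin (n + 1))).powerset.filter (fun I => I.card ≤ n - j) ⊆
            IF n := by
          intro I hI
          rw [mem_filter] at hI
          rw [IF, mem_filter]
          exact ⟨hI.1, by omega⟩
        refine (sum_le_sum_of_subset_of_nonneg h6 fun _ _ _ => abs_nonneg _).trans ?_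
        refine (sum_le_sum hdetI).trans (le_of_eq ?_)
        rw [sum_add_distrib, sum_const, nsmul_eq_mul]
      have h7 : |esF univ (fun i => τ * (s * μ i)) j| ≤ Bc n * (G + N * (C1 * (δ / B) * P)) :=
        h4.trans (mul_le_mul_of_nonneg_left h5 hBc)
      have h8 : esF univ (fun i => s * μ i) j ≤ 2 ^ n * (Bc n * (G + N * (C1 * (δ / B) * P))) :=
        (le_abs_self _).trans (h3.trans (mul_le_mul_of_nonneg_left h7 (by positivity)))
      linarith [h2, h8]
    have hsum : E2 μ ≤ n * (2 ^ n * Bc n * (G + N * (C1 * (δ / B) * P)) +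
        2 * 2 ^ n * ((δ / B) * P)) := by
      unfold E2
      refine (sum_le_sum hj).trans ?_
      rw [sum_const, nsmul_eq_mul, Nat.card_Ico]
      refine mul_le_mul_of_nonneg_right ?_ (by positivity)
      have : n + 1 - 2 ≤ n := by omega
      exact_mod_cast this
    have h1 : n * (2 ^ n * Bc n * (G + N * (C1 * (δ / B) * P)) + 2 * 2 ^ n * ((δ / B) * P)) =
        K2 * G + K3 * ((δ / B) * P) := by
      rw [hK2, hK3]
      ring
    rw [h1] at hsum
    have h2 : (δ / B) * P ≤ δ * (1 + n) + (δ / B) * E2 μ := by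
      have e1 : (δ / B) * P = δ / B + δ * n + (δ / B) * E2 μ := by
        rw [hP]
        field_simp
      have e2 : δ / B ≤ δ := div_le_self hδ (by linarith)
      rw [e1]
      nlinarith
    have h3 : K3 * (δ / B) ≤ 1 / 2 := by
      rw [← mul_div_assoc, div_le_div_iff₀ hBpos (by norm_num)]
      nlinarith
    have h4 : K3 * ((δ / B) * P) ≤ K3 * δ * (1 + n) + 1 / 2 * E2 μ := by
      calc K3 * ((δ / B) * P) ≤ K3 * (δ * (1 + n) + (δ / B) * E2 μ) :=
            mul_le_mul_of_nonneg_left h2 hK30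
        _ = K3 * δ * (1 + n) + (K3 * (δ / B)) * E2 μ := by ring
        _ ≤ _ := by nlinarith
    have h5 : E2 μ ≤ 2 * K2 * G + 2 * K3 * δ * (1 + n) := by linarith
    nlinarith [mul_nonneg t1 hG0, mul_nonneg t2 hG0]

end Pool.Agent.H422IV
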