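import Mathlib

/-!
# The area formula with multiplicity
-/

set_option autoImplicit false
set_option linter.unusedSectionVars false

open MeasureTheory Metric Set Filter Topology
open scoped ENNReal ContDiff

namespace Pool.Agent.H422IV

section area

variable {V : Type} [NormedAddCommGroup V] [InnerProductSpace ℝ V] [FiniteDimensional ℝ V]
  [MeasurableSpace V] [BorelSpace V]

/-- splitting of a set on which the derivative is invertible into countably many pieces on which
the map is injective -/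
lemma exists_pieces (Γ : V → V) (hΓ : ContDiff ℝ 1 Γ) (D : Set V) (hD : MeasurableSet D)
    (hdet : ∀ z ∈ D, (fderiv ℝ Γ z).det ≠ 0) :
    ∃ P : ℕ → Set V, (∀ j, MeasurableSet (P j)) ∧ Pairwise (fun i j => Disjoint (P i) (P j)) ∧
      (⋃ j, P j) = D ∧ ∀ j, InjOn Γ (P j) := by
  classical
  have hloc : ∀ z, ∃ U : Set V, IsOpen U ∧ (z ∈ D → z ∈ U) ∧ InjOn Γ U := by
    intro z
    by_cases hz : z ∈ D
    · set e := (fderiv ℝ Γ z).toContinuousLinearEquivOfDetNeZero (hdet z hz) with he
      have h1 : HasStrictFDerivAt Γ (e : V →L[ℝ] V) z := by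
        rw [he, ContinuousLinearMap.coe_toContinuousLinearEquivOfDetNeZero]
        exact hΓ.contDiffAt.hasStrictFDerivAt (by norm_num)
      refine ⟨(h1.toOpenPartialHomeomorph Γ).source, (h1.toOpenPartialHomeomorph Γ).open_source,
        fun _ => h1.mem_toOpenPartialHomeomorph_source, ?_⟩
      have h2 := (h1.toOpenPartialHomeomorph Γ).injOn
      exact h2
    · exact ⟨∅, isOpen_empty, fun h => absurd h hz, injOn_empty _⟩
  choose U hUo hUm hUi using hloc
  obtain ⟨t, htD, htc, htcov⟩ := TopologicalSpace.countable_cover_nhdsWithin (f := U) (s := D)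
    (fun z hz => mem_nhdsWithin_of_mem_nhds ((hUo z).mem_nhds (hUm z hz)))
  rcases t.eq_empty_or_nonempty with ht | ht
  · refine ⟨fun _ => ∅, fun _ => MeasurableSet.empty, fun i j _ => disjoint_empty _, ?_,
      fun _ => injOn_empty _⟩
    rw [iUnion_const]
    rw [ht] at htcov
    simp only [mem_empty_iff_false, iUnion_of_empty, iUnion_empty] at htcov
    exact (subset_empty_iff.mp htcov).symm
  · obtain ⟨g, hg⟩ := htc.exists_eq_range ht
    refine ⟨fun j => D ∩ disjointed (fun j => U (g j)) j, fun j => ?_, fun i j hij => ?_, ?_,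
      fun j => ?_⟩
    · exact hD.inter (MeasurableSet.disjointed (fun j => (hUo _).measurableSet) j)
    · exact (disjoint_disjointed (fun j => U (g j)) hij).mono inter_subset_right inter_subset_right
    · rw [← inter_iUnion, iUnion_disjointed, inter_eq_left]
      intro z hz
      have h1 := htcov hz
      rw [mem_iUnion₂] at h1
      obtain ⟨x, hx, hzx⟩ := h1
      rw [hg] at hx
      obtain ⟨j, rfl⟩ := hx
      exact mem_iUnion.mpr ⟨j, hzx⟩
    · exact (hUi (g j)).mono (inter_subset_right.trans (disjointed_subset _ _))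

/-- the number of preimages -/
noncomputable def cnt (Γ : V → V) (D : Set V) (w : V) : ℝ≥0∞ := Measure.count (D ∩ Γ ⁻¹' {w})

lemma cnt_eq_tsum (Γ : V → V) (hΓ : Continuous Γ) (D : Set V) (P : ℕ → Set V)
    (hP : ∀ j, MeasurableSet (P j)) (hPd : Pairwise (fun i j => Disjoint (P i) (P j)))
    (hPu : (⋃ j, P j) = D) (hPi : ∀ j, InjOn Γ (P j)) (w : V) :
    cnt Γ D w = ∑' j, (Γ '' P j).indicator 1 w := by
  unfold cnt
  rw [← hPu, iUnion_inter, measure_iUnion]
  · refine tsum_congr fun j => ?_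
    by_cases hw : w ∈ Γ '' P j
    · obtain ⟨z, hz, hzw⟩ := hw
      have h1 : P j ∩ Γ ⁻¹' {w} = {z} := by
        ext z'
        rw [mem_singleton_iff]
        constructor
        · rintro ⟨h2, h3⟩
          exact hPi j h2 hz (by rw [hzw]; exact h3)
        · rintro rfl
          exact ⟨hz, hzw⟩
      have h2 : w ∈ Γ '' P j := ⟨z, hz, hzw⟩
      rw [h1, Measure.count_singleton, indicator_of_mem h2, Pi.one_apply]
    · have h1 : P j ∩ Γ ⁻¹' {w} = ∅ := by
        ext z'
        simp only [mem_inter_iff, mem_preimage, mem_singleton_iff, mem_empty_iff_false, iff_false]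
        rintro ⟨h2, h3⟩
        exact hw ⟨z', h2, h3⟩
      rw [h1, measure_empty, indicator_of_notMem hw]
  · intro i j hij
    exact (hPd hij).mono inter_subset_left inter_subset_left
  · intro j
    exact (hP j).inter (hΓ.measurable (measurableSet_singleton w))

/-- **Area formula** with multiplicity. -/
theorem area (Γ : V → V) (hΓ : ContDiff ℝ 1 Γ) (D : Set V) (hD : MeasurableSet D)
    (hdet : ∀ z ∈ D, (fderiv ℝ Γ z).det ≠ 0) :
    Measurable (cnt Γ D) ∧
    ∫⁻ w, cnt Γ D w = ∫⁻ z in D, ENNReal.ofReal |(fderiv ℝ Γ z).det| := by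
  obtain ⟨P, hP, hPd, hPu, hPi⟩ := exists_pieces Γ hΓ D hD hdet
  have hc := hΓ.continuous
  have himg : ∀ j, MeasurableSet (Γ '' P j) := fun j =>
    (hP j).image_of_continuousOn_injOn hc.continuousOn (hPi j)
  have hm : ∀ j, Measurable ((Γ '' P j).indicator (1 : V → ℝ≥0∞)) := fun j =>
    measurable_one.indicator (himg j)
  have h0 : cnt Γ D = fun w => ∑' j, (Γ '' P j).indicator 1 w :=
    funext fun w => cnt_eq_tsum Γ hc D P hP hPd hPu hPi w
  constructor
  · rw [h0]
    exact Measurable.tsum hm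
  · rw [h0, lintegral_tsum fun j => (hm j).aemeasurable]
    have h1 : ∀ j, ∫⁻ w, (Γ '' P j).indicator (1 : V → ℝ≥0∞) w =
        ∫⁻ z in P j, ENNReal.ofReal |(fderiv ℝ Γ z).det| := by
      intro j
      rw [lintegral_indicator_one (himg j)]
      rw [← lintegral_abs_det_fderiv_eq_addHaar_image volume (hP j)
        (fun z _ => ((hΓ.differentiable (by norm_num)) z).hasFDerivAt.hasFDerivWithinAt) (hPi j)]
    rw [tsum_congr h1, ← hPu, lintegral_iUnion hP hPd]

/-- area formula over a set of values -/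
theorem area_on (Γ : V → V) (hΓ : ContDiff ℝ 1 Γ) (D : Set V) (hD : MeasurableSet D)
    (hdet : ∀ z ∈ D, (fderiv ℝ Γ z).det ≠ 0) (B : Set V) (hB : MeasurableSet B) :
    ∫⁻ w in B, cnt Γ D w = ∫⁻ z in D ∩ Γ ⁻¹' B, ENNReal.ofReal |(fderiv ℝ Γ z).det| := by
  have h1 := (area Γ hΓ (D ∩ Γ ⁻¹' B) (hD.inter (hΓ.continuous.measurable hB))
    (fun z hz => hdet z hz.1)).2
  rw [← h1, ← lintegral_indicator hB]
  refine lintegral_congr fun w => ?_
  by_cases hw : w ∈ B
  · rw [indicator_of_mem hw]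
    unfold cnt
    congr 1
    ext z
    simp only [mem_inter_iff, mem_preimage, mem_singleton_iff]
    constructor
    · rintro ⟨h2, h3⟩
      exact ⟨⟨h2, by rw [h3]; exact hw⟩, h3⟩
    · rintro ⟨⟨h2, _⟩, h3⟩
      exact ⟨h2, h3⟩
  · rw [indicator_of_notMem hw]
    unfold cnt
    have h2 : D ∩ Γ ⁻¹' B ∩ Γ ⁻¹' {w} = ∅ := by
      ext z
      simp only [mem_inter_iff, mem_preimage, mem_singleton_iff, mem_empty_iff_false, iff_false]
      rintro ⟨⟨_, h3⟩, h4⟩
      rw [h4] at h3
      exact hw h3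
    rw [h2, measure_empty]

/-- Sard's theorem in equal dimensions -/
theorem sard (Γ : V → V) (hΓ : ContDiff ℝ 1 Γ) :
    volume (Γ '' {z | (fderiv ℝ Γ z).det = 0}) = 0 :=
  addHaar_image_eq_zero_of_det_fderivWithin_eq_zero volume
    (fun z _ => ((hΓ.differentiable (by norm_num)) z).hasFDerivAt.hasFDerivWithinAt)
    (fun _ hz => hz)

/-- finiteness of the set of preimages of a regular value in a compact set -/
lemma finite_fiber (Γ : V → V) (hΓ : ContDiff ℝ 1 Γ) (K : Set V) (hK : IsCompact K) (w : V)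
    (hw : w ∉ Γ '' {z | (fderiv ℝ Γ z).det = 0}) : (K ∩ Γ ⁻¹' {w}).Finite := by
  have hKc : IsCompact (K ∩ Γ ⁻¹' {w}) :=
    hK.inter_right (isClosed_singleton.preimage hΓ.continuous)
  refine hKc.finite ?_
  rw [isDiscrete_iff_forall_exists_isOpen]
  rintro z ⟨hz, hzw⟩
  have hd : (fderiv ℝ Γ z).det ≠ 0 := fun h0 => hw ⟨z, h0, hzw⟩
  set e := (fderiv ℝ Γ z).toContinuousLinearEquivOfDetNeZero hd with he
  have h1 : HasStrictFDerivAt Γ (e : V →L[ℝ] V) z := by
    rw [he, ContinuousLinearMap.coe_toContinuousLinearEquivOfDetNeZero]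
    exact hΓ.contDiffAt.hasStrictFDerivAt (by norm_num)
  refine ⟨(h1.toOpenPartialHomeomorph Γ).source, (h1.toOpenPartialHomeomorph Γ).open_source, ?_⟩
  have h2 := (h1.toOpenPartialHomeomorph Γ).injOn
  have h3 := h1.mem_toOpenPartialHomeomorph_source
  ext z'
  rw [mem_singleton_iff]
  constructor
  · rintro ⟨h4, _, h5⟩
    exact h2 h4 h3 (by
      change Γ z' = Γ z
      rw [h5, hzw])
  · rintro rfl
    exact ⟨h3, hz, hzw⟩

end area

end Pool.Agent.H422IV
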