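import Mathlib
import Pool.Agent.H422IV.Frame
import Pool.Agent.H422IV.Alg2

/-!
# Principal curvatures of a graph
-/

set_option autoImplicit false
set_option linter.unusedSectionVars false

open MeasureTheory Metric Set Filter Topology Matrix
open scoped ENNReal NNReal ContDiff

namespace Pool.Agent.H422IV

variable {n : ℕ}

/-- `V` is a basis orthonormal for the metric of the graph of `u` at `y`, and diagonalises the
second fundamental form; `μ` are the principal curvatures -/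
structure PC (u : SR n) (y : E n) (V : Matrix (Fin n) (Fin n) ℝ) (μ : Fin n → ℝ) : Prop where
  hg : Vᵀ * graphMetric (fn u) y * V = 1
  hA : Vᵀ * (wf (fn u) y • Hs (fn u) y) * V = diagonal μ

lemma exists_PC (u : SR n) (y : E n) : ∃ V μ, PC u y V μ := by
  obtain ⟨V, μ, h1, h2⟩ := simul_diag (graphMetric (fn u) y) (wf (fn u) y • Hs (fn u) y)
    (graphMetric_symm _ _) (graphMetric_pos _ _) (by rw [transpose_smul, Hs_symm])
  exact ⟨V, μ, h1, h2⟩

section pc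

variable {u : SR n} {y : E n} {V : Matrix (Fin n) (Fin n) ℝ} {μ : Fin n → ℝ} (hpc : PC u y V μ)

include hpc

lemma PC.quad_g (v w : Fin n → ℝ) :
    (V *ᵥ v) ⬝ᵥ graphMetric (fn u) y *ᵥ (V *ᵥ w) = v ⬝ᵥ w := by
  have h1 : (Vᵀ * graphMetric (fn u) y * V) *ᵥ w = w := by rw [hpc.hg, one_mulVec]
  rw [← mulVec_mulVec, ← mulVec_mulVec] at h1
  conv_rhs => rw [← h1]
  rw [dotProduct_mulVec v, ← mulVec_transpose, transpose_transpose]

lemma PC.quad_A (v w : Fin n → ℝ) :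
    (V *ᵥ v) ⬝ᵥ (wf (fn u) y • Hs (fn u) y) *ᵥ (V *ᵥ w) = v ⬝ᵥ diagonal μ *ᵥ w := by
  have h1 : (Vᵀ * (wf (fn u) y • Hs (fn u) y) * V) *ᵥ w = diagonal μ *ᵥ w := by rw [hpc.hA]
  rw [← mulVec_mulVec, ← mulVec_mulVec] at h1
  rw [← h1, dotProduct_mulVec v, ← mulVec_transpose, transpose_transpose]

/-- the left inverse of `V` -/
lemma PC.left_inv : (Vᵀ * graphMetric (fn u) y) * V = 1 := hpc.hg

lemma PC.right_inv : V * (Vᵀ * graphMetric (fn u) y) = 1 := mul_eq_one_comm.mp hpc.left_inv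

lemma PC.det_sq : V.det ^ 2 * (graphMetric (fn u) y).det = 1 := by
  have h1 := congrArg Matrix.det hpc.hg
  rw [det_mul, det_mul, det_transpose, det_one] at h1
  rw [← h1]
  ring

lemma PC.det_ne : V.det ≠ 0 := by
  intro h
  have h1 := hpc.det_sq
  rw [h] at h1
  norm_num at h1

/-- the matrix of the shape operator -/
lemma PC.Jm_eq : Jm (fn u) y = V * diagonal μ * (Vᵀ * graphMetric (fn u) y) := by
  have h1 := graphMetric_mul_Jm (fn u) y
  have h2 : V * (Vᵀ * (graphMetric (fn u) y * Jm (fn u) y) * V) * (Vᵀ * graphMetric (fn u) y) =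
      V * diagonal μ * (Vᵀ * graphMetric (fn u) y) := by rw [h1, hpc.hA]
  have h3 : V * (Vᵀ * (graphMetric (fn u) y * Jm (fn u) y) * V) * (Vᵀ * graphMetric (fn u) y) =
      (V * (Vᵀ * graphMetric (fn u) y)) * Jm (fn u) y * (V * (Vᵀ * graphMetric (fn u) y)) := by
    simp only [Matrix.mul_assoc]
  rw [h3, hpc.right_inv, Matrix.one_mul, Matrix.mul_one] at h2
  exact h2

lemma PC.sig_Jm (m : ℕ) : sig (Jm (fn u) y) m = esF Finset.univ μ m := by
  rw [hpc.Jm_eq, sig_conj V _ _ hpc.right_inv, sig_diagonal]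

lemma PC.Nf_Jm (m : ℕ) : Nf (Jm (fn u) y) m = Nf (diagonal μ) m := by
  unfold Nf
  congr 1
  have h1 : Jm (fn u) y * Jm (fn u) y =
      V * (diagonal μ * diagonal μ) * (Vᵀ * graphMetric (fn u) y) := by
    rw [hpc.Jm_eq]
    calc V * diagonal μ * (Vᵀ * graphMetric (fn u) y) *
          (V * diagonal μ * (Vᵀ * graphMetric (fn u) y)) =
        V * (diagonal μ * ((Vᵀ * graphMetric (fn u) y) * V) * diagonal μ) *
          (Vᵀ * graphMetric (fn u) y) := by simp only [Matrix.mul_assoc]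
      _ = _ := by rw [hpc.left_inv, Matrix.mul_one]
  rw [h1, sig_conj V _ _ hpc.right_inv]

/-- the sectional curvatures are the products of two principal curvatures -/
lemma PC.pair {κ : ℝ} (hs : SecGE (graphMetric (fn u)) κ y) (a b : Fin n) (hab : a ≠ b) :
    κ ≤ μ a * μ b := by
  have h1 := hs (V *ᵥ Pi.single a 1) (V *ᵥ Pi.single b 1)
  simp only [gauss] at h1
  rw [quad_Rm, hpc.quad_g, hpc.quad_g, hpc.quad_g] at h1
  have e1 : ∀ c d : Fin n, (Pi.single c 1 : Fin n → ℝ) ⬝ᵥ (Pi.single d 1 : Fin n → ℝ) =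
      if c = d then 1 else 0 := by
    intro c d
    rw [single_one_dotProduct, Pi.single_apply]
  have e2 : ∀ c d : Fin n, wf (fn u) y * ((V *ᵥ Pi.single c 1) ⬝ᵥ Hs (fn u) y *ᵥ
      (V *ᵥ Pi.single d 1)) = if c = d then μ c else 0 := by
    intro c d
    have h2 := hpc.quad_A (Pi.single c 1) (Pi.single d 1)
    rw [smul_mulVec, dotProduct_smul, smul_eq_mul] at h2
    rw [h2, single_one_dotProduct, mulVec_single_one]
    change (diagonal μ) c d = _
    rw [diagonal_apply]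
  set w := wf (fn u) y with hw
  have h3 : w ^ 2 * (((V *ᵥ Pi.single a 1) ⬝ᵥ Hs (fn u) y *ᵥ (V *ᵥ Pi.single a 1)) *
      ((V *ᵥ Pi.single b 1) ⬝ᵥ Hs (fn u) y *ᵥ (V *ᵥ Pi.single b 1)) -
      ((V *ᵥ Pi.single a 1) ⬝ᵥ Hs (fn u) y *ᵥ (V *ᵥ Pi.single b 1)) *
      ((V *ᵥ Pi.single b 1) ⬝ᵥ Hs (fn u) y *ᵥ (V *ᵥ Pi.single a 1))) =
      (w * ((V *ᵥ Pi.single a 1) ⬝ᵥ Hs (fn u) y *ᵥ (V *ᵥ Pi.single a 1))) *
      (w * ((V *ᵥ Pi.single b 1) ⬝ᵥ Hs (fn u) y *ᵥ (V *ᵥ Pi.single b 1))) -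
      (w * ((V *ᵥ Pi.single a 1) ⬝ᵥ Hs (fn u) y *ᵥ (V *ᵥ Pi.single b 1))) *
      (w * ((V *ᵥ Pi.single b 1) ⬝ᵥ Hs (fn u) y *ᵥ (V *ᵥ Pi.single a 1))) := by ring
  rw [h3, e2, e2, e2, e2, e1, e1, e1] at h1
  simp only [if_true, if_neg hab, if_neg hab.symm] at h1
  linarith

lemma PC.negDef_iff (K : Matrix (Fin n) (Fin n) ℝ) : NegDef (Vᵀ * K * V) ↔ NegDef K := by
  have hq : ∀ v : Fin n → ℝ, v ⬝ᵥ (Vᵀ * K * V) *ᵥ v = (V *ᵥ v) ⬝ᵥ K *ᵥ (V *ᵥ v) := by
    intro v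
    rw [← mulVec_mulVec, ← mulVec_mulVec, dotProduct_mulVec v, ← mulVec_transpose,
      transpose_transpose]
  constructor
  · intro h v hv
    set W := Vᵀ * graphMetric (fn u) y with hW
    have h1 : V *ᵥ (W *ᵥ v) = v := by rw [mulVec_mulVec, hpc.right_inv, one_mulVec]
    have h2 := h (W *ᵥ v) (by
      intro h0
      rw [h0, mulVec_zero] at h1
      exact hv h1.symm)
    rw [hq, h1] at h2
    exact h2
  · intro h v hv
    rw [hq]
    refine h _ fun h0 => hv ?_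
    have h1 : (Vᵀ * graphMetric (fn u) y) *ᵥ (V *ᵥ v) = v := by
      rw [mulVec_mulVec, hpc.left_inv, one_mulVec]
    rw [← h1, h0, mulVec_zero]

lemma PC.pos2_iff (K : Matrix (Fin n) (Fin n) ℝ) : Pos2 (Vᵀ * K * V) ↔ Pos2 K := by
  have hq : ∀ v : Fin n → ℝ, v ⬝ᵥ (Vᵀ * K * V) *ᵥ v = (V *ᵥ v) ⬝ᵥ K *ᵥ (V *ᵥ v) := by
    intro v
    rw [← mulVec_mulVec, ← mulVec_mulVec, dotProduct_mulVec v, ← mulVec_transpose,
      transpose_transpose]
  constructor
  · rintro ⟨v, w, h⟩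
    refine ⟨V *ᵥ v, V *ᵥ w, fun s t hst => ?_⟩
    have h1 := h s t hst
    rw [hq, mulVec_add, mulVec_smul, mulVec_smul] at h1
    exact h1
  · rintro ⟨v, w, h⟩
    set W := Vᵀ * graphMetric (fn u) y with hW
    refine ⟨W *ᵥ v, W *ᵥ w, fun s t hst => ?_⟩
    rw [hq, mulVec_add, mulVec_smul, mulVec_smul, mulVec_mulVec, mulVec_mulVec, hpc.right_inv,
      one_mulVec, one_mulVec]
    exact h s t hst

end pc

/-- the total of the products of at least two principal curvatures -/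
noncomputable def FE (u : E n → ℝ) (y : E n) : ℝ := ∑ j ∈ Finset.Ico 2 (n + 1), Nf (Jm u y) j

lemma FE_nonneg (u : E n → ℝ) (y : E n) : 0 ≤ FE u y :=
  Finset.sum_nonneg fun _ _ => Nf_nonneg _ _

lemma FE_continuous (u : SR n) : Continuous (FE (fn u)) := by
  unfold FE
  refine continuous_finsetSum _ fun j _ => ?_
  unfold Nf
  refine Real.continuous_sqrt.comp ?_
  have h1 : ∀ y, sig (Jm (fn u) y * Jm (fn u) y) j = fn (sig (JS u * JS u) j) y := by
    intro y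
    have h2 : (JS u * JS u).map (ev y) = Jm (fn u) y * Jm (fn u) y := by
      rw [Matrix.map_mul, JS_map]
    rw [← h2, map_sig]
    rfl
  simp_rw [h1]
  exact (fn_smooth _).continuous

lemma diag_conj (μ : Fin n → ℝ) : (1 : Matrix (Fin n) (Fin n) ℝ) * diagonal μ *
    (1 : Matrix (Fin n) (Fin n) ℝ)ᵀ = diagonal μ := by
  rw [transpose_one, Matrix.one_mul, Matrix.mul_one]

lemma PC.FE_le {u : SR n} {y : E n} {V : Matrix (Fin n) (Fin n) ℝ} {μ : Fin n → ℝ}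
    (hpc : PC u y V μ) : FE (fn u) y ≤ E2 μ := by
  refine Finset.sum_le_sum fun j _ => ?_
  rw [hpc.Nf_Jm]
  have h1 := Nf_le_es (U := (1 : Matrix (Fin n) (Fin n) ℝ)) (μ := μ) (by simp) (by simp) j
  rwa [diag_conj] at h1

lemma PC.le_FE {u : SR n} {y : E n} {V : Matrix (Fin n) (Fin n) ℝ} {μ : Fin n → ℝ}
    (hpc : PC u y V μ) : E2 μ ≤ 2 ^ n * FE (fn u) y := by
  unfold E2 FE
  rw [Finset.mul_sum]
  refine Finset.sum_le_sum fun j _ => ?_
  rw [hpc.Nf_Jm]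
  have h1 := es_le_Nf (U := (1 : Matrix (Fin n) (Fin n) ℝ)) (μ := μ) (by simp) (by simp) j
  rwa [diag_conj] at h1

/-- the symmetric functions of degree at least two are controlled by `FE` -/
lemma sig_le_FE (u : SR n) (y : E n) {j : ℕ} (hj : 2 ≤ j) (hjn : j ≤ n) :
    |sig (Jm (fn u) y) j| ≤ 2 ^ n * FE (fn u) y := by
  obtain ⟨V, μ, hpc⟩ := exists_PC u y
  rw [hpc.sig_Jm]
  refine (abs_esF_le _ _ _).trans (le_trans ?_ hpc.le_FE)
  exact Finset.single_le_sum (f := fun j => esF Finset.univ (fun i => |μ i|) j)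
    (fun j _ => esF_abs_nonneg _ _ _) (Finset.mem_Ico.mpr ⟨hj, by omega⟩)

end Pool.Agent.H422IV
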