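import Mathlib
import Pool.Agent.H422IV.Frame2

/-!
# The Gauss type maps and the height functions of a graph
-/

set_option autoImplicit false
set_option linter.unusedSectionVars false

open MeasureTheory Metric Set Filter Topology Matrix
open scoped ENNReal NNReal ContDiff

namespace Pool.Agent.H422IV

variable {n : ℕ}

/-- Determinant of a block triangular endomorphism of `ℝ × ℝⁿ`. -/
lemma det_tri (T : (ℝ × E n) →L[ℝ] (ℝ × E n)) (B : Matrix (Fin n) (Fin n) ℝ)
    (h11 : T (1, 0) = (1, 0)) (h22 : ∀ i j, (T (0, EuclideanSpace.single j 1)).2 i = B i j) :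
    T.det = B.det := by
  set b : Module.Basis (Unit ⊕ Fin n) ℝ (ℝ × E n) :=
    (Module.Basis.singleton Unit ℝ).prod (EuclideanSpace.basisFun (Fin n) ℝ).toBasis with hb
  have hM : LinearMap.toMatrix b b (T : (ℝ × E n) →ₗ[ℝ] (ℝ × E n)) =
      fromBlocks 1 (of fun _ j => (T (0, EuclideanSpace.single j 1)).1) 0 B := by
    ext a c
    rcases a with a | a <;> rcases c with c | c
    · rw [LinearMap.toMatrix_apply, fromBlocks_apply₁₁]
      simp [hb, Module.Basis.prod_apply, h11]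
    · rw [LinearMap.toMatrix_apply, fromBlocks_apply₁₂]
      simp [hb, Module.Basis.prod_apply]
    · rw [LinearMap.toMatrix_apply, fromBlocks_apply₂₁]
      simp [hb, Module.Basis.prod_apply, h11]
    · rw [LinearMap.toMatrix_apply, fromBlocks_apply₂₂]
      simp [hb, Module.Basis.prod_apply, h22]
  rw [ContinuousLinearMap.det, ← LinearMap.det_toMatrix b, hM, det_fromBlocks_zero₂₁, det_one,
    one_mul]

/-- the derivative of the graph parametrisation, as a linear map -/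
noncomputable def DXL (u : E n → ℝ) (y : E n) : E n →L[ℝ] F n :=
  ((WithLp.prodContinuousLinearEquiv 2 ℝ ℝ (E n)).symm : (ℝ × E n) →L[ℝ] F n).comp
    ((fderiv ℝ u y).prod (ContinuousLinearMap.id ℝ (E n)))

lemma DXL_apply (u : E n → ℝ) (y v : E n) : DXL u y v = DX u y v := rfl

/-- a vector orthogonal to the normal and to the tangent space vanishes -/
lemma eq_zero_of_orth (u : E n → ℝ) (y : E n) (x : F n) (h1 : inner ℝ (Nv u y) x = 0)
    (h2 : ∀ v, inner ℝ (DX u y v) x = 0) : x = 0 := by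
  have h3 : ∀ v : E n, fderiv ℝ u y v * x.fst + inner ℝ v x.snd = 0 := by
    intro v
    have := h2 v
    rwa [inner_F] at this
  have h4 : wf u y * x.fst - inner ℝ (Hv u y) x.snd = 0 := by
    rw [inner_F] at h1
    change wf u y * x.fst + inner ℝ (-Hv u y) x.snd = 0 at h1
    rw [inner_neg_left] at h1
    linarith
  have h5 := h3 (Hv u y)
  have h6 : wf u y * fderiv ℝ u y (Hv u y) = ‖Hv u y‖ ^ 2 := by
    rw [← Hv_inner, real_inner_self_eq_norm_sq]
  have hw := wf_pos u y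
  have h7 : 0 ≤ fderiv ℝ u y (Hv u y) := by
    by_contra hneg
    push Not at hneg
    have := mul_neg_of_pos_of_neg hw hneg
    rw [h6] at this
    nlinarith [sq_nonneg ‖Hv u y‖]
  have h8 : (wf u y + fderiv ℝ u y (Hv u y)) * x.fst = 0 := by linarith
  have hfst : x.fst = 0 := by
    rcases mul_eq_zero.mp h8 with h | h
    · linarith
    · exact h
  have hsnd : x.snd = 0 := by
    have h9 := h3 x.snd
    rw [hfst, mul_zero, zero_add] at h9
    exact inner_self_eq_zero.mp h9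
  have : x = WithLp.toLp 2 (x.fst, x.snd) := rfl
  rw [this, hfst, hsnd]
  rfl

/-- decomposition into normal and tangential parts -/
lemma eq_smul_of_orth (u : E n → ℝ) (y : E n) (x : F n) (h2 : ∀ v, inner ℝ (DX u y v) x = 0) :
    x = inner ℝ (Nv u y) x • Nv u y := by
  rw [← sub_eq_zero]
  apply eq_zero_of_orth u y
  · rw [inner_sub_right, inner_smul_right, inner_Nv_Nv, mul_one, sub_self]
  · intro v
    rw [inner_sub_right, inner_smul_right, h2, real_inner_comm (Nv u y) (DX u y v), inner_Nv_DX,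
      mul_zero, sub_zero]

/-- a coordinate projection -/
noncomputable def Sm (ε : Fin (n + 1) → F n) (I : Finset (Fin (n + 1))) : F n →L[ℝ] F n :=
  ∑ i ∈ I, (innerSL ℝ (ε i)).smulRight (ε i)

lemma Sm_apply (ε : Fin (n + 1) → F n) (I : Finset (Fin (n + 1))) (x : F n) :
    Sm ε I x = ∑ i ∈ I, inner ℝ (ε i) x • ε i := by
  unfold Sm
  rw [_root_.sum_apply]
  rfl

lemma inner_Sm (ε : Fin (n + 1) → F n) (I : Finset (Fin (n + 1))) (x x' : F n) :
    inner ℝ x' (Sm ε I x) = ∑ i ∈ I, inner ℝ (ε i) x' * inner ℝ (ε i) x := by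
  rw [Sm_apply, inner_sum]
  refine Finset.sum_congr rfl fun i _ => ?_
  rw [inner_smul_right, real_inner_comm (ε i) x']
  ring

/-- the map `(λ, y) ↦ λ ν(y) + S (X(y) - q)` -/
noncomputable def Gm (u : SR n) (ε : Fin (n + 1) → F n) (q : F n) (I : Finset (Fin (n + 1)))
    (z : F n) : F n := z.fst • Nv (fn u) z.snd + Sm ε I (gX u z.snd - q)

/-- components of a vector along the graph -/
noncomputable def kap (u : E n → ℝ) (y : E n) (e : F n) : Fin n → ℝ :=
  fun a => inner ℝ e (DX u y (EuclideanSpace.single a 1))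

lemma kap_dot (u : E n → ℝ) (y v : E n) (e : F n) :
    kap u y e ⬝ᵥ v.ofLp = inner ℝ e (DX u y v) := by
  have hv : v = ∑ i, v i • (EuclideanSpace.single i (1 : ℝ) : E n) := by
    have h2 := (EuclideanSpace.basisFun (Fin n) ℝ).sum_repr v
    simpa using h2.symm
  conv_rhs => rw [hv]
  rw [← DXL_apply, map_sum, inner_sum, dotProduct]
  refine Finset.sum_congr rfl fun i _ => ?_
  rw [map_smul, inner_smul_right, DXL_apply, mul_comm]
  rfl

/-- the matrix of the Hessian of the height functions -/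
noncomputable def KM (u : SR n) (ε : Fin (n + 1) → F n) (I : Finset (Fin (n + 1))) (l : ℝ)
    (y : E n) : Matrix (Fin n) (Fin n) ℝ :=
  l • (wf (fn u) y • Hs (fn u) y) -
    ∑ i ∈ I, vecMulVec (kap (fn u) y (ε i)) (kap (fn u) y (ε i))

lemma KM_symm (u : SR n) (ε : Fin (n + 1) → F n) (I : Finset (Fin (n + 1))) (l : ℝ)
    (y : E n) : (KM u ε I l y)ᵀ = KM u ε I l y := by
  unfold KM
  rw [transpose_sub, transpose_smul, transpose_smul, Hs_symm, transpose_sum]
  congr 1
  refine Finset.sum_congr rfl fun i _ => ?_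
  ext a b
  rw [transpose_apply, vecMulVec_apply, vecMulVec_apply, mul_comm]

lemma sum_vecMulVec_quad (κ : Fin (n + 1) → Fin n → ℝ) (I : Finset (Fin (n + 1)))
    (v w : Fin n → ℝ) : v ⬝ᵥ (∑ i ∈ I, vecMulVec (κ i) (κ i)) *ᵥ w =
      ∑ i ∈ I, (κ i ⬝ᵥ v) * (κ i ⬝ᵥ w) := by
  rw [Matrix.sum_mulVec, dotProduct_sum]
  refine Finset.sum_congr rfl fun i _ => ?_
  rw [vecMulVec_mulVec, dotProduct_smul, dotProduct_comm v (κ i)]
  simp

lemma KM_quad (u : SR n) (ε : Fin (n + 1) → F n) (I : Finset (Fin (n + 1))) (l : ℝ)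
    (y v w : E n) : v.ofLp ⬝ᵥ KM u ε I l y *ᵥ w.ofLp =
      l * inner ℝ (DX (fn u) y v) (DX (fn u) y (Jl (fn u) y w)) -
        inner ℝ (DX (fn u) y v) (Sm ε I (DX (fn u) y w)) := by
  unfold KM
  rw [sub_mulVec, dotProduct_sub, smul_mulVec, smul_mulVec, dotProduct_smul, dotProduct_smul,
    smul_eq_mul, smul_eq_mul, inner_DX_DXJ, inner_Sm, sum_vecMulVec_quad]
  congr 1
  refine Finset.sum_congr rfl fun i _ => ?_
  rw [kap_dot, kap_dot]

lemma contDiff_Nv (u : SR n) : ContDiff ℝ ∞ (Nv (fn u)) := by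
  have h1 : ContDiff ℝ ∞ (fun y : E n => (wf (fn u) y, -Hv (fn u) y)) :=
    (contDiff_wf u).prodMk (contDiff_Hv u).neg
  exact (WithLp.prodContinuousLinearEquiv 2 ℝ ℝ (E n)).symm.contDiff.comp h1

lemma contDiff_gX (u : SR n) : ContDiff ℝ ∞ (gX u) := by
  have h1 : ContDiff ℝ ∞ (fun y : E n => (fn u y, y)) := (fn_smooth u).prodMk contDiff_id
  exact (WithLp.prodContinuousLinearEquiv 2 ℝ ℝ (E n)).symm.contDiff.comp h1

lemma contDiff_fstF : ContDiff ℝ ∞ fun z : F n => z.fst :=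
  contDiff_fst.comp (WithLp.prodContinuousLinearEquiv 2 ℝ ℝ (E n)).contDiff

lemma contDiff_sndF : ContDiff ℝ ∞ fun z : F n => z.snd :=
  contDiff_snd.comp (WithLp.prodContinuousLinearEquiv 2 ℝ ℝ (E n)).contDiff

lemma continuous_fstF : Continuous fun z : F n => z.fst := contDiff_fstF.continuous

lemma continuous_sndF : Continuous fun z : F n => z.snd := contDiff_sndF.continuous

lemma contDiff_Gm (u : SR n) (ε : Fin (n + 1) → F n) (q : F n) (I : Finset (Fin (n + 1))) :
    ContDiff ℝ ∞ (Gm u ε q I) := by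
  unfold Gm
  refine (contDiff_fstF.smul ((contDiff_Nv u).comp contDiff_sndF)).add ?_
  exact (Sm ε I).contDiff.comp (((contDiff_gX u).comp contDiff_sndF).sub contDiff_const)

lemma hasFDerivAt_gX (u : SR n) (y : E n) : HasFDerivAt (gX u) (DXL (fn u) y) y := by
  set e := WithLp.prodContinuousLinearEquiv 2 ℝ ℝ (E n) with he
  have h1 : HasFDerivAt (fun y : E n => (fn u y, y))
      ((fderiv ℝ (fn u) y).prod (ContinuousLinearMap.id ℝ (E n))) y :=
    (fn_diff u y).hasFDerivAt.prodMk (hasFDerivAt_id y)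
  have h2 : HasFDerivAt (fun x => e.symm x) (e.symm : (ℝ × E n) →L[ℝ] F n)
      ((fun y : E n => (fn u y, y)) y) := e.symm.hasFDerivAt
  exact HasFDerivAt.comp (g := fun x => e.symm x) (f := fun y : E n => (fn u y, y)) y h2 h1

lemma hasFDerivAt_Gm (u : SR n) (ε : Fin (n + 1) → F n) (q : F n) (I : Finset (Fin (n + 1)))
    (z : F n) : ∃ L : F n →L[ℝ] F n, HasFDerivAt (Gm u ε q I) L z ∧ ∀ ζ, L ζ =
      ζ.fst • Nv (fn u) z.snd - z.fst • DX (fn u) z.snd (Jl (fn u) z.snd ζ.snd) +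
        Sm ε I (DX (fn u) z.snd ζ.snd) := by
  set e := WithLp.prodContinuousLinearEquiv 2 ℝ ℝ (E n) with he
  set p1 : F n →L[ℝ] ℝ := (ContinuousLinearMap.fst ℝ ℝ (E n)).comp (e : F n →L[ℝ] (ℝ × E n))
    with hp1
  set p2 : F n →L[ℝ] E n := (ContinuousLinearMap.snd ℝ ℝ (E n)).comp (e : F n →L[ℝ] (ℝ × E n))
    with hp2
  have hfst : HasFDerivAt (fun z : F n => z.fst) p1 z := p1.hasFDerivAt
  have hsnd : HasFDerivAt (fun z : F n => z.snd) p2 z := p2.hasFDerivAt
  obtain ⟨L, hL, hLv⟩ := hasFDerivAt_Nv u z.snd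
  have hN : HasFDerivAt (fun z : F n => Nv (fn u) z.snd) (L.comp p2) z := by
    have hL' : HasFDerivAt (Nv (fn u)) L ((fun z : F n => z.snd) z) := hL
    exact hL'.comp z hsnd
  have hX : HasFDerivAt (fun z : F n => gX u z.snd - q) ((DXL (fn u) z.snd).comp p2) z := by
    have hX' : HasFDerivAt (gX u) (DXL (fn u) z.snd) ((fun z : F n => z.snd) z) :=
      hasFDerivAt_gX u z.snd
    exact (hX'.comp z hsnd).sub_const q
  have hS : HasFDerivAt (fun z : F n => Sm ε I (gX u z.snd - q))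
      ((Sm ε I).comp ((DXL (fn u) z.snd).comp p2)) z := (Sm ε I).hasFDerivAt.comp z hX
  refine ⟨_, (hfst.smul hN).add hS, fun ζ => ?_⟩
  have h1 : (z.fst • L.comp p2 + p1.smulRight (Nv (fn u) z.snd) +
      (Sm ε I).comp ((DXL (fn u) z.snd).comp p2)) ζ =
      (z.fst • L ζ.snd + ζ.fst • Nv (fn u) z.snd) + Sm ε I (DX (fn u) z.snd ζ.snd) := rfl
  refine h1.trans ?_
  rw [hLv, smul_neg]
  abel

/-- the covectors in the adapted frame -/
noncomputable def cf (u : SR n) (y : E n) (ε : Fin (n + 1) → F n)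
    (V : Matrix (Fin n) (Fin n) ℝ) : Fin (n + 1) → Fin n → ℝ :=
  fun i => Vᵀ *ᵥ kap (fn u) y (ε i)

lemma conj_vecMulVec (V : Matrix (Fin n) (Fin n) ℝ) (κ : Fin n → ℝ) :
    Vᵀ * vecMulVec κ κ * V = vecMulVec (Vᵀ *ᵥ κ) (Vᵀ *ᵥ κ) := by
  rw [Matrix.mul_vecMulVec, Matrix.vecMulVec_mul, ← mulVec_transpose]

lemma conj_KM {u : SR n} {y : E n} {V : Matrix (Fin n) (Fin n) ℝ} {μ : Fin n → ℝ}
    (hpc : PC u y V μ) (ε : Fin (n + 1) → F n) (I : Finset (Fin (n + 1))) (l : ℝ) :
    Vᵀ * KM u ε I l y * V = Dm μ (cf u y ε V) I l := by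
  unfold KM Dm SI cf
  rw [Matrix.mul_sub, Matrix.sub_mul, Matrix.mul_smul, Matrix.smul_mul, hpc.hA]
  congr 1
  · ext i j
    rw [Matrix.smul_apply, diagonal_apply, diagonal_apply]
    split_ifs <;> simp
  · rw [Matrix.mul_sum, Matrix.sum_mul]
    exact Finset.sum_congr rfl fun i _ => conj_vecMulVec V _

lemma SI_cf {u : SR n} {y : E n} {V : Matrix (Fin n) (Fin n) ℝ} {μ : Fin n → ℝ}
    (hpc : PC u y V μ) (b : OrthonormalBasis (Fin (n + 1)) ℝ (F n)) :
    SI (cf u y b V) Finset.univ = 1 := by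
  have h1 : ∑ i, vecMulVec (kap (fn u) y (b i)) (kap (fn u) y (b i)) = graphMetric (fn u) y := by
    ext a c
    rw [Matrix.sum_apply]
    have h2 : ∀ i, vecMulVec (kap (fn u) y (b i)) (kap (fn u) y (b i)) a c =
        inner ℝ (DX (fn u) y (EuclideanSpace.single a 1)) (b i) *
          inner ℝ (b i) (DX (fn u) y (EuclideanSpace.single c 1)) := by
      intro i
      rw [vecMulVec_apply, kap, kap, real_inner_comm]
    rw [Finset.sum_congr rfl fun i _ => h2 i, b.sum_inner_mul_inner, inner_DX_DX]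
    change (Pi.single a 1 : Fin n → ℝ) ⬝ᵥ graphMetric (fn u) y *ᵥ (Pi.single c 1) = _
    rw [single_one_dotProduct, mulVec_single_one]
    rfl
  have h3 : SI (cf u y b V) Finset.univ =
      Vᵀ * (∑ i, vecMulVec (kap (fn u) y (b i)) (kap (fn u) y (b i))) * V := by
    unfold SI cf
    rw [Matrix.mul_sum, Matrix.sum_mul]
    exact Finset.sum_congr rfl fun i _ => (conj_vecMulVec V _).symm
  rw [h3, h1, hpc.hg]

/-- the Jacobian of `Gm` -/
lemma det_Gm {u : SR n} {z : F n} {V : Matrix (Fin n) (Fin n) ℝ} {μ : Fin n → ℝ}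
    (hpc : PC u z.snd V μ) (ε : Fin (n + 1) → F n) (q : F n) (I : Finset (Fin (n + 1))) :
    |(fderiv ℝ (Gm u ε q I) z).det| =
      (wf (fn u) z.snd)⁻¹ * |(Dm μ (cf u z.snd ε V) I z.fst).det| := by
  obtain ⟨L, hL, hLv⟩ := hasFDerivAt_Gm u ε q I z
  rw [hL.fderiv]
  set y := z.snd with hy
  set e := WithLp.prodContinuousLinearEquiv 2 ℝ ℝ (E n) with he
  set M : Matrix (Fin n) (Fin n) ℝ := -(V * Vᵀ * KM u ε I z.fst y) with hM
  set G : E n →L[ℝ] E n := (Matrix.toEuclideanLin M).toContinuousLinearMap with hG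
  have hGapp : ∀ v : E n, (G v).ofLp = M *ᵥ v.ofLp := fun v => rfl
  set ℓ : E n →L[ℝ] ℝ := (innerSL ℝ (Nv (fn u) y)).comp ((Sm ε I).comp (DXL (fn u) y)) with hℓ
  have hℓapp : ∀ v, ℓ v = inner ℝ (Nv (fn u) y) (Sm ε I (DX (fn u) y v)) := fun v => rfl
  set T0 : (ℝ × E n) →L[ℝ] (ℝ × E n) := ContinuousLinearMap.prod
    (ContinuousLinearMap.fst ℝ ℝ (E n) + ℓ.comp (ContinuousLinearMap.snd ℝ ℝ (E n)))
    (G.comp (ContinuousLinearMap.snd ℝ ℝ (E n))) with hT0
  set T : F n →L[ℝ] F n := (e.symm : (ℝ × E n) →L[ℝ] F n) ∘L T0 ∘L (e : F n →L[ℝ] (ℝ × E n))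
    with hT
  have hTdet : T.det = M.det := by
    have h1 : T.det = T0.det := by
      rw [hT, ContinuousLinearMap.det, ContinuousLinearMap.det]
      exact LinearMap.det_conj (T0 : (ℝ × E n) →ₗ[ℝ] (ℝ × E n)) e.symm.toLinearEquiv
    rw [h1]
    apply det_tri
    · have h2 : T0 (1, 0) = (1 + ℓ 0, G 0) := rfl
      rw [h2, map_zero, map_zero, add_zero]
    · intro i j
      have h2 : (T0 (0, EuclideanSpace.single j 1)).2 i = (M *ᵥ (Pi.single j 1)) i := rfl
      rw [h2, mulVec_single_one]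
      rfl
  set z0 : F n := WithLp.toLp 2 (0, y) with hz0
  have hgVV : graphMetric (fn u) y * (V * Vᵀ) = 1 := by
    have h1 := congrArg Matrix.transpose hpc.right_inv
    rw [transpose_mul, transpose_mul, transpose_transpose, graphMetric_symm, transpose_one] at h1
    rw [← Matrix.mul_assoc]
    exact h1
  have hcomp : L = (Psi' (fn u) z0).comp T := by
    ext1 ζ
    have hTζ : T ζ = WithLp.toLp 2 (ζ.fst + ℓ ζ.snd, G ζ.snd) := rfl
    rw [ContinuousLinearMap.comp_apply, hTζ, Psi'_apply, hLv, ← sub_eq_zero]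
    change ζ.fst • Nv (fn u) y - z.fst • DX (fn u) y (Jl (fn u) y ζ.snd) +
        Sm ε I (DX (fn u) y ζ.snd) - ((ζ.fst + ℓ ζ.snd) • Nv (fn u) y +
        DX (fn u) y (G ζ.snd - (0 : ℝ) • Jl (fn u) y (G ζ.snd))) = 0
    rw [zero_smul, sub_zero]
    apply eq_zero_of_orth (fn u) y
    · rw [inner_sub_right, inner_add_right, inner_sub_right, inner_add_right, inner_smul_right,
        inner_smul_right, inner_smul_right, inner_Nv_Nv, inner_Nv_DX, inner_Nv_DX, hℓapp]
      ring
    · intro v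
      have hNvv : inner ℝ (DX (fn u) y v) (Nv (fn u) y) = 0 := by
        rw [real_inner_comm, inner_Nv_DX]
      rw [inner_sub_right, inner_add_right, inner_sub_right, inner_add_right, inner_smul_right,
        inner_smul_right, inner_smul_right, hNvv]
      have h1 := KM_quad u ε I z.fst y v ζ.snd
      have h2 : inner ℝ (DX (fn u) y v) (DX (fn u) y (G ζ.snd)) =
          -(v.ofLp ⬝ᵥ KM u ε I z.fst y *ᵥ ζ.snd.ofLp) := by
        rw [inner_DX_DX, hGapp, mulVec_mulVec, hM, Matrix.mul_neg, ← Matrix.mul_assoc, hgVV,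
          Matrix.one_mul, neg_mulVec, dotProduct_neg]
      rw [h2, h1]
      ring
  have hdet : L.det = (Psi' (fn u) z0).det * T.det := by
    rw [hcomp, ContinuousLinearMap.det, ContinuousLinearMap.det, ContinuousLinearMap.det]
    exact LinearMap.det_comp _ _
  have hPsi : (Psi' (fn u) z0).det = (wf (fn u) y)⁻¹ := by
    rw [det_Psi']
    change (wf (fn u) y)⁻¹ * (1 + (-(0 : ℝ)) • Jm (fn u) y).det = _
    rw [neg_zero, zero_smul, add_zero, det_one, mul_one]
  rw [hdet, hPsi, hTdet, abs_mul, abs_of_pos (inv_pos.mpr (wf_pos _ _))]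
  congr 1
  rw [← conj_KM hpc, hM, neg_det_abs, det_mul, det_mul, det_mul, det_mul]
  congr 1
  ring

/-- the height functions -/
noncomputable def hf (u : SR n) (ε : Fin (n + 1) → F n) (q : F n) (I : Finset (Fin (n + 1)))
    (w : F n) (y : E n) : ℝ := inner ℝ w (gX u y) - (∑ i ∈ I, inner ℝ (ε i) (gX u y - q) ^ 2) / 2

lemma contDiff_hf (u : SR n) (ε : Fin (n + 1) → F n) (q : F n) (I : Finset (Fin (n + 1)))
    (w : F n) : ContDiff ℝ ∞ (hf u ε q I w) := by
  unfold hf
  refine (contDiff_const.inner ℝ (contDiff_gX u)).sub ?_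
  refine ContDiff.div_const ?_ _
  exact ContDiff.sum fun i _ => (contDiff_const.inner ℝ ((contDiff_gX u).sub contDiff_const)).pow 2

lemma hasFDerivAt_hf (u : SR n) (ε : Fin (n + 1) → F n) (q : F n) (I : Finset (Fin (n + 1)))
    (w : F n) (y : E n) : HasFDerivAt (hf u ε q I w)
      ((innerSL ℝ (w - Sm ε I (gX u y - q))).comp (DXL (fn u) y)) y := by
  have hX := hasFDerivAt_gX u y
  have h1 : HasFDerivAt (fun y => inner ℝ w (gX u y))
      ((innerSL ℝ w).comp (DXL (fn u) y)) y := (innerSL ℝ w).hasFDerivAt.comp y hX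
  have h2 : ∀ i ∈ I, HasFDerivAt (fun y => inner ℝ (ε i) (gX u y - q) ^ 2)
      ((2 * inner ℝ (ε i) (gX u y - q)) • (innerSL ℝ (ε i)).comp (DXL (fn u) y)) y := by
    intro i _
    have h3 : HasFDerivAt (fun y => inner ℝ (ε i) (gX u y - q))
        ((innerSL ℝ (ε i)).comp (DXL (fn u) y)) y :=
      (innerSL ℝ (ε i)).hasFDerivAt.comp y (hX.sub_const q)
    have h4 := h3.pow 2
    refine h4.congr_fderiv ?_
    congr 1
    generalize inner ℝ (ε i) (gX u y - q) = a
    simp
  have h5 := (HasFDerivAt.fun_sum h2).mul_const (2⁻¹ : ℝ)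
  have h6 := h1.sub h5
  have h7 : hf u ε q I w = fun y => inner ℝ w (gX u y) -
      (∑ i ∈ I, inner ℝ (ε i) (gX u y - q) ^ 2) * 2⁻¹ := by
    funext y
    unfold hf
    rw [div_eq_mul_inv]
  rw [h7]
  refine h6.congr_fderiv ?_
  ext v
  have h8 : ((innerSL ℝ (w - Sm ε I (gX u y - q))).comp (DXL (fn u) y)) v =
      inner ℝ w (DX (fn u) y v) - inner ℝ (Sm ε I (gX u y - q)) (DX (fn u) y v) := by
    change inner ℝ (w - Sm ε I (gX u y - q)) (DX (fn u) y v) = _
    rw [inner_sub_left]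
  rw [h8, real_inner_comm, real_inner_comm (DX (fn u) y v) (Sm ε I (gX u y - q)), inner_Sm]
  simp only [_root_.sub_apply, ContinuousLinearMap.comp_apply, _root_.smul_apply,
    _root_.sum_apply, smul_eq_mul, innerSL_apply_apply, DXL_apply]
  rw [real_inner_comm w, Finset.mul_sum]
  congr 1
  refine Finset.sum_congr rfl fun i _ => ?_
  ring

/-- critical points of the height functions -/
lemma crit_iff (u : SR n) (ε : Fin (n + 1) → F n) (q : F n) (I : Finset (Fin (n + 1)))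
    (w : F n) (y : E n) : fderiv ℝ (hf u ε q I w) y = 0 ↔
      ∃ l : ℝ, Gm u ε q I (WithLp.toLp 2 (l, y)) = w := by
  rw [(hasFDerivAt_hf u ε q I w y).fderiv]
  constructor
  · intro h
    set x := w - Sm ε I (gX u y - q) with hx
    have h1 : ∀ v, inner ℝ (DX (fn u) y v) x = 0 := by
      intro v
      have h2 := congrArg (fun L : E n →L[ℝ] ℝ => L v) h
      have h3 : inner ℝ x (DX (fn u) y v) = 0 := h2
      rw [real_inner_comm, h3]
    refine ⟨inner ℝ (Nv (fn u) y) x, ?_⟩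
    have h2 := eq_smul_of_orth (fn u) y x h1
    change inner ℝ (Nv (fn u) y) x • Nv (fn u) y + Sm ε I (gX u y - q) = w
    rw [← h2, hx]
    abel
  · rintro ⟨l, hl⟩
    have h1 : w - Sm ε I (gX u y - q) = l • Nv (fn u) y := by
      rw [← hl]
      change l • Nv (fn u) y + Sm ε I (gX u y - q) - Sm ε I (gX u y - q) = _
      abel
    rw [h1]
    ext v
    change inner ℝ (l • Nv (fn u) y) (DX (fn u) y v) = 0
    rw [real_inner_smul_left, inner_Nv_DX, mul_zero]

/-- Hessian of the height functions at critical points -/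
lemma Hs_hf (u : SR n) (ε : Fin (n + 1) → F n) (q : F n) (I : Finset (Fin (n + 1)))
    (w : F n) (y : E n) (l : ℝ) (hl : Gm u ε q I (WithLp.toLp 2 (l, y)) = w) :
    Hs (hf u ε q I w) y = KM u ε I l y := by
  ext i j
  have h1 : pd j (hf u ε q I w) = fun y => inner ℝ (w - Sm ε I (gX u y - q))
      (DX (fn u) y (EuclideanSpace.single j 1)) := by
    funext y
    unfold pd
    rw [(hasFDerivAt_hf u ε q I w y).fderiv]
    rfl
  change pd i (pd j (hf u ε q I w)) y = _
  rw [h1]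
  unfold pd
  set e := WithLp.prodContinuousLinearEquiv 2 ℝ ℝ (E n) with he
  have hX := hasFDerivAt_gX u y
  have h2 : HasFDerivAt (fun y => w - Sm ε I (gX u y - q)) (-((Sm ε I).comp (DXL (fn u) y))) y :=
    ((Sm ε I).hasFDerivAt.comp y (hX.sub_const q)).const_sub w
  have h3 : HasFDerivAt (fun y => DX (fn u) y (EuclideanSpace.single j 1))
      ((e.symm : (ℝ × E n) →L[ℝ] F n).comp
        ((fderiv ℝ (fn (DD j u)) y).prod (0 : E n →L[ℝ] E n))) y := by
    have h4 : HasFDerivAt (fun y : E n => (fn (DD j u) y, (EuclideanSpace.single j (1 : ℝ) : E n)))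
        ((fderiv ℝ (fn (DD j u)) y).prod (0 : E n →L[ℝ] E n)) y :=
      (fn_diff _ y).hasFDerivAt.prodMk (hasFDerivAt_const _ y)
    have h5 : HasFDerivAt (fun x => e.symm x) (e.symm : (ℝ × E n) →L[ℝ] F n)
      ((fun y : E n => (fn (DD j u) y, (EuclideanSpace.single j (1 : ℝ) : E n))) y) :=
      e.symm.hasFDerivAt
    exact h5.comp y h4
  have h6 := h2.inner ℝ h3
  rw [h6.fderiv]
  have h7 : w - Sm ε I (gX u y - q) = l • Nv (fn u) y := by
    rw [← hl]
    change l • Nv (fn u) y + Sm ε I (gX u y - q) - Sm ε I (gX u y - q) = _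
    abel
  simp only [ContinuousLinearMap.comp_apply, fderivInnerCLM_apply, ContinuousLinearMap.prod_apply,
    _root_.neg_apply]
  rw [h7]
  have h8 : inner ℝ (l • Nv (fn u) y) ((e.symm : (ℝ × E n) →L[ℝ] F n)
      ((fderiv ℝ (fn (DD j u)) y) (EuclideanSpace.single i 1), (0 : E n →L[ℝ] E n)
        (EuclideanSpace.single i 1))) = l * (wf (fn u) y * Hs (fn u) y i j) := by
    rw [real_inner_smul_left, inner_F]
    change l * (wf (fn u) y * (fderiv ℝ (fn (DD j u)) y) (EuclideanSpace.single i 1) +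
      inner ℝ (-Hv (fn u) y) (0 : E n)) = _
    rw [inner_zero_right, add_zero]
    rfl
  rw [h8, inner_neg_left, real_inner_comm, inner_Sm, KM, Matrix.sub_apply, Matrix.smul_apply,
    Matrix.smul_apply, Matrix.sum_apply, smul_eq_mul, smul_eq_mul, ← sub_eq_add_neg]
  congr 1
  refine Finset.sum_congr rfl fun k _ => ?_
  rw [vecMulVec_apply, mul_comm]
  rfl

end Pool.Agent.H422IV
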