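import Mathlib
import Pool.Agent.H422IV.Tube3
import Pool.Agent.H422IV.Gauss

/-!
# Bounds for the intrinsic volumes of uniformly Lipschitz hypersurfaces
-/

set_option autoImplicit false
set_option linter.unusedSectionVars false
set_option linter.unusedVariables false

open MeasureTheory Metric Set Filter Topology Matrix
open scoped ENNReal NNReal ContDiff

namespace Pool.Agent.H422IV

variable {n : ℕ}

lemma omega_pos (j : ℕ) : 0 < omega j := by
  unfold omega
  exact ENNReal.toReal_pos (measure_ball_pos volume (0 : E j) one_pos).ne' measure_ball_lt_top.ne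

/-- the intrinsic volumes are determined by the tube formula -/
lemma TubeFormula.unique {M : Set (E (n + 1))} {V V' : ℕ → ℝ} (h : TubeFormula M V)
    (h' : TubeFormula M V') (i : ℕ) (hi : i ≤ n) : V i = V' i := by
  obtain ⟨ε₀, hε₀, h1⟩ := h
  obtain ⟨ε₁, hε₁, h2⟩ := h'
  set P : Polynomial ℝ := ∑ i ∈ Finset.range (n + 1),
    Polynomial.C (omega (n + 1 - i) * (V i - V' i)) * Polynomial.X ^ (n + 1 - i) with hP
  have hroot : ∀ ε ∈ Ioo (0 : ℝ) (min ε₀ ε₁), P.IsRoot ε := by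
    intro ε hε
    rw [Polynomial.IsRoot.def, hP, Polynomial.eval_finsetSum]
    have e1 := h1 ε hε.1 (hε.2.trans_le (min_le_left _ _))
    have e2 := h2 ε hε.1 (hε.2.trans_le (min_le_right _ _))
    have e3 : ∑ i ∈ Finset.range (n + 1), omega (n + 1 - i) * ε ^ (n + 1 - i) * V i -
        ∑ i ∈ Finset.range (n + 1), omega (n + 1 - i) * ε ^ (n + 1 - i) * V' i = 0 := by
      rw [← e1, ← e2, sub_self]
    rw [← Finset.sum_sub_distrib] at e3
    rw [← e3]
    refine Finset.sum_congr rfl fun j _ => ?_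
    simp only [Polynomial.eval_mul, Polynomial.eval_C, Polynomial.eval_pow, Polynomial.eval_X]
    ring
  have hP0 : P = 0 := by
    apply Polynomial.eq_zero_of_infinite_isRoot
    exact (Ioo_infinite (lt_min hε₀ hε₁)).mono hroot
  have hc := congrArg (fun p => Polynomial.coeff p (n + 1 - i)) hP0
  simp only [hP, Polynomial.finsetSum_coeff, Polynomial.coeff_C_mul, Polynomial.coeff_X_pow,
    Polynomial.coeff_zero] at hc
  rw [Finset.sum_eq_single i] at hc
  · rw [if_pos rfl, mul_one] at hc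
    rcases mul_eq_zero.mp hc with h | h
    · exact absurd h (omega_pos _).ne'
    · linarith
  · intro j hj hji
    rw [Finset.mem_range] at hj
    rw [if_neg, mul_zero]
    omega
  · intro hcon
    exact absurd (Finset.mem_range.mpr (by omega)) hcon

/-- entries of the matrix `P` -/
lemma Pm_le (u : E n → ℝ) (y : E n) (i k : Fin n) : |Pm u y i k| ≤ 2 := by
  have hw0 := wf_pos u y
  have hw1 := wf_le_one u y
  have hw := wf_sq u y
  set S := ∑ i, Gr u y i ^ 2 with hS
  have hi : Gr u y i ^ 2 ≤ S :=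
    Finset.single_le_sum (f := fun i => Gr u y i ^ 2) (fun j _ => sq_nonneg _) (Finset.mem_univ i)
  have hk : Gr u y k ^ 2 ≤ S :=
    Finset.single_le_sum (f := fun i => Gr u y i ^ 2) (fun j _ => sq_nonneg _) (Finset.mem_univ k)
  have h1 : |wf u y ^ 2 * (Gr u y i * Gr u y k)| ≤ 1 := by
    rw [abs_mul, abs_of_pos (by positivity : 0 < wf u y ^ 2)]
    have h2 : |Gr u y i * Gr u y k| ≤ S := by
      rw [abs_le]
      constructor <;> nlinarith [sq_nonneg (Gr u y i + Gr u y k), sq_nonneg (Gr u y i - Gr u y k)]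
    calc wf u y ^ 2 * |Gr u y i * Gr u y k| ≤ wf u y ^ 2 * (1 + S) :=
          mul_le_mul_of_nonneg_left (by linarith) (by positivity)
      _ = 1 := hw
  have h3 : |(1 : Matrix (Fin n) (Fin n) ℝ) i k| ≤ 1 := by
    rw [Matrix.one_apply]
    split_ifs <;> simp
  rw [Pm, of_apply, abs_mul, abs_of_pos hw0]
  calc wf u y * |(1 : Matrix (Fin n) (Fin n) ℝ) i k - wf u y ^ 2 * (Gr u y i * Gr u y k)|
      ≤ 1 * (1 + 1) := by
        apply mul_le_mul hw1 _ (abs_nonneg _) zero_le_one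
        exact (abs_sub _ _).trans (add_le_add h3 h1)
    _ = 2 := by norm_num

/-- an analytic local estimate for the densities of the tube formula -/
lemma chart_estimate (n : ℕ) (κ r Λ : ℝ) (hr : 0 < r) (hΛ : 0 ≤ Λ) (m : ℕ) (hm : Even m) :
    ∃ C : ℝ, 0 ≤ C ∧ ∀ v : SR n, (∀ y ∈ ball (0 : E n) (r / 2), ‖fderiv ℝ (fn v) y‖ ≤ Λ) →
      (∀ y ∈ ball (0 : E n) (r / 2), SecGE (graphMetric (fn v)) κ y) →
      ∀ A : Set (E n), A ⊆ closedBall 0 (r / 4) →
      |∫ y in A, (wf (fn v) y)⁻¹ * sig (Jm (fn v) y) m| ≤ C := by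
  obtain ⟨k, hk⟩ := hm
  have hmk : m = 2 * k := by rw [hk]; ring
  set δ := |κ| * (1 + 2 * Λ ^ 2) * (1 + n * Λ ^ 2) with hδ
  have hδ0 : 0 ≤ δ := by positivity
  obtain ⟨C, hC⟩ := local_estimate n Λ δ (r / 2) (r / 4) hΛ hδ0 (by positivity) (by linarith) k
  set B := (1 + n * Λ ^ 2) * ((n.factorial : ℝ) * ((n : ℝ) ^ 2 * 2) ^ m * 2 ^ n) with hB
  have hB0 : 0 ≤ B := by positivity
  refine ⟨B * |C|, by positivity, fun v hG hS A hA => ?_⟩
  have hGi : ∀ y ∈ ball (0 : E n) (r / 2), ∀ i, |Gr (fn v) y i| ≤ Λ := by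
    intro y hy i
    unfold Gr pd
    rw [← Real.norm_eq_abs]
    refine (ContinuousLinearMap.le_opNorm _ _).trans ?_
    rw [PiLp.norm_single, norm_one, mul_one]
    exact hG y hy
  obtain ⟨hint, hle⟩ := hC (fn v) (fn_smooth v).contDiffOn hGi
    (fun y hy => (hS y hy).pairLB hΛ (hG y hy))
  rw [← hmk] at hint hle
  have hball : closedBall (0 : E n) (r / 4) ⊆ ball (0 : E n) (r / 2) :=
    closedBall_subset_ball (by linarith)
  have hpt : ∀ y ∈ closedBall (0 : E n) (r / 4), ‖(wf (fn v) y)⁻¹ * sig (Jm (fn v) y) m‖ ≤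
      B * Nf (Hs (fn v) y) m := by
    intro y hy
    have hw0 := wf_pos (fn v) y
    have hw1 := wf_le_one (fn v) y
    have hw := wf_sq (fn v) y
    set S := ∑ i, Gr (fn v) y i ^ 2 with hSdef
    have hSle : S ≤ n * Λ ^ 2 := by
      have h1 : ∀ i ∈ Finset.univ, Gr (fn v) y i ^ 2 ≤ Λ ^ 2 := by
        intro i _
        have := hGi y (hball hy) i
        exact sq_le_sq' (by linarith [(abs_le.mp this).1]) (abs_le.mp this).2
      refine (Finset.sum_le_sum h1).trans (le_of_eq (by simp))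
    have hS0 : 0 ≤ S := by positivity
    have hinv : (wf (fn v) y)⁻¹ ≤ 1 + n * Λ ^ 2 := by
      rw [inv_le_iff_one_le_mul₀ hw0]
      have h2 : wf (fn v) y ^ 2 * (1 + S) ≤ wf (fn v) y * (1 + n * Λ ^ 2) := by
        have h3 : wf (fn v) y ^ 2 ≤ wf (fn v) y := by
          rw [sq]
          exact mul_le_of_le_one_left hw0.le hw1
        exact mul_le_mul h3 (by linarith) (by linarith) hw0.le
      rw [hw] at h2
      linarith [mul_comm (wf (fn v) y) (1 + n * Λ ^ 2)]
    have hsig := sig_mul_le (Pm (fn v) y) (Hs (fn v) y) (Hs_symm v y) 2 (by norm_num)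
      (Pm_le (fn v) y) m
    rw [norm_mul, Real.norm_eq_abs, Real.norm_eq_abs, abs_of_pos (inv_pos.mpr hw0), hB, mul_assoc]
    exact mul_le_mul hinv hsig (abs_nonneg _) (by positivity)
  have hintA : IntegrableOn (fun y => B * Nf (Hs (fn v) y) m) (closedBall (0 : E n) (r / 4)) :=
    hint.const_mul B
  have hnn : ∀ y, 0 ≤ B * Nf (Hs (fn v) y) m := fun y => mul_nonneg hB0 (Nf_nonneg _ _)
  rw [← Real.norm_eq_abs]
  have hfc : Continuous fun y => (wf (fn v) y)⁻¹ * sig (Jm (fn v) y) m :=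
    (continuous_wf_inv v).mul (continuous_sigJ v m)
  calc ‖∫ y in A, (wf (fn v) y)⁻¹ * sig (Jm (fn v) y) m‖
      ≤ ∫ y in A, ‖(wf (fn v) y)⁻¹ * sig (Jm (fn v) y) m‖ := norm_integral_le_integral_norm _
    _ ≤ ∫ y in closedBall (0 : E n) (r / 4), ‖(wf (fn v) y)⁻¹ * sig (Jm (fn v) y) m‖ := by
        refine setIntegral_mono_set ?_ (ae_of_all _ fun y => norm_nonneg _) hA.eventuallyLE
        exact hfc.norm.continuousOn.integrableOn_compact (isCompact_closedBall _ _)
    _ ≤ ∫ y in closedBall (0 : E n) (r / 4), B * Nf (Hs (fn v) y) m := by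
        refine setIntegral_mono_on ?_ hintA measurableSet_closedBall hpt
        exact hfc.norm.continuousOn.integrableOn_compact (isCompact_closedBall _ _)
    _ = B * ∫ y in closedBall (0 : E n) (r / 4), Nf (Hs (fn v) y) m := integral_const_mul _ _
    _ ≤ B * |C| := mul_le_mul_of_nonneg_left (hle.trans (le_abs_self C)) hB0

/-- the data of a chart, after extension of the function to the whole space -/
lemma exists_LC {M : Set (E (n + 1))} {r Λ κ : ℝ} {p : E (n + 1)} (hr : 0 < r) (hΛ : 0 ≤ Λ)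
    (hp : p ∈ M) {Q : Frame n} {u : E n → ℝ} (hc : GraphChart M r Λ p Q u)
    (hs' : ∀ y : E n, ‖y‖ < r → SecGE (graphMetric u) κ y) :
    ∃ v : SR n, LC {z | rt Q p z ∈ M} v (r / 4) ((Λ + 1) * r) ∧
      (∀ y ∈ ball (0 : E n) (r / 2), ‖fderiv ℝ (fn v) y‖ ≤ Λ) ∧
      (∀ y ∈ ball (0 : E n) (r / 2), SecGE (graphMetric (fn v)) κ y) ∧
      (∀ q ∈ M, dist q p < r / 4 → ∃ y ∈ closedBall (0 : E n) (r / 4), tr Q p q = gX v y) := by
  have hs : ∀ y ∈ ball (0 : E n) r, SecGE (graphMetric u) κ y := fun y hy =>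
    hs' y (by simpa using hy)
  have hclip : ∀ y ∈ ball (0 : E n) r, ‖fderiv ℝ u y‖ ≤ Λ := fun y hy =>
    hc.lip y (by simpa using hy)
  have hcgraph : ∀ x : E (n + 1), ‖(Q (x - p)).snd‖ < r → |(Q (x - p)).fst| < (Λ + 1) * r →
    (x ∈ M ↔ (Q (x - p)).fst = u (Q (x - p)).snd) := hc.graph
  obtain ⟨v, hv⟩ := exists_extension r (3 * r / 4) (by positivity) (by linarith) u hc.smooth
  have hv' : ∀ y ∈ ball (0 : E n) (r / 2), fn v y = u y := fun y hy =>
    hv y ((ball_subset_closedBall).trans (closedBall_subset_closedBall (by linarith)) hy)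
  have hev : ∀ y ∈ ball (0 : E n) (r / 2), fn v =ᶠ[𝓝 y] u := by
    intro y hy
    filter_upwards [isOpen_ball.mem_nhds hy] with z hz
    exact hv' z hz
  have hsub : ball (0 : E n) (r / 2) ⊆ ball (0 : E n) r := ball_subset_ball (by linarith)
  have hfd : ∀ y ∈ ball (0 : E n) (r / 2), ‖fderiv ℝ (fn v) y‖ ≤ Λ := by
    intro y hy
    rw [(hev y hy).fderiv_eq]
    exact hclip y (hsub hy)
  have h0 : u 0 = 0 := by
    have h1 := (hcgraph p (by simpa using hr) (by simp; positivity)).mp hp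
    simpa using h1.symm
  have hv0 : fn v 0 = 0 := by
    rw [hv' 0 (mem_ball_self (by positivity)), h0]
  have hlip : ∀ y ∈ ball (0 : E n) (r / 2), |fn v y| ≤ Λ * ‖y‖ := by
    intro y hy
    have h1 := (convex_ball (0 : E n) (r / 2)).norm_image_sub_le_of_norm_fderiv_le (𝕜 := ℝ)
      (f := fn v) (fun x _ => fn_diff v x) hfd (mem_ball_self (by positivity)) hy
    rw [hv0, sub_zero, sub_zero, Real.norm_eq_abs] at h1
    exact h1
  have hLC : LC {z | rt Q p z ∈ M} v (r / 4) ((Λ + 1) * r) := by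
    refine ⟨fun z hz1 hz2 => ?_, fun y hy => ?_, fun y hy => ?_⟩
    · have hzb : z.snd ∈ ball (0 : E n) (r / 2) := by
        rw [mem_ball_zero_iff]
        linarith
      have htr : Q (rt Q p z - p) = z := tr_rt Q p z
      have h1 := hcgraph (rt Q p z) (by rw [htr]; linarith) (by rw [htr]; exact hz2)
      rw [htr] at h1
      rw [hv' _ hzb]
      exact h1
    · have hyb : y ∈ ball (0 : E n) (r / 2) := by
        rw [mem_ball_zero_iff]
        linarith
      have h1 := hlip y hyb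
      have h2 : Λ * ‖y‖ ≤ Λ * (r / 4) := mul_le_mul_of_nonneg_left hy hΛ
      nlinarith
    · have hyb : y ∈ ball (0 : E n) (r / 2) := by
        rw [mem_ball_zero_iff]
        linarith
      have h1 := hlip y hyb
      have h2 : Λ * ‖y‖ ≤ Λ * (r / 2) := mul_le_mul_of_nonneg_left (by linarith) hΛ
      nlinarith
  refine ⟨v, hLC, hfd, fun y hy => ?_, fun q hq hd => ?_⟩
  · refine SecGE.congr ?_ (hs y (hsub hy))
    filter_upwards [(hev y hy).eventuallyEq_nhds] with z hz
    have h1 : Gr (fn v) z = Gr u z := Gr_congr hz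
    ext i j
    have h2 : pd i (fn v) z = pd i u z := congrFun h1 i
    have h3 : pd j (fn v) z = pd j u z := congrFun h1 j
    unfold graphMetric
    rw [of_apply, of_apply, h2, h3]
  · set z := tr Q p q with hz
    have hzn : ‖z‖ < r / 4 := by
      have h1 : ‖tr Q p q - tr Q p p‖ = dist q p := dist_tr Q p q p
      have h2 : tr Q p p = 0 := by simp [tr]
      rw [h2, sub_zero] at h1
      rw [hz, h1]
      exact hd
    have hz1 : ‖z.snd‖ < r / 4 := (WithLp.norm_snd_le (p := 2) (x := z)).trans_lt hzn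
    have hz2 : |z.fst| < r / 4 := (WithLp.norm_fst_le (p := 2) (x := z)).trans_lt hzn
    refine ⟨z.snd, by rw [mem_closedBall_zero_iff]; exact hz1.le, ?_⟩
    have h3 := (hLC.graph z (by linarith) (by nlinarith)).mp (by
      rw [mem_ofPred_eq, hz, rt_tr]
      exact hq)
    have h4 : z = WithLp.toLp 2 (z.fst, z.snd) := rfl
    rw [h4, h3]
    rfl

/-- **Theorem.** Uniform bounds for the intrinsic volumes of Lipschitz hypersurfaces. -/
theorem lipschitz_bound (n : ℕ) (D κ r Λ : ℝ) (hr : 0 < r) (hΛ : 0 ≤ Λ) :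
    ∃ C : ℝ, ∀ M : Set (E (n + 1)), LipHypersurface D κ r Λ M →
      (∃ V : ℕ → ℝ, TubeFormula M V) ∧
      ∀ V : ℕ → ℝ, TubeFormula M V → ∀ i ≤ n, |V i| ≤ C := by
  classical
  -- constants
  have hch : ∀ m : ℕ, ∃ C : ℝ, 0 ≤ C ∧ (Even m → ∀ v : SR n,
      (∀ y ∈ ball (0 : E n) (r / 2), ‖fderiv ℝ (fn v) y‖ ≤ Λ) →
      (∀ y ∈ ball (0 : E n) (r / 2), SecGE (graphMetric (fn v)) κ y) →
      ∀ A : Set (E n), A ⊆ closedBall 0 (r / 4) →
      |∫ y in A, (wf (fn v) y)⁻¹ * sig (Jm (fn v) y) m| ≤ C) := by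
    intro m
    by_cases hm : Even m
    · obtain ⟨C, hC0, hC⟩ := chart_estimate n κ r Λ hr hΛ m hm
      exact ⟨C, hC0, fun _ => hC⟩
    · exact ⟨0, le_refl _, fun h => absurd h hm⟩
  choose Cm hCm0 hCm using hch
  -- a finite net of the ball of radius `D`
  obtain ⟨t, -, htfin, htcov⟩ := (isCompact_closedBall (0 : E (n + 1)) D).finite_cover_balls
    (e := r / 8) (by positivity)
  set T := htfin.toFinset with hT
  set N := T.card with hN
  set c : Fin N → E (n + 1) := fun i => (T.equivFin.symm i : E (n + 1)) with hc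
  have hcov : ∀ x ∈ closedBall (0 : E (n + 1)) D, ∃ i, dist x (c i) < r / 8 := by
    intro x hx
    have h1 := htcov hx
    rw [mem_iUnion₂] at h1
    obtain ⟨a, ha, hxa⟩ := h1
    have haT : a ∈ T := htfin.mem_toFinset.mpr ha
    refine ⟨T.equivFin ⟨a, haT⟩, ?_⟩
    rw [hc]
    simp only [Equiv.symm_apply_apply]
    exact hxa
  set C₀ := ∑ m ∈ Finset.range (n + 1), 2 / (((m : ℝ) + 1) * omega (m + 1)) * (N * Cm m) with hC₀
  have hom : ∀ m : ℕ, 0 < ((m : ℝ) + 1) * omega (m + 1) := fun m =>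
    mul_pos (by positivity) (omega_pos _)
  have hterm : ∀ m : ℕ, 0 ≤ 2 / (((m : ℝ) + 1) * omega (m + 1)) * (N * Cm m) := fun m =>
    mul_nonneg (div_nonneg (by norm_num) (hom m).le) (mul_nonneg (Nat.cast_nonneg _) (hCm0 m))
  refine ⟨C₀, fun M hM => ?_⟩
  suffices hsuff : ∃ V : ℕ → ℝ, TubeFormula M V ∧ ∀ i ≤ n, |V i| ≤ C₀ by
    obtain ⟨V, hV, hVC⟩ := hsuff
    refine ⟨⟨V, hV⟩, fun V' hV' i hi => ?_⟩
    rw [hV'.unique hV i hi]
    exact hVC i hi
  rcases M.eq_empty_or_nonempty with hMe | ⟨p₀, hp₀⟩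
  · refine ⟨fun _ => 0, ⟨1, one_pos, fun ε _ _ => ?_⟩, fun i _ => ?_⟩
    · rw [hMe, thickening_empty]
      simp
    · rw [abs_zero]
      exact Finset.sum_nonneg fun m _ => hterm m
  -- centres of charts
  have hpex : ∀ i : Fin N, ∃ p ∈ M, ∀ q ∈ M, dist (q - p₀) (c i) < r / 8 → dist q p < r / 4 := by
    intro i
    by_cases hex : ∃ p ∈ M, dist (p - p₀) (c i) < r / 8
    · obtain ⟨p, hp, hpd⟩ := hex
      refine ⟨p, hp, fun q hq hqd => ?_⟩
      have h1 : dist q p = dist (q - p₀) (p - p₀) := by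
        rw [dist_eq_norm, dist_eq_norm]
        congr 1
        abel
      rw [h1]
      calc dist (q - p₀) (p - p₀) ≤ dist (q - p₀) (c i) + dist (c i) (p - p₀) := dist_triangle _ _ _
        _ < r / 8 + r / 8 := add_lt_add hqd (by rw [dist_comm]; exact hpd)
        _ = r / 4 := by ring
    · push Not at hex
      exact ⟨p₀, hp₀, fun q hq hqd => absurd hqd (not_lt.mpr (hex q hq))⟩
  choose p hpM hpd using hpex
  choose Q u hQu hsec using fun i => hM.chart (p i) (hpM i)
  choose v hLC hfd hsecv hcovv using fun i => exists_LC hr hΛ (hpM i) (hQu i) (hsec i)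
  obtain ⟨ε₁, hε₁, A, hAm, hAρ, hvol⟩ := tube_volume M hM.compact Q p v (r / 4) ((Λ + 1) * r)
    (by positivity) hLC (by
      intro q hq
      obtain ⟨i, hi⟩ := hcov (q - p₀) (by
        rw [mem_closedBall_zero_iff, ← dist_eq_norm]
        exact hM.diam q hq p₀ hp₀)
      exact ⟨i, hcovv i q hq (hpd i q hq hi)⟩)
  set a : ℕ → ℝ := fun m => ∑ i, ∫ y in A i, (wf (fn (v i)) y)⁻¹ * sig (Jm (fn (v i)) y) m with ha
  have habound : ∀ m, Even m → |a m| ≤ N * Cm m := by
    intro m hm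
    refine (Finset.abs_sum_le_sum_abs _ _).trans ?_
    refine (Finset.sum_le_sum fun i _ => hCm m hm (v i) (hfd i) (hsecv i) (A i) (hAρ i)).trans ?_
    simp
  set V : ℕ → ℝ := fun i => if Even (n - i) then
    2 / ((((n - i : ℕ) : ℝ) + 1) * omega (n - i + 1)) * a (n - i) else 0 with hV
  refine ⟨V, ⟨ε₁, hε₁, fun ε hε hεε₁ => ?_⟩, fun i hi => ?_⟩
  · rw [hvol ε hε hεε₁, Finset.sum_comm]
    have h1 : ∀ m, ∑ i, cm m ε * ∫ y in A i, (wf (fn (v i)) y)⁻¹ * sig (Jm (fn (v i)) y) m =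
        cm m ε * a m := fun m => (Finset.mul_sum _ _ _).symm
    simp only [h1]
    rw [← Finset.sum_range_reflect]
    refine Finset.sum_congr rfl fun i hi => ?_
    rw [Finset.mem_range] at hi
    have h2 : n + 1 - 1 - i = n - i := by omega
    have h3 : n + 1 - i = n - i + 1 := by omega
    rw [h2, h3, cm_eq _ _ hε, hV]
    simp only
    have hne := (omega_pos (n - i + 1)).ne'
    split_ifs
    · have h4 : (((n - i : ℕ) : ℝ) + 1) ≠ 0 := by positivity
      field_simp
    · ring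
  · rw [hV]
    simp only
    split_ifs with hev
    · rw [abs_mul, abs_of_nonneg (div_nonneg (by norm_num) (hom _).le)]
      refine (mul_le_mul_of_nonneg_left (habound _ hev)
        (div_nonneg (by norm_num) (hom _).le)).trans ?_
      exact Finset.single_le_sum
        (f := fun m : ℕ => 2 / (((m : ℝ) + 1) * omega (m + 1)) * (N * Cm m))
        (fun m _ => hterm m) (Finset.mem_range.mpr (by omega : n - i < n + 1))
    · rw [abs_zero]
      exact Finset.sum_nonneg fun m _ => hterm m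

end Pool.Agent.H422IV
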