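import Mathlib
import Pool.Agent.H422IV.Gmap
import Pool.Agent.H422IV.LipFinal

/-!
# Finite atlases of compact hypersurfaces
-/

set_option autoImplicit false
set_option linter.unusedSectionVars false

open MeasureTheory Metric Set Filter Topology Matrix
open scoped ENNReal NNReal ContDiff

namespace Pool.Agent.H422IV

variable {n : ℕ}

/-- `M` is a compact connected smooth hypersurface of `ℝ^{n+1}` all of whose sectional
curvatures are at least `κ`: every point `p` of `M` has a neighbourhood in which `M` is the graph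
of a smooth function `u` over a ball, the radius `r` of the ball and the bound `Λ` for the
gradient of `u` being allowed to depend on `p`. -/
structure ClosedHypersurface (κ : ℝ) (M : Set (E (n + 1))) : Prop where
  compact : IsCompact M
  connected : IsConnected M
  chart : ∀ p ∈ M, ∃ r Λ : ℝ, 0 < r ∧ 0 ≤ Λ ∧ ∃ (Q : Frame n) (u : E n → ℝ),
    GraphChart M r Λ p Q u ∧ ∀ y : E n, ‖y‖ < r → SecGE (graphMetric u) κ y

/-- a finite atlas of graph charts of a compact set -/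
structure Atl (M : Set (E (n + 1))) (κ : ℝ) (N : ℕ) where
  /-- frames -/
  Q : Fin N → Frame n
  /-- base points -/
  p : Fin N → E (n + 1)
  /-- functions -/
  u : Fin N → SR n
  /-- radii -/
  ρ : Fin N → ℝ
  /-- heights -/
  h : Fin N → ℝ
  hM : IsCompact M
  hc : IsConnected M
  hρ : ∀ i, 0 < ρ i
  hL : ∀ i, LC {z | rt (Q i) (p i) z ∈ M} (u i) (ρ i) (h i)
  hcov : ∀ q ∈ M, ∃ i, ∃ y ∈ ball (0 : E n) (ρ i), tr (Q i) (p i) q = gX (u i) y
  hsec : ∀ i, ∀ y ∈ closedBall (0 : E n) (ρ i), SecGE (graphMetric (fn (u i))) κ y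

/-- every compact hypersurface has a finite atlas -/
lemma exists_atl {κ : ℝ} {M : Set (E (n + 1))} (hM : ClosedHypersurface κ M) :
    ∃ N, Nonempty (Atl M κ N) := by
  classical
  obtain ⟨p₀, hp₀⟩ := hM.connected.nonempty
  obtain ⟨_, _, _, _, Q₀, _⟩ := hM.chart p₀ hp₀
  have : Nonempty (Frame n) := ⟨Q₀⟩
  choose! r Λ hr hΛ Q u hQu hsec using hM.chart
  choose! v hLC hfd hsecv hcovv using fun p (hp : p ∈ M) =>
    exists_LC (hr p hp) (hΛ p hp) hp (hQu p hp) (hsec p hp)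
  obtain ⟨t, htcov⟩ := hM.compact.elim_nhds_subcover' (fun p _ => ball p (r p / 4))
    (fun p hp => ball_mem_nhds p (by have := hr p hp; positivity))
  set T : Finset (E (n + 1)) := t.image Subtype.val with hT
  set e := T.equivFin with he
  have hTM : ∀ x : {x // x ∈ T}, (x : E (n + 1)) ∈ M := by
    rintro ⟨x, hx⟩
    rw [hT, Finset.mem_image] at hx
    obtain ⟨y, _, rfl⟩ := hx
    exact y.2
  set c : Fin T.card → E (n + 1) := fun i => (e.symm i : E (n + 1)) with hc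
  have hcM : ∀ i, c i ∈ M := fun i => hTM (e.symm i)
  refine ⟨T.card, ⟨⟨fun i => Q (c i), c, fun i => v (c i), fun i => r (c i) / 4,
    fun i => (Λ (c i) + 1) * r (c i), hM.compact, hM.connected, fun i => ?_,
    fun i => hLC _ (hcM i), fun q hq => ?_, fun i y hy => ?_⟩⟩⟩
  · have := hr _ (hcM i)
    positivity
  · have h1 := htcov hq
    rw [mem_iUnion₂] at h1
    obtain ⟨x, hx, hqx⟩ := h1
    have hxT : (x : E (n + 1)) ∈ T := by
      rw [hT, Finset.mem_image]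
      exact ⟨x, hx, rfl⟩
    have hcx : c (e ⟨x, hxT⟩) = x := by
      rw [hc]
      simp only [Equiv.symm_apply_apply]
    refine ⟨e ⟨x, hxT⟩, ?_⟩
    simp only [hcx]
    have hqx' : dist q x < r x / 4 := hqx
    obtain ⟨y, _, hyq⟩ := hcovv x x.2 q hq hqx'
    refine ⟨y, ?_, hyq⟩
    rw [mem_ball_zero_iff]
    have h2 : y = (tr (Q x) x q).snd := by rw [hyq]; rfl
    have h3 : ‖tr (Q x) x q‖ = dist q x := by
      have h4 := dist_tr (Q x) (x : E (n + 1)) q x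
      have h5 : tr (Q x) (x : E (n + 1)) x = 0 := by simp [tr]
      rw [h5, sub_zero] at h4
      exact h4
    rw [h2]
    calc _ ≤ ‖tr (Q x) x q‖ := WithLp.norm_snd_le (p := 2) (x := tr (Q x) x q)
      _ < r x / 4 := by rw [h3]; exact hqx'
  · apply hsecv _ (hcM i)
    rw [mem_closedBall_zero_iff] at hy
    rw [mem_ball_zero_iff]
    have := hr _ (hcM i)
    linarith

namespace Atl

variable {M : Set (E (n + 1))} {κ : ℝ} {N : ℕ} (𝒜 : Atl M κ N)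

/-- the point of `M` with parameter `y` in the `i`-th chart -/
noncomputable def X (i : Fin N) (y : E n) : E (n + 1) := rt (𝒜.Q i) (𝒜.p i) (gX (𝒜.u i) y)

lemma tr_X (i : Fin N) (y : E n) : tr (𝒜.Q i) (𝒜.p i) (𝒜.X i y) = gX (𝒜.u i) y := tr_rt _ _ _

lemma X_mem (i : Fin N) {y : E n} (hy : ‖y‖ < 2 * 𝒜.ρ i) : 𝒜.X i y ∈ M :=
  gX_mem (𝒜.hL i) hy

lemma X_inj (i : Fin N) {y y' : E n} (h : 𝒜.X i y = 𝒜.X i y') : y = y' := by
  have h1 := congrArg (tr (𝒜.Q i) (𝒜.p i)) h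
  rw [tr_X, tr_X] at h1
  exact congrArg (fun z : F n => z.snd) h1

/-- the compact pieces -/
def K (i : Fin N) : Set (E (n + 1)) :=
  (tr (𝒜.Q i) (𝒜.p i)) ⁻¹' (gX (𝒜.u i) '' closedBall 0 (𝒜.ρ i))

/-- the domains of the pieces of a partition of `M` -/
def A (i : Fin N) : Set (E n) := closedBall 0 (𝒜.ρ i) ∩
  ⋂ j : {j : Fin N // j < i}, {y | 𝒜.X i y ∉ 𝒜.K j}

lemma isClosed_K (i : Fin N) : IsClosed (𝒜.K i) :=
  (((isCompact_closedBall (0 : E n) (𝒜.ρ i)).image (continuous_gX (𝒜.u i))).isClosed).preimage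
    (continuous_tr _ _)

lemma measurableSet_A (i : Fin N) : MeasurableSet (𝒜.A i) := by
  refine measurableSet_closedBall.inter (MeasurableSet.iInter fun j => ?_)
  exact (((𝒜.isClosed_K j).preimage ((continuous_rt _ _).comp
    (continuous_gX _))).measurableSet).compl

lemma A_subset (i : Fin N) : 𝒜.A i ⊆ closedBall 0 (𝒜.ρ i) := inter_subset_left

lemma mem_K_iff (i : Fin N) (x : E (n + 1)) :
    x ∈ 𝒜.K i ↔ ∃ y ∈ closedBall (0 : E n) (𝒜.ρ i), 𝒜.X i y = x := by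
  constructor
  · rintro ⟨y, hy, hyx⟩
    refine ⟨y, hy, ?_⟩
    unfold X
    rw [hyx, rt_tr]
  · rintro ⟨y, hy, rfl⟩
    exact ⟨y, hy, (𝒜.tr_X i y).symm⟩

lemma A_K (i : Fin N) {y : E n} (hy : y ∈ 𝒜.A i) : 𝒜.X i y ∈ 𝒜.K i :=
  (𝒜.mem_K_iff i _).mpr ⟨y, 𝒜.A_subset i hy, rfl⟩

lemma A_M (i : Fin N) {y : E n} (hy : y ∈ 𝒜.A i) : 𝒜.X i y ∈ M := by
  have h1 := 𝒜.A_subset i hy
  rw [mem_closedBall_zero_iff] at h1
  have := 𝒜.hρ i
  exact 𝒜.X_mem i (by linarith)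

/-- existence of the representation by the partition -/
lemma exists_A {x : E (n + 1)} (hx : x ∈ M) : ∃ i, ∃ y ∈ 𝒜.A i, 𝒜.X i y = x := by
  have hex : ∃ i, x ∈ 𝒜.K i := by
    obtain ⟨i, y, hy, hqy⟩ := 𝒜.hcov x hx
    exact ⟨i, y, ball_subset_closedBall hy, hqy.symm⟩
  obtain ⟨i, hi, hi2⟩ := WellFounded.has_min (r := fun a b : Fin N => a < b) wellFounded_lt
    {i | x ∈ 𝒜.K i} hex
  obtain ⟨y, hy, hyx⟩ := (𝒜.mem_K_iff i x).mp hi
  refine ⟨i, y, ⟨hy, mem_iInter.mpr fun j => ?_⟩, hyx⟩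
  rw [mem_ofPred_eq, hyx]
  exact fun hxj => hi2 j hxj j.2

/-- uniqueness of the representation by the partition -/
lemma unique_A {i j : Fin N} {y y' : E n} (hy : y ∈ 𝒜.A i) (hy' : y' ∈ 𝒜.A j)
    (h : 𝒜.X i y = 𝒜.X j y') : i = j := by
  have key : ∀ (i j : Fin N) (y y' : E n), y ∈ 𝒜.A i → y' ∈ 𝒜.A j → 𝒜.X i y = 𝒜.X j y' →
      ¬ i < j := by
    intro i j y y' hy hy' h hij
    have h1 := mem_iInter.mp hy'.2 ⟨i, hij⟩
    rw [mem_ofPred_eq, ← h] at h1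
    exact h1 (𝒜.A_K i hy)
  rcases lt_trichotomy i j with hlt | heq | hlt
  · exact absurd hlt (key i j y y' hy hy' h)
  · exact heq
  · exact absurd hlt (key j i y' y hy' hy h.symm)

/-- **Tube formula** for an atlas. -/
theorem tube : ∃ ε₁ : ℝ, 0 < ε₁ ∧ ∀ ε : ℝ, 0 < ε → ε < ε₁ →
    (volume (thickening ε M)).toReal = ∑ i, ∑ m ∈ Finset.range (n + 1),
      cm m ε * ∫ y in 𝒜.A i, (wf (fn (𝒜.u i)) y)⁻¹ * sig (Jm (fn (𝒜.u i)) y) m := by
  classical
  choose ε₀ hε₀ hG₀ using fun i => exists_good (𝒜.u i) (𝒜.ρ i) (𝒜.hρ i)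
  obtain ⟨ε₁, hε₁, hεi⟩ : ∃ ε₁ : ℝ, 0 < ε₁ ∧ ∀ i, ε₁ ≤ ε₀ i := by
    rcases isEmpty_or_nonempty (Fin N) with hN | hN
    · exact ⟨1, one_pos, fun i => isEmptyElim i⟩
    · obtain ⟨i₀, hi₀⟩ := Finite.exists_min ε₀
      exact ⟨ε₀ i₀, hε₀ i₀, hi₀⟩
  have hG : ∀ i, Good (𝒜.u i) (𝒜.ρ i) ε₁ := fun i => (hG₀ i).mono (hεi i)
  refine ⟨ε₁, hε₁, fun ε hε hεε₁ => ?_⟩
  -- the pieces of the tube
  set T : Fin N → Set (E (n + 1)) := fun i =>
    (tr (𝒜.Q i) (𝒜.p i)) ⁻¹' (Psi (fn (𝒜.u i)) '' St (𝒜.A i) ε) with hT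
  have hvol := fun i => volume_Psi_image (𝒜.hρ i) (𝒜.hL i) (hG i) (𝒜.measurableSet_A i)
    (𝒜.A_subset i) hεε₁.le
  have hTm : ∀ i, MeasurableSet (T i) := fun i =>
    (continuous_tr _ _).measurable (hvol i).1
  -- the tube is the union of the pieces
  have hunion : thickening ε M = ⋃ i, T i := by
    ext x
    rw [mem_iUnion]
    constructor
    · intro hx
      obtain ⟨q₀, hq₀, hxq₀⟩ := mem_thickening_iff.mp hx
      obtain ⟨q, hq, hqd⟩ := 𝒜.hM.exists_infDist_eq_dist ⟨q₀, hq₀⟩ x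
      have hxq : dist x q < ε := by
        rw [← hqd]
        exact (infDist_le_dist_of_mem hq₀).trans_lt hxq₀
      have hmin : ∀ q' ∈ M, dist x q ≤ dist x q' := fun q' hq' => by
        rw [← hqd]
        exact infDist_le_dist_of_mem hq'
      obtain ⟨i, y, hyA, hyq⟩ := 𝒜.exists_A hq
      have hyq' : tr (𝒜.Q i) (𝒜.p i) q = gX (𝒜.u i) y := by rw [← hyq, tr_X]
      obtain ⟨t, ht, hxt⟩ := nearest_normal (𝒜.hρ i) (𝒜.hL i) y
        (by simpa using 𝒜.A_subset i hyA) (tr (𝒜.Q i) (𝒜.p i) x) (by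
        intro z' hz'
        rw [← hyq', dist_tr]
        have h1 := hmin _ hz'
        rw [← dist_tr (𝒜.Q i) (𝒜.p i) x (rt (𝒜.Q i) (𝒜.p i) z'), tr_rt] at h1
        exact h1)
      rw [← hyq', dist_tr] at ht
      refine ⟨i, WithLp.toLp 2 (t, y), ⟨?_, hyA⟩, hxt.symm⟩
      rw [mem_Ioo, ← abs_lt]
      change |t| < ε
      rw [ht]
      exact hxq
    · rintro ⟨i, z, hz, hxz⟩
      rw [mem_thickening_iff]
      refine ⟨𝒜.X i z.snd, 𝒜.A_M i hz.2, ?_⟩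
      rw [← dist_tr (𝒜.Q i) (𝒜.p i), tr_X, ← hxz, Psi_sub_gX]
      exact abs_lt_of_Ioo hz.1
  -- the pieces are disjoint
  have hfoot : ∀ i j (z z' : F n) (x : E (n + 1)), z ∈ St (𝒜.A i) ε → z' ∈ St (𝒜.A j) ε →
      Psi (fn (𝒜.u i)) z = tr (𝒜.Q i) (𝒜.p i) x → Psi (fn (𝒜.u j)) z' = tr (𝒜.Q j) (𝒜.p j) x →
      |z'.fst| ≤ |z.fst| → 𝒜.X j z'.snd = 𝒜.X i z.snd := by
    intro i j z z' x hz hz' hxz hxz' hle
    have hzρ : ‖z.snd‖ ≤ 𝒜.ρ i := by
      have := 𝒜.A_subset i hz.2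
      rwa [mem_closedBall_zero_iff] at this
    have h1 := (hG i).1 _ _ (𝒜.hL i) z hzρ ((abs_lt_of_Ioo hz.1).trans hεε₁)
      (tr (𝒜.Q i) (𝒜.p i) (𝒜.X j z'.snd)) (by
        rw [mem_ofPred_eq, rt_tr]
        exact 𝒜.A_M j hz'.2) (by
        rw [hxz, dist_tr, ← dist_tr (𝒜.Q j) (𝒜.p j), tr_X, ← hxz', Psi_sub_gX]
        exact hle)
    unfold X at h1 ⊢
    rw [← h1, rt_tr]
  have hdisj : Pairwise (Function.onFun Disjoint T) := by
    intro i j hij
    rw [Function.onFun, Set.disjoint_left]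
    rintro x ⟨z, hz, hxz⟩ ⟨z', hz', hxz'⟩
    have heq : 𝒜.X j z'.snd = 𝒜.X i z.snd := by
      rcases le_total |z'.fst| |z.fst| with hle | hle
      · exact hfoot i j z z' x hz hz' hxz hxz' hle
      · exact (hfoot j i z' z x hz' hz hxz' hxz hle).symm
    exact hij (𝒜.unique_A hz.2 hz'.2 heq.symm)
  have hTvol : ∀ i, volume (T i) = ENNReal.ofReal (∑ m ∈ Finset.range (n + 1),
      cm m ε * ∫ y in 𝒜.A i, (wf (fn (𝒜.u i)) y)⁻¹ * sig (Jm (fn (𝒜.u i)) y) m) := by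
    intro i
    rw [hT, (measurePreserving_tr _ _).measure_preimage (hvol i).1.nullMeasurableSet, (hvol i).2.2]
  rw [hunion, measure_iUnion hdisj hTm, tsum_fintype, Finset.sum_congr rfl fun i _ => hTvol i,
    ← ENNReal.ofReal_sum_of_nonneg fun i _ => (hvol i).2.1,
    ENNReal.toReal_ofReal (Finset.sum_nonneg fun i _ => (hvol i).2.1)]

end Atl

end Pool.Agent.H422IV
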