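import Mathlib
import Pool.Agent.H422IV.Germ2

/-!
# Germs of superlevel sets, third part
-/

set_option autoImplicit false
set_option linter.unusedSectionVars false

open Set Filter Topology Metric Matrix
open scoped ContDiff

namespace Pool.Agent.H422IV

variable {n : ℕ}

/-- Germs of superlevel sets at nondegenerate critical points. -/
theorem germ_crit {φ : E n → ℝ} (hφ : ContDiff ℝ 2 φ) {y₀ : E n} (hcrit : fderiv ℝ φ y₀ = 0)
    (hsymm : (Hs φ y₀)ᵀ = Hs φ y₀) (hdet : (Hs φ y₀).det ≠ 0) :
    (NegDef (Hs φ y₀) → ∃ W ∈ 𝓝 y₀, ∀ y ∈ W, y ≠ y₀ → φ y < φ y₀) ∧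
    (¬ NegDef (Hs φ y₀) → y₀ ∈ closure {y | φ y₀ < φ y}) ∧
    (Pos2 (Hs φ y₀) → ∀ U ∈ 𝓝 y₀, ∃ W ∈ 𝓝 y₀, W ⊆ U ∧
      IsPreconnected (W ∩ {y | φ y₀ < φ y})) ∧
    (¬ Pos2 (Hs φ y₀) → ∀ U ∈ 𝓝 y₀, ∃ W ∈ 𝓝 y₀, W ⊆ U ∧ ∃ C₁ C₂ : Set (E n),
      IsPreconnected C₁ ∧ IsPreconnected C₂ ∧ W ∩ {y | φ y₀ < φ y} = C₁ ∪ C₂) := by
  classical
  obtain ⟨b, h, hb, hdet'⟩ := exists_eig (Hs φ y₀) hsymm
  have hne : ∀ i, h i ≠ 0 := by
    intro i hi
    apply hdet
    rw [hdet']
    exact Finset.prod_eq_zero (Finset.mem_univ i) hi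
  obtain ⟨η, S⟩ := exists_splitting hφ hcrit b h hb hne
  set p := Finset.univ.filter fun i => 0 < h i with hp
  set q := Finset.univ.filter fun i => ¬ 0 < h i with hq
  obtain ⟨r, hr, hkey⟩ := germ_key hφ S
  obtain ⟨r', hr', hovr⟩ := ovr_preconnected hφ S
  have hnd := negDef_iff b h hb hne
  have hp2 := pos2_iff b h hb
  have hpmem : ∀ i, i ∈ p ↔ 0 < h i := by
    intro i
    rw [hp]
    simp
  refine ⟨fun hN => ?_, fun hN => ?_, fun hP U hU => ?_, fun hP U hU => ?_⟩
  · rw [hnd] at hN
    have hQid : ∀ v, prj b q v = v := by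
      intro v
      apply ext_b b
      intro i
      rw [inner_prj, if_pos]
      rw [hq]
      simpa using hN i
    refine ⟨ball y₀ (r / 2), ball_mem_nhds _ (by positivity), fun y hy hyne => ?_⟩
    have h1 := (hkey (r / 2) (by positivity) (by linarith)).2.1 (y - y₀) (hQid _)
      (sub_ne_zero.mpr hyne) (by rw [← dist_eq_norm]; exact hy)
    rwa [add_sub_cancel] at h1
  · rw [hnd] at hN
    push Not at hN
    obtain ⟨i, hi⟩ := hN
    have hA := (hkey (r / 2) (by positivity) (by linarith)).1
    rw [mem_closure_iff_nhds]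
    intro U hU
    obtain ⟨ε, hε, hεU⟩ := Metric.mem_nhds_iff.mp hU
    set t := min (ε / 2) (r / 4) with ht
    have ht0 : 0 < t := lt_min (by positivity) (by positivity)
    have hbn : ‖b i‖ = 1 := b.orthonormal.1 i
    have htn : ‖t • b i‖ = t := by
      rw [norm_smul, hbn, mul_one, Real.norm_eq_abs, abs_of_pos ht0]
    refine ⟨y₀ + t • b i, hεU ?_, hA (t • b i) ?_ ?_ ?_⟩
    · rw [mem_ball, dist_eq_norm, add_sub_cancel_left, htn]
      exact (min_le_left _ _).trans_lt (by linarith)
    · rw [map_smul, prj_self b p ((hpmem i).mpr hi)]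
    · rw [← norm_pos_iff, htn]
      exact ht0
    · rw [htn]
      exact (min_le_right _ _).trans_lt (by linarith)
  · rw [hp2] at hP
    obtain ⟨i, j, hij, hi, hj⟩ := hP
    obtain ⟨ε, hε, hεU⟩ := Metric.mem_nhds_iff.mp hU
    set s := min (ε / 2) (min (r / 2) (r' / 2)) with hs
    have hs0 : 0 < s := lt_min (by positivity) (lt_min (by positivity) (by positivity))
    have hs1 : s ≤ ε / 2 := min_le_left _ _
    have hs2 : s ≤ r / 2 := (min_le_right _ _).trans (min_le_left _ _)
    have hs3 : s ≤ r' / 2 := (min_le_right _ _).trans (min_le_right _ _)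
    refine ⟨box y₀ (prj b p) (prj b q) s, box_mem_nhds _ _ _ hs0,
      ((box_subset S).trans (ball_subset_ball (by linarith))).trans hεU, ?_⟩
    have h1 := hovr s hs0 (by linarith) (pnc b p s) (fun a ha => ha)
      (pnc_preconnected b p s ((hpmem i).mpr hi) ((hpmem j).mpr hj) hij)
    have h2 : box y₀ (prj b p) (prj b q) s ∩ {y | φ y₀ < φ y} =
        ovr φ y₀ (prj b p) (prj b q) s (pnc b p s) := by
      ext y
      constructor
      · rintro ⟨hy1, hy2⟩
        have h3 := ((hkey s hs0 (by linarith)).2.2 y hy1 hy2).1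
        exact ⟨hy1, hy2, S.PP _, h3, hy1.1⟩
      · rintro ⟨hy1, hy2, -⟩
        exact ⟨hy1, hy2⟩
    rw [h2]
    exact h1
  · rw [hp2] at hP
    push Not at hP
    obtain ⟨ε, hε, hεU⟩ := Metric.mem_nhds_iff.mp hU
    set s := min (ε / 2) (min (r / 2) (r' / 2)) with hs
    have hs0 : 0 < s := lt_min (by positivity) (lt_min (by positivity) (by positivity))
    have hs1 : s ≤ ε / 2 := min_le_left _ _
    have hs2 : s ≤ r / 2 := (min_le_right _ _).trans (min_le_left _ _)
    have hs3 : s ≤ r' / 2 := (min_le_right _ _).trans (min_le_right _ _)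
    -- the two rays
    obtain ⟨Z₁, Z₂, hZ₁, hZ₂, hZ₁c, hZ₂c, hZ⟩ : ∃ Z₁ Z₂ : Set (E n), Z₁ ⊆ pnc b p s ∧
        Z₂ ⊆ pnc b p s ∧ IsPreconnected Z₁ ∧ IsPreconnected Z₂ ∧ pnc b p s ⊆ Z₁ ∪ Z₂ := by
      by_cases hex : ∃ i, 0 < h i
      · obtain ⟨i, hi⟩ := hex
        have hip : i ∈ p := (hpmem i).mpr hi
        have hbn : ‖b i‖ = 1 := b.orthonormal.1 i
        have hone : ∀ a, prj b p a = a → a = inner ℝ (b i) a • b i := by
          intro a ha
          apply ext_b b
          intro k
          rw [inner_smul_right, orthonormal_iff_ite.mp b.orthonormal]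
          by_cases hk : k = i
          · rw [if_pos hk, mul_one, hk]
          · rw [if_neg hk, mul_zero]
            have h1 := inner_prj b p a k
            rw [ha, if_neg] at h1
            · exact h1
            · rw [hpmem]
              exact fun hkp => absurd (hP i k (Ne.symm hk) hi) (not_le.mpr hkp)
        refine ⟨(fun t : ℝ => t • b i) '' Ioo 0 s, (fun t : ℝ => t • b i) '' Ioo (-s) 0, ?_, ?_,
          isPreconnected_Ioo.image _ (continuous_id.smul continuous_const).continuousOn,
          isPreconnected_Ioo.image _ (continuous_id.smul continuous_const).continuousOn, ?_⟩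
        · rintro _ ⟨t, ht, rfl⟩
          refine ⟨?_, ?_, ?_⟩
          · simp only
            rw [map_smul, prj_self b p hip]
          · simp only
            exact smul_ne_zero ht.1.ne' (b.orthonormal.ne_zero i)
          · simp only
            rw [norm_smul, hbn, mul_one, Real.norm_eq_abs, abs_of_pos ht.1]
            exact ht.2
        · rintro _ ⟨t, ht, rfl⟩
          refine ⟨?_, ?_, ?_⟩
          · simp only
            rw [map_smul, prj_self b p hip]
          · simp only
            exact smul_ne_zero ht.2.ne (b.orthonormal.ne_zero i)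
          · simp only
            rw [norm_smul, hbn, mul_one, Real.norm_eq_abs, abs_of_neg ht.2]
            linarith [ht.1]
        · rintro a ⟨ha1, ha2, ha3⟩
          have ha := hone a ha1
          set t := inner ℝ (b i) a with ht
          have ht0 : t ≠ 0 := by
            intro h0
            rw [h0, zero_smul] at ha
            exact ha2 ha
          have htn : |t| < s := by
            rw [ha, norm_smul, hbn, mul_one, Real.norm_eq_abs] at ha3
            exact ha3
          rcases lt_or_gt_of_ne ht0 with h1 | h1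
          · refine Or.inr ⟨t, ⟨?_, h1⟩, ha.symm⟩
            linarith [(abs_lt.mp htn).1]
          · exact Or.inl ⟨t, ⟨h1, (abs_lt.mp htn).2⟩, ha.symm⟩
      · push Not at hex
        refine ⟨∅, ∅, empty_subset _, empty_subset _, isPreconnected_empty, isPreconnected_empty,
          ?_⟩
        rintro a ⟨ha1, ha2, ha3⟩
        exfalso
        apply ha2
        apply ext_b b
        intro k
        rw [inner_zero_right]
        have h1 := inner_prj b p a k
        rw [ha1, if_neg] at h1
        · exact h1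
        · rw [hpmem]
          exact not_lt.mpr (hex k)
    refine ⟨box y₀ (prj b p) (prj b q) s, box_mem_nhds _ _ _ hs0,
      ((box_subset S).trans (ball_subset_ball (by linarith))).trans hεU,
      ovr φ y₀ (prj b p) (prj b q) s Z₁, ovr φ y₀ (prj b p) (prj b q) s Z₂,
      hovr s hs0 (by linarith) Z₁ (fun a ha => hZ₁ ha) hZ₁c,
      hovr s hs0 (by linarith) Z₂ (fun a ha => hZ₂ ha) hZ₂c, ?_⟩
    ext y
    constructor
    · rintro ⟨hy1, hy2⟩
      have h3 := ((hkey s hs0 (by linarith)).2.2 y hy1 hy2).1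
      have h4 : prj b p (y - y₀) ∈ pnc b p s := ⟨S.PP _, h3, hy1.1⟩
      rcases hZ h4 with h5 | h5
      · exact Or.inl ⟨hy1, hy2, h5⟩
      · exact Or.inr ⟨hy1, hy2, h5⟩
    · rintro (⟨hy1, hy2, -⟩ | ⟨hy1, hy2, -⟩)
      · exact ⟨hy1, hy2⟩
      · exact ⟨hy1, hy2⟩

/-- Germs of superlevel sets at regular points. -/
theorem germ_reg {φ : E n → ℝ} (hφ : ContDiff ℝ 2 φ) {y₀ : E n} (hreg : fderiv ℝ φ y₀ ≠ 0) :
    y₀ ∈ closure {y | φ y₀ < φ y} ∧ ∀ U ∈ 𝓝 y₀, ∃ W ∈ 𝓝 y₀, W ⊆ U ∧
      IsPreconnected (W ∩ {y | φ y₀ < φ y}) := by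
  -- a unit vector with positive derivative
  obtain ⟨e, hen, he⟩ : ∃ e : E n, ‖e‖ = 1 ∧ 0 < fderiv ℝ φ y₀ e := by
    obtain ⟨v, hv⟩ : ∃ v, 0 < fderiv ℝ φ y₀ v := by
      by_contra hcon
      push Not at hcon
      apply hreg
      ext v
      have h1 := hcon v
      have h2 := hcon (-v)
      rw [map_neg] at h2
      change fderiv ℝ φ y₀ v = 0
      linarith
    have hv0 : v ≠ 0 := by
      intro h
      rw [h, map_zero] at hv
      exact lt_irrefl _ hv
    have hvn : 0 < ‖v‖ := norm_pos_iff.mpr hv0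
    refine ⟨‖v‖⁻¹ • v, ?_, ?_⟩
    · rw [norm_smul, norm_inv, norm_norm, inv_mul_cancel₀ hvn.ne']
    · rw [map_smul, smul_eq_mul]
      exact mul_pos (inv_pos.mpr hvn) hv
  have hc : Continuous fun y => fderiv ℝ φ y e :=
    ((hφ.continuous_fderiv (by norm_num)).clm_apply continuous_const)
  obtain ⟨r, hr, hpos⟩ : ∃ r : ℝ, 0 < r ∧ ∀ y ∈ ball y₀ r, 0 < fderiv ℝ φ y e := by
    have hm : {y | 0 < fderiv ℝ φ y e} ∈ 𝓝 y₀ := (isOpen_lt continuous_const hc).mem_nhds he
    obtain ⟨r, hr, h1⟩ := Metric.mem_nhds_iff.mp hm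
    exact ⟨r, hr, fun y hy => h1 hy⟩
  -- monotonicity along `e`
  have hmono0 : ∀ (a : E n) (s : ℝ), ‖a‖ < r / 2 → s ≤ r / 2 →
      StrictMonoOn (fun τ : ℝ => φ (y₀ + a + τ • e)) (Ioo (-s) s) := by
    intro a s ha hs
    refine strictMonoOn_of_deriv_pos (convex_Ioo _ _) ?_ ?_
    · intro τ _
      exact (line_deriv hφ (y₀ + a) e τ).continuousAt.continuousWithinAt
    · intro τ hτ
      rw [interior_Ioo] at hτ
      rw [(line_deriv hφ (y₀ + a) e τ).deriv]
      apply hpos
      rw [mem_ball, dist_eq_norm]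
      have e1 : y₀ + a + τ • e - y₀ = a + τ • e := by abel
      rw [e1]
      have h1 : ‖τ • e‖ < s := by
        rw [norm_smul, hen, mul_one, Real.norm_eq_abs, abs_lt]
        exact hτ
      calc ‖a + τ • e‖ ≤ ‖a‖ + ‖τ • e‖ := norm_add_le _ _
        _ < r / 2 + s := add_lt_add ha h1
        _ ≤ r := by linarith
  have hmono : ∀ (a : E n) (s τ τ' : ℝ), ‖a‖ < r / 2 → s ≤ r / 2 → -s < τ → τ < τ' → τ' < s →
      φ (y₀ + a + τ • e) < φ (y₀ + a + τ' • e) := fun a s τ τ' ha hs h1 h2 h3 =>
    hmono0 a s ha hs ⟨h1, by linarith⟩ ⟨by linarith, h3⟩ h2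
  have hr2 : 0 < r / 2 := by positivity
  constructor
  · rw [mem_closure_iff_nhds]
    intro U hU
    obtain ⟨ε, hε, hεU⟩ := Metric.mem_nhds_iff.mp hU
    set t := min (ε / 2) (r / 4) with ht
    have ht0 : 0 < t := lt_min (by positivity) (by positivity)
    have ht1 : t ≤ ε / 2 := min_le_left _ _
    have ht2 : t ≤ r / 4 := min_le_right _ _
    refine ⟨y₀ + t • e, hεU ?_, ?_⟩
    · rw [mem_ball, dist_eq_norm, add_sub_cancel_left, norm_smul, hen, mul_one, Real.norm_eq_abs,
        abs_of_pos ht0]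
      linarith
    · have h1 := hmono 0 (r / 2) 0 t (by rw [norm_zero]; exact hr2) le_rfl (by linarith) ht0
        (by linarith)
      simp only [add_zero, zero_smul] at h1
      exact h1
  · intro U hU
    obtain ⟨ε, hε, hεU⟩ := Metric.mem_nhds_iff.mp hU
    set s := min (ε / 2) (r / 2) with hs
    have hs0 : 0 < s := lt_min (by positivity) (by positivity)
    have hs1 : s ≤ ε / 2 := min_le_left _ _
    have hs2 : s ≤ r / 2 := min_le_right _ _
    -- the upper disc
    have hup : φ y₀ < φ (y₀ + (s / 2) • e) := by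
      have h1 := hmono 0 s 0 (s / 2) (by rw [norm_zero]; exact hr2) hs2 (by linarith)
        (by positivity) (by linarith)
      simp only [add_zero, zero_smul] at h1
      exact h1
    obtain ⟨ε', hε', hup'⟩ : ∃ ε' : ℝ, 0 < ε' ∧ ∀ a : E n, ‖a‖ < ε' →
        φ y₀ < φ (y₀ + a + (s / 2) • e) := by
      have hc2 : Continuous fun a : E n => φ (y₀ + a + (s / 2) • e) :=
        hφ.continuous.comp ((continuous_const.add continuous_id).add continuous_const)
      have hm : {a : E n | φ y₀ < φ (y₀ + a + (s / 2) • e)} ∈ 𝓝 (0 : E n) :=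
        (isOpen_lt continuous_const hc2).mem_nhds (by simpa using hup)
      obtain ⟨ε', hε', h1⟩ := Metric.mem_nhds_iff.mp hm
      exact ⟨ε', hε', fun a ha => h1 (by simpa using ha)⟩
    set s₁ := min ε' s with hs₁
    have hs₁0 : 0 < s₁ := lt_min hε' hs0
    have hs₁1 : s₁ ≤ ε' := min_le_left _ _
    have hs₁2 : s₁ ≤ s := min_le_right _ _
    -- coordinates
    set ℓ : E n → ℝ := fun v => inner ℝ e v with hℓ
    have hℓc : Continuous ℓ := continuous_const.inner continuous_id
    have hee : inner ℝ e e = (1 : ℝ) := by rw [real_inner_self_eq_norm_sq, hen, one_pow]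
    set W : Set (E n) := {y | ‖(y - y₀) - ℓ (y - y₀) • e‖ < s₁ ∧ |ℓ (y - y₀)| < s} with hW
    have hWn : W ∈ 𝓝 y₀ := by
      have c1 : Continuous fun y : E n => y - y₀ := continuous_sub_right y₀
      have c2 : Continuous fun y : E n => ℓ (y - y₀) := hℓc.comp c1
      refine ((isOpen_lt (c1.sub (c2.smul continuous_const)).norm continuous_const).inter
        (isOpen_lt c2.abs continuous_const)).mem_nhds ?_
      constructor
      · simp [hℓ, hs₁0]
      · simp [hℓ, hs0]
    refine ⟨W, hWn, ?_, ?_⟩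
    · intro y hy
      apply hεU
      rw [mem_ball, dist_eq_norm]
      have e1 : y - y₀ = ((y - y₀) - ℓ (y - y₀) • e) + ℓ (y - y₀) • e := by abel
      rw [e1]
      have h1 : ‖ℓ (y - y₀) • e‖ < s := by
        rw [norm_smul, hen, mul_one, Real.norm_eq_abs]
        exact hy.2
      calc _ ≤ ‖(y - y₀) - ℓ (y - y₀) • e‖ + ‖ℓ (y - y₀) • e‖ := norm_add_le _ _
        _ < s₁ + s := add_lt_add hy.1 h1
        _ ≤ ε := by linarith
    · -- points of `W` in coordinates
      have hmk : ∀ (a : E n) (τ : ℝ), inner ℝ e a = (0 : ℝ) → ‖a‖ < s₁ → |τ| < s →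
          y₀ + a + τ • e ∈ W := by
        intro a τ ha1 ha2 hτ
        have e1 : y₀ + a + τ • e - y₀ = a + τ • e := by abel
        have e2 : ℓ (a + τ • e) = τ := by
          simp only [hℓ]
          rw [inner_add_right, inner_smul_right, ha1, hee]
          ring
        simp only [hW, mem_ofPred_eq]
        rw [e1, e2]
        have e3 : a + τ • e - τ • e = a := by abel
        rw [e3]
        exact ⟨ha2, hτ⟩
      set D : Set (E n) := {a | inner ℝ e a = (0 : ℝ) ∧ ‖a‖ < s₁} with hD
      have hDc : IsPreconnected D := by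
        have h1 : Convex ℝ D := by
          intro a ha a' ha' c c' hc hc' hcc
          refine ⟨?_, ?_⟩
          · rw [inner_add_right, inner_smul_right, inner_smul_right, ha.1, ha'.1]
            ring
          · calc ‖c • a + c' • a'‖ ≤ ‖c • a‖ + ‖c' • a'‖ := norm_add_le _ _
              _ = c * ‖a‖ + c' * ‖a'‖ := by
                rw [norm_smul, norm_smul, Real.norm_eq_abs, Real.norm_eq_abs, abs_of_nonneg hc,
                  abs_of_nonneg hc']
              _ < s₁ := by
                rcases hc.eq_or_lt with h0 | h0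
                · have : c' = 1 := by linarith
                  rw [← h0, this]
                  linarith [ha'.2]
                · nlinarith [ha.2, ha'.2, mul_lt_mul_of_pos_left ha.2 h0,
                    mul_le_mul_of_nonneg_left ha'.2.le hc']
        exact h1.isPreconnected
      set Z : Set (E n) := (fun a => y₀ + a + (s / 2) • e) '' D with hZ
      have hZc : IsPreconnected Z := hDc.image _
        ((continuous_const.add continuous_id).add continuous_const).continuousOn
      have hZsub : Z ⊆ W ∩ {y | φ y₀ < φ y} := by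
        rintro _ ⟨a, ha, rfl⟩
        refine ⟨hmk a (s / 2) ha.1 ha.2 ?_, hup' a (ha.2.trans_le hs₁1)⟩
        rw [abs_of_pos (by positivity)]
        linarith
      refine isPreconnected_of_forall (y₀ + 0 + (s / 2) • e) fun y hy => ?_
      obtain ⟨hyW, hyφ⟩ := hy
      set τ := ℓ (y - y₀) with hτ
      set a := (y - y₀) - τ • e with ha
      have ha0 : inner ℝ e a = (0 : ℝ) := by
        rw [ha, inner_sub_right, inner_smul_right, hee]
        simp [hτ, hℓ]
      have hya : y = y₀ + a + τ • e := by rw [ha]; abel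
      have haD : a ∈ D := ⟨ha0, hyW.1⟩
      set L : Set (E n) := (fun σ : ℝ => y₀ + a + σ • e) '' uIcc τ (s / 2) with hL
      have hLc : IsPreconnected L := isPreconnected_uIcc.image _
        (continuous_const.add (continuous_id.smul continuous_const)).continuousOn
      have hτs := abs_lt.mp hyW.2
      have hLsub : L ⊆ W ∩ {y | φ y₀ < φ y} := by
        rintro _ ⟨σ, hσ, rfl⟩
        have hσs : |σ| < s := by
          rw [mem_uIcc] at hσ
          rw [abs_lt]
          rcases hσ with h1 | h1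
          · exact ⟨by linarith [h1.1, hτs.1], by linarith [h1.2]⟩
          · exact ⟨by linarith [h1.1], by linarith [h1.2, hτs.2]⟩
        refine ⟨hmk a σ ha0 hyW.1 hσs, ?_⟩
        have hm := hmono a s
        have hσI := abs_lt.mp hσs
        have har : ‖a‖ < r / 2 := by linarith [hyW.1]
        change φ y₀ < φ (y₀ + a + σ • e)
        rw [mem_uIcc] at hσ
        rcases hσ with h1 | h1
        · have h3 : φ y₀ < φ (y₀ + a + τ • e) := by rw [← hya]; exact hyφ
          rcases h1.1.eq_or_lt with h4 | h4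
          · rw [← h4]
            exact h3
          · exact h3.trans (hm τ σ har hs2 hτs.1 h4 hσI.2)
        · have h3 := hup' a (hyW.1.trans_le hs₁1)
          rcases h1.1.eq_or_lt with h4 | h4
          · rw [← h4]
            exact h3
          · exact h3.trans (hm (s / 2) σ har hs2 (by linarith) h4 hσI.2)
      refine ⟨Z ∪ L, union_subset hZsub hLsub, Or.inl ⟨0, ?_, rfl⟩, Or.inr ?_, ?_⟩
      · exact ⟨inner_zero_right _, by rw [norm_zero]; exact hs₁0⟩
      · exact ⟨τ, left_mem_uIcc, hya.symm⟩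
      · exact IsPreconnected.union (y₀ + a + (s / 2) • e) ⟨a, haD, rfl⟩
          ⟨s / 2, right_mem_uIcc, rfl⟩ hZc hLc

end Pool.Agent.H422IV
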