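import Mathlib

/-!
# The number of local maxima is at most the number of saddles plus one
-/

set_option autoImplicit false
set_option linter.unusedSectionVars false

open Set Filter Topology

namespace Pool.Agent.H422IV

section peaks

variable {S : Type} [TopologicalSpace S] [CompactSpace S] [T2Space S]
  [LocallyPathConnectedSpace S]

/-- every component of a superlevel set contains a peak -/
lemma exists_peak (f : S → ℝ) (hf : Continuous f) (P : Set S)
    (hN : ∀ p ∉ P, p ∈ closure {x | f p < f x}) (c : ℝ) (z : S) (hz : c < f z) :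
    ∃ p ∈ P, JoinedIn {x | c < f x} z p := by
  set F : Set S := {x | c < f x} with hF
  have hFo : IsOpen F := isOpen_lt continuous_const hf
  set K := pathComponentIn F z with hK
  have hKo : IsOpen K := hFo.pathComponentIn z
  have hzK : z ∈ K := mem_pathComponentIn_self hz
  obtain ⟨x₀, hx₀, hmax⟩ := (isClosed_closure (s := K)).isCompact.exists_isMaxOn
    ⟨z, subset_closure hzK⟩ hf.continuousOn
  have h1 : f z ≤ f x₀ := hmax (subset_closure hzK)
  have hx₀F : x₀ ∈ F := lt_of_lt_of_le hz h1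
  obtain ⟨y, hyN, hyK⟩ := mem_closure_iff.mp hx₀ (pathComponentIn F x₀) (hFo.pathComponentIn x₀)
    (mem_pathComponentIn_self hx₀F)
  have hx₀K : JoinedIn F z x₀ := JoinedIn.trans hyK (JoinedIn.symm hyN)
  by_cases hP : x₀ ∈ P
  · exact ⟨x₀, hP, hx₀K⟩
  · exfalso
    obtain ⟨y, hyN, hyf⟩ := mem_closure_iff.mp (hN x₀ hP) K hKo hx₀K
    have h2 : f x₀ < f y := hyf
    exact absurd h2 (not_lt.mpr (hmax (subset_closure hyN)))

/-- the two peaks attached to a saddle -/
lemma exists_edge (f : S → ℝ) (hf : Continuous f) (P : Set S) (hPne : P.Nonempty)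
    (hN : ∀ p ∉ P, p ∈ closure {x | f p < f x}) (q : S) (W C₁ C₂ : Set S)
    (h1 : IsPreconnected C₁) (h2 : IsPreconnected C₂)
    (hW : W ∩ {x | f q < f x} = C₁ ∪ C₂) :
    ∃ a ∈ P, ∃ b ∈ P, ∀ U V : Set S, IsOpen U → IsOpen V → Disjoint U V →
      U ∪ V = {x | f q < f x} → (W ∩ U).Nonempty → (W ∩ V).Nonempty →
      (a ∈ U ∧ b ∈ V) ∨ (a ∈ V ∧ b ∈ U) := by
  set F : Set S := {x | f q < f x} with hF
  have hpk : ∀ C : Set S, C ⊆ F → ∃ a ∈ P, C.Nonempty → ∃ c ∈ C, JoinedIn F c a := by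
    intro C hC
    rcases C.eq_empty_or_nonempty with h | ⟨c, hc⟩
    · obtain ⟨p, hp⟩ := hPne
      exact ⟨p, hp, fun h' => absurd h'.ne_empty (not_not.mpr h)⟩
    · obtain ⟨a, ha, hj⟩ := exists_peak f hf P hN (f q) c (hC hc)
      exact ⟨a, ha, fun _ => ⟨c, hc, hj⟩⟩
  have hC1F : C₁ ⊆ F := fun x hx => by
    have : x ∈ W ∩ F := by rw [hW]; exact Or.inl hx
    exact this.2
  have hC2F : C₂ ⊆ F := fun x hx => by
    have : x ∈ W ∩ F := by rw [hW]; exact Or.inr hx
    exact this.2
  obtain ⟨a, ha, ha'⟩ := hpk C₁ hC1F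
  obtain ⟨b, hb, hb'⟩ := hpk C₂ hC2F
  refine ⟨a, ha, b, hb, ?_⟩
  -- main claim, with the roles of `U` and `V` fixed
  have key : ∀ U V : Set S, IsOpen U → IsOpen V → Disjoint U V → U ∪ V = F →
      (W ∩ U).Nonempty → (W ∩ V).Nonempty → C₁ ⊆ U → a ∈ U ∧ b ∈ V := by
    intro U V hU hV hUV hc hWU hWV hCU
    have hpc : ∀ (U' V' : Set S), IsOpen U' → IsOpen V' → Disjoint U' V' → U' ∪ V' = F →
        ∀ (C : Set S) (e : S), C ⊆ U' → (∃ c ∈ C, JoinedIn F c e) → e ∈ U' := by
      intro U' V' hU' hV' hUV' hc' C e hCU' ⟨c, hcC, hj⟩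
      have hcF : c ∈ F := by rw [← hc']; exact Or.inl (hCU' hcC)
      have hpre : IsPreconnected (pathComponentIn F c) :=
        (isPathConnected_pathComponentIn hcF).isConnected.isPreconnected
      rcases hpre.subset_or_subset hU' hV' hUV' (by rw [hc']; exact pathComponentIn_subset)
        with h | h
      · exact h hj
      · exact absurd (h (mem_pathComponentIn_self hcF))
          (fun hcV => (Set.disjoint_left.mp hUV') (hCU' hcC) hcV)
    obtain ⟨x, hxW, hxV⟩ := hWV
    have hxF : x ∈ W ∩ F := ⟨hxW, by rw [← hc]; exact Or.inr hxV⟩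
    rw [hW] at hxF
    have hx2 : x ∈ C₂ := by
      rcases hxF with h | h
      · exact absurd hxV (fun hxV => (Set.disjoint_left.mp hUV) (hCU h) hxV)
      · exact h
    have hC2V : C₂ ⊆ V := by
      rcases h2.subset_or_subset hU hV hUV (by rw [hc]; exact hC2F) with h | h
      · exact absurd hxV (fun hxV => (Set.disjoint_left.mp hUV) (h hx2) hxV)
      · exact h
    obtain ⟨x', hx'W, hx'U⟩ := hWU
    have hx'F : x' ∈ W ∩ F := ⟨hx'W, by rw [← hc]; exact Or.inl hx'U⟩
    rw [hW] at hx'F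
    have hx1 : x' ∈ C₁ := by
      rcases hx'F with h | h
      · exact h
      · exact absurd (hC2V h) (fun hxV => (Set.disjoint_left.mp hUV) hx'U hxV)
    exact ⟨hpc U V hU hV hUV hc C₁ a hCU (ha' ⟨x', hx1⟩),
      hpc V U hV hU hUV.symm (by rw [union_comm]; exact hc) C₂ b hC2V (hb' ⟨x, hx2⟩)⟩
  intro U V hU hV hUV hc hWU hWV
  rcases h1.subset_or_subset hU hV hUV (by rw [hc]; exact hC1F) with h | h
  · exact Or.inl (key U V hU hV hUV hc hWU hWV h)
  · exact Or.inr (key V U hV hU hUV.symm (by rw [union_comm]; exact hc) hWV hWU h)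

/-- **The number of strict local maxima is at most the number of saddles plus one.** -/
theorem peaks_le [ConnectedSpace S] (f : S → ℝ) (hf : Continuous f) (P Q : Finset S)
    (hP : ∀ p ∈ P, ∃ W ∈ 𝓝 p, ∀ x ∈ W, x ≠ p → f x < f p)
    (hN : ∀ p ∉ P, p ∈ closure {x | f p < f x})
    (hN' : ∀ p ∉ P, p ∉ Q → ∃ W ∈ 𝓝 p, IsPreconnected (W ∩ {x | f p < f x}))
    (hQ : ∀ q ∈ Q, ∃ W ∈ 𝓝 q, ∃ C₁ C₂ : Set S, IsPreconnected C₁ ∧ IsPreconnected C₂ ∧
      W ∩ {x | f q < f x} = C₁ ∪ C₂) :
    P.card ≤ Q.card + 1 := by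
  classical
  have hN1 : ∀ p ∉ (P : Set S), p ∈ closure {x | f p < f x} := fun p hp => hN p (by simpa using hp)
  have hPne : (P : Set S).Nonempty := by
    obtain ⟨z⟩ := (inferInstance : Nonempty S)
    obtain ⟨p, hp, -⟩ := exists_peak f hf P hN1 (f z - 1) z (by linarith)
    exact ⟨p, hp⟩
  have hedge : ∀ q : {x // x ∈ Q}, ∃ a b : {x // x ∈ P}, ∃ W ∈ 𝓝 (q : S),
      ∀ U V : Set S, IsOpen U → IsOpen V → Disjoint U V →
      U ∪ V = {x | f q < f x} → (W ∩ U).Nonempty → (W ∩ V).Nonempty →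
      ((a : S) ∈ U ∧ (b : S) ∈ V) ∨ ((a : S) ∈ V ∧ (b : S) ∈ U) := by
    intro q
    obtain ⟨W, hW, C₁, C₂, h1, h2, h3⟩ := hQ q q.2
    obtain ⟨a, ha, b, hb, h4⟩ := exists_edge f hf P hPne hN1 q W C₁ C₂ h1 h2 h3
    exact ⟨⟨a, by simpa using ha⟩, ⟨b, by simpa using hb⟩, W, hW, h4⟩
  choose a b We hWe hab using hedge
  set G : SimpleGraph {x // x ∈ P} :=
    SimpleGraph.fromEdgeSet (Set.range fun q : {x // x ∈ Q} => s(a q, b q)) with hG
  have hreach : ∀ q, G.Reachable (a q) (b q) := by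
    intro q
    by_cases h : a q = b q
    · rw [h]
    · refine SimpleGraph.Adj.reachable ?_
      rw [hG, SimpleGraph.fromEdgeSet_adj]
      exact ⟨⟨q, rfl⟩, h⟩
  have : PathConnectedSpace S := PathConnectedSpace.of_locallyPathConnectedSpace
  suffices hconn : G.Connected by
    have h1 := hconn.card_vert_le_card_edgeSet_add_one
    have h2 : Nat.card G.edgeSet ≤ Nat.card {x // x ∈ Q} := by
      have h3 : G.edgeSet ⊆ Set.range fun q : {x // x ∈ Q} => s(a q, b q) := by
        rw [hG, SimpleGraph.edgeSet_fromEdgeSet]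
        exact sdiff_subset
      calc Nat.card G.edgeSet ≤ Nat.card (Set.range fun q : {x // x ∈ Q} => s(a q, b q)) :=
            Nat.card_mono (Set.finite_range _) h3
        _ ≤ Nat.card {x // x ∈ Q} := Finite.card_range_le _
    have e1 : Nat.card {x // x ∈ P} = P.card := by simp
    have e2 : Nat.card {x // x ∈ Q} = Q.card := by simp
    omega
  have : Nonempty {x // x ∈ P} := by
    obtain ⟨p, hp⟩ := hPne
    exact ⟨⟨p, by simpa using hp⟩⟩
  refine SimpleGraph.Connected.mk ?_
  by_contra hcon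
  have hcon' : ∃ x y, ¬ G.Reachable x y := by
    unfold SimpleGraph.Preconnected at hcon
    push Not at hcon
    exact hcon
  -- the critical level
  set T : Set ℝ := {c | ∃ x y : {x // x ∈ P}, ¬ G.Reachable x y ∧
    JoinedIn {z | c < f z} (x : S) y} with hT
  obtain ⟨zmax, hzmax⟩ : ∃ z, ∀ z', f z' ≤ f z := by
    obtain ⟨z, -, hz⟩ := isCompact_univ.exists_isMaxOn (univ_nonempty (α := S)) hf.continuousOn
    exact ⟨z, fun z' => hz (mem_univ z')⟩
  obtain ⟨zmin, hzmin⟩ : ∃ z, ∀ z', f z ≤ f z' := by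
    obtain ⟨z, -, hz⟩ := isCompact_univ.exists_isMinOn (univ_nonempty (α := S)) hf.continuousOn
    exact ⟨z, fun z' => hz (mem_univ z')⟩
  have hTne : T.Nonempty := by
    obtain ⟨x, y, hxy⟩ := hcon'
    refine ⟨f zmin - 1, x, y, hxy, ?_⟩
    have hu : {z | f zmin - 1 < f z} = univ := by
      ext z
      simp only [mem_ofPred_eq, mem_univ, iff_true]
      have := hzmin z
      linarith
    rw [hu, joinedIn_univ]
    exact PathConnectedSpace.joined _ _
  have hTbdd : BddAbove T := ⟨f zmax, fun c ⟨x, y, _, hj⟩ => (hj.source_mem.le).trans (hzmax _)⟩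
  have hTmono : ∀ (x y : S) (c c' : ℝ), c ≤ c' → JoinedIn {z | c' < f z} x y →
      JoinedIn {z | c < f z} x y := fun x y c c' hcc hj =>
    hj.mono fun z hz => lt_of_le_of_lt hcc hz
  set t := sSup T with ht
  have htT : t ∉ T := by
    rintro ⟨x, y, hxy, hj⟩
    obtain ⟨γ, hγ⟩ := hj
    obtain ⟨s, -, hs⟩ := isCompact_univ.exists_isMinOn (univ_nonempty (α := unitInterval))
      (hf.comp γ.continuous).continuousOn
    have h1 : t < f (γ s) := hγ s
    have h2 : (t + f (γ s)) / 2 ∈ T := by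
      refine ⟨x, y, hxy, γ, fun s' => ?_⟩
      have h3 : f (γ s) ≤ f (γ s') := hs (mem_univ s')
      change (t + f (γ s)) / 2 < f (γ s')
      linarith
    have h4 := le_csSup hTbdd h2
    rw [← ht] at h4
    linarith
  -- a pair of vertices that is joined below the critical level
  obtain ⟨x, y, hxy, hj⟩ : ∃ x y : {x // x ∈ P}, ¬ G.Reachable x y ∧
      ∀ c < t, JoinedIn {z | c < f z} (x : S) y := by
    by_contra hno
    push Not at hno
    have h1 : ∀ p : {x // x ∈ P} × {x // x ∈ P}, ∃ c, c < t ∧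
        (¬ G.Reachable p.1 p.2 → ¬ JoinedIn {z | c < f z} (p.1 : S) p.2) := by
      intro p
      by_cases h : G.Reachable p.1 p.2
      · exact ⟨t - 1, by linarith, fun h' => absurd h h'⟩
      · obtain ⟨c, hc, hc'⟩ := hno p.1 p.2 h
        exact ⟨c, hc, fun _ => hc'⟩
    choose c hct hc using h1
    obtain ⟨p₀, hp₀⟩ := Finite.exists_max c
    obtain ⟨c', ⟨x, y, hxy, hj⟩, hc'⟩ := exists_lt_of_lt_csSup hTne (hct p₀)
    exact hc (x, y) hxy (hTmono _ _ _ c' ((hp₀ (x, y)).trans hc'.le) hj)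
  -- the two families of components
  set F : Set S := {z | t < f z} with hF
  have hFo : IsOpen F := isOpen_lt continuous_const hf
  set A : Set S := ⋃ x' : {x' : {x // x ∈ P} // G.Reachable x x'}, pathComponentIn F (x' : S) with hA
  set B : Set S := ⋃ x' : {x' : {x // x ∈ P} // ¬ G.Reachable x x'}, pathComponentIn F (x' : S)
    with hB
  have hAo : IsOpen A := isOpen_iUnion fun x' => hFo.pathComponentIn _
  have hBo : IsOpen B := isOpen_iUnion fun x' => hFo.pathComponentIn _
  have hAmem : ∀ z, z ∈ A ↔ ∃ x' : {x // x ∈ P}, G.Reachable x x' ∧ JoinedIn F (x' : S) z := by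
    intro z
    rw [hA, mem_iUnion]
    constructor
    · rintro ⟨⟨x', h1⟩, h2⟩
      exact ⟨x', h1, h2⟩
    · rintro ⟨x', h1, h2⟩
      exact ⟨⟨x', h1⟩, h2⟩
  have hBmem : ∀ z, z ∈ B ↔ ∃ x' : {x // x ∈ P}, ¬ G.Reachable x x' ∧ JoinedIn F (x' : S) z := by
    intro z
    rw [hB, mem_iUnion]
    constructor
    · rintro ⟨⟨x', h1⟩, h2⟩
      exact ⟨x', h1, h2⟩
    · rintro ⟨x', h1, h2⟩
      exact ⟨⟨x', h1⟩, h2⟩
  have hAB : Disjoint A B := by
    rw [Set.disjoint_left]
    intro z hzA hzB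
    obtain ⟨x', h1, h2⟩ := (hAmem z).mp hzA
    obtain ⟨y', h3, h4⟩ := (hBmem z).mp hzB
    exact htT ⟨x', y', fun h => h3 (h1.trans h), h2.trans h4.symm⟩
  have hABF : A ∪ B = F := by
    ext z
    constructor
    · rintro (h | h)
      · obtain ⟨x', -, h2⟩ := (hAmem z).mp h
        exact h2.target_mem
      · obtain ⟨x', -, h2⟩ := (hBmem z).mp h
        exact h2.target_mem
    · intro hz
      obtain ⟨p, hp, hj'⟩ := exists_peak f hf P hN1 t z hz
      have hp' : p ∈ P := by simpa using hp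
      by_cases h : G.Reachable x ⟨p, hp'⟩
      · exact Or.inl ((hAmem z).mpr ⟨⟨p, hp'⟩, h, hj'.symm⟩)
      · exact Or.inr ((hBmem z).mpr ⟨⟨p, hp'⟩, h, hj'.symm⟩)
  have hAF : A ⊆ F := by rw [← hABF]; exact subset_union_left
  have hBF : B ⊆ F := by rw [← hABF]; exact subset_union_right
  set Zx : Set S := {p | ∃ x' : {x // x ∈ P}, (x' : S) = p ∧ G.Reachable x x' ∧ f p = t} with hZx
  set Zy : Set S := {p | ∃ x' : {x // x ∈ P}, (x' : S) = p ∧ ¬ G.Reachable x x' ∧ f p = t} with hZy
  have hZxf : Zx.Finite := (P.finite_toSet).subset fun p ⟨x', h1, _⟩ => by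
    rw [← h1]
    exact x'.2
  have hZyf : Zy.Finite := (P.finite_toSet).subset fun p ⟨x', h1, _⟩ => by
    rw [← h1]
    exact x'.2
  -- peaks at the critical level are isolated
  have hiso : ∀ p ∈ P, f p = t → p ∉ closure F := by
    intro p hp hfp hcl
    obtain ⟨W, hW, hWp⟩ := hP p hp
    obtain ⟨z, hzW, hzF⟩ := mem_closure_iff_nhds.mp hcl W hW
    have hzF' : t < f z := hzF
    have hne : z ≠ p := fun h => by
      rw [h, hfp] at hzF'
      exact lt_irrefl _ hzF'
    have := hWp z hzW hne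
    rw [hfp] at this
    exact lt_asymm this hzF'
  have hclF : ∀ p ∈ closure F, t ≤ f p := by
    intro p hp
    have h1 : closure F ⊆ {z | t ≤ f z} :=
      closure_minimal (fun z (hz : t < f z) => show t ≤ f z from le_of_lt hz)
        (isClosed_le continuous_const hf)
    exact h1 hp
  have hdisj : Disjoint (closure A ∪ Zx) (closure B ∪ Zy) := by
    rw [Set.disjoint_left]
    rintro p (hpA | ⟨x', hx'p, hx'r, hfp⟩) (hpB | ⟨y', hy'p, hy'r, hfp'⟩)
    · have hpF : p ∈ closure F := closure_mono hAF hpA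
      rcases (hclF p hpF).lt_or_eq with hlt | heq
      · have hpF' : p ∈ A ∪ B := by rw [hABF]; exact hlt
        rcases hpF' with h | h
        · obtain ⟨z, hz1, hz2⟩ := mem_closure_iff.mp hpB A hAo h
          exact (Set.disjoint_left.mp hAB) hz1 hz2
        · obtain ⟨z, hz1, hz2⟩ := mem_closure_iff.mp hpA B hBo h
          exact (Set.disjoint_left.mp hAB) hz2 hz1
      · by_cases hpP : p ∈ P
        · exact hiso p hpP heq.symm hpF
        · have hFp : {x | f p < f x} = F := by rw [← heq]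
          by_cases hpQ : p ∈ Q
          · have h5 := hab ⟨p, hpQ⟩ A B hAo hBo hAB (by rw [hABF]; exact hFp.symm)
              (mem_closure_iff_nhds.mp hpA _ (hWe ⟨p, hpQ⟩))
              (mem_closure_iff_nhds.mp hpB _ (hWe ⟨p, hpQ⟩))
            have hA' : ∀ v : {x // x ∈ P}, (v : S) ∈ A → G.Reachable x v := by
              intro v hv
              by_contra hnr
              exact (Set.disjoint_left.mp hAB) hv
                ((hBmem _).mpr ⟨v, hnr, JoinedIn.refl (hAF hv)⟩)
            have hB' : ∀ v : {x // x ∈ P}, (v : S) ∈ B → ¬ G.Reachable x v := by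
              intro v hv hr
              exact (Set.disjoint_left.mp hAB)
                ((hAmem _).mpr ⟨v, hr, JoinedIn.refl (hBF hv)⟩) hv
            rcases h5 with ⟨h6, h7⟩ | ⟨h6, h7⟩
            · exact hB' _ h7 ((hA' _ h6).trans (hreach _))
            · exact hB' _ h6 ((hA' _ h7).trans (hreach _).symm)
          · obtain ⟨W, hW, hWc⟩ := hN' p hpP hpQ
            rw [hFp] at hWc
            obtain ⟨z, hzW, hzA⟩ := mem_closure_iff_nhds.mp hpA W hW
            obtain ⟨z', hz'W, hz'B⟩ := mem_closure_iff_nhds.mp hpB W hW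
            rcases hWc.subset_or_subset hAo hBo hAB
              (by rw [hABF]; exact inter_subset_right) with h | h
            · exact (Set.disjoint_left.mp hAB) (h ⟨hz'W, hBF hz'B⟩) hz'B
            · exact (Set.disjoint_left.mp hAB) hzA (h ⟨hzW, hAF hzA⟩)
    · refine hiso p ?_ hfp' (closure_mono hAF hpA)
      rw [← hy'p]
      exact y'.2
    · refine hiso p ?_ hfp (closure_mono hBF hpB)
      rw [← hx'p]
      exact x'.2
    · have : x' = y' := Subtype.ext (by rw [hx'p, hy'p])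
      rw [this] at hx'r
      exact hy'r hx'r
  -- cover
  have hcover : ∀ z, t ≤ f z → z ∈ (closure A ∪ Zx) ∪ (closure B ∪ Zy) := by
    intro z hz
    rcases hz.lt_or_eq with hlt | heq
    · have h1 : z ∈ A ∪ B := by rw [hABF]; exact hlt
      rcases h1 with h | h
      · exact Or.inl (Or.inl (subset_closure h))
      · exact Or.inr (Or.inl (subset_closure h))
    · by_cases hzP : z ∈ P
      · by_cases h : G.Reachable x ⟨z, hzP⟩
        · exact Or.inl (Or.inr ⟨⟨z, hzP⟩, rfl, h, heq.symm⟩)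
        · exact Or.inr (Or.inr ⟨⟨z, hzP⟩, rfl, h, heq.symm⟩)
      · have h1 := hN z hzP
        rw [← heq] at h1
        have h2 : z ∈ closure (A ∪ B) := by rw [hABF]; exact h1
        rw [closure_union] at h2
        rcases h2 with h | h
        · exact Or.inl (Or.inl h)
        · exact Or.inr (Or.inl h)
  obtain ⟨O₁, O₂, hO₁, hO₂, hC₁, hC₂, hO⟩ := normal_separation
    (isClosed_closure.union hZxf.isClosed) (isClosed_closure.union hZyf.isClosed) hdisj
  obtain ⟨c, hct, hc⟩ : ∃ c < t, {z | c < f z} ⊆ O₁ ∪ O₂ := by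
    have hcomp : IsCompact (O₁ ∪ O₂)ᶜ := (hO₁.union hO₂).isClosed_compl.isCompact
    rcases (O₁ ∪ O₂)ᶜ.eq_empty_or_nonempty with h | h
    · refine ⟨t - 1, by linarith, ?_⟩
      rw [Set.compl_empty_iff] at h
      rw [h]
      exact subset_univ _
    · obtain ⟨z₀, hz₀, hmax⟩ := hcomp.exists_isMaxOn h hf.continuousOn
      refine ⟨f z₀, ?_, fun z hz => ?_⟩
      · by_contra hge
        push Not at hge
        rcases hcover z₀ hge with h1 | h1
        · exact hz₀ (Or.inl (hC₁ h1))
        · exact hz₀ (Or.inr (hC₂ h1))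
      · by_contra hzO
        have h1 : f z ≤ f z₀ := hmax hzO
        exact absurd hz (not_lt.mpr h1)
  have hjc := hj c hct
  have hpre : IsPreconnected (pathComponentIn {z | c < f z} (x : S)) :=
    (isPathConnected_pathComponentIn hjc.source_mem).isConnected.isPreconnected
  have hft : ∀ v : S, (∀ c < t, c < f v) → t ≤ f v := fun v hv => le_of_forall_lt hv
  have hxf : t ≤ f x := hft x fun c hc => (hj c hc).source_mem
  have hyf : t ≤ f y := hft y fun c hc => (hj c hc).target_mem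
  have hxO : (x : S) ∈ O₁ := by
    apply hC₁
    rcases hxf.lt_or_eq with h | h
    · exact Or.inl (subset_closure ((hAmem _).mpr ⟨x, SimpleGraph.Reachable.refl x,
        JoinedIn.refl h⟩))
    · exact Or.inr ⟨x, rfl, SimpleGraph.Reachable.refl x, h.symm⟩
  have hyO : (y : S) ∈ O₂ := by
    apply hC₂
    rcases hyf.lt_or_eq with h | h
    · exact Or.inl (subset_closure ((hBmem _).mpr ⟨y, hxy, JoinedIn.refl h⟩))
    · exact Or.inr ⟨y, rfl, hxy, h.symm⟩
  rcases hpre.subset_or_subset hO₁ hO₂ hO (pathComponentIn_subset.trans hc) with h | h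
  · exact (Set.disjoint_left.mp hO) (h hjc) hyO
  · exact (Set.disjoint_left.mp hO) hxO (h (mem_pathComponentIn_self hjc.source_mem))

end peaks

end Pool.Agent.H422IV
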