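import Mathlib
import Pool.Agent.H422IV.Atl
import Pool.Agent.H422IV.Peaks
import Pool.Agent.H422IV.Area
import Pool.Agent.H422IV.Germ3

/-!
# Counting maxima and saddles on a hypersurface
-/

set_option autoImplicit false
set_option linter.unusedSectionVars false

open MeasureTheory Metric Set Filter Topology Matrix
open scoped ENNReal NNReal ContDiff

namespace Pool.Agent.H422IV

variable {n : ℕ}

namespace Atl

variable {M : Set (E (n + 1))} {κ : ℝ} {N : ℕ} (𝒜 : Atl M κ N)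

lemma continuous_X (i : Fin N) : Continuous (𝒜.X i) := (continuous_rt _ _).comp (continuous_gX _)

/-- subsets of `M` given by subsets of a chart -/
def img (i : Fin N) (C : Set (E n)) : Set M := {x | ∃ y ∈ C, 𝒜.X i y = x}

lemma mem_img {i : Fin N} {C : Set (E n)} {x : M} : x ∈ 𝒜.img i C ↔ ∃ y ∈ C, 𝒜.X i y = x :=
  Iff.rfl

lemma img_mem_nhds (i : Fin N) {x₀ : M} {y₀ : E n} (hx : 𝒜.X i y₀ = x₀) (hy₀ : ‖y₀‖ < 2 * 𝒜.ρ i)
    {W : Set (E n)} (hW : W ∈ 𝓝 y₀) : 𝒜.img i W ∈ 𝓝 x₀ := by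
  have hc : Continuous fun x : M => tr (𝒜.Q i) (𝒜.p i) (x : E (n + 1)) :=
    (continuous_tr _ _).comp continuous_subtype_val
  have htx : tr (𝒜.Q i) (𝒜.p i) (x₀ : E (n + 1)) = gX (𝒜.u i) y₀ := by rw [← hx, tr_X]
  have h1 : ∀ᶠ x : M in 𝓝 x₀, (tr (𝒜.Q i) (𝒜.p i) (x : E (n + 1))).snd ∈ W := by
    have h2 : ContinuousAt (fun x : M => (tr (𝒜.Q i) (𝒜.p i) (x : E (n + 1))).snd) x₀ :=
      (continuous_sndF.comp hc).continuousAt
    refine h2 ?_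
    change W ∈ 𝓝 ((tr (𝒜.Q i) (𝒜.p i) (x₀ : E (n + 1))).snd)
    rw [htx]
    exact hW
  have h2 : ∀ᶠ x : M in 𝓝 x₀, ‖(tr (𝒜.Q i) (𝒜.p i) (x : E (n + 1))).snd‖ < 2 * 𝒜.ρ i := by
    have h2 : ContinuousAt (fun x : M => ‖(tr (𝒜.Q i) (𝒜.p i) (x : E (n + 1))).snd‖) x₀ :=
      (continuous_norm.comp (continuous_sndF.comp hc)).continuousAt
    refine h2.eventually_lt continuousAt_const ?_
    rw [htx]
    exact hy₀
  have h3 : ∀ᶠ x : M in 𝓝 x₀, |(tr (𝒜.Q i) (𝒜.p i) (x : E (n + 1))).fst| < 𝒜.h i := by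
    have h2 : ContinuousAt (fun x : M => |(tr (𝒜.Q i) (𝒜.p i) (x : E (n + 1))).fst|) x₀ :=
      (continuous_abs.comp (continuous_fstF.comp hc)).continuousAt
    refine h2.eventually_lt continuousAt_const ?_
    rw [htx]
    exact (𝒜.hL i).small2 y₀ hy₀
  filter_upwards [h1, h2, h3] with x hx1 hx2 hx3
  refine ⟨_, hx1, ?_⟩
  set z := tr (𝒜.Q i) (𝒜.p i) (x : E (n + 1)) with hz
  have h4 : z.fst = fn (𝒜.u i) z.snd := by
    refine ((𝒜.hL i).graph z hx2 hx3).mp ?_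
    rw [mem_ofPred_eq, hz, rt_tr]
    exact x.2
  have h5 : gX (𝒜.u i) z.snd = z := by
    unfold gX
    rw [← h4]
    rfl
  unfold X
  rw [h5, hz, rt_tr]

lemma val_image_img (i : Fin N) {C : Set (E n)} (hC : C ⊆ ball 0 (2 * 𝒜.ρ i)) :
    Subtype.val '' 𝒜.img i C = 𝒜.X i '' C := by
  ext x
  constructor
  · rintro ⟨x', ⟨y, hy, hyx⟩, rfl⟩
    exact ⟨y, hy, hyx⟩
  · rintro ⟨y, hy, rfl⟩
    have h1 := hC hy
    rw [mem_ball_zero_iff] at h1
    exact ⟨⟨𝒜.X i y, 𝒜.X_mem i h1⟩, ⟨y, hy, rfl⟩, rfl⟩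

lemma img_preconnected (i : Fin N) {C : Set (E n)} (hC : C ⊆ ball 0 (2 * 𝒜.ρ i))
    (hCp : IsPreconnected C) : IsPreconnected (𝒜.img i C) := by
  rw [← Topology.IsInducing.subtypeVal.isPreconnected_image, 𝒜.val_image_img i hC]
  exact hCp.image _ (𝒜.continuous_X i).continuousOn

lemma img_pathConnected (i : Fin N) {C : Set (E n)} (hC : C ⊆ ball 0 (2 * 𝒜.ρ i))
    (hCp : IsPathConnected C) : IsPathConnected (𝒜.img i C) := by
  rw [Topology.IsInducing.subtypeVal.isPathConnected_iff, 𝒜.val_image_img i hC]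
  exact hCp.image (𝒜.continuous_X i)

lemma exists_chart (x : M) : ∃ i, ∃ y ∈ 𝒜.A i, 𝒜.X i y = x ∧ ‖y‖ ≤ 𝒜.ρ i ∧ ‖y‖ < 2 * 𝒜.ρ i := by
  obtain ⟨i, y, hy, hyx⟩ := 𝒜.exists_A x.2
  have h1 := 𝒜.A_subset i hy
  rw [mem_closedBall_zero_iff] at h1
  have := 𝒜.hρ i
  exact ⟨i, y, hy, hyx, h1, by linarith⟩

/-- a neighbourhood in `M` contains the image of a neighbourhood in the chart -/
lemma exists_small (i : Fin N) {x₀ : M} {y₀ : E n} (hx : 𝒜.X i y₀ = x₀) {U : Set M}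
    (hU : U ∈ 𝓝 x₀) : ∃ O ∈ 𝓝 y₀, 𝒜.img i O ⊆ U := by
  rw [nhds_subtype_eq_comap, mem_comap] at hU
  obtain ⟨U', hU', hUU⟩ := hU
  refine ⟨𝒜.X i ⁻¹' U', (𝒜.continuous_X i).continuousAt (by rw [hx]; exact hU'), ?_⟩
  rintro x ⟨y, hy, hyx⟩
  apply hUU
  change (x : E (n + 1)) ∈ U'
  rw [← hyx]
  exact hy

include 𝒜 in
lemma locallyPathConnected : LocallyPathConnectedSpace M := by
  refine ⟨fun x => ?_⟩
  rw [hasBasis_self]
  intro U hU
  obtain ⟨i, y, -, hyx, -, hy2⟩ := 𝒜.exists_chart x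
  obtain ⟨O, hO, hOU⟩ := 𝒜.exists_small i hyx hU
  have h1 : ball (0 : E n) (2 * 𝒜.ρ i) ∈ 𝓝 y := isOpen_ball.mem_nhds (by simpa using hy2)
  obtain ⟨δ, hδ, hsub⟩ := Metric.mem_nhds_iff.mp (inter_mem hO h1)
  refine ⟨𝒜.img i (ball y δ), 𝒜.img_mem_nhds i hyx hy2 (ball_mem_nhds y hδ),
    𝒜.img_pathConnected i (hsub.trans inter_subset_right) ?_, ?_⟩
  · exact (convex_ball y δ).isPathConnected ⟨y, mem_ball_self hδ⟩
  · refine Subset.trans ?_ hOU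
    rintro x' ⟨y', hy', hyx'⟩
    exact ⟨y', (hsub hy').1, hyx'⟩

/-- closure in `M` -/
lemma mem_closure_img (i : Fin N) {x₀ : M} {y₀ : E n} (hx : 𝒜.X i y₀ = x₀)
    (hy₀ : ‖y₀‖ < 2 * 𝒜.ρ i) {C : Set (E n)} (hC : y₀ ∈ closure C) {T : Set M}
    (hT : ∀ y ∈ C, ∀ x : M, 𝒜.X i y = x → x ∈ T) : x₀ ∈ closure T := by
  rw [mem_closure_iff_nhds]
  intro U hU
  obtain ⟨O, hO, hOU⟩ := 𝒜.exists_small i hx hU
  have h1 : ball (0 : E n) (2 * 𝒜.ρ i) ∈ 𝓝 y₀ := isOpen_ball.mem_nhds (by simpa using hy₀)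
  obtain ⟨y, ⟨hy1, hy2⟩, hyC⟩ := mem_closure_iff_nhds.mp hC _ (inter_mem hO h1)
  rw [mem_ball_zero_iff] at hy2
  exact ⟨⟨𝒜.X i y, 𝒜.X_mem i hy2⟩, hOU ⟨y, hy1, rfl⟩, hT y hyC _ rfl⟩

/-- transport of finite sets of chart points to `M` -/
lemma card_transfer (Z : Fin N → Finset (F n)) (hZA : ∀ k, ∀ z ∈ Z k, z.snd ∈ 𝒜.A k)
    (hinj : ∀ k, ∀ z ∈ Z k, ∀ z' ∈ Z k, z.snd = z'.snd → z = z') :
    ∃ P : Finset M, (∀ x : M, x ∈ P ↔ ∃ k, ∃ z ∈ Z k, 𝒜.X k z.snd = x) ∧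
      P.card = ∑ k, (Z k).card := by
  classical
  obtain ⟨x₀, hx₀⟩ := 𝒜.hc.nonempty
  set ψ : Fin N → F n → M := fun k z =>
    if h : 𝒜.X k z.snd ∈ M then ⟨𝒜.X k z.snd, h⟩ else ⟨x₀, hx₀⟩ with hψ
  have hψ1 : ∀ k, ∀ z ∈ Z k, (ψ k z : E (n + 1)) = 𝒜.X k z.snd := by
    intro k z hz
    have h1 := 𝒜.A_M k (hZA k z hz)
    simp only [hψ, h1, dif_pos]
  refine ⟨Finset.univ.biUnion fun k => (Z k).image (ψ k), fun x => ?_, ?_⟩
  · rw [Finset.mem_biUnion]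
    constructor
    · rintro ⟨k, -, hk⟩
      rw [Finset.mem_image] at hk
      obtain ⟨z, hz, rfl⟩ := hk
      exact ⟨k, z, hz, (hψ1 k z hz).symm⟩
    · rintro ⟨k, z, hz, hzx⟩
      refine ⟨k, Finset.mem_univ k, Finset.mem_image.mpr ⟨z, hz, ?_⟩⟩
      apply Subtype.ext
      rw [hψ1 k z hz, hzx]
  · rw [Finset.card_biUnion]
    · refine Finset.sum_congr rfl fun k _ => ?_
      rw [Finset.card_image_of_injOn]
      intro z hz z' hz' h
      have h1 := congrArg (Subtype.val : M → E (n + 1)) h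
      rw [hψ1 k z hz, hψ1 k z' hz'] at h1
      exact hinj k z hz z' hz' (𝒜.X_inj k h1)
    · intro k _ k' _ hkk'
      rw [Function.onFun, Finset.disjoint_left]
      intro x hx hx'
      rw [Finset.mem_image] at hx hx'
      obtain ⟨z, hz, rfl⟩ := hx
      obtain ⟨z', hz', h⟩ := hx'
      have h1 := congrArg (Subtype.val : M → E (n + 1)) h
      rw [hψ1 k z hz, hψ1 k' z' hz'] at h1
      exact hkk' (𝒜.unique_A (hZA k z hz) (hZA k' z' hz') h1.symm)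

/-- frame of a chart -/
noncomputable def bb (k : Fin N) : OrthonormalBasis (Fin (n + 1)) ℝ (F n) :=
  (EuclideanSpace.basisFun (Fin (n + 1)) ℝ).map (𝒜.Q k)

/-- the base point in a chart -/
noncomputable def qq (c₀ : E (n + 1)) (k : Fin N) : F n := 𝒜.Q k (c₀ - 𝒜.p k)

/-- the Gauss type map in a chart -/
noncomputable def Gk (c₀ : E (n + 1)) (I : Finset (Fin (n + 1))) (k : Fin N) : F n → F n :=
  Gm (𝒜.u k) (𝒜.bb k) (𝒜.qq c₀ k) I

/-- the Hessian matrix in a chart -/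
noncomputable def Kk (I : Finset (Fin (n + 1))) (k : Fin N) (z : F n) : Matrix (Fin n) (Fin n) ℝ :=
  KM (𝒜.u k) (𝒜.bb k) I z.fst z.snd

lemma contDiff_Gk (c₀ : E (n + 1)) (I : Finset (Fin (n + 1))) (k : Fin N) :
    ContDiff ℝ 1 (𝒜.Gk c₀ I k) := (contDiff_Gm _ _ _ _).of_le (by norm_cast)

/-- the global functions -/
noncomputable def fw (c₀ : E (n + 1)) (I : Finset (Fin (n + 1))) (w x : E (n + 1)) : ℝ :=
  inner ℝ w x - (∑ i ∈ I, inner ℝ (EuclideanSpace.basisFun (Fin (n + 1)) ℝ i) (x - c₀) ^ 2) / 2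

lemma continuous_fw (c₀ : E (n + 1)) (I : Finset (Fin (n + 1))) (w : E (n + 1)) :
    Continuous (fw c₀ I w) := by
  unfold fw
  fun_prop

lemma fw_X (c₀ : E (n + 1)) (I : Finset (Fin (n + 1))) (w : E (n + 1)) (k : Fin N) (y : E n) :
    fw c₀ I w (𝒜.X k y) = inner ℝ w (𝒜.p k) +
      hf (𝒜.u k) (𝒜.bb k) (𝒜.qq c₀ k) I (𝒜.Q k w) y := by
  unfold fw hf
  have h1 : inner ℝ w (𝒜.X k y) = inner ℝ w (𝒜.p k) + inner ℝ (𝒜.Q k w) (gX (𝒜.u k) y) := by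
    unfold X rt
    rw [inner_add_right, ← (𝒜.Q k).inner_map_map w ((𝒜.Q k).symm (gX (𝒜.u k) y)),
      LinearIsometryEquiv.apply_symm_apply]
  have h2 : ∀ i, inner ℝ (EuclideanSpace.basisFun (Fin (n + 1)) ℝ i) (𝒜.X k y - c₀) =
      inner ℝ (𝒜.bb k i) (gX (𝒜.u k) y - 𝒜.qq c₀ k) := by
    intro i
    rw [← (𝒜.Q k).inner_map_map]
    unfold bb qq X rt
    rw [OrthonormalBasis.map_apply]
    congr 1
    rw [map_sub, map_add, LinearIsometryEquiv.apply_symm_apply, map_sub]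
    abel
  rw [h1, Finset.sum_congr rfl fun i _ => by rw [h2 i]]
  ring

lemma fw_lt_iff (c₀ : E (n + 1)) (I : Finset (Fin (n + 1))) (w : E (n + 1)) (k : Fin N)
    (y y' : E n) : fw c₀ I w (𝒜.X k y) < fw c₀ I w (𝒜.X k y') ↔
      hf (𝒜.u k) (𝒜.bb k) (𝒜.qq c₀ k) I (𝒜.Q k w) y <
        hf (𝒜.u k) (𝒜.bb k) (𝒜.qq c₀ k) I (𝒜.Q k w) y' := by
  rw [fw_X, fw_X]
  exact add_lt_add_iff_left _

end Atl

/-- the coordinate projection does not increase norms -/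
lemma norm_Sm_le (b : OrthonormalBasis (Fin (n + 1)) ℝ (F n)) (I : Finset (Fin (n + 1)))
    (x : F n) : ‖Sm b I x‖ ≤ ‖x‖ := by
  classical
  have h1 : ∀ j, inner ℝ (b j) (Sm b I x) = if j ∈ I then inner ℝ (b j) x else 0 := by
    intro j
    rw [inner_Sm]
    have h2 : ∀ i ∈ I, inner ℝ (b i) (b j) * inner ℝ (b i) x =
        if i = j then inner ℝ (b j) x else 0 := by
      intro i _
      rw [orthonormal_iff_ite.mp b.orthonormal i j]
      split_ifs with h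
      · rw [h, one_mul]
      · rw [zero_mul]
    rw [Finset.sum_congr rfl h2, Finset.sum_ite_eq']
  have h2 := b.sum_sq_norm_inner_right (Sm b I x)
  have h3 := b.sum_sq_norm_inner_right x
  have h4 : ‖Sm b I x‖ ^ 2 ≤ ‖x‖ ^ 2 := by
    rw [← h2, ← h3]
    refine Finset.sum_le_sum fun j _ => ?_
    rw [h1]
    split_ifs
    · exact le_refl _
    · rw [norm_zero, zero_pow two_ne_zero]
      exact sq_nonneg _
  exact (sq_le_sq₀ (norm_nonneg _) (norm_nonneg _)).mp h4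

/-- the first coordinate is determined by the value of `Gm` and the second coordinate -/
lemma Gm_fst (u : SR n) (ε : Fin (n + 1) → F n) (q : F n) (I : Finset (Fin (n + 1))) (z : F n) :
    z.fst = inner ℝ (Nv (fn u) z.snd) (Gm u ε q I z - Sm ε I (gX u z.snd - q)) := by
  unfold Gm
  rw [add_sub_cancel_right, inner_smul_right, inner_Nv_Nv, mul_one]

lemma abs_fst_le (u : SR n) (b : OrthonormalBasis (Fin (n + 1)) ℝ (F n)) (q : F n)
    (I : Finset (Fin (n + 1))) (z : F n) :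
    |z.fst| ≤ ‖Gm u b q I z‖ + ‖gX u z.snd - q‖ := by
  have h1 := Gm_fst u b q I z
  have h2 := abs_real_inner_le_norm (Nv (fn u) z.snd) (Gm u b q I z - Sm b I (gX u z.snd - q))
  rw [← h1, norm_Nv, one_mul] at h2
  refine h2.trans ((norm_sub_le _ _).trans ?_)
  exact add_le_add_right (norm_Sm_le b I _) _

lemma norm_Gm_le (u : SR n) (b : OrthonormalBasis (Fin (n + 1)) ℝ (F n)) (q : F n)
    (I : Finset (Fin (n + 1))) (z : F n) :
    ‖Gm u b q I z‖ ≤ |z.fst| + ‖gX u z.snd - q‖ := by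
  unfold Gm
  refine (norm_add_le _ _).trans ?_
  rw [norm_smul, norm_Nv, mul_one, Real.norm_eq_abs]
  exact add_le_add_right (norm_Sm_le b I _) _

end Pool.Agent.H422IV
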