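import Mathlib
import Pool.Agent.H422IV.Top

/-!
# The Morse inequality for maxima and saddles on a hypersurface
-/

set_option autoImplicit false
set_option linter.unusedSectionVars false

open MeasureTheory Metric Set Filter Topology Matrix
open scoped ENNReal NNReal ContDiff

namespace Pool.Agent.H422IV

variable {n : ℕ}

namespace Atl

variable {M : Set (E (n + 1))} {κ : ℝ} {N : ℕ} (𝒜 : Atl M κ N)

/-- parameters of the maxima -/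
def Dmax (c₀ : E (n + 1)) (I : Finset (Fin (n + 1))) (R : ℝ) (k : Fin N) : Set (F n) :=
  {z | z.snd ∈ 𝒜.A k ∧ |z.fst| ≤ R ∧ (fderiv ℝ (𝒜.Gk c₀ I k) z).det ≠ 0 ∧ NegDef (𝒜.Kk I k z)}

/-- parameters of the saddles -/
def Dsad (c₀ : E (n + 1)) (I : Finset (Fin (n + 1))) (R : ℝ) (k : Fin N) : Set (F n) :=
  {z | z.snd ∈ 𝒜.A k ∧ |z.fst| ≤ R ∧ (fderiv ℝ (𝒜.Gk c₀ I k) z).det ≠ 0 ∧
    ¬ NegDef (𝒜.Kk I k z) ∧ ¬ Pos2 (𝒜.Kk I k z)}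

lemma isCompact_box (k : Fin N) (R : ℝ) :
    IsCompact {z : F n | |z.fst| ≤ R ∧ ‖z.snd‖ ≤ 𝒜.ρ k} := by
  refine Metric.isCompact_of_isClosed_isBounded ?_ ?_
  · exact (isClosed_le (continuous_abs.comp continuous_fstF) continuous_const).inter
      (isClosed_le (continuous_norm.comp continuous_sndF) continuous_const)
  · rw [Metric.isBounded_iff_subset_closedBall 0]
    refine ⟨R + 𝒜.ρ k, fun z hz => ?_⟩
    rw [mem_closedBall_zero_iff]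
    have h1 : ‖z‖ ^ 2 = ‖z.fst‖ ^ 2 + ‖z.snd‖ ^ 2 := WithLp.prod_norm_sq_eq_of_L2 z
    rw [Real.norm_eq_abs] at h1
    obtain ⟨h2, h3⟩ := hz
    have h4 := abs_nonneg z.fst
    have h5 := norm_nonneg z.snd
    have h6 : ‖z‖ ^ 2 ≤ (R + 𝒜.ρ k) ^ 2 := by nlinarith
    exact (sq_le_sq₀ (norm_nonneg _) (by linarith)).mp h6

/-- fibres -/
lemma finite_fib (c₀ : E (n + 1)) (I : Finset (Fin (n + 1))) (R : ℝ) (k : Fin N) (w : F n)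
    (hw : w ∉ 𝒜.Gk c₀ I k '' {z | (fderiv ℝ (𝒜.Gk c₀ I k) z).det = 0}) (D : Set (F n))
    (hD : D ⊆ {z : F n | |z.fst| ≤ R ∧ ‖z.snd‖ ≤ 𝒜.ρ k}) :
    (D ∩ 𝒜.Gk c₀ I k ⁻¹' {w}).Finite :=
  (finite_fiber _ (𝒜.contDiff_Gk c₀ I k) _ (𝒜.isCompact_box k R) w hw).subset
    (inter_subset_inter_left _ hD)

lemma fst_eq_of_fib (c₀ : E (n + 1)) (I : Finset (Fin (n + 1))) (k : Fin N) {z z' : F n}
    (h : 𝒜.Gk c₀ I k z = 𝒜.Gk c₀ I k z') (h2 : z.snd = z'.snd) : z = z' := by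
  have h3 : z.fst = z'.fst := by
    rw [Gm_fst (𝒜.u k) (𝒜.bb k) (𝒜.qq c₀ k) I z, Gm_fst (𝒜.u k) (𝒜.bb k) (𝒜.qq c₀ k) I z']
    change inner ℝ _ (𝒜.Gk c₀ I k z - _) = inner ℝ _ (𝒜.Gk c₀ I k z' - _)
    rw [h, h2]
  have e1 : z = WithLp.toLp 2 (z.fst, z.snd) := rfl
  have e2 : z' = WithLp.toLp 2 (z'.fst, z'.snd) := rfl
  rw [e1, e2, h2, h3]

lemma qq_norm (c₀ : E (n + 1)) (k : Fin N) (y : E n) :
    ‖gX (𝒜.u k) y - 𝒜.qq c₀ k‖ = ‖𝒜.X k y - c₀‖ := by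
  rw [← (𝒜.Q k).norm_map (𝒜.X k y - c₀)]
  congr 1
  unfold qq X rt
  rw [map_sub (𝒜.Q k) (𝒜.p k + _), map_add, LinearIsometryEquiv.apply_symm_apply, map_sub]
  abel

/-- nondegeneracy of the Hessian -/
lemma det_Kk_ne (c₀ : E (n + 1)) (I : Finset (Fin (n + 1))) (k : Fin N) {z : F n}
    (hz : (fderiv ℝ (𝒜.Gk c₀ I k) z).det ≠ 0) : (𝒜.Kk I k z).det ≠ 0 := by
  obtain ⟨V, μ, hpc⟩ := exists_PC (𝒜.u k) z.snd
  intro h0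
  apply hz
  rw [← abs_eq_zero]
  unfold Gk
  rw [det_Gm hpc (𝒜.bb k) (𝒜.qq c₀ k) I, ← conj_KM hpc, det_mul, det_mul]
  change _ * |_ * (𝒜.Kk I k z).det * _| = 0
  rw [h0]
  simp

/-- **Morse inequality** for the number of maxima. -/
theorem count_le (c₀ : E (n + 1)) (I : Finset (Fin (n + 1))) (R : ℝ) (w : E (n + 1))
    (hR : ∀ x ∈ M, ‖w‖ + ‖x - c₀‖ ≤ R)
    (hw : ∀ k, 𝒜.Q k w ∉ 𝒜.Gk c₀ I k '' {z | (fderiv ℝ (𝒜.Gk c₀ I k) z).det = 0}) :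
    ∑ k, cnt (𝒜.Gk c₀ I k) (𝒜.Dmax c₀ I R k) (𝒜.Q k w) ≤
      1 + ∑ k, cnt (𝒜.Gk c₀ I k) (𝒜.Dsad c₀ I R k) (𝒜.Q k w) := by
  classical
  have hsub1 : ∀ k, 𝒜.Dmax c₀ I R k ⊆ {z : F n | |z.fst| ≤ R ∧ ‖z.snd‖ ≤ 𝒜.ρ k} := by
    rintro k z ⟨h1, h2, -, -⟩
    exact ⟨h2, by simpa using 𝒜.A_subset k h1⟩
  have hsub2 : ∀ k, 𝒜.Dsad c₀ I R k ⊆ {z : F n | |z.fst| ≤ R ∧ ‖z.snd‖ ≤ 𝒜.ρ k} := by
    rintro k z ⟨h1, h2, -, -⟩
    exact ⟨h2, by simpa using 𝒜.A_subset k h1⟩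
  have hf1 := fun k => 𝒜.finite_fib c₀ I R k _ (hw k) _ (hsub1 k)
  have hf2 := fun k => 𝒜.finite_fib c₀ I R k _ (hw k) _ (hsub2 k)
  have hc1 : ∀ k, cnt (𝒜.Gk c₀ I k) (𝒜.Dmax c₀ I R k) (𝒜.Q k w) =
      (((hf1 k).toFinset.card : ℕ) : ℝ≥0∞) := by
    intro k
    unfold cnt
    rw [← Measure.count_apply_finset, Finite.coe_toFinset]
  have hc2 : ∀ k, cnt (𝒜.Gk c₀ I k) (𝒜.Dsad c₀ I R k) (𝒜.Q k w) =
      (((hf2 k).toFinset.card : ℕ) : ℝ≥0∞) := by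
    intro k
    unfold cnt
    rw [← Measure.count_apply_finset, Finite.coe_toFinset]
  obtain ⟨P, hPm, hPc⟩ := 𝒜.card_transfer (fun k => (hf1 k).toFinset)
    (fun k z hz => by
      rw [Finite.mem_toFinset] at hz
      exact hz.1.1)
    (fun k z hz z' hz' h => by
      rw [Finite.mem_toFinset] at hz hz'
      exact 𝒜.fst_eq_of_fib c₀ I k (hz.2.trans hz'.2.symm) h)
  obtain ⟨S, hSm, hSc⟩ := 𝒜.card_transfer (fun k => (hf2 k).toFinset)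
    (fun k z hz => by
      rw [Finite.mem_toFinset] at hz
      exact hz.1.1)
    (fun k z hz z' hz' h => by
      rw [Finite.mem_toFinset] at hz hz'
      exact 𝒜.fst_eq_of_fib c₀ I k (hz.2.trans hz'.2.symm) h)
  rw [Finset.sum_congr rfl fun k _ => hc1 k, Finset.sum_congr rfl fun k _ => hc2 k]
  suffices hmain : P.card ≤ S.card + 1 by
    rw [hPc, hSc] at hmain
    have h1 : ((∑ k, (hf1 k).toFinset.card : ℕ) : ℝ≥0∞) ≤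
        ((∑ k, (hf2 k).toFinset.card + 1 : ℕ) : ℝ≥0∞) := by exact_mod_cast hmain
    rw [Nat.cast_sum, Nat.cast_add, Nat.cast_sum, Nat.cast_one] at h1
    exact h1.trans (le_of_eq (add_comm _ _))
  -- the topological space
  have : LocallyPathConnectedSpace M := 𝒜.locallyPathConnected
  have : CompactSpace M := isCompact_iff_compactSpace.mp 𝒜.hM
  have : ConnectedSpace M := isConnected_iff_connectedSpace.mp 𝒜.hc
  have hfc : Continuous fun x : M => fw c₀ I w (x : E (n + 1)) :=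
    (continuous_fw c₀ I w).comp continuous_subtype_val
  -- superlevel sets in charts
  have hsup : ∀ (k : Fin N) (y₀ : E n) (x₀ : M), 𝒜.X k y₀ = x₀ → ∀ W : Set (E n),
      𝒜.img k W ∩ {x : M | fw c₀ I w (x₀ : E (n + 1)) < fw c₀ I w (x : E (n + 1))} =
      𝒜.img k (W ∩ {y | hf (𝒜.u k) (𝒜.bb k) (𝒜.qq c₀ k) I (𝒜.Q k w) y₀ <
        hf (𝒜.u k) (𝒜.bb k) (𝒜.qq c₀ k) I (𝒜.Q k w) y}) := by
    intro k y₀ x₀ hx W
    ext x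
    constructor
    · rintro ⟨⟨y, hy, hyx⟩, h2⟩
      refine ⟨y, ⟨hy, ?_⟩, hyx⟩
      rw [mem_ofPred_eq, ← hx, ← hyx] at h2
      exact (𝒜.fw_lt_iff c₀ I w k y₀ y).mp h2
    · rintro ⟨y, ⟨hy, hy2⟩, hyx⟩
      refine ⟨⟨y, hy, hyx⟩, ?_⟩
      rw [mem_ofPred_eq, ← hx, ← hyx]
      exact (𝒜.fw_lt_iff c₀ I w k y₀ y).mpr hy2
  have hsm : ∀ k, ContDiff ℝ 2 (hf (𝒜.u k) (𝒜.bb k) (𝒜.qq c₀ k) I (𝒜.Q k w)) := fun k =>
    (contDiff_hf _ _ _ _ _).of_le (by norm_cast)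
  -- critical points
  have hcp : ∀ (k : Fin N) (z : F n), 𝒜.Gk c₀ I k z = 𝒜.Q k w →
      fderiv ℝ (hf (𝒜.u k) (𝒜.bb k) (𝒜.qq c₀ k) I (𝒜.Q k w)) z.snd = 0 ∧
      Hs (hf (𝒜.u k) (𝒜.bb k) (𝒜.qq c₀ k) I (𝒜.Q k w)) z.snd = 𝒜.Kk I k z ∧
      (fderiv ℝ (𝒜.Gk c₀ I k) z).det ≠ 0 ∧ (𝒜.Kk I k z).det ≠ 0 := by
    intro k z hz
    have hz0 : (fderiv ℝ (𝒜.Gk c₀ I k) z).det ≠ 0 := fun h0 => hw k ⟨z, h0, hz⟩
    exact ⟨(crit_iff _ _ _ _ _ _).mpr ⟨z.fst, hz⟩, Hs_hf _ _ _ _ _ _ _ hz, hz0,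
      𝒜.det_Kk_ne c₀ I k hz0⟩
  have hgerm : ∀ (k : Fin N) (z : F n), 𝒜.Gk c₀ I k z = 𝒜.Q k w → _ := fun k z hz =>
    germ_crit (hsm k) (hcp k z hz).1 (by rw [(hcp k z hz).2.1]; exact KM_symm _ _ _ _ _)
      (by rw [(hcp k z hz).2.1]; exact (hcp k z hz).2.2.2)
  -- bound for the multiplier
  have hbd : ∀ (k : Fin N) (z : F n), z.snd ∈ 𝒜.A k → 𝒜.Gk c₀ I k z = 𝒜.Q k w → |z.fst| ≤ R := by
    intro k z hzA hz
    have h1 := abs_fst_le (𝒜.u k) (𝒜.bb k) (𝒜.qq c₀ k) I z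
    change |z.fst| ≤ ‖𝒜.Gk c₀ I k z‖ + _ at h1
    rw [hz, LinearIsometryEquiv.norm_map, 𝒜.qq_norm] at h1
    exact h1.trans (hR _ (𝒜.A_M k hzA))
  refine peaks_le (S := M) (fun x => fw c₀ I w (x : E (n + 1))) hfc P S ?_ ?_ ?_ ?_
  · -- maxima
    intro p hp
    obtain ⟨k, z, hz, hzp⟩ := (hPm p).mp hp
    rw [Finite.mem_toFinset] at hz
    obtain ⟨⟨hzA, hzR, hzd, hzN⟩, hzw⟩ := hz
    obtain ⟨W, hW, hWf⟩ := (hgerm k z hzw).1 (by rw [(hcp k z hzw).2.1]; exact hzN)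
    have hzρ : ‖z.snd‖ < 2 * 𝒜.ρ k := by
      have h1 : ‖z.snd‖ ≤ 𝒜.ρ k := by simpa using 𝒜.A_subset k hzA
      have := 𝒜.hρ k
      linarith
    refine ⟨𝒜.img k W, 𝒜.img_mem_nhds k hzp hzρ hW, ?_⟩
    rintro x ⟨y, hy, hyx⟩ hxp
    rw [← hzp, ← hyx]
    refine (𝒜.fw_lt_iff c₀ I w k y z.snd).mpr (hWf y hy ?_)
    rintro rfl
    apply hxp
    apply Subtype.ext
    rw [← hyx, hzp]
  · -- other points are limits of higher points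
    intro p hp
    obtain ⟨k, y, hyA, hyp, hy1, hy2⟩ := 𝒜.exists_chart p
    have hcl : y ∈ closure {y' | hf (𝒜.u k) (𝒜.bb k) (𝒜.qq c₀ k) I (𝒜.Q k w) y <
        hf (𝒜.u k) (𝒜.bb k) (𝒜.qq c₀ k) I (𝒜.Q k w) y'} := by
      by_cases hreg : fderiv ℝ (hf (𝒜.u k) (𝒜.bb k) (𝒜.qq c₀ k) I (𝒜.Q k w)) y = 0
      · obtain ⟨l, hl⟩ := (crit_iff _ _ _ _ _ _).mp hreg
        have hz : 𝒜.Gk c₀ I k (WithLp.toLp 2 (l, y)) = 𝒜.Q k w := hl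
        refine (hgerm k _ hz).2.1 ?_
        rw [(hcp k _ hz).2.1]
        intro hN
        apply hp
        rw [hPm]
        refine ⟨k, WithLp.toLp 2 (l, y), ?_, hyp⟩
        rw [Finite.mem_toFinset]
        exact ⟨⟨hyA, hbd k _ hyA hz, (hcp k _ hz).2.2.1, hN⟩, hz⟩
      · exact (germ_reg (hsm k) hreg).1
    refine 𝒜.mem_closure_img k hyp hy2 hcl fun y' hy' x hx => ?_
    rw [mem_ofPred_eq, ← hyp, ← hx]
    exact (𝒜.fw_lt_iff c₀ I w k y y').mpr hy'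
  · -- points which are neither maxima nor saddles
    intro p hp hpS
    obtain ⟨k, y, hyA, hyp, hy1, hy2⟩ := 𝒜.exists_chart p
    have hball : ball (0 : E n) (2 * 𝒜.ρ k) ∈ 𝓝 y := isOpen_ball.mem_nhds (by simpa using hy2)
    obtain ⟨W, hW, hWs, hWp⟩ : ∃ W ∈ 𝓝 y, W ⊆ ball (0 : E n) (2 * 𝒜.ρ k) ∧
        IsPreconnected (W ∩ {y' | hf (𝒜.u k) (𝒜.bb k) (𝒜.qq c₀ k) I (𝒜.Q k w) y <
          hf (𝒜.u k) (𝒜.bb k) (𝒜.qq c₀ k) I (𝒜.Q k w) y'}) := by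
      by_cases hreg : fderiv ℝ (hf (𝒜.u k) (𝒜.bb k) (𝒜.qq c₀ k) I (𝒜.Q k w)) y = 0
      · obtain ⟨l, hl⟩ := (crit_iff _ _ _ _ _ _).mp hreg
        have hz : 𝒜.Gk c₀ I k (WithLp.toLp 2 (l, y)) = 𝒜.Q k w := hl
        refine (hgerm k _ hz).2.2.1 ?_ _ hball
        rw [(hcp k _ hz).2.1]
        by_contra hP2
        have hN : ¬ NegDef (𝒜.Kk I k (WithLp.toLp 2 (l, y))) := by
          intro hN
          apply hp
          rw [hPm]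
          refine ⟨k, WithLp.toLp 2 (l, y), ?_, hyp⟩
          rw [Finite.mem_toFinset]
          exact ⟨⟨hyA, hbd k _ hyA hz, (hcp k _ hz).2.2.1, hN⟩, hz⟩
        apply hpS
        rw [hSm]
        refine ⟨k, WithLp.toLp 2 (l, y), ?_, hyp⟩
        rw [Finite.mem_toFinset]
        exact ⟨⟨hyA, hbd k _ hyA hz, (hcp k _ hz).2.2.1, hN, hP2⟩, hz⟩
      · exact (germ_reg (hsm k) hreg).2 _ hball
    refine ⟨𝒜.img k W, 𝒜.img_mem_nhds k hyp hy2 hW, ?_⟩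
    rw [hsup k y p hyp W]
    exact 𝒜.img_preconnected k (inter_subset_left.trans hWs) hWp
  · -- saddles
    intro q hq
    obtain ⟨k, z, hz, hzq⟩ := (hSm q).mp hq
    rw [Finite.mem_toFinset] at hz
    obtain ⟨⟨hzA, hzR, hzd, hzN, hzP⟩, hzw⟩ := hz
    have hzρ : ‖z.snd‖ < 2 * 𝒜.ρ k := by
      have h1 : ‖z.snd‖ ≤ 𝒜.ρ k := by simpa using 𝒜.A_subset k hzA
      have := 𝒜.hρ k
      linarith
    have hball : ball (0 : E n) (2 * 𝒜.ρ k) ∈ 𝓝 z.snd := isOpen_ball.mem_nhds (by simpa using hzρ)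
    obtain ⟨W, hW, hWs, C₁, C₂, hC1, hC2, hCu⟩ := (hgerm k z hzw).2.2.2
      (by rw [(hcp k z hzw).2.1]; exact hzP) _ hball
    have hCs : C₁ ∪ C₂ ⊆ ball (0 : E n) (2 * 𝒜.ρ k) := by
      rw [← hCu]
      exact fun y hy => hWs hy.1
    have hC1s : C₁ ⊆ ball (0 : E n) (2 * 𝒜.ρ k) := subset_union_left.trans hCs
    have hC2s : C₂ ⊆ ball (0 : E n) (2 * 𝒜.ρ k) := subset_union_right.trans hCs
    refine ⟨𝒜.img k W, 𝒜.img_mem_nhds k hzq hzρ hW, 𝒜.img k C₁, 𝒜.img k C₂,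
      𝒜.img_preconnected k hC1s hC1, 𝒜.img_preconnected k hC2s hC2, ?_⟩
    rw [hsup k z.snd q hzq W, hCu]
    ext x
    constructor
    · rintro ⟨y, hy | hy, hyx⟩
      · exact Or.inl ⟨y, hy, hyx⟩
      · exact Or.inr ⟨y, hy, hyx⟩
    · rintro (⟨y, hy, hyx⟩ | ⟨y, hy, hyx⟩)
      · exact ⟨y, Or.inl hy, hyx⟩
      · exact ⟨y, Or.inr hy, hyx⟩

end Atl

end Pool.Agent.H422IV
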