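import Mathlib
import Pool.Agent.H422IV.Count

/-!
# Measurability of the sets of maxima and saddles
-/

set_option autoImplicit false
set_option linter.unusedSectionVars false

open MeasureTheory Metric Set Filter Topology Matrix
open scoped ENNReal NNReal ContDiff

namespace Pool.Agent.H422IV

variable {n : ℕ}

/-- negative definiteness in terms of countably many closed conditions -/
lemma negDef_iff_exists (A : Matrix (Fin n) (Fin n) ℝ) : NegDef A ↔
    ∃ m : ℕ, ∀ v : Fin n → ℝ, v ⬝ᵥ A *ᵥ v ≤ -(1 / ((m : ℝ) + 1)) * (v ⬝ᵥ v) := by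
  constructor
  · intro hA
    have hq : ∀ (c : ℝ) (v : Fin n → ℝ), (c • v) ⬝ᵥ A *ᵥ (c • v) = c ^ 2 * (v ⬝ᵥ A *ᵥ v) := by
      intro c v
      rw [smul_dotProduct, mulVec_smul, dotProduct_smul, smul_eq_mul, smul_eq_mul]
      ring
    set f : E n → ℝ := fun v => -(v.ofLp ⬝ᵥ A *ᵥ v.ofLp) with hf
    have hfc : Continuous f := by
      have h1 : Continuous fun v : E n => v.ofLp := PiLp.continuous_ofLp 2 _
      exact (h1.dotProduct (continuous_const.matrix_mulVec h1)).neg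
    have hpos : ∀ v ∈ sphere (0 : E n) 1, 0 < f v := by
      intro v hv
      have hv0 : v.ofLp ≠ 0 := by
        intro h0
        have h1 : v = 0 := by
          ext i
          exact congrFun h0 i
        rw [mem_sphere_zero_iff_norm, h1, norm_zero] at hv
        exact zero_ne_one hv
      have := hA v.ofLp hv0
      simp only [hf]
      linarith
    obtain ⟨c, hc, hcf⟩ : ∃ c : ℝ, 0 < c ∧ ∀ v ∈ sphere (0 : E n) 1, c ≤ f v := by
      rcases (sphere (0 : E n) 1).eq_empty_or_nonempty with he | hne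
      · exact ⟨1, one_pos, fun v hv => by rw [he] at hv; exact absurd hv (notMem_empty v)⟩
      · obtain ⟨v₀, hv₀, hmin⟩ := (isCompact_sphere (0 : E n) 1).exists_isMinOn hne
          hfc.continuousOn
        exact ⟨f v₀, hpos v₀ hv₀, fun v hv => hmin hv⟩
    obtain ⟨m, hm⟩ := exists_nat_one_div_lt hc
    refine ⟨m, fun v => ?_⟩
    rcases eq_or_ne v 0 with rfl | hv
    · simp
    · set v' : E n := WithLp.toLp 2 v with hv'
      have hv'0 : v' ≠ 0 := by
        intro h0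
        apply hv
        funext i
        exact congrFun (congrArg WithLp.ofLp h0) i
      have hn : 0 < ‖v'‖ := norm_pos_iff.mpr hv'0
      have hs : ‖v'‖⁻¹ • v' ∈ sphere (0 : E n) 1 := by
        rw [mem_sphere_zero_iff_norm, norm_smul, norm_inv, norm_norm, inv_mul_cancel₀ hn.ne']
      have h1 := hcf _ hs
      have h2 : f (‖v'‖⁻¹ • v') = -(‖v'‖⁻¹ ^ 2 * (v ⬝ᵥ A *ᵥ v)) := by
        simp only [hf]
        have e1 : (‖v'‖⁻¹ • v').ofLp = ‖v'‖⁻¹ • v := rfl
        rw [e1, hq]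
      rw [h2] at h1
      have h3 : v ⬝ᵥ v = ‖v'‖ ^ 2 := by
        rw [EuclideanSpace.norm_sq_eq]
        rw [dotProduct]
        refine Finset.sum_congr rfl fun i _ => ?_
        rw [Real.norm_eq_abs, sq_abs, sq]
      rw [h3]
      have h4 : v ⬝ᵥ A *ᵥ v ≤ -(c * ‖v'‖ ^ 2) := by
        have h5 : ‖v'‖⁻¹ ^ 2 * (v ⬝ᵥ A *ᵥ v) ≤ -c := by linarith
        have h6 := mul_le_mul_of_nonneg_left h5 (sq_nonneg ‖v'‖)
        have h7 : ‖v'‖ ^ 2 * (‖v'‖⁻¹ ^ 2 * (v ⬝ᵥ A *ᵥ v)) = v ⬝ᵥ A *ᵥ v := by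
          field_simp
        rw [h7] at h6
        linarith
      have h8 : 1 / ((m : ℝ) + 1) * ‖v'‖ ^ 2 ≤ c * ‖v'‖ ^ 2 :=
        mul_le_mul_of_nonneg_right hm.le (sq_nonneg _)
      linarith
  · rintro ⟨m, hm⟩ v hv
    have h1 : 0 < v ⬝ᵥ v := by
      have h0 : 0 ≤ v ⬝ᵥ v := Finset.sum_nonneg fun i _ => mul_self_nonneg (v i)
      rcases lt_or_eq_of_le h0 with h | h
      · exact h
      · exact absurd (dotProduct_self_eq_zero.mp h.symm) hv
    have h2 : 0 < 1 / ((m : ℝ) + 1) := by positivity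
    have h3 := hm v
    have h4 := mul_pos h2 h1
    linarith

/-- positivity on a plane in terms of open conditions -/
lemma pos2_vec_iff (A : Matrix (Fin n) (Fin n) ℝ) (v w : Fin n → ℝ) :
    (∀ s t : ℝ, (s ≠ 0 ∨ t ≠ 0) → 0 < (s • v + t • w) ⬝ᵥ A *ᵥ (s • v + t • w)) ↔
      0 < v ⬝ᵥ A *ᵥ v ∧
        0 < (v ⬝ᵥ A *ᵥ v) * (w ⬝ᵥ A *ᵥ w) - ((v ⬝ᵥ A *ᵥ w + w ⬝ᵥ A *ᵥ v) / 2) ^ 2 := by
  set a := v ⬝ᵥ A *ᵥ v with ha
  set c := w ⬝ᵥ A *ᵥ w with hc
  set b := (v ⬝ᵥ A *ᵥ w + w ⬝ᵥ A *ᵥ v) / 2 with hb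
  have hq : ∀ s t : ℝ, (s • v + t • w) ⬝ᵥ A *ᵥ (s • v + t • w) =
      s ^ 2 * a + 2 * (s * t * b) + t ^ 2 * c := by
    intro s t
    simp only [mulVec_add, mulVec_smul, add_dotProduct, dotProduct_add, smul_dotProduct,
      dotProduct_smul, smul_eq_mul]
    rw [ha, hc, hb]
    ring
  constructor
  · intro h
    have h1 : 0 < a := by
      have := h 1 0 (Or.inl one_ne_zero)
      rw [hq] at this
      linarith
    refine ⟨h1, ?_⟩
    have h2 := h (-b) a (Or.inr h1.ne')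
    rw [hq] at h2
    have h3 : (-b) ^ 2 * a + 2 * (-b * a * b) + a ^ 2 * c = a * (a * c - b ^ 2) := by ring
    rw [h3] at h2
    exact (mul_pos_iff_of_pos_left h1).mp h2
  · rintro ⟨h1, h2⟩ s t hst
    rw [hq]
    have h3 : 0 < a * (s ^ 2 * a + 2 * (s * t * b) + t ^ 2 * c) := by
      have h4 : a * (s ^ 2 * a + 2 * (s * t * b) + t ^ 2 * c) =
          (s * a + t * b) ^ 2 + t ^ 2 * (a * c - b ^ 2) := by ring
      rw [h4]
      rcases eq_or_ne t 0 with rfl | ht
      · have hs : s ≠ 0 := by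
          rcases hst with h | h
          · exact h
          · exact absurd rfl h
        have : 0 < (s * a) ^ 2 := by positivity
        nlinarith
      · have h5 : 0 < t ^ 2 := by positivity
        have := mul_pos h5 h2
        nlinarith [sq_nonneg (s * a + t * b)]
    exact (mul_pos_iff_of_pos_left h1).mp h3

section meas

variable {Z : Type} [TopologicalSpace Z] [MeasurableSpace Z] [OpensMeasurableSpace Z]

lemma continuous_quad {K : Z → Matrix (Fin n) (Fin n) ℝ} (hK : Continuous K) (v w : Fin n → ℝ) :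
    Continuous fun z => v ⬝ᵥ K z *ᵥ w :=
  continuous_const.dotProduct (hK.matrix_mulVec continuous_const)

lemma measurableSet_negDef {K : Z → Matrix (Fin n) (Fin n) ℝ} (hK : Continuous K) :
    MeasurableSet {z | NegDef (K z)} := by
  have h1 : {z | NegDef (K z)} = ⋃ m : ℕ, ⋂ v : Fin n → ℝ,
      {z | v ⬝ᵥ K z *ᵥ v ≤ -(1 / ((m : ℝ) + 1)) * (v ⬝ᵥ v)} := by
    ext z
    rw [mem_ofPred_eq, negDef_iff_exists]
    simp only [mem_iUnion, mem_iInter, mem_ofPred_eq]
  rw [h1]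
  refine MeasurableSet.iUnion fun m => IsClosed.measurableSet (isClosed_iInter fun v => ?_)
  exact isClosed_le (continuous_quad hK v v) continuous_const

lemma measurableSet_pos2 {K : Z → Matrix (Fin n) (Fin n) ℝ} (hK : Continuous K) :
    MeasurableSet {z | Pos2 (K z)} := by
  have h1 : {z | Pos2 (K z)} = ⋃ v : Fin n → ℝ, ⋃ w : Fin n → ℝ,
      {z | 0 < v ⬝ᵥ K z *ᵥ v ∧ 0 < (v ⬝ᵥ K z *ᵥ v) * (w ⬝ᵥ K z *ᵥ w) -
        ((v ⬝ᵥ K z *ᵥ w + w ⬝ᵥ K z *ᵥ v) / 2) ^ 2} := by
    ext z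
    simp only [mem_iUnion, mem_ofPred_eq]
    unfold Pos2
    simp only [pos2_vec_iff]
  rw [h1]
  refine IsOpen.measurableSet (isOpen_iUnion fun v => isOpen_iUnion fun w => ?_)
  have hvv := continuous_quad hK v v
  have hww := continuous_quad hK w w
  have hvw := continuous_quad hK v w
  have hwv := continuous_quad hK w v
  have h2 : Continuous fun z => (v ⬝ᵥ K z *ᵥ v) * (w ⬝ᵥ K z *ᵥ w) -
      ((v ⬝ᵥ K z *ᵥ w + w ⬝ᵥ K z *ᵥ v) / 2) ^ 2 :=
    (hvv.mul hww).sub (((hvw.add hwv).div_const 2).pow 2)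
  exact (isOpen_lt continuous_const hvv).inter (isOpen_lt continuous_const h2)

end meas

lemma continuous_KM (u : SR n) (ε : Fin (n + 1) → F n) (I : Finset (Fin (n + 1))) :
    Continuous fun z : F n => KM u ε I z.fst z.snd := by
  have h1 : Continuous fun z : F n => Hs (fn u) z.snd := by
    refine continuous_matrix fun i j => ?_
    exact (fn_smooth (DD i (DD j u))).continuous.comp continuous_sndF
  have h2 : Continuous fun z : F n => wf (fn u) z.snd :=
    (contDiff_wf u).continuous.comp continuous_sndF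
  have h3 : ∀ i, Continuous fun z : F n => kap (fn u) z.snd (ε i) := by
    intro i
    refine continuous_pi fun a => ?_
    have h4 : ∀ z : F n, kap (fn u) z.snd (ε i) a = (ε i).fst * fn (DD a u) z.snd +
        inner ℝ (ε i).snd (EuclideanSpace.single a 1 : E n) := by
      intro z
      unfold kap
      rw [inner_F]
      rfl
    simp_rw [h4]
    exact (continuous_const.mul ((fn_smooth (DD a u)).continuous.comp continuous_sndF)).add
      continuous_const
  unfold KM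
  refine (continuous_fstF.smul (h2.smul h1)).sub ?_
  refine continuous_finsetSum _ fun i _ => ?_
  exact (h3 i).matrix_vecMulVec (h3 i)

namespace Atl

variable {M : Set (E (n + 1))} {κ : ℝ} {N : ℕ} (𝒜 : Atl M κ N)

lemma continuous_det (c₀ : E (n + 1)) (I : Finset (Fin (n + 1))) (k : Fin N) :
    Continuous fun z => (fderiv ℝ (𝒜.Gk c₀ I k) z).det :=
  ContinuousLinearMap.continuous_det.comp ((𝒜.contDiff_Gk c₀ I k).continuous_fderiv (by norm_num))

lemma measurableSet_strip (k : Fin N) (R : ℝ) :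
    MeasurableSet {z : F n | z.snd ∈ 𝒜.A k ∧ |z.fst| ≤ R} := by
  refine MeasurableSet.inter ?_ ?_
  · exact continuous_sndF.measurable (𝒜.measurableSet_A k)
  · exact (isClosed_le (continuous_abs.comp continuous_fstF) continuous_const).measurableSet

lemma measurableSet_Dmax (c₀ : E (n + 1)) (I : Finset (Fin (n + 1))) (R : ℝ) (k : Fin N) :
    MeasurableSet (𝒜.Dmax c₀ I R k) := by
  have h1 : 𝒜.Dmax c₀ I R k = {z : F n | z.snd ∈ 𝒜.A k ∧ |z.fst| ≤ R} ∩
      ({z | (fderiv ℝ (𝒜.Gk c₀ I k) z).det ≠ 0} ∩ {z | NegDef (𝒜.Kk I k z)}) := by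
    ext z
    simp only [Dmax, mem_inter_iff, mem_ofPred_eq]
    tauto
  rw [h1]
  refine (𝒜.measurableSet_strip k R).inter (MeasurableSet.inter ?_ ?_)
  · exact (isOpen_ne_fun (𝒜.continuous_det c₀ I k) continuous_const).measurableSet
  · exact measurableSet_negDef (continuous_KM _ _ _)

lemma measurableSet_Dsad (c₀ : E (n + 1)) (I : Finset (Fin (n + 1))) (R : ℝ) (k : Fin N) :
    MeasurableSet (𝒜.Dsad c₀ I R k) := by
  have h1 : 𝒜.Dsad c₀ I R k = {z : F n | z.snd ∈ 𝒜.A k ∧ |z.fst| ≤ R} ∩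
      ({z | (fderiv ℝ (𝒜.Gk c₀ I k) z).det ≠ 0} ∩
        ({z | NegDef (𝒜.Kk I k z)}ᶜ ∩ {z | Pos2 (𝒜.Kk I k z)}ᶜ)) := by
    ext z
    simp only [Dsad, mem_inter_iff, mem_ofPred_eq, mem_compl_iff]
    tauto
  rw [h1]
  refine (𝒜.measurableSet_strip k R).inter (MeasurableSet.inter ?_ (MeasurableSet.inter ?_ ?_))
  · exact (isOpen_ne_fun (𝒜.continuous_det c₀ I k) continuous_const).measurableSet
  · exact (measurableSet_negDef (continuous_KM _ _ _)).compl
  · exact (measurableSet_pos2 (continuous_KM _ _ _)).compl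

end Atl

end Pool.Agent.H422IV
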