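import Mathlib
import Pool.Agent.H422IV.Meas
import Pool.Agent.H422IV.Alg2

/-!
# The integrated Morse inequality and the curvature estimate
-/

set_option autoImplicit false
set_option linter.unusedSectionVars false

open MeasureTheory Metric Set Filter Topology Matrix
open scoped ENNReal NNReal ContDiff

namespace Pool.Agent.H422IV

variable {n : ℕ}

/-- Tonelli's theorem on `ℝ × ℝⁿ` -/
lemma lintegral_F (f : F n → ℝ≥0∞) (hf : Measurable f) :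
    ∫⁻ z, f z = ∫⁻ y : E n, ∫⁻ l : ℝ, f (WithLp.toLp 2 (l, y)) := by
  have h1 : MeasurePreserving (WithLp.toLp (V := ℝ × E n) 2) :=
    WithLp.volume_preserving_toLp ℝ (E n)
  rw [← h1.lintegral_comp hf, Measure.volume_eq_prod]
  exact lintegral_prod_symm' _ (hf.comp h1.measurable)

/-- linearity of the integral -/
lemma lintegral_comb {α ι : Type} [MeasurableSpace α] (μ : Measure α) (c : ℝ≥0∞) (f : α → ℝ≥0∞)
    (hf : Measurable f) (s : Finset ι) (g : ι → α → ℝ≥0∞) (hg : ∀ i, Measurable (g i)) :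
    ∫⁻ a, c * (f a + ∑ i ∈ s, g i a) ∂μ = c * (∫⁻ a, f a ∂μ + ∑ i ∈ s, ∫⁻ a, g i a ∂μ) := by
  have hm : Measurable fun a => ∑ i ∈ s, g i a := Finset.measurable_fun_sum _ fun i _ => hg i
  have h1 : Measurable fun a => f a + ∑ i ∈ s, g i a := hf.add hm
  rw [lintegral_const_mul c h1, lintegral_add_left hf, lintegral_finsetSum _ fun i _ => hg i]

namespace Atl

variable {M : Set (E (n + 1))} {κ : ℝ} {N : ℕ} (𝒜 : Atl M κ N)

/-- the Jacobian -/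
noncomputable def Jk (c₀ : E (n + 1)) (I : Finset (Fin (n + 1))) (k : Fin N) (z : F n) : ℝ≥0∞ :=
  ENNReal.ofReal |(fderiv ℝ (𝒜.Gk c₀ I k) z).det|

lemma measurable_Jk (c₀ : E (n + 1)) (I : Finset (Fin (n + 1))) (k : Fin N) :
    Measurable (𝒜.Jk c₀ I k) :=
  (ENNReal.continuous_ofReal.comp (continuous_abs.comp (𝒜.continuous_det c₀ I k))).measurable

/-- the integrated Morse inequality -/
theorem int_count (c₀ : E (n + 1)) (I : Finset (Fin (n + 1))) (D : ℝ) (hD0 : 0 ≤ D)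
    (hD : ∀ x ∈ M, ‖x - c₀‖ ≤ D) :
    ∑ k, ∫⁻ z in 𝒜.Dmax c₀ I 1 k, 𝒜.Jk c₀ I k z ≤
      volume (ball (0 : E (n + 1)) (D + 2)) +
        ∑ k, ∫⁻ z in 𝒜.Dsad c₀ I (2 * D + 2) k, 𝒜.Jk c₀ I k z := by
  set R : ℝ := 2 * D + 2 with hR
  set B : Set (E (n + 1)) := ball 0 (D + 2) with hB
  set B' : Set (F n) := ball 0 (D + 2) with hB'
  have hpre : ∀ k, 𝒜.Q k ⁻¹' B' = B := by
    intro k
    ext w
    rw [mem_preimage, hB, hB', mem_ball_zero_iff, mem_ball_zero_iff, LinearIsometryEquiv.norm_map]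
  have hcm : ∀ (k : Fin N) (S : Set (F n)), MeasurableSet S →
      (∀ z ∈ S, (fderiv ℝ (𝒜.Gk c₀ I k) z).det ≠ 0) →
      Measurable (cnt (𝒜.Gk c₀ I k) S) ∧
      ∫⁻ w in B, cnt (𝒜.Gk c₀ I k) S (𝒜.Q k w) = ∫⁻ z in S ∩ 𝒜.Gk c₀ I k ⁻¹' B', 𝒜.Jk c₀ I k z := by
    intro k S hS hdet
    have h1 := (area _ (𝒜.contDiff_Gk c₀ I k) S hS hdet).1
    refine ⟨h1, ?_⟩
    rw [← hpre k, (𝒜.Q k).measurePreserving.setLIntegral_comp_preimage measurableSet_ball h1]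
    exact area_on _ (𝒜.contDiff_Gk c₀ I k) S hS hdet B' measurableSet_ball
  have hmax := fun k => hcm k (𝒜.Dmax c₀ I R k) (𝒜.measurableSet_Dmax c₀ I R k)
    (fun z hz => hz.2.2.1)
  have hsad := fun k => hcm k (𝒜.Dsad c₀ I R k) (𝒜.measurableSet_Dsad c₀ I R k)
    (fun z hz => hz.2.2.1)
  -- almost all values are regular
  have hreg : ∀ᵐ w : E (n + 1), ∀ k,
      𝒜.Q k w ∉ 𝒜.Gk c₀ I k '' {z | (fderiv ℝ (𝒜.Gk c₀ I k) z).det = 0} := by
    rw [ae_all_iff]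
    intro k
    have h1 := sard (𝒜.Gk c₀ I k) (𝒜.contDiff_Gk c₀ I k)
    have h2 := (𝒜.Q k).measurePreserving.quasiMeasurePreserving.preimage_null h1
    exact measure_eq_zero_iff_ae_notMem.mp h2
  have hQm : ∀ k, Measurable (𝒜.Q k) := fun k => (𝒜.Q k).continuous.measurable
  have hkey : ∫⁻ w in B, ∑ k, cnt (𝒜.Gk c₀ I k) (𝒜.Dmax c₀ I R k) (𝒜.Q k w) ≤
      ∫⁻ w in B, (1 + ∑ k, cnt (𝒜.Gk c₀ I k) (𝒜.Dsad c₀ I R k) (𝒜.Q k w)) := by
    refine lintegral_mono_ae ?_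
    rw [ae_restrict_iff' measurableSet_ball]
    filter_upwards [hreg] with w hw hwB
    refine 𝒜.count_le c₀ I R w (fun x hx => ?_) hw
    rw [mem_ball_zero_iff] at hwB
    have := hD x hx
    linarith
  have e1 : ∫⁻ w in B, ∑ k, cnt (𝒜.Gk c₀ I k) (𝒜.Dmax c₀ I R k) (𝒜.Q k w) =
      ∑ k, ∫⁻ w in B, cnt (𝒜.Gk c₀ I k) (𝒜.Dmax c₀ I R k) (𝒜.Q k w) :=
    lintegral_finsetSum _ fun k _ => ((hmax k).1.comp (hQm k))
  have e2 : ∫⁻ w in B, ∑ k, cnt (𝒜.Gk c₀ I k) (𝒜.Dsad c₀ I R k) (𝒜.Q k w) =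
      ∑ k, ∫⁻ w in B, cnt (𝒜.Gk c₀ I k) (𝒜.Dsad c₀ I R k) (𝒜.Q k w) :=
    lintegral_finsetSum _ fun k _ => ((hsad k).1.comp (hQm k))
  rw [e1, lintegral_add_left measurable_const, e2, lintegral_const, one_mul,
    Measure.restrict_apply_univ] at hkey
  calc ∑ k, ∫⁻ z in 𝒜.Dmax c₀ I 1 k, 𝒜.Jk c₀ I k z
      ≤ ∑ k, ∫⁻ w in B, cnt (𝒜.Gk c₀ I k) (𝒜.Dmax c₀ I R k) (𝒜.Q k w) := by
        refine Finset.sum_le_sum fun k _ => ?_
        rw [(hmax k).2]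
        refine lintegral_mono_set ?_
        rintro z ⟨h1, h2, h3, h4⟩
        refine ⟨⟨h1, by linarith, h3, h4⟩, ?_⟩
        rw [mem_preimage, hB', mem_ball_zero_iff]
        have h5 := norm_Gm_le (𝒜.u k) (𝒜.bb k) (𝒜.qq c₀ k) I z
        rw [𝒜.qq_norm] at h5
        have h6 := hD _ (𝒜.A_M k h1)
        change ‖𝒜.Gk c₀ I k z‖ ≤ _ at h5
        linarith
    _ ≤ volume B + ∑ k, ∫⁻ w in B, cnt (𝒜.Gk c₀ I k) (𝒜.Dsad c₀ I R k) (𝒜.Q k w) := hkey
    _ ≤ _ := by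
        gcongr with k _
        rw [(hsad k).2]
        exact lintegral_mono_set inter_subset_left

/-- the integrals over the pieces -/
noncomputable def ia (k : Fin N) : ℝ := ∫ y in 𝒜.A k, (wf (fn (𝒜.u k)) y)⁻¹ * FE (fn (𝒜.u k)) y

/-- the volumes of the pieces -/
noncomputable def iv (k : Fin N) : ℝ := ∫ y in 𝒜.A k, (wf (fn (𝒜.u k)) y)⁻¹

lemma integrable_piece (k : Fin N) {f : E n → ℝ} (hf : Continuous f) :
    Integrable f (volume.restrict (𝒜.A k)) :=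
  (hf.continuousOn.integrableOn_compact (isCompact_closedBall (0 : E n) (𝒜.ρ k))).mono_set
    (𝒜.A_subset k)

lemma continuous_wFE (k : Fin N) :
    Continuous fun y => (wf (fn (𝒜.u k)) y)⁻¹ * FE (fn (𝒜.u k)) y :=
  (continuous_wf_inv _).mul (FE_continuous _)

lemma wf_inv_nonneg (k : Fin N) (y : E n) : 0 ≤ (wf (fn (𝒜.u k)) y)⁻¹ :=
  (inv_pos.mpr (wf_pos _ _)).le

lemma wFE_nonneg (k : Fin N) (y : E n) : 0 ≤ (wf (fn (𝒜.u k)) y)⁻¹ * FE (fn (𝒜.u k)) y :=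
  mul_nonneg (𝒜.wf_inv_nonneg k y) (FE_nonneg _ _)

lemma ia_nonneg (k : Fin N) : 0 ≤ 𝒜.ia k :=
  integral_nonneg fun y => 𝒜.wFE_nonneg k y

lemma iv_nonneg (k : Fin N) : 0 ≤ 𝒜.iv k :=
  integral_nonneg fun y => 𝒜.wf_inv_nonneg k y

lemma lint_wFE (k : Fin N) : ∫⁻ y in 𝒜.A k,
    ENNReal.ofReal ((wf (fn (𝒜.u k)) y)⁻¹ * FE (fn (𝒜.u k)) y) = ENNReal.ofReal (𝒜.ia k) := by
  rw [ia, ofReal_integral_eq_lintegral_ofReal (𝒜.integrable_piece k (𝒜.continuous_wFE k))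
    (ae_of_all _ (𝒜.wFE_nonneg k))]

lemma lint_wf (k : Fin N) : ∫⁻ y in 𝒜.A k, ENNReal.ofReal ((wf (fn (𝒜.u k)) y)⁻¹) =
    ENNReal.ofReal (𝒜.iv k) := by
  rw [iv, ofReal_integral_eq_lintegral_ofReal (𝒜.integrable_piece k (continuous_wf_inv _))
    (ae_of_all _ (𝒜.wf_inv_nonneg k))]

lemma pair_bound (k : Fin N) {y : E n} (hy : y ∈ 𝒜.A k) {V : Matrix (Fin n) (Fin n) ℝ}
    {μ : Fin n → ℝ} (hpc : PC (𝒜.u k) y V μ) (a b : Fin n) (hab : a ≠ b) :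
    -|κ| ≤ μ a * μ b :=
  (neg_abs_le κ).trans (hpc.pair (𝒜.hsec k y (𝒜.A_subset k hy)) a b hab)

/-- the contribution of the maxima in adapted frames -/
lemma ind_Dmax (c₀ : E (n + 1)) (I : Finset (Fin (n + 1))) (k : Fin N) {y : E n} (hy : y ∈ 𝒜.A k)
    {l : ℝ} (hl : |l| ≤ 1) {V : Matrix (Fin n) (Fin n) ℝ} {μ : Fin n → ℝ}
    (hpc : PC (𝒜.u k) y V μ) :
    ENNReal.ofReal ((wf (fn (𝒜.u k)) y)⁻¹ * gmx μ (cf (𝒜.u k) y (𝒜.bb k) V) I l) ≤
      (𝒜.Dmax c₀ I 1 k).indicator (𝒜.Jk c₀ I k) (WithLp.toLp 2 (l, y)) := by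
  classical
  set z : F n := WithLp.toLp 2 (l, y) with hz
  have hdet : |(fderiv ℝ (𝒜.Gk c₀ I k) z).det| =
      (wf (fn (𝒜.u k)) y)⁻¹ * |(Dm μ (cf (𝒜.u k) y (𝒜.bb k) V) I l).det| :=
    det_Gm (z := z) hpc (𝒜.bb k) (𝒜.qq c₀ k) I
  by_cases hN : NegDef (Dm μ (cf (𝒜.u k) y (𝒜.bb k) V) I l)
  · have h1 : gmx μ (cf (𝒜.u k) y (𝒜.bb k) V) I l = |(Dm μ (cf (𝒜.u k) y (𝒜.bb k) V) I l).det| := by
      unfold gmx
      rw [if_pos hN]
    rw [h1, ← hdet]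
    by_cases h0 : (fderiv ℝ (𝒜.Gk c₀ I k) z).det = 0
    · rw [h0, abs_zero, ENNReal.ofReal_zero]
      exact zero_le
    · have hzD : z ∈ 𝒜.Dmax c₀ I 1 k := by
        refine ⟨hy, hl, h0, ?_⟩
        rw [← conj_KM hpc] at hN
        exact (hpc.negDef_iff _).mp hN
      rw [indicator_of_mem hzD]
      exact le_refl _
  · have h1 : gmx μ (cf (𝒜.u k) y (𝒜.bb k) V) I l = 0 := by
      unfold gmx
      rw [if_neg hN]
    rw [h1, mul_zero, ENNReal.ofReal_zero]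
    exact zero_le

/-- lower bound for the contribution of the maxima -/
theorem lower (c₀ : E (n + 1)) (k : Fin N) {C1 : ℝ} (hC1 : 0 ≤ C1)
    (hE : ∀ (μ : Fin n → ℝ) (c : Fin (n + 1) → Fin n → ℝ),
      (∀ a b, a ≠ b → -|κ| ≤ μ a * μ b) → SI c Finset.univ = 1 → ∀ τ : ℝ, 1 / 2 ≤ τ → τ ≤ 1 →
      E2 μ ≤ C1 * (1 + ∑ I ∈ IF n, (gmx μ c I τ + gmx μ c I (-τ)))) :
    ENNReal.ofReal (𝒜.ia k) * ENNReal.ofReal (1 / 2) ≤
      ENNReal.ofReal C1 * (ENNReal.ofReal (𝒜.iv k) * ENNReal.ofReal (1 / 2) +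
        ∑ I ∈ IF n, 2 * ∫⁻ z in 𝒜.Dmax c₀ I 1 k, 𝒜.Jk c₀ I k z) := by
  classical
  set G : Finset (Fin (n + 1)) → F n → ℝ≥0∞ := fun I =>
    (𝒜.Dmax c₀ I 1 k).indicator (𝒜.Jk c₀ I k) with hG
  have hGm : ∀ I, Measurable (G I) := fun I =>
    (𝒜.measurable_Jk c₀ I k).indicator (𝒜.measurableSet_Dmax c₀ I 1 k)
  have htl : ∀ y : E n, Continuous fun l : ℝ => (WithLp.toLp 2 (l, y) : F n) := fun y =>
    (WithLp.prod_continuous_toLp 2 ℝ (E n)).comp (continuous_id.prodMk continuous_const)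
  have hGy : ∀ I (y : E n), Measurable fun l : ℝ => G I (WithLp.toLp 2 (l, y)) := fun I y =>
    (hGm I).comp (htl y).measurable
  set w' : E n → ℝ := fun y => (wf (fn (𝒜.u k)) y)⁻¹ with hw'
  -- pointwise estimate
  have hpt : ∀ y ∈ 𝒜.A k, ∀ τ ∈ Icc (1 / 2 : ℝ) 1,
      ENNReal.ofReal (w' y * FE (fn (𝒜.u k)) y) ≤ ENNReal.ofReal C1 * (ENNReal.ofReal (w' y) +
        ∑ I ∈ IF n, (G I (WithLp.toLp 2 (τ, y)) + G I (WithLp.toLp 2 (-τ, y)))) := by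
    intro y hy τ hτ
    obtain ⟨V, μ, hpc⟩ := exists_PC (𝒜.u k) y
    have hw0 : 0 ≤ w' y := 𝒜.wf_inv_nonneg k y
    have h1 := hE μ (cf (𝒜.u k) y (𝒜.bb k) V) (fun a b hab => 𝒜.pair_bound k hy hpc a b hab)
      (SI_cf hpc (𝒜.bb k)) τ hτ.1 hτ.2
    have h2 : w' y * FE (fn (𝒜.u k)) y ≤ C1 * (w' y + ∑ I ∈ IF n,
        (w' y * gmx μ (cf (𝒜.u k) y (𝒜.bb k) V) I τ +
          w' y * gmx μ (cf (𝒜.u k) y (𝒜.bb k) V) I (-τ))) := by
      have h3 := mul_le_mul_of_nonneg_left (hpc.FE_le.trans h1) hw0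
      refine h3.trans (le_of_eq ?_)
      rw [Finset.sum_congr rfl fun I _ => (mul_add (w' y) _ _).symm, ← Finset.mul_sum]
      ring
    have hg0 : ∀ I l, 0 ≤ w' y * gmx μ (cf (𝒜.u k) y (𝒜.bb k) V) I l := fun I l =>
      mul_nonneg hw0 (gmx_nonneg _ _ _ _)
    refine (ENNReal.ofReal_le_ofReal h2).trans ?_
    rw [ENNReal.ofReal_mul hC1, ENNReal.ofReal_add hw0
      (Finset.sum_nonneg fun I _ => add_nonneg (hg0 I _) (hg0 I _)),
      ENNReal.ofReal_sum_of_nonneg fun I _ => add_nonneg (hg0 I _) (hg0 I _)]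
    gcongr with I _
    rw [ENNReal.ofReal_add (hg0 I _) (hg0 I _)]
    have ha : |τ| ≤ 1 := abs_le.mpr ⟨by linarith [hτ.1], hτ.2⟩
    exact add_le_add (𝒜.ind_Dmax c₀ I k hy ha hpc)
      (𝒜.ind_Dmax c₀ I k hy (by rwa [abs_neg]) hpc)
  -- integration over `τ`
  have hvol : volume (Icc (1 / 2 : ℝ) 1) = ENNReal.ofReal (1 / 2) := by
    rw [Real.volume_Icc]
    norm_num
  have hτ : ∀ y ∈ 𝒜.A k, ENNReal.ofReal (w' y * FE (fn (𝒜.u k)) y) * ENNReal.ofReal (1 / 2) ≤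
      ENNReal.ofReal C1 * (ENNReal.ofReal (w' y) * ENNReal.ofReal (1 / 2) +
        ∑ I ∈ IF n, 2 * ∫⁻ l : ℝ, G I (WithLp.toLp 2 (l, y))) := by
    intro y hy
    have h1 : ∫⁻ _ in Icc (1 / 2 : ℝ) 1, ENNReal.ofReal (w' y * FE (fn (𝒜.u k)) y) ≤
        ∫⁻ τ in Icc (1 / 2 : ℝ) 1, ENNReal.ofReal C1 * (ENNReal.ofReal (w' y) +
        ∑ I ∈ IF n, (G I (WithLp.toLp 2 (τ, y)) + G I (WithLp.toLp 2 (-τ, y)))) :=
      setLIntegral_mono' measurableSet_Icc fun τ hτ => hpt y hy τ hτ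
    have hm1 : ∀ I, Measurable fun τ : ℝ => G I (WithLp.toLp 2 (-τ, y)) := fun I =>
      (hGy I y).comp measurable_neg
    have hm2 : ∀ I, Measurable fun τ : ℝ =>
        G I (WithLp.toLp 2 (τ, y)) + G I (WithLp.toLp 2 (-τ, y)) := fun I => (hGy I y).add (hm1 I)
    have h2 := lintegral_comb (volume.restrict (Icc (1 / 2 : ℝ) 1)) (ENNReal.ofReal C1)
      (fun _ => ENNReal.ofReal (w' y)) measurable_const (IF n)
      (fun I τ => G I (WithLp.toLp 2 (τ, y)) + G I (WithLp.toLp 2 (-τ, y))) hm2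
    rw [lintegral_const, Measure.restrict_apply_univ, hvol] at h1 h2
    refine (h1.trans (le_of_eq h2)).trans ?_
    gcongr with I _
    rw [lintegral_add_left (hGy I y), two_mul]
    refine add_le_add (setLIntegral_le_lintegral _ _) ?_
    refine (setLIntegral_le_lintegral _ _).trans (le_of_eq ?_)
    exact (Measure.measurePreserving_neg (volume : Measure ℝ)).lintegral_comp (hGy I y)
  -- integration over `y`
  have hGi : ∀ I, Measurable fun y : E n => ∫⁻ l : ℝ, G I (WithLp.toLp 2 (l, y)) := by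
    intro I
    have h1 : Measurable fun p : ℝ × E n => G I (WithLp.toLp 2 p) :=
      (hGm I).comp (WithLp.volume_preserving_toLp ℝ (E n)).measurable
    exact h1.lintegral_prod_left'
  have hcw : Continuous w' := continuous_wf_inv _
  have hmw : Measurable fun y => ENNReal.ofReal (w' y) :=
    (ENNReal.continuous_ofReal.comp hcw).measurable
  have h2 : ∫⁻ y in 𝒜.A k, ENNReal.ofReal (w' y * FE (fn (𝒜.u k)) y) * ENNReal.ofReal (1 / 2) ≤
      ∫⁻ y in 𝒜.A k, ENNReal.ofReal C1 * (ENNReal.ofReal (w' y) * ENNReal.ofReal (1 / 2) +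
        ∑ I ∈ IF n, 2 * ∫⁻ l : ℝ, G I (WithLp.toLp 2 (l, y))) :=
    setLIntegral_mono' (𝒜.measurableSet_A k) fun y hy => hτ y hy
  have hmF : Measurable fun y => ENNReal.ofReal (w' y * FE (fn (𝒜.u k)) y) :=
    (ENNReal.continuous_ofReal.comp (𝒜.continuous_wFE k)).measurable
  have h2' := lintegral_comb (volume.restrict (𝒜.A k)) (ENNReal.ofReal C1)
    (fun y => ENNReal.ofReal (w' y) * ENNReal.ofReal (1 / 2)) (hmw.mul_const _) (IF n)
    (fun I y => 2 * ∫⁻ l : ℝ, G I (WithLp.toLp 2 (l, y))) (fun I => (hGi I).const_mul 2)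
  rw [lintegral_mul_const _ hmw] at h2'
  rw [lintegral_mul_const _ hmF, h2'] at h2
  have h3 : ∫⁻ y in 𝒜.A k, ENNReal.ofReal (w' y * FE (fn (𝒜.u k)) y) = ENNReal.ofReal (𝒜.ia k) :=
    𝒜.lint_wFE k
  have h4 : ∫⁻ y in 𝒜.A k, ENNReal.ofReal (w' y) = ENNReal.ofReal (𝒜.iv k) := 𝒜.lint_wf k
  rw [h3, h4] at h2
  refine h2.trans ?_
  gcongr with I _
  rw [lintegral_const_mul _ (hGi I)]
  gcongr
  calc ∫⁻ y in 𝒜.A k, ∫⁻ l : ℝ, G I (WithLp.toLp 2 (l, y))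
      ≤ ∫⁻ y : E n, ∫⁻ l : ℝ, G I (WithLp.toLp 2 (l, y)) := setLIntegral_le_lintegral _ _
    _ = ∫⁻ z, G I z := (lintegral_F _ (hGm I)).symm
    _ = _ := lintegral_indicator (𝒜.measurableSet_Dmax c₀ I 1 k) _

/-- upper bound for the contribution of the saddles -/
theorem upper (c₀ : E (n + 1)) (I : Finset (Fin (n + 1))) (hI : I.card + 2 ≤ n) (k : Fin N)
    {R ε Cε : ℝ} (hR : 0 ≤ R) (hε : 0 ≤ ε) (hCε : 0 ≤ Cε)
    (hS : ∀ (μ : Fin n → ℝ) (c : Fin (n + 1) → Fin n → ℝ)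
      (I : Finset (Fin (n + 1))) (l : ℝ),
      (∀ a b, a ≠ b → -|κ| ≤ μ a * μ b) → SI c Finset.univ = 1 → I.card + 2 ≤ n → |l| ≤ R →
      ¬ NegDef (Dm μ c I l) → ¬ Pos2 (Dm μ c I l) →
      |(Dm μ c I l).det| ≤ ε * E2 μ + Cε) :
    ∫⁻ z in 𝒜.Dsad c₀ I R k, 𝒜.Jk c₀ I k z ≤
      ENNReal.ofReal (2 * R * (ε * 2 ^ n * 𝒜.ia k + Cε * 𝒜.iv k)) := by
  set w' : E n → ℝ := fun y => (wf (fn (𝒜.u k)) y)⁻¹ with hw'
  set h : E n → ℝ := fun y => ε * 2 ^ n * (w' y * FE (fn (𝒜.u k)) y) + Cε * w' y with hh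
  have hcw : Continuous w' := continuous_wf_inv _
  have hcF : Continuous fun y => w' y * FE (fn (𝒜.u k)) y := 𝒜.continuous_wFE k
  have hhc : Continuous h := (continuous_const.mul hcF).add (continuous_const.mul hcw)
  have hh0 : ∀ y, 0 ≤ h y := fun y =>
    add_nonneg (mul_nonneg (by positivity) (𝒜.wFE_nonneg k y))
      (mul_nonneg hCε (𝒜.wf_inv_nonneg k y))
  set T : Set (F n) := {z : F n | z.snd ∈ 𝒜.A k ∧ |z.fst| ≤ R} with hT
  have hTm : MeasurableSet T := 𝒜.measurableSet_strip k R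
  have hpt : ∀ z ∈ 𝒜.Dsad c₀ I R k, 𝒜.Jk c₀ I k z ≤ ENNReal.ofReal (h z.snd) := by
    rintro z ⟨hzA, hzR, -, hzN, hzP⟩
    obtain ⟨V, μ, hpc⟩ := exists_PC (𝒜.u k) z.snd
    have hw0 : 0 ≤ w' z.snd := 𝒜.wf_inv_nonneg k z.snd
    have hdet : |(fderiv ℝ (𝒜.Gk c₀ I k) z).det| =
        w' z.snd * |(Dm μ (cf (𝒜.u k) z.snd (𝒜.bb k) V) I z.fst).det| :=
      det_Gm hpc (𝒜.bb k) (𝒜.qq c₀ k) I
    have h1 := hS μ (cf (𝒜.u k) z.snd (𝒜.bb k) V) I z.fst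
      (fun a b hab => 𝒜.pair_bound k hzA hpc a b hab) (SI_cf hpc (𝒜.bb k)) hI hzR
      (by rw [← conj_KM hpc]; exact fun hc => hzN ((hpc.negDef_iff _).mp hc))
      (by rw [← conj_KM hpc]; exact fun hc => hzP ((hpc.pos2_iff _).mp hc))
    unfold Jk
    refine ENNReal.ofReal_le_ofReal ?_
    rw [hdet]
    refine (mul_le_mul_of_nonneg_left h1 hw0).trans ?_
    have h2 := mul_le_mul_of_nonneg_left hpc.le_FE hw0
    have h3 := mul_le_mul_of_nonneg_left h2 hε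
    simp only [hh]
    linarith
  have hTs : 𝒜.Dsad c₀ I R k ⊆ T := fun z hz => ⟨hz.1, hz.2.1⟩
  calc ∫⁻ z in 𝒜.Dsad c₀ I R k, 𝒜.Jk c₀ I k z
      ≤ ∫⁻ z in 𝒜.Dsad c₀ I R k, ENNReal.ofReal (h z.snd) :=
        setLIntegral_mono' (𝒜.measurableSet_Dsad c₀ I R k) hpt
    _ ≤ ∫⁻ z in T, ENNReal.ofReal (h z.snd) := lintegral_mono_set hTs
    _ = ∫⁻ z, T.indicator (fun z => ENNReal.ofReal (h z.snd)) z :=
        (lintegral_indicator hTm _).symm
    _ = ∫⁻ y : E n, ∫⁻ l : ℝ, T.indicator (fun z => ENNReal.ofReal (h z.snd))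
          (WithLp.toLp 2 (l, y)) := by
        refine lintegral_F _ (Measurable.indicator ?_ hTm)
        exact (ENNReal.continuous_ofReal.comp (hhc.comp continuous_sndF)).measurable
    _ = ∫⁻ y : E n, (𝒜.A k).indicator (fun y => ENNReal.ofReal (2 * R * h y)) y := by
        refine lintegral_congr fun y => ?_
        by_cases hy : y ∈ 𝒜.A k
        · rw [indicator_of_mem hy]
          have h1 : ∀ l : ℝ, T.indicator (fun z => ENNReal.ofReal (h z.snd))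
              (WithLp.toLp 2 (l, y)) = (Icc (-R) R).indicator
                (fun _ => ENNReal.ofReal (h y)) l := by
            intro l
            by_cases hl : l ∈ Icc (-R) R
            · have h2 : (WithLp.toLp 2 (l, y) : F n) ∈ T := ⟨hy, abs_le.mpr hl⟩
              rw [indicator_of_mem h2, indicator_of_mem hl]
              rfl
            · have h2 : (WithLp.toLp 2 (l, y) : F n) ∉ T := fun hc => hl (abs_le.mp hc.2)
              rw [indicator_of_notMem h2, indicator_of_notMem hl]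
          rw [lintegral_congr h1, lintegral_indicator measurableSet_Icc, lintegral_const,
            Measure.restrict_apply_univ, Real.volume_Icc, ← ENNReal.ofReal_mul (hh0 y)]
          congr 1
          ring
        · rw [indicator_of_notMem hy]
          have h1 : ∀ l : ℝ, T.indicator (fun z => ENNReal.ofReal (h z.snd))
              (WithLp.toLp 2 (l, y)) = 0 := fun l => by
            have h2 : (WithLp.toLp 2 (l, y) : F n) ∉ T := fun hc => hy hc.1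
            rw [indicator_of_notMem h2]
          rw [lintegral_congr h1, lintegral_zero]
    _ = ∫⁻ y in 𝒜.A k, ENNReal.ofReal (2 * R * h y) :=
        lintegral_indicator (𝒜.measurableSet_A k) _
    _ = ENNReal.ofReal (∫ y in 𝒜.A k, 2 * R * h y) := by
        have hc2 : Continuous fun y => 2 * R * h y := continuous_const.mul hhc
        exact (ofReal_integral_eq_lintegral_ofReal (𝒜.integrable_piece k hc2)
          (ae_of_all _ fun y => mul_nonneg (by positivity) (hh0 y))).symm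
    _ = _ := by
        congr 1
        rw [integral_const_mul]
        congr 1
        have hc3 : Continuous fun y => ε * 2 ^ n * (w' y * FE (fn (𝒜.u k)) y) :=
          continuous_const.mul hcF
        have hc4 : Continuous fun y => Cε * w' y := continuous_const.mul hcw
        have h1 := integral_add (𝒜.integrable_piece k hc3) (𝒜.integrable_piece k hc4)
        rw [integral_const_mul, integral_const_mul] at h1
        exact h1

end Atl

end Pool.Agent.H422IV
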