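import Mathlib
import Pool.Agent.H422IV.CountInt

/-!
# Bounds for the intrinsic volumes of all compact hypersurfaces
-/

set_option autoImplicit false
set_option linter.unusedSectionVars false

open MeasureTheory Metric Set Filter Topology Matrix
open scoped ENNReal NNReal ContDiff

namespace Pool.Agent.H422IV

variable {n : ℕ}

/-- bound for the total curvature of order at least two in terms of the volume -/
theorem total_le (n : ℕ) (hn : 2 ≤ n) (D κ : ℝ) (hD0 : 0 ≤ D) :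
    ∃ C : ℝ, 0 ≤ C ∧ ∀ (M : Set (E (n + 1))) (N : ℕ) (𝒜 : Atl M κ N),
      (∀ x ∈ M, ∀ y ∈ M, dist x y ≤ D) → ∑ k, 𝒜.ia k ≤ C * (1 + ∑ k, 𝒜.iv k) := by
  obtain ⟨C1, hC1, hE⟩ := E2_le n hn |κ| (abs_nonneg κ)
  set R : ℝ := 2 * D + 2 with hR
  have hR1 : 1 ≤ R := by linarith
  set L : ℝ := ((IF n).card : ℝ) with hL
  have hL0 : 0 ≤ L := Nat.cast_nonneg _
  set ε : ℝ := 1 / (16 * (C1 + 1) * (L + 1) * R * 2 ^ n) with hε
  have hεp : 0 < ε := by positivity
  obtain ⟨Cε, hCε, hS⟩ := sad_bound n |κ| R ε (abs_nonneg κ) hR1 hεp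
  set b : ℝ := (volume (ball (0 : E (n + 1)) (D + 2))).toReal with hb
  have hb0 : 0 ≤ b := ENNReal.toReal_nonneg
  refine ⟨2 * C1 + 16 * C1 * L * R * Cε + 8 * C1 * L * b, by positivity, ?_⟩
  intro M N 𝒜 hD
  obtain ⟨c₀, hc₀⟩ := 𝒜.hc.nonempty
  set a : ℝ := ∑ k, 𝒜.ia k with ha
  set v : ℝ := ∑ k, 𝒜.iv k with hv
  have ha0 : 0 ≤ a := Finset.sum_nonneg fun k _ => 𝒜.ia_nonneg k
  have hv0 : 0 ≤ v := Finset.sum_nonneg fun k _ => 𝒜.iv_nonneg k
  set T : ℝ := b + 2 * R * (ε * 2 ^ n * a + Cε * v) with hT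
  have hT0 : 0 ≤ T := by positivity
  -- the maxima
  have hmax : ∀ I ∈ IF n, ∑ k, ∫⁻ z in 𝒜.Dmax c₀ I 1 k, 𝒜.Jk c₀ I k z ≤ ENNReal.ofReal T := by
    intro I hI
    have hI2 : I.card + 2 ≤ n := by
      rw [IF, Finset.mem_filter] at hI
      exact hI.2
    have h1 := 𝒜.int_count c₀ I D hD0 (fun x hx => by
      rw [← dist_eq_norm]
      exact hD x hx c₀ hc₀)
    have hav : 0 ≤ 2 * R * (ε * 2 ^ n * a + Cε * v) := by positivity
    have hk : ∀ k, 0 ≤ 2 * R * (ε * 2 ^ n * 𝒜.ia k + Cε * 𝒜.iv k) := by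
      intro k
      have h3 := 𝒜.ia_nonneg k
      have h4 := 𝒜.iv_nonneg k
      positivity
    have hbv : volume (ball (0 : E (n + 1)) (D + 2)) = ENNReal.ofReal b := by
      rw [hb, ENNReal.ofReal_toReal measure_ball_lt_top.ne]
    refine h1.trans ?_
    rw [hbv, hT, ENNReal.ofReal_add hb0 hav]
    gcongr
    have h2 : ∀ k, ∫⁻ z in 𝒜.Dsad c₀ I R k, 𝒜.Jk c₀ I k z ≤
        ENNReal.ofReal (2 * R * (ε * 2 ^ n * 𝒜.ia k + Cε * 𝒜.iv k)) := fun k =>
      𝒜.upper c₀ I hI2 k (by linarith) hεp.le hCε hS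
    refine (Finset.sum_le_sum fun k _ => h2 k).trans (le_of_eq ?_)
    rw [← ENNReal.ofReal_sum_of_nonneg]
    · congr 1
      rw [ha, hv, Finset.mul_sum, Finset.mul_sum, ← Finset.sum_add_distrib, Finset.mul_sum]
    · exact fun k _ => hk k
  -- the lower bound
  have ha1 : ∀ k, 0 ≤ 𝒜.ia k * (1 / 2) := fun k => by
    have := 𝒜.ia_nonneg k
    positivity
  have hv1 : ∀ k, 0 ≤ 𝒜.iv k * (1 / 2) := fun k => by
    have := 𝒜.iv_nonneg k
    positivity
  have hv2 : 0 ≤ v * (1 / 2) := by positivity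
  have hT2 : 0 ≤ L * (2 * T) := by positivity
  have hv3 : 0 ≤ C1 * (v * (1 / 2) + L * (2 * T)) := by positivity
  have hlow : ENNReal.ofReal (a * (1 / 2)) ≤
      ENNReal.ofReal (C1 * (v * (1 / 2) + L * (2 * T))) := by
    have h1 : ENNReal.ofReal (a * (1 / 2)) =
        ∑ k, ENNReal.ofReal (𝒜.ia k) * ENNReal.ofReal (1 / 2) := by
      rw [ha, Finset.sum_mul, ENNReal.ofReal_sum_of_nonneg]
      · exact Finset.sum_congr rfl fun k _ => ENNReal.ofReal_mul (𝒜.ia_nonneg k)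
      · exact fun k _ => ha1 k
    have h2 : ENNReal.ofReal (v * (1 / 2)) =
        ∑ k, ENNReal.ofReal (𝒜.iv k) * ENNReal.ofReal (1 / 2) := by
      rw [hv, Finset.sum_mul, ENNReal.ofReal_sum_of_nonneg]
      · exact Finset.sum_congr rfl fun k _ => ENNReal.ofReal_mul (𝒜.iv_nonneg k)
      · exact fun k _ => hv1 k
    rw [h1, ENNReal.ofReal_mul hC1, ENNReal.ofReal_add hv2 hT2, h2]
    calc ∑ k, ENNReal.ofReal (𝒜.ia k) * ENNReal.ofReal (1 / 2)
        ≤ ∑ k, ENNReal.ofReal C1 * (ENNReal.ofReal (𝒜.iv k) * ENNReal.ofReal (1 / 2) +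
            ∑ I ∈ IF n, 2 * ∫⁻ z in 𝒜.Dmax c₀ I 1 k, 𝒜.Jk c₀ I k z) :=
          Finset.sum_le_sum fun k _ => 𝒜.lower c₀ k hC1 hE
      _ = ENNReal.ofReal C1 * (∑ k, ENNReal.ofReal (𝒜.iv k) * ENNReal.ofReal (1 / 2) +
            ∑ I ∈ IF n, 2 * ∑ k, ∫⁻ z in 𝒜.Dmax c₀ I 1 k, 𝒜.Jk c₀ I k z) := by
          rw [← Finset.mul_sum, Finset.sum_add_distrib, Finset.sum_comm]
          simp only [Finset.mul_sum]
      _ ≤ _ := by
          gcongr
          have h3 : ∑ I ∈ IF n, 2 * ∑ k, ∫⁻ z in 𝒜.Dmax c₀ I 1 k, 𝒜.Jk c₀ I k z ≤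
              ∑ _I ∈ IF n, 2 * ENNReal.ofReal T :=
            Finset.sum_le_sum fun I hI => mul_le_mul_right (hmax I hI) 2
          refine h3.trans (le_of_eq ?_)
          rw [Finset.sum_const, nsmul_eq_mul, ENNReal.ofReal_mul hL0,
            ENNReal.ofReal_mul (by norm_num : (0 : ℝ) ≤ 2), hL, ENNReal.ofReal_natCast,
            ENNReal.ofReal_ofNat]
  have hreal : a * (1 / 2) ≤ C1 * (v * (1 / 2) + L * (2 * T)) :=
    (ENNReal.ofReal_le_ofReal_iff hv3).mp hlow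
  clear hlow
  -- absorption
  have habs : 4 * C1 * L * R * (ε * 2 ^ n) ≤ 1 / 4 := by
    have h1 : 4 * C1 * L * R * (ε * 2 ^ n) = (C1 / (C1 + 1)) * (L / (L + 1)) / 4 := by
      rw [hε]
      have hRne : R ≠ 0 := by positivity
      have h2ne : (2 : ℝ) ^ n ≠ 0 := by positivity
      have hCne : C1 + 1 ≠ 0 := by positivity
      have hLne : L + 1 ≠ 0 := by positivity
      field_simp
      ring
    rw [h1]
    have h2 : C1 / (C1 + 1) ≤ 1 := by
      rw [div_le_one (by positivity)]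
      linarith
    have h3 : L / (L + 1) ≤ 1 := by
      rw [div_le_one (by positivity)]
      linarith
    have h4 : 0 ≤ L / (L + 1) := by positivity
    have h5 : (C1 / (C1 + 1)) * (L / (L + 1)) ≤ 1 * 1 := mul_le_mul h2 h3 h4 zero_le_one
    linarith
  have h6 : C1 * (v * (1 / 2) + L * (2 * T)) = C1 * v / 2 + 2 * C1 * L * b +
      (4 * C1 * L * R * (ε * 2 ^ n)) * a + 4 * C1 * L * R * Cε * v := by
    rw [hT]
    ring
  rw [h6] at hreal
  have h7 : (4 * C1 * L * R * (ε * 2 ^ n)) * a ≤ 1 / 4 * a := mul_le_mul_of_nonneg_right habs ha0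
  have h8 : a ≤ (2 * C1 + 16 * C1 * L * R * Cε) * v + 8 * C1 * L * b := by
    nlinarith [hreal, h7]
  have h9 : 0 ≤ 2 * C1 + 16 * C1 * L * R * Cε := by positivity
  have h10 : 0 ≤ 8 * C1 * L * b := by positivity
  have h11 : 0 ≤ 8 * C1 * L * b * v := by positivity
  nlinarith [h8, h9, h10, h11]

/-- **Theorem.** Bounds for the intrinsic volumes of compact hypersurfaces. -/
theorem hypersurface_bound (n : ℕ) (hn : 2 ≤ n) (D κ : ℝ) :
    ∃ C : ℝ, ∀ M : Set (E (n + 1)), ClosedHypersurface κ M →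
      (∀ x ∈ M, ∀ y ∈ M, dist x y ≤ D) →
      (∃ V : ℕ → ℝ, TubeFormula M V) ∧
      ∀ V : ℕ → ℝ, TubeFormula M V → ∀ i ≤ n, |V i| ≤ C * (1 + V n) := by
  classical
  rcases lt_or_ge D 0 with hD | hD0
  · refine ⟨0, fun M hM hdiam => ?_⟩
    obtain ⟨x, hx⟩ := hM.connected.nonempty
    have h1 := hdiam x hx x hx
    rw [dist_self] at h1
    exact absurd h1 (not_le.mpr hD)
  obtain ⟨Ct, hCt, htot⟩ := total_le n hn D κ hD0
  have hom : ∀ m : ℕ, 0 < ((m : ℝ) + 1) * omega (m + 1) := fun m =>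
    mul_pos (by positivity) (omega_pos _)
  have hq : ∀ m : ℕ, 0 ≤ 2 / (((m : ℝ) + 1) * omega (m + 1)) := fun m =>
    div_nonneg (by norm_num) (hom m).le
  set W : ℝ := ∑ m ∈ Finset.range (n + 1), 2 / (((m : ℝ) + 1) * omega (m + 1)) with hW
  have hW0 : 0 ≤ W := Finset.sum_nonneg fun m _ => hq m
  set s : ℝ := omega 1 / 2 with hs
  have hs0 : 0 < s := by
    have := omega_pos 1
    positivity
  set C₀ : ℝ := 1 + W * (2 ^ n * Ct) * (1 + s) with hC₀
  have hC₀0 : 0 ≤ C₀ := by positivity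
  refine ⟨C₀, fun M hM hdiam => ?_⟩
  suffices hsuff : ∃ V : ℕ → ℝ, TubeFormula M V ∧ ∀ i ≤ n, |V i| ≤ C₀ * (1 + V n) by
    obtain ⟨V, hV, hVC⟩ := hsuff
    refine ⟨⟨V, hV⟩, fun V' hV' i hi => ?_⟩
    rw [hV'.unique hV i hi, hV'.unique hV n le_rfl]
    exact hVC i hi
  obtain ⟨N, ⟨𝒜⟩⟩ := exists_atl hM
  obtain ⟨ε₁, hε₁, hvol⟩ := 𝒜.tube
  have htot' := htot M N 𝒜 hdiam
  set v : ℝ := ∑ k, 𝒜.iv k with hv
  have hv0 : 0 ≤ v := Finset.sum_nonneg fun k _ => 𝒜.iv_nonneg k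
  set a : ℕ → ℝ := fun m => ∑ i, ∫ y in 𝒜.A i,
    (wf (fn (𝒜.u i)) y)⁻¹ * sig (Jm (fn (𝒜.u i)) y) m with ha
  have ha0 : a 0 = v := by
    rw [ha, hv]
    refine Finset.sum_congr rfl fun i _ => ?_
    unfold Atl.iv
    refine integral_congr_ae (ae_of_all _ fun y => ?_)
    simp only
    rw [sig_zero, mul_one]
  have habound : ∀ m, 2 ≤ m → m ≤ n → |a m| ≤ 2 ^ n * Ct * (1 + v) := by
    intro m hm hmn
    have h1 : ∀ i, |∫ y in 𝒜.A i, (wf (fn (𝒜.u i)) y)⁻¹ * sig (Jm (fn (𝒜.u i)) y) m| ≤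
        2 ^ n * 𝒜.ia i := by
      intro i
      rw [Atl.ia, ← integral_const_mul]
      have hc1 : Continuous fun y => (wf (fn (𝒜.u i)) y)⁻¹ * sig (Jm (fn (𝒜.u i)) y) m :=
        (continuous_wf_inv _).mul (continuous_sigJ _ _)
      have hc2 : Continuous fun y => 2 ^ n * ((wf (fn (𝒜.u i)) y)⁻¹ * FE (fn (𝒜.u i)) y) :=
        continuous_const.mul (𝒜.continuous_wFE i)
      refine (abs_integral_le_integral_abs).trans ?_
      refine integral_mono (𝒜.integrable_piece i hc1.abs) (𝒜.integrable_piece i hc2) fun y => ?_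
      simp only
      rw [abs_mul, abs_of_nonneg (𝒜.wf_inv_nonneg i y)]
      have h2 := mul_le_mul_of_nonneg_left (sig_le_FE (𝒜.u i) y hm hmn) (𝒜.wf_inv_nonneg i y)
      refine h2.trans (le_of_eq ?_)
      ring
    calc |a m| ≤ ∑ i, |∫ y in 𝒜.A i, (wf (fn (𝒜.u i)) y)⁻¹ * sig (Jm (fn (𝒜.u i)) y) m| :=
          Finset.abs_sum_le_sum_abs _ _
      _ ≤ ∑ i, 2 ^ n * 𝒜.ia i := Finset.sum_le_sum fun i _ => h1 i
      _ = 2 ^ n * ∑ i, 𝒜.ia i := (Finset.mul_sum _ _ _).symm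
      _ ≤ 2 ^ n * (Ct * (1 + v)) := mul_le_mul_of_nonneg_left htot' (by positivity)
      _ = _ := by ring
  set V : ℕ → ℝ := fun i => if Even (n - i) then
    2 / ((((n - i : ℕ) : ℝ) + 1) * omega (n - i + 1)) * a (n - i) else 0 with hV
  have hVn : V n = v / s := by
    rw [hV]
    simp only
    rw [Nat.sub_self, if_pos (by decide : Even 0), ha0, hs]
    have := (omega_pos 1).ne'
    push_cast
    field_simp
    ring
  have hVn0 : 0 ≤ V n := by
    rw [hVn]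
    positivity
  refine ⟨V, ⟨ε₁, hε₁, fun ε hε hεε₁ => ?_⟩, fun i hi => ?_⟩
  · rw [hvol ε hε hεε₁, Finset.sum_comm]
    have h1 : ∀ m, ∑ i, cm m ε * ∫ y in 𝒜.A i, (wf (fn (𝒜.u i)) y)⁻¹ *
        sig (Jm (fn (𝒜.u i)) y) m = cm m ε * a m := fun m => (Finset.mul_sum _ _ _).symm
    simp only [h1]
    rw [← Finset.sum_range_reflect]
    refine Finset.sum_congr rfl fun i hi => ?_
    rw [Finset.mem_range] at hi
    have h2 : n + 1 - 1 - i = n - i := by omega
    have h3 : n + 1 - i = n - i + 1 := by omega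
    rw [h2, h3, cm_eq _ _ hε, hV]
    simp only
    have hne := (omega_pos (n - i + 1)).ne'
    split_ifs
    · have h4 : (((n - i : ℕ) : ℝ) + 1) ≠ 0 := by positivity
      field_simp
    · ring
  · rcases eq_or_lt_of_le hi with rfl | hlt
    · rw [abs_of_nonneg hVn0]
      have h1 : 1 ≤ C₀ := by
        rw [hC₀]
        have : 0 ≤ W * (2 ^ i * Ct) * (1 + s) := by positivity
        linarith
      nlinarith
    · by_cases hev : Even (n - i)
      · have h2 : 2 ≤ n - i := by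
          obtain ⟨r, hr⟩ := hev
          omega
        have h3 := habound (n - i) h2 (by omega)
        have h4 : V i = 2 / ((((n - i : ℕ) : ℝ) + 1) * omega (n - i + 1)) * a (n - i) := by
          rw [hV]
          simp only
          rw [if_pos hev]
        have h5 : 2 / ((((n - i : ℕ) : ℝ) + 1) * omega (n - i + 1)) ≤ W :=
          Finset.single_le_sum (f := fun m : ℕ => 2 / (((m : ℝ) + 1) * omega (m + 1)))
            (fun m _ => hq m) (Finset.mem_range.mpr (by omega : n - i < n + 1))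
        rw [h4, abs_mul, abs_of_nonneg (hq _)]
        have hvs : v = s * V n := by
          rw [hVn]
          field_simp
        calc _ ≤ W * (2 ^ n * Ct * (1 + v)) := mul_le_mul h5 h3 (abs_nonneg _) hW0
          _ = W * (2 ^ n * Ct) * (1 + s * V n) := by rw [hvs]; ring
          _ ≤ W * (2 ^ n * Ct) * ((1 + s) * (1 + V n)) := by
              refine mul_le_mul_of_nonneg_left ?_ (by positivity)
              nlinarith
          _ ≤ C₀ * (1 + V n) := by
              rw [hC₀]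
              have : 0 ≤ W * (2 ^ n * Ct) := by positivity
              nlinarith
      · have h4 : V i = 0 := by
          rw [hV]
          simp only
          rw [if_neg hev]
        rw [h4, abs_zero]
        positivity

end Pool.Agent.H422IV
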